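import Pool.Agent.F2.N.Spec

/-!
# Project F2, block N, row N0: consequences of `Loc`
-/

set_option autoImplicit false
set_option linter.unusedSectionVars false

namespace F2

open Finset

section General

variable {τ : Type} [DecidableEq τ]

/-- a sum over hyperedges `T` outside `M`, bounded by a sum over sets `U` such that `T` is the only
member of `π U` outside `M` -/
theorem sum_choice {A M : Finset τ} {F : Finset (Finset τ)} (π : Finset τ → Finset τ)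
    (f : τ → ℝ) (g : Finset τ → ℝ) (hg : ∀ U ∈ F, 0 ≤ g U)
    (h : ∀ T ∈ A, ∃ U ∈ F, T ∈ π U ∧ T ∉ M ∧ (π U).erase T ⊆ M ∧ f T ≤ g U) :
    ∑ T ∈ A, f T ≤ ∑ U ∈ F, g U := by
  classical
  have h' : ∀ T : τ, ∃ U : Finset τ, T ∈ A → U ∈ F ∧ T ∈ π U ∧ T ∉ M ∧ (π U).erase T ⊆ M ∧
      f T ≤ g U := by
    intro T
    by_cases hT : T ∈ A
    · obtain ⟨U, hU, h2⟩ := h T hT
      exact ⟨U, fun _ => ⟨hU, h2⟩⟩
    · exact ⟨∅, fun h3 => absurd h3 hT⟩
  choose u hu using h'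
  have hinj : Set.InjOn u A := by
    intro T hT T' hT' heq
    by_contra hne
    have h1 := hu T hT
    have h2 := hu T' hT'
    rw [← heq] at h2
    exact h2.2.2.1 (h1.2.2.2.1 (Finset.mem_erase.2 ⟨Ne.symm hne, h2.2.1⟩))
  calc ∑ T ∈ A, f T ≤ ∑ T ∈ A, g (u T) := Finset.sum_le_sum fun T hT => (hu T hT).2.2.2.2
    _ = ∑ U ∈ A.image u, g U := (Finset.sum_image hinj).symm
    _ ≤ ∑ U ∈ F, g U := by
        refine Finset.sum_le_sum_of_subset_of_nonneg ?_ fun U hU _ => hg U hU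
        intro U hU
        obtain ⟨T, hT, rfl⟩ := Finset.mem_image.1 hU
        exact (hu T hT).1

/-- a product in which all factors but one are `1` -/
theorem prod_one_out {P M : Finset τ} {y : τ → ℝ} {T : τ} (hT : T ∈ P) (hP : P.erase T ⊆ M)
    (hM : ∀ T ∈ M, y T = 1) : ∏ T' ∈ P, y T' = y T := by
  rw [← Finset.mul_prod_erase P y hT,
    Finset.prod_eq_one (fun T' hT' => hM T' (hP hT')), mul_one]

end General

section Base

variable {ι τ : Type} [Fintype ι] [Fintype τ] [DecidableEq ι] [DecidableEq τ] {S : Sy ι τ}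
  {J : ℕ} {K C₁ ν p β r : ℝ} {E0 : Finset ι} {M : Finset τ} {X x : τ → ℝ}

theorem Sy.Loc.X_R (L : S.Loc J K C₁ ν p β r E0 M X x) {T : τ} (h : X T ≠ 0) : T ∈ S.R :=
  (L.inv.X_ne T h).1

theorem Sy.Loc.X_al (L : S.Loc J K C₁ ν p β r E0 M X x) {T : τ} (h : X T ≠ 0) :
    S.ed T ⊆ S.al E0 M := (L.inv.X_ne T h).2.1

theorem al_insert (Ts : τ) : S.al E0 (insert Ts M) = S.al E0 M \ S.ed Ts := by
  ext e
  simp only [Sy.al, Finset.biUnion_insert, Finset.mem_sdiff, Finset.mem_union]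
  tauto

theorem not_mem_al {T : τ} {e : ι} (hT : T ∈ M) (he : e ∈ S.ed T) : e ∉ S.al E0 M := by
  intro h
  exact (Finset.mem_sdiff.1 h).2 (Finset.mem_biUnion.2 ⟨T, hT, he⟩)

theorem Sy.Loc.X_notM (L : S.Loc J K C₁ ν p β r E0 M X x) {T : τ} (h : X T ≠ 0) : T ∉ M := by
  intro hT
  have h3 := L.good.card3 T (L.X_R h)
  obtain ⟨e, he⟩ : (S.ed T).Nonempty := by
    rw [← Finset.card_pos, h3]
    norm_num
  exact not_mem_al hT he (L.X_al h he)

theorem Sy.Loc.sum_we (L : S.Loc J K C₁ ν p β r E0 M X x) :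
    ∑ e ∈ S.al E0 M, S.we X e = 3 * S.ww X := by
  unfold Sy.we Sy.ww
  simp only [Finset.sum_filter]
  rw [Finset.sum_comm, Finset.mul_sum]
  refine Finset.sum_congr rfl fun T hT => ?_
  rw [← Finset.sum_filter, Finset.sum_const, nsmul_eq_mul]
  by_cases h : X T = 0
  · rw [h, mul_zero, mul_zero]
  · have h1 : (S.al E0 M).filter (fun e => e ∈ S.ed T) = S.ed T := by
      ext e
      rw [Finset.mem_filter]
      exact ⟨fun h2 => h2.2, fun h2 => ⟨L.X_al h h2, h2⟩⟩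
    rw [h1, L.good.card3 T hT]
    norm_num

theorem Sy.Loc.we_zero (L : S.Loc J K C₁ ν p β r E0 M X x) {e : ι} (he : e ∉ S.al E0 M) :
    S.we X e = 0 := by
  refine Finset.sum_eq_zero fun T hT => ?_
  by_contra h
  exact he (L.X_al h (Finset.mem_filter.1 hT).2)

theorem Sy.Loc.we_bd (L : S.Loc J K C₁ ν p β r E0 M X x) (e : ι) : S.we X e ≤ 11 / 10 := by
  by_cases he : e ∈ S.al E0 M
  · have h1 := (abs_le.1 (L.we_le e he)).2
    have h2 := L.β_le
    linarith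
  · rw [L.we_zero he]
    norm_num

theorem Sy.Loc.yh_M (L : S.Loc J K C₁ ν p β r E0 M X x) {T : τ} (hT : T ∈ M) :
    S.yh ν p E0 M X T = 1 := by
  unfold Sy.yh
  rw [if_pos (L.inv.M_sub hT), if_pos hT]

theorem yh_R {T : τ} (hT : T ∈ S.R) (hM : T ∉ M) :
    S.yh ν p E0 M X T = (1 + 1 / p) * X T := by
  unfold Sy.yh
  rw [if_pos hT, if_neg hM]

theorem yh_V {T : τ} (hT : T ∉ S.R) :
    S.yh ν p E0 M X T = if T ∈ S.Vt ∧ S.ed T ⊆ S.al E0 M then ν / p else 0 := by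
  unfold Sy.yh
  rw [if_neg hT]

theorem Sy.Loc.yh_nonneg (L : S.Loc J K C₁ ν p β r E0 M X x) (T : τ) :
    0 ≤ S.yh ν p E0 M X T := by
  have h1 := L.p_pos
  have h2 := L.ν_pos
  have h3 := L.inv.X_nonneg T
  unfold Sy.yh
  split_ifs <;> positivity

theorem Sy.Loc.yh_le (L : S.Loc J K C₁ ν p β r E0 M X x) {T : τ} (hT : T ∉ M) :
    S.yh ν p E0 M X T ≤ r := by
  have h2 := L.r_pos
  unfold Sy.yh
  split_ifs
  · exact L.X_le T
  · exact L.ν_le
  · exact h2.le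

theorem Sy.Loc.yh_le_one (L : S.Loc J K C₁ ν p β r E0 M X x) (T : τ) :
    S.yh ν p E0 M X T ≤ 1 := by
  by_cases hT : T ∈ M
  · exact (L.yh_M hT).le
  · have := L.yh_le hT
    have := L.r_le
    linarith

theorem Sy.Loc.X_le_yh (L : S.Loc J K C₁ ν p β r E0 M X x) {T : τ} (hT : T ∈ S.R) :
    X T ≤ S.yh ν p E0 M X T := by
  by_cases h : X T = 0
  · rw [h]
    exact L.yh_nonneg T
  · rw [yh_R hT (L.X_notM h)]
    have h1 := L.p_pos
    have h3 := L.inv.X_nonneg T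
    have : 0 ≤ 1 / p * X T := by positivity
    nlinarith

theorem Sy.Loc.th_yh (L : S.Loc J K C₁ ν p β r E0 M X x) {T : τ} (hT : T ∈ S.R ∪ S.Vt)
    (hM : T ∉ M) : ∑ T' ∈ S.th M T, S.yh ν p E0 M X T' ≤ K := by
  refine le_trans ?_ (L.hY T hT hM)
  unfold Sy.YY
  refine sum_choice (M := M) (fun U => U.erase T) _ _
    (fun U _ => Finset.prod_nonneg fun T' _ => L.yh_nonneg T') ?_
  intro T' hT'
  obtain ⟨hR, hne, hM', U, hU, h1, h2, h3⟩ := Finset.mem_filter.1 hT'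
  have h4 : T' ∈ U.erase T := Finset.mem_erase.2 ⟨hne, h2⟩
  refine ⟨U, Finset.mem_filter.2 ⟨hU, h1, ?_, fun h5 => hM' (h5 h4)⟩, h4, hM', h3, ?_⟩
  · intro T'' hT''
    by_cases h6 : T'' = T'
    · rw [h6]
      exact hR
    · exact L.inv.M_sub (h3 (Finset.mem_erase.2 ⟨h6, hT''⟩))
  · rw [prod_one_out h4 h3 fun T hT => L.yh_M hT]

theorem Sy.Loc.th_le (L : S.Loc J K C₁ ν p β r E0 M X x) {T : τ} (hT : T ∈ S.R ∪ S.Vt)
    (hM : T ∉ M) : ∑ T' ∈ S.th M T, X T' ≤ p * K := by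
  have h1 := L.p_pos
  refine le_trans ?_ (mul_le_mul_of_nonneg_left (L.th_yh hT hM) h1.le)
  rw [Finset.mul_sum]
  refine Finset.sum_le_sum fun T' hT' => ?_
  obtain ⟨hR, hne, hM', -⟩ := Finset.mem_filter.1 hT'
  rw [yh_R hR hM']
  have h3 := L.inv.X_nonneg T'
  have : p * ((1 + 1 / p) * X T') = X T' + p * X T' := by
    field_simp
    ring
  rw [this]
  have : 0 ≤ p * X T' := by positivity
  linarith

theorem Sy.Good.card_le (h : S.Good J) {T : τ} (hT : T ∈ S.R ∪ S.Vt) : (S.ed T).card ≤ 3 := by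
  rcases Finset.mem_union.1 hT with h1 | h1
  · rw [h.card3 T h1]
  · rw [h.card1 T h1]
    norm_num

theorem Sy.Loc.me_le (L : S.Loc J K C₁ ν p β r E0 M X x) {T : τ} (hT : T ∈ S.R ∪ S.Vt) :
    ∑ T' ∈ S.me T, X T' ≤ 33 / 10 := by
  have h0 : ∀ T, 0 ≤ X T := L.inv.X_nonneg
  have h1 : ∑ T' ∈ S.me T, X T' ≤ ∑ e ∈ S.ed T, S.we X e := by
    unfold Sy.we
    simp only [Finset.sum_filter]
    rw [Finset.sum_comm]
    unfold Sy.me
    rw [Finset.sum_filter]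
    refine Finset.sum_le_sum fun T' hT' => ?_
    by_cases h2 : ¬ Disjoint (S.ed T') (S.ed T)
    · rw [if_pos h2]
      obtain ⟨e, he1, he2⟩ := Finset.not_disjoint_iff.1 h2
      have h3 : (if e ∈ S.ed T' then X T' else 0) ≤
          ∑ e ∈ S.ed T, if e ∈ S.ed T' then X T' else 0 :=
        Finset.single_le_sum (f := fun e => if e ∈ S.ed T' then X T' else 0)
          (fun e _ => by split_ifs; exacts [h0 T', le_rfl]) he2
      rwa [if_pos he1] at h3
    · rw [if_neg h2]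
      exact Finset.sum_nonneg fun e _ => by split_ifs; exacts [h0 T', le_rfl]
  have h2 : ∑ e ∈ S.ed T, S.we X e ≤ ∑ _e ∈ S.ed T, (11 / 10 : ℝ) :=
    Finset.sum_le_sum fun e _ => L.we_bd e
  rw [Finset.sum_const, nsmul_eq_mul] at h2
  have h3 : ((S.ed T).card : ℝ) ≤ 3 := by exact_mod_cast L.good.card_le hT
  linarith

theorem Sy.Loc.kk_le (L : S.Loc J K C₁ ν p β r E0 M X x) (hK : 1 ≤ K) {T : τ}
    (hT : T ∈ S.R ∪ S.Vt) (hM : T ∉ M) : ∑ T' ∈ S.kk M T, X T' ≤ 33 / 10 + p * K := by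
  have h0 : ∀ T, 0 ≤ X T := L.inv.X_nonneg
  have h1 := L.me_le hT
  have h2 := L.th_le hT hM
  unfold Sy.kk
  split_ifs
  · have h3 : ∑ T' ∈ S.me T ∪ S.th M T, X T' ≤ ∑ T' ∈ S.me T, X T' + ∑ T' ∈ S.th M T, X T' := by
      rw [← Finset.sum_union_inter]
      have : 0 ≤ ∑ T' ∈ S.me T ∩ S.th M T, X T' := Finset.sum_nonneg fun T _ => h0 T
      linarith
    linarith
  · have := L.p_pos
    have : 0 ≤ p * K := by positivity
    linarith

/-! ## The new densities -/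

/-- numerical facts -/
structure Num (K c W : ℝ) : Prop where
  hK : 1 ≤ K
  hc : 1000 * (K + 1) ≤ c
  hW : 0 < W
  big : 10 * c ≤ W

theorem Num.c_pos {K c W : ℝ} (h : Num K c W) : 0 < c := by
  have := h.hK
  have := h.hc
  linarith

theorem Sy.Loc.al_pos (L : S.Loc J K C₁ ν p β r E0 M X x) (hW : 0 < S.ww X) :
    0 < ((S.al E0 M).card : ℝ) := by
  have h1 := L.sum_we
  have h2 : ∑ e ∈ S.al E0 M, S.we X e ≤ ∑ _e ∈ S.al E0 M, (11 / 10 : ℝ) :=
    Finset.sum_le_sum fun e _ => L.we_bd e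
  rw [Finset.sum_const, nsmul_eq_mul] at h2
  nlinarith

theorem Sy.Loc.al_hi (L : S.Loc J K C₁ ν p β r E0 M X x) (hW : 0 < S.ww X) :
    3 / ((S.al E0 M).card : ℝ) ≤ (1 + β) / S.ww X := by
  have h0 := L.al_pos hW
  have h1 := L.sum_we
  have h2 : ∑ e ∈ S.al E0 M, S.we X e ≤ ∑ _e ∈ S.al E0 M, (1 + β) :=
    Finset.sum_le_sum fun e he => by linarith [(abs_le.1 (L.we_le e he)).2]
  rw [Finset.sum_const, nsmul_eq_mul] at h2
  rw [div_le_div_iff₀ h0 hW]
  linarith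

theorem Sy.Loc.al_lo (L : S.Loc J K C₁ ν p β r E0 M X x) (hW : 0 < S.ww X) :
    (1 - β) / S.ww X ≤ 3 / ((S.al E0 M).card : ℝ) := by
  have h0 := L.al_pos hW
  have h1 := L.sum_we
  have h2 : ∑ _e ∈ S.al E0 M, (1 - β) ≤ ∑ e ∈ S.al E0 M, S.we X e :=
    Finset.sum_le_sum fun e he => by linarith [(abs_le.1 (L.we_le e he)).1]
  rw [Finset.sum_const, nsmul_eq_mul] at h2
  rw [div_le_div_iff₀ hW h0]
  linarith

theorem Sy.Loc.pn_eq (L : S.Loc J K C₁ ν p β r E0 M X x) (hW : 0 < S.ww X) :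
    pn E0 p = p * (1 - 3 / ((S.al E0 M).card : ℝ)) := by
  have h0 := L.al_pos hW
  have h1 := L.inv.al_card
  have h2 := L.p_pos
  have h3 : 0 < (E0.card : ℝ) := by
    rw [h1] at h0
    exact (mul_pos_iff_of_pos_left h2).1 h0
  unfold pn
  rw [h1]
  field_simp

theorem Sy.Loc.u_le (L : S.Loc J K C₁ ν p β r E0 M X x) {c : ℝ} (N : Num K c (S.ww X)) :
    3 / ((S.al E0 M).card : ℝ) ≤ 2 / S.ww X := by
  refine (L.al_hi N.hW).trans ?_
  have := L.β_le
  have := N.hW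
  gcongr
  linarith

theorem Num.small {K c W : ℝ} (h : Num K c W) : 1 / W ≤ 1 / 10000 := by
  have h1 := h.c_pos
  have := h.big
  have := h.hc
  have := h.hK
  apply one_div_le_one_div_of_le (by norm_num)
  linarith

theorem Sy.Loc.pn_pos (L : S.Loc J K C₁ ν p β r E0 M X x) {c : ℝ} (N : Num K c (S.ww X)) :
    0 < pn E0 p := by
  rw [L.pn_eq N.hW]
  have h1 := L.u_le N
  have h2 := N.small
  have h3 : 2 / S.ww X = 2 * (1 / S.ww X) := by ring
  have := L.p_pos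
  have h4 : 0 < 1 - 3 / ((S.al E0 M).card : ℝ) := by linarith
  positivity

theorem Sy.Loc.pn_le (L : S.Loc J K C₁ ν p β r E0 M X x) (hW : 0 < S.ww X) :
    pn E0 p ≤ p := by
  rw [L.pn_eq hW]
  have := L.p_pos
  have h0 := L.al_pos hW
  have : 0 ≤ 3 / ((S.al E0 M).card : ℝ) := by positivity
  nlinarith

/-- `(1 + 1/p) ≤ 1 + 1/p' ≤ (1 + 1/p) (1 + 4/W)` -/
theorem Sy.Loc.pn_ratio (L : S.Loc J K C₁ ν p β r E0 M X x) {c : ℝ} (N : Num K c (S.ww X)) :
    p / pn E0 p ≤ 1 + 4 / S.ww X ∧ 1 ≤ p / pn E0 p ∧ 1 + 1 / p ≤ 1 + 1 / pn E0 p ∧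
      1 + 1 / pn E0 p ≤ (1 + 1 / p) * (1 + 4 / S.ww X) := by
  have h0 := L.pn_pos N
  have h1 := L.u_le N
  have h2 := N.small
  have h3 : 2 / S.ww X = 2 * (1 / S.ww X) := by ring
  have h4 : 4 / S.ww X = 4 * (1 / S.ww X) := by ring
  have hW := N.hW
  have hp := L.p_pos
  have h5 : 0 < 1 / S.ww X := by positivity
  have e1 : p / pn E0 p ≤ 1 + 4 / S.ww X := by
    rw [div_le_iff₀ h0, L.pn_eq N.hW]
    set u := 3 / ((S.al E0 M).card : ℝ)
    have h6 : 1 ≤ (1 + 4 / S.ww X) * (1 - u) := by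
      rw [h4]
      nlinarith
    nlinarith
  have e2 : 1 ≤ p / pn E0 p := by
    rw [le_div_iff₀ h0, one_mul]
    exact L.pn_le N.hW
  have e3 : 1 / p ≤ 1 / pn E0 p := one_div_le_one_div_of_le h0 (L.pn_le N.hW)
  refine ⟨e1, e2, by linarith, ?_⟩
  have e4 : 1 / pn E0 p = 1 / p * (p / pn E0 p) := by
    field_simp
  rw [e4]
  have h6 : 0 < 1 / p := by positivity
  have h7 : 0 ≤ 4 / S.ww X := by positivity
  have h8 : 1 / p * (p / pn E0 p) ≤ 1 / p * (1 + 4 / S.ww X) := by gcongr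
  nlinarith

theorem Sy.Loc.q_le (L : S.Loc J K C₁ ν p β r E0 M X x) {c : ℝ} (N : Num K c (S.ww X)) {T : τ}
    (hT : T ∈ S.R ∪ S.Vt) (hM : T ∉ M) : S.qq X (S.kk M T) ≤ (4 + K) / S.ww X := by
  have h1 := L.kk_le N.hK hT hM
  have h2 := L.p_le
  have h3 := N.hK
  have h4 := N.hW
  unfold Sy.qq
  gcongr
  nlinarith

theorem Sy.Loc.q_nonneg (L : S.Loc J K C₁ ν p β r E0 M X x) (hW : 0 < S.ww X) (A : Finset τ) :
    0 ≤ S.qq X A :=
  div_nonneg (Finset.sum_nonneg fun T _ => L.inv.X_nonneg T) hW.le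

theorem Num.q_small {K c W : ℝ} (h : Num K c W) : (4 + K) / W ≤ 1 / 100 := by
  have h1 := h.c_pos
  have h2 := h.big
  have h3 := h.hc
  have h4 := h.hK
  rw [div_le_div_iff₀ h.hW (by norm_num)]
  linarith

/-- the survival factor is at most `1 + 2 (4 + K) / W` and at least `1 - 1 / W` -/
theorem Sy.Loc.surv (L : S.Loc J K C₁ ν p β r E0 M X x) {c : ℝ} (N : Num K c (S.ww X)) {T : τ}
    (hT : T ∈ S.R ∪ S.Vt) (hM : T ∉ M) :
    (1 - 1 / S.ww X) / (1 - S.qq X (S.kk M T)) ≤ 1 + 2 * ((4 + K) / S.ww X) ∧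
      1 - 1 / S.ww X ≤ (1 - 1 / S.ww X) / (1 - S.qq X (S.kk M T)) ∧
      0 < 1 - S.qq X (S.kk M T) ∧ 0 < 1 - 1 / S.ww X := by
  have h1 := L.q_le N hT hM
  have h2 := L.q_nonneg N.hW (S.kk M T)
  have h3 := N.q_small
  have h4 := N.small
  have h5 : 0 < 1 / S.ww X := by
    have := N.hW
    positivity
  set q := S.qq X (S.kk M T)
  have h6 : 0 < 1 - q := by linarith
  have h7 : 0 < 1 - 1 / S.ww X := by linarith
  refine ⟨?_, ?_, h6, h7⟩
  · rw [div_le_iff₀ h6]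
    set a := (4 + K) / S.ww X
    have h8 : 1 ≤ (1 + 2 * a) * (1 - q) := by nlinarith
    linarith
  · rw [le_div_iff₀ h6]
    nlinarith

theorem nX_surv {Ts T : τ} (h : Ts ∉ S.kk M T) :
    S.nX M X Ts T = X T * ((1 - 1 / S.ww X) / (1 - S.qq X (S.kk M T))) := by
  unfold Sy.nX
  rw [if_neg h]

theorem nX_kill {Ts T : τ} (h : Ts ∈ S.kk M T) : S.nX M X Ts T = 0 := by
  unfold Sy.nX
  rw [if_pos h]

theorem Sy.Loc.nX_nonneg (L : S.Loc J K C₁ ν p β r E0 M X x) {c : ℝ} (N : Num K c (S.ww X))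
    (Ts : τ) {T : τ} (hT : T ∈ S.R) (hM : T ∉ M) : 0 ≤ S.nX M X Ts T := by
  by_cases h : Ts ∈ S.kk M T
  · rw [nX_kill h]
  · rw [nX_surv h]
    obtain ⟨-, -, h1, h2⟩ := L.surv N (Finset.mem_union_left _ hT) hM
    have := L.inv.X_nonneg T
    positivity

theorem Sy.Loc.yn_M (L : S.Loc J K C₁ ν p β r E0 M X x) (Ts : τ) {T : τ} (hT : T ∈ M) :
    S.yn ν p E0 M X Ts T = 1 := by
  unfold Sy.yn Sy.yh
  rw [if_pos (L.inv.M_sub hT), if_pos (Finset.mem_insert_of_mem hT)]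

theorem Sy.Loc.yn_self (L : S.Loc J K C₁ ν p β r E0 M X x) {Ts : τ} (h : X Ts ≠ 0) :
    S.yn ν p E0 M X Ts Ts = 1 := by
  unfold Sy.yn Sy.yh
  rw [if_pos (L.X_R h), if_pos (Finset.mem_insert_self _ _)]

theorem yn_R {Ts T : τ} (hT : T ∈ S.R) (hM : T ∉ M) (hne : T ≠ Ts) :
    S.yn ν p E0 M X Ts T = (1 + 1 / pn E0 p) * S.nX M X Ts T := by
  unfold Sy.yn Sy.yh
  rw [if_pos hT, if_neg fun h => (Finset.mem_insert.1 h).elim hne hM]

theorem Sy.Good.notR (h : S.Good J) {T : τ} (hT : T ∈ S.Vt) : T ∉ S.R := fun h1 =>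
  (Finset.disjoint_left.1 h.disj h1) hT

theorem yn_notR {Ts T : τ} (hT : T ∉ S.R) : S.yn ν p E0 M X Ts T =
    if T ∈ S.Vt ∧ S.ed T ⊆ S.al E0 M \ S.ed Ts then ν / pn E0 p else 0 := by
  unfold Sy.yn Sy.yh
  rw [if_neg hT, al_insert]

theorem mem_me {T T' : τ} (hT' : T' ∈ S.R) : T' ∈ S.me T ↔ ¬ Disjoint (S.ed T') (S.ed T) := by
  unfold Sy.me
  rw [Finset.mem_filter]
  exact ⟨fun h => h.2, fun h => ⟨hT', h⟩⟩

theorem kk_notR {T : τ} (hT : T ∉ S.R) : S.kk M T = S.me T := by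
  unfold Sy.kk
  rw [if_neg hT]

theorem kk_R {T : τ} (hT : T ∈ S.R) : S.kk M T = S.me T ∪ S.th M T := by
  unfold Sy.kk
  rw [if_pos hT]

theorem Sy.Loc.yn_kill (L : S.Loc J K C₁ ν p β r E0 M X x) {Ts T : τ} (h : X Ts ≠ 0)
    (hM : T ∉ M) (hne : T ≠ Ts) (hk : Ts ∈ S.kk M T) : S.yn ν p E0 M X Ts T = 0 := by
  by_cases hR : T ∈ S.R
  · rw [yn_R hR hM hne, nX_kill hk, mul_zero]
  · rw [yn_notR hR, if_neg]
    rintro ⟨-, h2⟩
    rw [kk_notR hR, mem_me (L.X_R h)] at hk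
    obtain ⟨e, he1, he2⟩ := Finset.not_disjoint_iff.1 hk
    exact (Finset.mem_sdiff.1 (h2 he2)).2 he1

theorem Sy.Loc.yn_V (L : S.Loc J K C₁ ν p β r E0 M X x) {c : ℝ} (N : Num K c (S.ww X))
    {Ts T : τ} (h : X Ts ≠ 0) (hR : T ∉ S.R) (hk : Ts ∉ S.kk M T) :
    S.yn ν p E0 M X Ts T = S.yh ν p E0 M X T * (p / pn E0 p) := by
  have hp := L.p_pos
  have h0 := L.pn_pos N
  rw [kk_notR hR, mem_me (L.X_R h), not_not] at hk
  rw [yn_notR hR, yh_V hR]
  have h1 : (S.ed T ⊆ S.al E0 M \ S.ed Ts) ↔ S.ed T ⊆ S.al E0 M := by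
    constructor
    · exact fun h2 => h2.trans Finset.sdiff_subset
    · intro h2 e he
      exact Finset.mem_sdiff.2 ⟨h2 he, fun h3 => Finset.disjoint_left.1 hk h3 he⟩
  by_cases h2 : T ∈ S.Vt ∧ S.ed T ⊆ S.al E0 M
  · rw [if_pos h2, if_pos ⟨h2.1, h1.2 h2.2⟩]
    field_simp
  · rw [if_neg h2, if_neg fun h3 => h2 ⟨h3.1, h1.1 h3.2⟩, zero_mul]

theorem Sy.Loc.yn_nonneg (L : S.Loc J K C₁ ν p β r E0 M X x) {c : ℝ} (N : Num K c (S.ww X))
    {Ts : τ} (h : X Ts ≠ 0) (T : τ) : 0 ≤ S.yn ν p E0 M X Ts T := by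
  have h0 := L.pn_pos N
  have hν := L.ν_pos
  by_cases hM : T ∈ M
  · rw [L.yn_M Ts hM]
    norm_num
  by_cases hne : T = Ts
  · rw [hne, L.yn_self h]
    norm_num
  by_cases hR : T ∈ S.R
  · rw [yn_R hR hM hne]
    have := L.nX_nonneg N Ts hR hM
    positivity
  · rw [yn_notR hR]
    split_ifs <;> positivity

theorem Sy.Loc.yn_le (L : S.Loc J K C₁ ν p β r E0 M X x) {c : ℝ} (N : Num K c (S.ww X))
    {Ts T : τ} (h : X Ts ≠ 0) (hne : T ≠ Ts) :
    S.yn ν p E0 M X Ts T ≤ (1 + c / S.ww X) * S.yh ν p E0 M X T := by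
  have hc := N.c_pos
  have hW := N.hW
  have hy := L.yh_nonneg T
  have h0 : 0 ≤ c / S.ww X := by positivity
  obtain ⟨r1, r2, r3, r4⟩ := L.pn_ratio N
  have h40 : 4 / S.ww X ≤ c / S.ww X := by
    have := N.hc
    have := N.hK
    gcongr
    linarith
  by_cases hM : T ∈ M
  · rw [L.yn_M Ts hM, L.yh_M hM]
    linarith
  by_cases hk : Ts ∈ S.kk M T
  · rw [L.yn_kill h hM hne hk]
    positivity
  by_cases hR : T ∈ S.R
  · rw [yn_R hR hM hne, nX_surv hk, yh_R hR hM]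
    obtain ⟨s1, s2, s3, s4⟩ := L.surv N (Finset.mem_union_left _ hR) hM
    have hX := L.inv.X_nonneg T
    have hp := L.p_pos
    have h5 := N.q_small
    have h6 : 0 ≤ (4 + K) / S.ww X := by
      have := N.hK
      positivity
    have h7 : 0 ≤ 4 / S.ww X := by positivity
    have h8 : (1 + 4 / S.ww X) * (1 + 2 * ((4 + K) / S.ww X)) ≤ 1 + c / S.ww X := by
      have e1 : 4 / S.ww X + 3 * ((4 + K) / S.ww X) ≤ c / S.ww X := by
        rw [← mul_div_assoc, ← add_div]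
        have := N.hc
        have := N.hK
        gcongr
        linarith
      have e2 : 4 / S.ww X ≤ 1 / 2 := by
        have h9 := N.small
        have h10 : 4 / S.ww X = 4 * (1 / S.ww X) := by ring
        linarith
      nlinarith
    calc (1 + 1 / pn E0 p) * (X T * ((1 - 1 / S.ww X) / (1 - S.qq X (S.kk M T))))
        ≤ ((1 + 1 / p) * (1 + 4 / S.ww X)) * (X T * (1 + 2 * ((4 + K) / S.ww X))) := by
          have h9 : 0 ≤ (1 - 1 / S.ww X) / (1 - S.qq X (S.kk M T)) := by positivity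
          have h10 := L.pn_pos N
          gcongr
      _ = (1 + 4 / S.ww X) * (1 + 2 * ((4 + K) / S.ww X)) * ((1 + 1 / p) * X T) := by ring
      _ ≤ (1 + c / S.ww X) * ((1 + 1 / p) * X T) := by gcongr
  · rw [L.yn_V N h hR hk, mul_comm]
    gcongr
    linarith

theorem Sy.Loc.yn_ge (L : S.Loc J K C₁ ν p β r E0 M X x) {c : ℝ} (N : Num K c (S.ww X))
    {Ts T : τ} (h : X Ts ≠ 0) (hne : T ≠ Ts) (hk : Ts ∉ S.kk M T) :
    (1 - c / S.ww X) * S.yh ν p E0 M X T ≤ S.yn ν p E0 M X Ts T := by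
  have hc := N.c_pos
  have hW := N.hW
  have hy := L.yh_nonneg T
  have h0 : 0 ≤ c / S.ww X := by positivity
  obtain ⟨r1, r2, r3, r4⟩ := L.pn_ratio N
  by_cases hM : T ∈ M
  · rw [L.yn_M Ts hM, L.yh_M hM]
    linarith
  by_cases hR : T ∈ S.R
  · rw [yn_R hR hM hne, nX_surv hk, yh_R hR hM]
    obtain ⟨s1, s2, s3, s4⟩ := L.surv N (Finset.mem_union_left _ hR) hM
    have hX := L.inv.X_nonneg T
    have hp := L.p_pos
    have h1 : 1 / S.ww X ≤ c / S.ww X := by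
      have := N.hc
      have := N.hK
      gcongr
      linarith
    calc (1 - c / S.ww X) * ((1 + 1 / p) * X T) ≤ (1 - 1 / S.ww X) * ((1 + 1 / p) * X T) := by
          gcongr
      _ = (1 + 1 / p) * (X T * (1 - 1 / S.ww X)) := by ring
      _ ≤ _ := by
        have h9 : 0 ≤ 1 + 1 / p := by positivity
        exact mul_le_mul r3 (mul_le_mul_of_nonneg_left s2 hX) (by positivity) (h9.trans r3)
  · rw [L.yn_V N h hR hk]
    have : (1 - c / S.ww X) * S.yh ν p E0 M X T ≤ 1 * S.yh ν p E0 M X T := by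
      gcongr
      linarith
    nlinarith

theorem base_ok : SpBas := by
  intro J K C₁ hK hC
  refine ⟨1000 * (K + 1), by linarith, ?_⟩
  intro c hc ι τ _ _ _ _ S ν p β r E0 M X x L hcW
  have hr := L.r_pos
  have hr1 := L.r_le
  have hc0 : 0 < c := by linarith
  have hW : 0 < S.ww X := by
    by_contra h
    push Not at h
    nlinarith
  have hbig : 10 * c ≤ S.ww X := by nlinarith
  have N : Num K c (S.ww X) := ⟨hK, hc, hW, hbig⟩
  have hWr : c / S.ww X ≤ r := by rwa [div_le_iff₀ hW]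
  exact
    { W_pos := hW
      W_big := hWr
      W_half := by linarith
      al_hi := L.al_hi hW
      al_lo := L.al_lo hW
      pn_eq := L.pn_eq hW
      pn_pos := L.pn_pos N
      pn_le := L.pn_le hW
      sumX := by
        rw [← Finset.sum_div]
        exact div_self hW.ne'
      X_M := fun T h => L.X_notM h
      th_le := fun T hT hM => L.th_le hT hM
      th_yh := fun T hT hM => L.th_yh hT hM
      kk_le := fun T hT hM => L.kk_le hK hT hM
      we_zero := fun e he => L.we_zero he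
      we_le := fun e => L.we_bd e
      th_symm := by
        intro T hT hM T' hT'
        obtain ⟨hR, hne, hM', U, hU, h1, h2, h3⟩ := Finset.mem_filter.1 hT'
        refine Finset.mem_filter.2 ⟨hT, Ne.symm hne, hM, U, hU, h2, h1, ?_⟩
        rwa [Finset.erase_right_comm]
      yh_nonneg := L.yh_nonneg
      yh_le_one := L.yh_le_one
      yh_M := fun T hT => L.yh_M hT
      yh_le := fun T hT => L.yh_le hT
      yh_R := fun T hT hM => yh_R hT hM
      X_le_yh := fun T hT => L.X_le_yh hT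
      yn_nonneg := fun Ts h T => L.yn_nonneg N h T
      yn_M := fun Ts _ T hT => L.yn_M Ts hT
      yn_self := fun Ts h => L.yn_self h
      yn_kill := fun Ts h T hM hne hk => L.yn_kill h hM hne hk
      yn_le := fun Ts h T hne => L.yn_le N h hne
      yn_ge := fun Ts h T hne hk => L.yn_ge N h hne hk
      yn_R := by
        intro Ts h T hT hM hne hk
        rw [yn_R hT hM hne, nX_surv hk, mul_assoc]
      yn_V := fun Ts h T hT hk => L.yn_V N h (L.good.notR hT) hk }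

end Base

end F2
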