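import Pool.Agent.F2.N.Spec

/-!
# Project F2, block N: all facts about one step with one constant
-/

set_option autoImplicit false
set_option linter.unusedSectionVars false

namespace F2

open Finset
open Pool.Agent.F2 (HH GG)

theorem Drift.mono {Ω : Type} {A : Finset Ω} {w Δ : Ω → ℝ} {μ m d μ' m' d' : ℝ}
    (h : Drift A w Δ μ m d) (h1 : μ ≤ μ') (h2 : m ≤ m') (h3 : d ≤ d') : Drift A w Δ μ' m' d' :=
  ⟨h.fst.trans h1, h.mean.trans h2, fun ω hω hw => (h.bd ω hω hw).trans h3⟩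

section

variable {ι τ : Type} [Fintype ι] [Fintype τ] [DecidableEq ι] [DecidableEq τ] (S : Sy ι τ)

/-- everything about one step -/
structure Sy.Stp (L : ℕ) (K ν p β r c : ℝ) (E0 : Finset ι) (M : Finset τ) (X x : τ → ℝ) :
    Prop where
  bas : S.Bas K ν p β r c E0 M X
  pg : ∀ P : Finset τ, P.card ≤ L →
    ∑ Ts ∈ S.R, X Ts / S.ww X * ∏ T ∈ P, S.yn ν p E0 M X Ts T ≤
      (1 + c / S.ww X) * ∏ T ∈ P, S.yh ν p E0 M X T
  w : ∀ e ∈ S.al E0 M, ∀ s : ℝ, (s = 1 ∨ s = -1) →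
    Drift (S.R.filter (fun Ts => e ∉ S.ed Ts)) (fun Ts => X Ts / S.ww X)
      (fun Ts => s * (S.we (S.nX M X Ts) e - S.we X e))
      (2 * β / S.ww X) (c / S.ww X) (c * r)
  s : ∀ e ∈ S.al E0 M,
    Drift (S.R.filter (fun Ts => e ∉ S.ed Ts)) (fun Ts => X Ts / S.ww X)
      (fun Ts => S.se x e - S.se (S.nx M X x Ts) e)
      (c * (β + r) / S.ww X) (c / S.ww X) (c * r)
  y : ∀ T ∈ S.R ∪ S.Vt, T ∉ M →
    Drift (S.R.filter (fun Ts => Ts ≠ T)) (fun Ts => X Ts / S.ww X)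
      (fun Ts => S.YY (insert Ts M) (S.yn ν p E0 M X Ts) T - S.YY M (S.yh ν p E0 M X) T)
      (c * (β + r) / S.ww X) (c / S.ww X) (c * r)
  f : ∀ e ∈ S.al E0 M, ∀ F : ℝ, 1 ≤ F → S.FF ν (S.yh ν p E0 M X) e ≤ F →
    Drift (S.R.filter (fun Ts => e ∉ S.ed Ts)) (fun Ts => X Ts / S.ww X)
      (fun Ts => S.FF ν (S.yn ν p E0 M X Ts) e - S.FF ν (S.yh ν p E0 M X) e)
      (c * (β + r) / S.ww X * F) (c / S.ww X * F) (c * r * F)
  d : ∀ (n : ℝ) (Q : Finset ι), 0 < n → 1 / (p * n) ≤ r → S.DD n p E0 M Q ≤ 2 →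
    Drift S.R (fun Ts => X Ts / S.ww X)
      (fun Ts => S.DD n (pn E0 p) E0 (insert Ts M) Q - S.DD n p E0 M Q)
      (c * (β + r) / S.ww X) (c / S.ww X) (c * r)
  gX : ∀ Ts, X Ts ≠ 0 → ∀ T, S.nX M X Ts T ≤ X T * (1 + (3 + p * K) / S.ww X) ∧
    S.nx M X x Ts T ≤ x T * (1 + 2 * (p * K) / S.ww X)
  inv : ∀ Ts, X Ts ≠ 0 → S.Inv E0 (pn E0 p) (insert Ts M) (S.nX M X Ts) (S.nx M X x Ts)

end

/-- one step, all facts -/
def SpStp : Prop :=
  ∀ (J L : ℕ) (K C₁ : ℝ), 1 ≤ K → 1 ≤ C₁ → ∃ c : ℝ, 1 ≤ c ∧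
    ∀ (ι τ : Type) [Fintype ι] [Fintype τ] [DecidableEq ι] [DecidableEq τ] (S : Sy ι τ)
      (ν p β r : ℝ) (E0 : Finset ι) (M : Finset τ) (X x : τ → ℝ),
      S.Loc J K C₁ ν p β r E0 M X x → c ≤ r * S.ww X → S.Stp L K ν p β r c E0 M X x

theorem stp_ok (h0 : SpBas) (h3 : SpPg) (h6 : SpW) (h7 : SpS) (h8 : SpY1) (h9 : SpY2)
    (h10 : SpF1) (h11 : SpF2) (h12 : SpD) (h13 : SpX) (h14 : SpI) : SpStp := by
  intro J L K C₁ hK hC
  obtain ⟨c0, c0p, H0⟩ := h0 J K C₁ hK hC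
  obtain ⟨c3, c3p, H3⟩ := h3 J L K C₁ hK hC
  obtain ⟨c6, c6p, H6⟩ := h6 J K C₁ hK hC
  obtain ⟨c7, c7p, H7⟩ := h7 J K C₁ hK hC
  obtain ⟨c8, c8p, H8⟩ := h8 J K C₁ hK hC
  obtain ⟨c9, c9p, H9⟩ := h9 J K C₁ hK hC
  obtain ⟨c10, c10p, H10⟩ := h10 J K C₁ hK hC
  obtain ⟨c11, c11p, H11⟩ := h11 J K C₁ hK hC
  obtain ⟨c12, c12p, H12⟩ := h12 J K C₁ hK hC
  obtain ⟨c13, c13p, H13⟩ := h13 J K C₁ hK hC
  obtain ⟨c14, c14p, H14⟩ := h14 J K C₁ hK hC
  set c := c0 + c3 + c6 + c7 + c8 + c9 + c10 + c11 + c12 + c13 + c14 with hc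
  refine ⟨c, by linarith, ?_⟩
  intro ι τ _ _ _ _ S ν p β r E0 M X x Lo hcW
  have B := H0 c (by linarith) ι τ S ν p β r E0 M X x Lo hcW
  have hW := B.W_pos
  have hr := Lo.r_pos
  have hβ := Lo.β_nonneg
  have hy0 : ∀ T, 0 ≤ S.yh ν p E0 M X T := B.yh_nonneg
  exact
    { bas := B
      pg := fun P hP => (H3 ι τ S ν p β r E0 M X x Lo (by linarith) P hP).trans (by
        have h0 : 0 ≤ ∏ T ∈ P, S.yh ν p E0 M X T := Finset.prod_nonneg fun T _ => hy0 T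
        gcongr
        linarith)
      w := fun e he s hs => (H6 ι τ S ν p β r E0 M X x Lo (by linarith) e he s hs).mono le_rfl
        (by gcongr; linarith) (by gcongr; linarith)
      s := fun e he => (H7 ι τ S ν p β r E0 M X x Lo (by linarith) e he).mono
        (by
          gcongr
          · linarith
          · linarith)
        (by gcongr; linarith) (by gcongr; linarith)
      y := by
        intro T hT hM
        obtain ⟨k1, k2⟩ := H8 ι τ S ν p β r E0 M X x Lo (by linarith) T hT hM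
        have k3 := H9 ι τ S ν p β r E0 M X x Lo (by linarith) T hT hM
        refine ⟨k1.trans (by gcongr; linarith), k2.trans (by gcongr; linarith), ?_⟩
        intro Ts hTs hw
        have h1 := (Finset.mem_filter.1 hTs).2
        have h2 : X Ts ≠ 0 := fun h => hw (by simp only [h, zero_div])
        exact (k3 Ts h1 h2).trans (by gcongr; linarith)
      f := by
        intro e he F hF hFF
        obtain ⟨k1, k2⟩ := H10 ι τ S ν p β r E0 M X x Lo (by linarith) e he F hF hFF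
        have k3 := H11 ι τ S ν p β r E0 M X x Lo (by linarith) e he F hF hFF
        refine ⟨k1.trans (by gcongr; linarith), k2.trans (by gcongr; linarith), ?_⟩
        intro Ts hTs hw
        have h1 := (Finset.mem_filter.1 hTs).2
        have h2 : X Ts ≠ 0 := fun h => hw (by simp only [h, zero_div])
        exact (k3 Ts h1 h2).trans (by gcongr; linarith)
      d := fun n Q hn h1 h2 => (H12 ι τ S ν p β r E0 M X x Lo (by linarith) n Q hn h1 h2).mono
        (by gcongr; linarith) (by gcongr; linarith) (by gcongr; linarith)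
      gX := H13 ι τ S ν p β r E0 M X x Lo (by linarith)
      inv := H14 ι τ S ν p β r E0 M X x Lo (by linarith) }

end F2
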