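import Pool.Agent.F2.N.Spec

/-!
# Project F2, block N, row N15: the crude bounds from the moments (helper90)
-/

set_option autoImplicit false
set_option linter.unusedSectionVars false

namespace F2

open Finset
open Pool.Agent.F2 (HH GG)

theorem cr_not_sub {τ : Type} {P M : Finset τ} {y : τ → ℝ} {ε : ℝ}
    (hM : ∀ T, T ∉ M → y T ≤ ε) (h : ¬ P ⊆ M) : ∃ a ∈ P, y a ≤ ε := by
  obtain ⟨a, ha, haM⟩ := Finset.not_subset.1 h
  exact ⟨a, ha, hM a haM⟩

/-- N15: the crude bounds from the moments -/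
theorem cr_ok : SpCr := by
  intro ι τ _ _ _ _ S J k ε r E0 M y hg hk hε hr hy0 hy1 hyM hMR hA hA' hB hE
  refine ⟨fun T T' hT hT' => ?_, fun T T' hT => ?_, fun T hT e he heT => ?_,
    fun T hT T' hT' hne => ?_⟩
  · refine Pool.Agent.F2.crude_le hk hr hε hy0 hy1 (Finset.Subset.refl _) ?_ (hA T T' hT)
    intro P hP
    unfold Sy.fA at hP
    obtain ⟨U, hU, rfl⟩ := Finset.mem_image.1 hP
    have h2 := (Finset.mem_filter.1 hU).2.2
    exact ⟨T', Finset.mem_erase.2 ⟨hT.symm, h2⟩, hyM T' hT'⟩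
  · refine Pool.Agent.F2.crude_le hk hr hε hy0 hy1 (Finset.filter_subset _ _) ?_ (hA' T T' hT)
    intro P hP
    exact cr_not_sub hyM (Finset.mem_filter.1 hP).2
  · have he' := Finset.mem_sdiff.1 he
    refine Pool.Agent.F2.crude_le hk hr hε hy0 hy1 (Finset.Subset.refl _) ?_
      (hB T hT e he'.1 heT)
    intro P hP
    unfold Sy.fB at hP
    obtain ⟨U, hU, rfl⟩ := Finset.mem_image.1 hP
    obtain ⟨T', hT', heT'⟩ := (Finset.mem_filter.1 hU).2.2
    refine ⟨T', hT', hyM T' fun hTM => he'.2 ?_⟩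
    exact Finset.mem_biUnion.2 ⟨T', hTM, heT'⟩
  · refine Pool.Agent.F2.crude_le hk hr hε hy0 hy1 (Finset.filter_subset _ _) ?_
      (hE T hT T' hT' hne)
    intro P hP
    exact cr_not_sub hyM (Finset.mem_filter.1 hP).2

end F2
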