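import Pool.Agent.F2.N.Spec

/-!
# Project F2, block N, row N12: the test sets
-/

set_option autoImplicit false
set_option linter.unusedSectionVars false

namespace F2

open Finset
open Pool.Agent.F2 (HH GG)

section Row12

variable {ι τ : Type} [Fintype ι] [Fintype τ] [DecidableEq ι] [DecidableEq τ] (S : Sy ι τ)

/-- the new set of uncovered elements -/
theorem d99_al_insert (E0 : Finset ι) (M : Finset τ) (Ts : τ) :
    S.al E0 (insert Ts M) = S.al E0 M \ S.ed Ts := by
  unfold Sy.al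
  ext e
  simp only [mem_sdiff, mem_biUnion, mem_insert]
  constructor
  · rintro ⟨h1, h2⟩
    refine ⟨⟨h1, ?_⟩, ?_⟩
    · rintro ⟨T, hT, he⟩
      exact h2 ⟨T, Or.inr hT, he⟩
    · intro he
      exact h2 ⟨Ts, Or.inl rfl, he⟩
  · rintro ⟨⟨h1, h2⟩, h3⟩
    refine ⟨h1, ?_⟩
    rintro ⟨T, hT, he⟩
    rcases hT with rfl | hT
    · exact h3 he
    · exact h2 ⟨T, hT, he⟩

/-- the size of the uncovered part of a test set, after one step -/
theorem d99_card (E0 : Finset ι) (M : Finset τ) (Ts : τ) (Q : Finset ι) :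
    ((Q ∩ S.al E0 (insert Ts M)).card : ℝ) =
      ((Q ∩ S.al E0 M).card : ℝ) - (((Q ∩ S.al E0 M).filter (fun e => e ∈ S.ed Ts)).card : ℝ) := by
  have h : Q ∩ S.al E0 (insert Ts M) = (Q ∩ S.al E0 M).filter (fun e => ¬ e ∈ S.ed Ts) := by
    rw [d99_al_insert]
    ext e
    simp only [mem_inter, mem_sdiff, mem_filter]
    tauto
  have h2 := card_filter_add_card_filter_not (s := Q ∩ S.al E0 M) (fun e => e ∈ S.ed Ts)
  rw [h]
  have h3 : (((Q ∩ S.al E0 M).filter (fun e => e ∈ S.ed Ts)).card : ℝ) +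
      (((Q ∩ S.al E0 M).filter (fun e => ¬ e ∈ S.ed Ts)).card : ℝ) =
      ((Q ∩ S.al E0 M).card : ℝ) := by
    exact_mod_cast h2
  linarith

/-- double counting -/
theorem d99_sum (A : Finset ι) (X : τ → ℝ) :
    ∑ Ts ∈ S.R, X Ts / S.ww X * ((A.filter (fun e => e ∈ S.ed Ts)).card : ℝ) =
      (∑ e ∈ A, S.we X e) / S.ww X := by
  have h1 : ∀ Ts ∈ S.R, X Ts / S.ww X * ((A.filter (fun e => e ∈ S.ed Ts)).card : ℝ) =
      ∑ e ∈ A, (if e ∈ S.ed Ts then X Ts else 0) / S.ww X := by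
    intro Ts _
    rw [← sum_div, ← sum_filter, sum_const, nsmul_eq_mul]
    ring
  rw [sum_congr rfl h1, sum_comm, sum_div]
  refine sum_congr rfl (fun e _ => ?_)
  unfold Sy.we
  rw [← sum_div, ← sum_filter]

end Row12

theorem d_ok : SpBas → SpD := by
  intro hB J K C₁ hK hC
  obtain ⟨c₀, hc₀, hB⟩ := hB J K C₁ hK hC
  refine ⟨max c₀ 20, le_trans hc₀ (le_max_left _ _), ?_⟩
  intro ι τ _ _ _ _ S ν p β r E0 M X x hL hc n Q hn hpn hD
  have b := hB (max c₀ 20) (le_max_left _ _) ι τ S ν p β r E0 M X x hL hc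
  set c := max c₀ 20 with hcdef
  have hc20 : 20 ≤ c := le_max_right _ _
  set W := S.ww X with hW
  have hW0 : 0 < W := b.W_pos
  set q : ℝ := 3 / ((S.al E0 M).card : ℝ) with hq
  have hβ0 := hL.β_nonneg
  have hβ1 := hL.β_le
  have hr0 := hL.r_pos
  have hp0 := hL.p_pos
  have hpn0 : 0 < p * n := mul_pos hp0 hn
  have hWr : 20 / W ≤ r := le_trans (div_le_div_of_nonneg_right hc20 hW0.le) b.W_big
  have hWh : 20 / W ≤ 1 / 2 := le_trans (div_le_div_of_nonneg_right hc20 hW0.le) b.W_half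
  have hu : 0 < 1 / W := by positivity
  set u : ℝ := 1 / W with hudef
  have hWr' : 20 * u ≤ r := by rw [hudef]; rw [mul_one_div]; exact hWr
  have hWh' : 20 * u ≤ 1 / 2 := by rw [hudef]; rw [mul_one_div]; exact hWh
  have hqlo : (1 - β) * u ≤ q := by rw [hudef, mul_one_div]; exact b.al_lo
  have hqhi : q ≤ (1 + β) * u := by rw [hudef, mul_one_div]; exact b.al_hi
  have hq0 : 0 ≤ q := le_trans (mul_nonneg (by linarith) hu.le) hqlo
  have hbu : 0 ≤ β * u := mul_nonneg hβ0 hu.le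
  have hbu1 : β * u ≤ 1 / 10 * u := mul_le_mul_of_nonneg_right hβ1 hu.le
  have hcu20 : 20 * u ≤ c * u := mul_le_mul_of_nonneg_right hc20 hu.le
  have hcbu : 20 * (β * u) ≤ c * (β * u) := mul_le_mul_of_nonneg_right hc20 hbu
  have hcru : 0 ≤ c * (r * u) := mul_nonneg (by linarith) (mul_nonneg hr0.le hu.le)
  have hcr : 20 * r ≤ c * r := mul_le_mul_of_nonneg_right hc20 hr0.le
  have hqhi' : q ≤ u + β * u := by linarith
  have hq1 : q ≤ 1 / 2 := by linarith
  have h1q : 0 < 1 - q := by linarith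
  set D : ℝ := S.DD n p E0 M Q with hDdef
  set a : ℝ := ((Q ∩ S.al E0 M).card : ℝ) with hadef
  have ha0 : 0 ≤ a := Nat.cast_nonneg _
  have hDa : D = a / (p * n) := rfl
  have hD0 : 0 ≤ D := by rw [hDa]; positivity
  have hDq : D * q ≤ D * (u + β * u) := mul_le_mul_of_nonneg_left hqhi' hD0
  have hDu : D * u ≤ 2 * u := mul_le_mul_of_nonneg_right hD hu.le
  have hDbu : D * (β * u) ≤ 2 * (β * u) := mul_le_mul_of_nonneg_right hD hbu
  set k : τ → ℝ := fun Ts => (((Q ∩ S.al E0 M).filter (fun e => e ∈ S.ed Ts)).card : ℝ) with hkdef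
  have hk0 : ∀ Ts, 0 ≤ k Ts := fun Ts => Nat.cast_nonneg _
  have hk3 : ∀ Ts ∈ S.R, k Ts ≤ 3 := by
    intro Ts hTs
    have h1 : ((Q ∩ S.al E0 M).filter (fun e => e ∈ S.ed Ts)).card ≤ (S.ed Ts).card := by
      apply card_le_card
      intro e he
      exact (mem_filter.mp he).2
    rw [hL.good.card3 Ts hTs] at h1
    have : ((((Q ∩ S.al E0 M).filter (fun e => e ∈ S.ed Ts)).card : ℕ) : ℝ) ≤ ((3 : ℕ) : ℝ) := by
      exact_mod_cast h1
    simpa [hkdef] using this
  -- the increment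
  have hΔ : ∀ Ts, S.DD n (pn E0 p) E0 (insert Ts M) Q - D =
      (D * q - k Ts / (p * n)) / (1 - q) := by
    intro Ts
    have h1 : S.DD n (pn E0 p) E0 (insert Ts M) Q = (a - k Ts) / (p * (1 - q) * n) := by
      unfold Sy.DD
      rw [d99_card, b.pn_eq]
    rw [h1, hDa]
    field_simp
    ring
  have hsumk : ∑ Ts ∈ S.R, X Ts / W * k Ts = (∑ e ∈ Q ∩ S.al E0 M, S.we X e) / W := by
    rw [hW, hkdef]
    exact d99_sum S (Q ∩ S.al E0 M) X
  have hwe : ∀ e ∈ Q ∩ S.al E0 M, |S.we X e - 1| ≤ β := fun e he =>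
    hL.we_le e (mem_inter.mp he).2
  have hlo : a * (1 - β) ≤ ∑ e ∈ Q ∩ S.al E0 M, S.we X e := by
    have := card_nsmul_le_sum (Q ∩ S.al E0 M) (S.we X) (1 - β)
      (fun e he => by have := abs_le.mp (hwe e he); linarith [this.1])
    rwa [nsmul_eq_mul] at this
  have hhi : ∑ e ∈ Q ∩ S.al E0 M, S.we X e ≤ a * (1 + β) := by
    have := sum_le_card_nsmul (Q ∩ S.al E0 M) (S.we X) (1 + β)
      (fun e he => by have := abs_le.mp (hwe e he); linarith [this.2])
    rwa [nsmul_eq_mul] at this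
  set s : ℝ := ∑ Ts ∈ S.R, X Ts / W * k Ts with hsdef
  have hslo : a * (1 - β) * u ≤ s := by
    rw [hsumk, hudef, mul_one_div]
    exact div_le_div_of_nonneg_right hlo hW0.le
  have hshi : s ≤ a * (1 + β) * u := by
    rw [hsumk, hudef, mul_one_div]
    exact div_le_div_of_nonneg_right hhi hW0.le
  have hsDlo : D * (1 - β) * u ≤ s / (p * n) := by
    rw [le_div_iff₀ hpn0, hDa]
    have : a / (p * n) * (1 - β) * u * (p * n) = a * (1 - β) * u := by field_simp
    rw [this]; exact hslo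
  have hsDhi : s / (p * n) ≤ D * (1 + β) * u := by
    rw [div_le_iff₀ hpn0, hDa]
    have : a / (p * n) * (1 + β) * u * (p * n) = a * (1 + β) * u := by field_simp
    rw [this]; exact hshi
  have hcu : ∀ t : ℝ, c * t / W = c * t * u := fun t => by rw [hudef, mul_one_div]
  have hs1 : ∑ Ts ∈ S.R, X Ts / W * (D * q) = D * q := by
    rw [← sum_mul]
    have := b.sumX
    rw [hW, this, one_mul]
  have hs2 : ∑ Ts ∈ S.R, X Ts / W * k Ts / (p * n) = s / (p * n) := by
    rw [hsdef, sum_div]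
  refine ⟨?_, ?_, ?_⟩
  · -- first moment
    have h1 : ∑ Ts ∈ S.R, X Ts / W * (S.DD n (pn E0 p) E0 (insert Ts M) Q - D) =
        (D * q - s / (p * n)) / (1 - q) := by
      have h2 : ∀ Ts ∈ S.R, X Ts / W * (S.DD n (pn E0 p) E0 (insert Ts M) Q - D) =
          (X Ts / W * (D * q) - (X Ts / W * k Ts) / (p * n)) / (1 - q) := by
        intro Ts _
        rw [hΔ]
        ring
      rw [sum_congr rfl h2, ← sum_div, sum_sub_distrib, hs1, hs2]
    have h3 : (D * q - s / (p * n)) / (1 - q) ≤ c * (β + r) / W := by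
      rw [div_le_iff₀ h1q, hcu]
      have h4 : D * q - s / (p * n) ≤ 4 * β * u := by linarith
      have h5 : 4 * β * u ≤ c * (β + r) * u * (1 / 2) := by linarith
      have h7 : c * (β + r) * u * (1 / 2) ≤ c * (β + r) * u * (1 - q) := by
        apply mul_le_mul_of_nonneg_left (by linarith)
        have : 0 ≤ β + r := by linarith
        have : 0 ≤ c * (β + r) := mul_nonneg (by linarith) this
        exact mul_nonneg this hu.le
      linarith
    calc ∑ ω ∈ S.R, (fun Ts => X Ts / W) ω *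
          (fun Ts => S.DD n (pn E0 p) E0 (insert Ts M) Q - D) ω
        = (D * q - s / (p * n)) / (1 - q) := h1
      _ ≤ _ := h3
  · -- mean absolute value
    have habs : ∀ Ts ∈ S.R, X Ts / W * |S.DD n (pn E0 p) E0 (insert Ts M) Q - D| ≤
        (X Ts / W * (D * q) + (X Ts / W * k Ts) / (p * n)) / (1 - q) := by
      intro Ts _
      have hX := hL.inv.X_nonneg Ts
      have h1 : |S.DD n (pn E0 p) E0 (insert Ts M) Q - D| ≤
          (D * q + k Ts / (p * n)) / (1 - q) := by
        rw [hΔ, abs_div, abs_of_pos h1q]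
        apply div_le_div_of_nonneg_right _ h1q.le
        have h2 : 0 ≤ D * q := mul_nonneg hD0 hq0
        have h3 : 0 ≤ k Ts / (p * n) := div_nonneg (hk0 Ts) hpn0.le
        rw [abs_le]
        constructor <;> linarith
      calc X Ts / W * |S.DD n (pn E0 p) E0 (insert Ts M) Q - D|
          ≤ X Ts / W * ((D * q + k Ts / (p * n)) / (1 - q)) :=
            mul_le_mul_of_nonneg_left h1 (by positivity)
        _ = _ := by ring
    have h1 : ∑ Ts ∈ S.R, X Ts / W * |S.DD n (pn E0 p) E0 (insert Ts M) Q - D| ≤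
        (D * q + s / (p * n)) / (1 - q) := by
      refine le_trans (sum_le_sum habs) (le_of_eq ?_)
      rw [← sum_div, sum_add_distrib, hs1, hs2]
    have h3 : (D * q + s / (p * n)) / (1 - q) ≤ c / W := by
      rw [div_le_iff₀ h1q]
      have hcW : c / W = c * u := by rw [hudef, mul_one_div]
      rw [hcW]
      have h4 : D * q + s / (p * n) ≤ 5 * u := by linarith
      have h5 : c * u * (1 / 2) ≤ c * u * (1 - q) :=
        mul_le_mul_of_nonneg_left (by linarith) (mul_nonneg (by linarith) hu.le)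
      linarith
    exact le_trans h1 h3
  · -- bound
    intro Ts hTs _
    show |S.DD n (pn E0 p) E0 (insert Ts M) Q - D| ≤ c * r
    rw [hΔ, abs_div, abs_of_pos h1q, div_le_iff₀ h1q]
    have h2 : 0 ≤ D * q := mul_nonneg hD0 hq0
    have h3 : 0 ≤ k Ts / (p * n) := div_nonneg (hk0 Ts) hpn0.le
    have h4 : k Ts / (p * n) ≤ 3 * r := by
      have : k Ts / (p * n) ≤ 3 / (p * n) := div_le_div_of_nonneg_right (hk3 Ts hTs) hpn0.le
      have h5 : 3 / (p * n) = 3 * (1 / (p * n)) := by ring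
      linarith
    have h5 : D * q ≤ r := by linarith
    have h6 : |D * q - k Ts / (p * n)| ≤ 4 * r := by
      rw [abs_le]
      constructor <;> linarith
    have h7 : c * r * (1 / 2) ≤ c * r * (1 - q) :=
      mul_le_mul_of_nonneg_left (by linarith) (mul_nonneg (by linarith) hr0.le)
    linarith

end F2
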