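import Pool.Agent.F2.N.Spec

/-!
# Project F2, block N, row N1: one step of an exponential moment
-/

set_option autoImplicit false

namespace F2

open Finset

lemma n1_exp {x : ℝ} (hx : |x| ≤ 1) : Real.exp x ≤ 1 + x + x ^ 2 := by
  have h := Real.abs_exp_sub_one_sub_id_le hx
  have h2 := le_of_abs_le h
  linarith

theorem exp_ok : SpExp := by
  intro Ω A w Δ μ m d l b hw hs hD hl hld hd hb
  have h1 : ∀ ω ∈ A, w ω * Real.exp (l * Δ ω) ≤
      w ω + l * (w ω * Δ ω) + l ^ 2 * d * (w ω * |Δ ω|) := by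
    intro ω hω
    by_cases h0 : w ω = 0
    · simp [h0]
    · have hbd := hD.bd ω hω h0
      have hab : |l * Δ ω| ≤ 1 := by
        rw [abs_mul, abs_of_pos hl]
        exact le_trans (mul_le_mul_of_nonneg_left hbd hl.le) hld
      have he := n1_exp hab
      have hsq : (l * Δ ω) ^ 2 ≤ l ^ 2 * d * |Δ ω| := by
        have h3 : (Δ ω) ^ 2 = |Δ ω| * |Δ ω| := by
          rw [← sq, sq_abs]
        rw [mul_pow, h3]
        have h4 : |Δ ω| * |Δ ω| ≤ d * |Δ ω| := mul_le_mul_of_nonneg_right hbd (abs_nonneg _)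
        have h5 : l ^ 2 * (|Δ ω| * |Δ ω|) ≤ l ^ 2 * (d * |Δ ω|) :=
          mul_le_mul_of_nonneg_left h4 (sq_nonneg l)
        linarith
      have h6 : w ω * Real.exp (l * Δ ω) ≤ w ω * (1 + l * Δ ω + l ^ 2 * d * |Δ ω|) :=
        mul_le_mul_of_nonneg_left (by linarith) (hw ω hω)
      calc w ω * Real.exp (l * Δ ω) ≤ w ω * (1 + l * Δ ω + l ^ 2 * d * |Δ ω|) := h6
        _ = w ω + l * (w ω * Δ ω) + l ^ 2 * d * (w ω * |Δ ω|) := by ring
  have h2 : ∑ ω ∈ A, w ω * Real.exp (l * Δ ω) ≤ 1 + l * μ + l ^ 2 * d * m := by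
    refine le_trans (Finset.sum_le_sum h1) ?_
    rw [Finset.sum_add_distrib, Finset.sum_add_distrib, ← Finset.mul_sum, ← Finset.mul_sum]
    have h3 := mul_le_mul_of_nonneg_left hD.fst hl.le
    have h4 : l ^ 2 * d * ∑ ω ∈ A, w ω * |Δ ω| ≤ l ^ 2 * d * m :=
      mul_le_mul_of_nonneg_left hD.mean (mul_nonneg (sq_nonneg l) hd)
    linarith
  have h3 : 1 + l * μ + l ^ 2 * d * m ≤ Real.exp (l * b) := by
    have h4 := Real.add_one_le_exp (l * b)
    have h5 := mul_le_mul_of_nonneg_left hb hl.le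
    have h6 : l * (μ + l * d * m) = l * μ + l ^ 2 * d * m := by ring
    linarith
  have h7 : ∑ ω ∈ A, w ω * Real.exp (l * (Δ ω - b)) =
      (∑ ω ∈ A, w ω * Real.exp (l * Δ ω)) * Real.exp (-(l * b)) := by
    rw [Finset.sum_mul]
    refine Finset.sum_congr rfl fun ω _ => ?_
    rw [mul_assoc, ← Real.exp_add]
    congr 2
    ring
  rw [h7]
  have h8 := mul_le_mul_of_nonneg_right (le_trans h2 h3) (Real.exp_pos (-(l * b))).le
  rwa [← Real.exp_add, add_neg_cancel, Real.exp_zero] at h8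

end F2
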