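import Pool.Agent.F2.N.Spec

/-!
# Project F2, block N, row N10: `FF`, mean values
-/

set_option autoImplicit false
set_option linter.unusedSectionVars false

namespace F2

open Finset
open Pool.Agent.F2 (HH GG)

section F1row

variable {ι τ : Type} [Fintype ι] [Fintype τ] [DecidableEq ι] [DecidableEq τ] {S : Sy ι τ}

/-- the member through `e` of a configuration in `fF e` -/
theorem f1_mem {J : ℕ} (hg : S.Good J) {e : ι} {U : Finset τ} (hU : U ∈ S.fF e) :
    U ∈ S.conf ∧ ∃ o ∈ U, o ∈ S.Vt ∧ S.ed o = {e} ∧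
      U.filter (fun T => e ∉ S.ed T) = U.erase o := by
  unfold Sy.fF at hU
  obtain ⟨hc, -, o, ho, he⟩ := mem_filter.1 hU
  have ho' := mem_inter.1 ho
  have h1 : S.ed o = {e} := by
    obtain ⟨a, ha⟩ := card_eq_one.1 (hg.card1 o ho'.2)
    rw [ha] at he ⊢
    rw [mem_singleton.1 he]
  refine ⟨hc, o, ho'.1, ho'.2, h1, ?_⟩
  ext T
  rw [mem_filter, mem_erase]
  constructor
  · rintro ⟨hT, hn⟩
    refine ⟨?_, hT⟩
    rintro rfl
    exact hn he
  · rintro ⟨hne, hT⟩
    exact ⟨hT, fun hh => disjoint_left.1 (hg.conf_disj U hc T hT o ho'.1 hne) hh he⟩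

/-- the density of the member through `e` -/
theorem f1_yh {J : ℕ} (hg : S.Good J) {e : ι} {o : τ} (ho : o ∈ S.Vt) (hed : S.ed o = {e})
    (ν p : ℝ) (E0 : Finset ι) (M : Finset τ) (X : τ → ℝ) (he : e ∈ S.al E0 M) :
    S.yh ν p E0 M X o = ν / p := by
  have h1 : o ∉ S.R := fun h => disjoint_left.1 hg.disj h ho
  unfold Sy.yh
  rw [if_neg h1, if_pos]
  exact ⟨ho, by rw [hed]; exact singleton_subset_iff.2 he⟩

theorem f1_al {E0 : Finset ι} {M : Finset τ} {e : ι} {Ts : τ} (he : e ∈ S.al E0 M)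
    (hn : e ∉ S.ed Ts) : e ∈ S.al E0 (insert Ts M) := by
  unfold Sy.al at *
  rw [biUnion_insert, mem_sdiff, mem_union, not_or]
  exact ⟨(mem_sdiff.1 he).1, hn, (mem_sdiff.1 he).2⟩

/-- the sum of the probabilities of the hyperedges which do not contain `e` -/
theorem f1_sum {X : τ → ℝ} (hs : ∑ T ∈ S.R, X T / S.ww X = 1) (e : ι) :
    ∑ Ts ∈ S.R.filter (fun Ts => e ∉ S.ed Ts), X Ts / S.ww X = 1 - S.we X e / S.ww X := by
  have h1 := sum_filter_add_sum_filter_not S.R (fun Ts => e ∈ S.ed Ts) (fun Ts => X Ts / S.ww X)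
  rw [hs] at h1
  have h2 : ∑ Ts ∈ S.R.filter (fun Ts => e ∈ S.ed Ts), X Ts / S.ww X = S.we X e / S.ww X := by
    unfold Sy.we
    rw [sum_div]
  rw [h2] at h1
  linarith

end F1row

theorem f1_ok (hb : SpBas) (hs : SpPs) (hv : SpPv) : SpF1 := by
  intro J K C₁ hK hC₁
  obtain ⟨c0, hc0, h0⟩ := hb J K C₁ hK hC₁
  obtain ⟨c1, hc1, h1⟩ := hs J K C₁ hK hC₁
  obtain ⟨c2, hc2, h2⟩ := hv J K C₁ hK hC₁
  refine ⟨c0 + c1 + c2 + 2, by linarith, ?_⟩
  intro ι τ _ _ _ _ S ν p β r E0 M X x hL hc e he F hF hFF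
  have B := h0 c0 le_rfl ι τ S ν p β r E0 M X x hL (by linarith)
  have hPs := h1 ι τ S ν p β r E0 M X x hL (by linarith)
  have hPv := h2 ι τ S ν p β r E0 M X x hL (by linarith)
  have hW := B.W_pos
  have hβ := hL.β_nonneg
  have hβ1 := hL.β_le
  have hr := hL.r_pos
  have hν := hL.ν_pos
  have hp := hL.p_pos
  have hwe := abs_le.1 (hL.we_le e he)
  set A := S.R.filter (fun Ts => e ∉ S.ed Ts) with hA
  have hAR : A ⊆ S.R := filter_subset _ _
  set w : τ → ℝ := fun Ts => X Ts / S.ww X with hw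
  have hw0 : ∀ Ts, 0 ≤ w Ts := fun Ts => div_nonneg (hL.inv.X_nonneg Ts) hW.le
  have hsum : ∑ Ts ∈ A, w Ts = 1 - S.we X e / S.ww X := f1_sum B.sumX e
  set y : τ → ℝ := S.yh ν p E0 M X with hy
  set y' : τ → τ → ℝ := fun Ts => S.yn ν p E0 M X Ts with hy'
  have hy0 : ∀ T, 0 ≤ y T := B.yh_nonneg
  -- the two estimates for one configuration
  have key : ∀ U ∈ S.fF e,
      ∑ Ts ∈ A, w Ts * (∏ T ∈ U.filter (fun T => e ∉ S.ed T), y' Ts T -
        ∏ T ∈ U.filter (fun T => e ∉ S.ed T), y T) ≤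
        (c1 + 2) * (β + r) / S.ww X * ∏ T ∈ U.filter (fun T => e ∉ S.ed T), y T ∧
      ∑ Ts ∈ A, w Ts * |∏ T ∈ U.filter (fun T => e ∉ S.ed T), y' Ts T -
        ∏ T ∈ U.filter (fun T => e ∉ S.ed T), y T| ≤
        c2 / S.ww X * ∏ T ∈ U.filter (fun T => e ∉ S.ed T), y T := by
    intro U hU
    obtain ⟨hUc, o, hoU, hoV, hed, hfil⟩ := f1_mem hL.good hU
    rw [hfil]
    set P := U.erase o with hP
    have hB0 : 0 ≤ ∏ T ∈ P, y T := prod_nonneg fun T _ => hy0 T
    constructor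
    · have e1 := hPs U hUc U (Subset.refl U)
      have e2 : ∏ T ∈ U, S.yh ν p E0 M X T = ν / p * ∏ T ∈ P, y T := by
        rw [← mul_prod_erase U _ hoU, f1_yh hL.good hoV hed ν p E0 M X he]
      have e3 : ∀ Ts ∈ A, w Ts * ((ν / pn E0 p) * ∏ T ∈ P, y' Ts T) =
          X Ts / S.ww X * ∏ T ∈ U, S.yn ν p E0 M X Ts T := by
        intro Ts hTs
        have hn := (mem_filter.1 hTs).2
        have e4 : S.yn ν p E0 M X Ts o = ν / pn E0 p :=
          f1_yh hL.good hoV hed ν (pn E0 p) E0 (insert Ts M) _ (f1_al he hn)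
        rw [← mul_prod_erase U _ hoU, e4]
      have e5 : ∑ Ts ∈ A, w Ts * ((ν / pn E0 p) * ∏ T ∈ P, y' Ts T) ≤
          (1 + c1 * (β + r) / S.ww X) * (ν / p * ∏ T ∈ P, y T) := by
        rw [← e2]
        refine le_trans ?_ e1
        rw [sum_congr rfl e3]
        refine sum_le_sum_of_subset_of_nonneg hAR fun Ts _ _ => ?_
        by_cases hX : X Ts = 0
        · rw [hX, zero_div, zero_mul]
        · exact mul_nonneg (hw0 Ts) (prod_nonneg fun T _ => B.yn_nonneg Ts hX T)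
      have e6 : ∑ Ts ∈ A, w Ts * ((ν / pn E0 p) * ∏ T ∈ P, y' Ts T) =
          ν / pn E0 p * ∑ Ts ∈ A, w Ts * ∏ T ∈ P, y' Ts T := by
        rw [mul_sum]
        exact sum_congr rfl fun Ts _ => by ring
      rw [e6] at e5
      have hpn := B.pn_pos
      have e7 : ∑ Ts ∈ A, w Ts * ∏ T ∈ P, y' Ts T ≤
          (pn E0 p / p) * ((1 + c1 * (β + r) / S.ww X) * ∏ T ∈ P, y T) := by
        have h3 : 0 < pn E0 p / ν := div_pos hpn hν
        have h4 := mul_le_mul_of_nonneg_left e5 h3.le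
        have h5 : pn E0 p / ν * (ν / pn E0 p * ∑ Ts ∈ A, w Ts * ∏ T ∈ P, y' Ts T) =
            ∑ Ts ∈ A, w Ts * ∏ T ∈ P, y' Ts T := by
          field_simp
        have h6 : pn E0 p / ν * ((1 + c1 * (β + r) / S.ww X) * (ν / p * ∏ T ∈ P, y T)) =
            (pn E0 p / p) * ((1 + c1 * (β + r) / S.ww X) * ∏ T ∈ P, y T) := by
          field_simp
        rwa [h5, h6] at h4
      have e8 : pn E0 p / p ≤ 1 - (1 - β) / S.ww X := by
        rw [B.pn_eq, mul_div_assoc, mul_comm, div_mul_cancel₀ _ hp.ne']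
        linarith [B.al_lo]
      have e9 : ∑ Ts ∈ A, w Ts * (∏ T ∈ P, y' Ts T - ∏ T ∈ P, y T) =
          (∑ Ts ∈ A, w Ts * ∏ T ∈ P, y' Ts T) - (1 - S.we X e / S.ww X) * ∏ T ∈ P, y T := by
        rw [← hsum, sum_mul, ← sum_sub_distrib]
        exact sum_congr rfl fun Ts _ => by ring
      rw [e9]
      have hq0 : 0 ≤ c1 * (β + r) / S.ww X := by positivity
      have e10 : (pn E0 p / p) * ((1 + c1 * (β + r) / S.ww X) * ∏ T ∈ P, y T) ≤
          (1 - (1 - β) / S.ww X) * ((1 + c1 * (β + r) / S.ww X) * ∏ T ∈ P, y T) :=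
        mul_le_mul_of_nonneg_right e8 (by positivity)
      have e11 : (1 - (1 - β) / S.ww X) * (1 + c1 * (β + r) / S.ww X) -
          (1 - S.we X e / S.ww X) ≤ (c1 + 2) * (β + r) / S.ww X := by
        have g1 : 0 ≤ (1 - β) / S.ww X := div_nonneg (by linarith) hW.le
        have g2 : (1 - (1 - β) / S.ww X) * (1 + c1 * (β + r) / S.ww X) ≤
            1 - (1 - β) / S.ww X + c1 * (β + r) / S.ww X := by nlinarith
        have g3 : S.we X e / S.ww X ≤ (1 + β) / S.ww X :=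
          div_le_div_of_nonneg_right (by linarith) hW.le
        have g4 : (c1 + 2) * (β + r) / S.ww X = c1 * (β + r) / S.ww X +
            2 * (β + r) / S.ww X := by ring
        have g5 : (1 + β) / S.ww X - (1 - β) / S.ww X ≤ 2 * (β + r) / S.ww X := by
          rw [← sub_div]
          exact div_le_div_of_nonneg_right (by linarith) hW.le
        linarith
      have e12 := mul_le_mul_of_nonneg_right e11 hB0
      calc (∑ Ts ∈ A, w Ts * ∏ T ∈ P, y' Ts T) - (1 - S.we X e / S.ww X) * ∏ T ∈ P, y T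
          ≤ (1 - (1 - β) / S.ww X) * ((1 + c1 * (β + r) / S.ww X) * ∏ T ∈ P, y T) -
            (1 - S.we X e / S.ww X) * ∏ T ∈ P, y T := by linarith
        _ = ((1 - (1 - β) / S.ww X) * (1 + c1 * (β + r) / S.ww X) -
          (1 - S.we X e / S.ww X)) * ∏ T ∈ P, y T := by ring
        _ ≤ _ := e12
    · have hcard : P.card ≤ J := (card_le_card (erase_subset _ _)).trans (hL.good.conf_card U hUc)
      refine le_trans ?_ (hPv P hcard)
      exact sum_le_sum_of_subset_of_nonneg hAR fun Ts _ _ => mul_nonneg (hw0 Ts) (abs_nonneg _)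
  have hFF0 : S.FF ν y e = ∑ U ∈ S.fF e, ν * ∏ T ∈ U.filter (fun T => e ∉ S.ed T), y T := rfl
  have hFF1 : ∀ Ts, S.FF ν (y' Ts) e - S.FF ν y e = ∑ U ∈ S.fF e,
      ν * (∏ T ∈ U.filter (fun T => e ∉ S.ed T), y' Ts T -
        ∏ T ∈ U.filter (fun T => e ∉ S.ed T), y T) := by
    intro Ts
    unfold Sy.FF
    rw [← sum_sub_distrib]
    exact sum_congr rfl fun U _ => by ring
  constructor
  · calc ∑ Ts ∈ A, X Ts / S.ww X * (S.FF ν (S.yn ν p E0 M X Ts) e - S.FF ν y e)
        = ∑ Ts ∈ A, ∑ U ∈ S.fF e, ν * (w Ts * (∏ T ∈ U.filter (fun T => e ∉ S.ed T), y' Ts T -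
        ∏ T ∈ U.filter (fun T => e ∉ S.ed T), y T)) := by
          refine sum_congr rfl fun Ts _ => ?_
          rw [show S.FF ν (S.yn ν p E0 M X Ts) e - S.FF ν y e = _ from hFF1 Ts, mul_sum]
          exact sum_congr rfl fun U _ => by ring
      _ = ∑ U ∈ S.fF e, ν * ∑ Ts ∈ A, w Ts * (∏ T ∈ U.filter (fun T => e ∉ S.ed T), y' Ts T -
        ∏ T ∈ U.filter (fun T => e ∉ S.ed T), y T) := by
          rw [sum_comm]
          exact sum_congr rfl fun U _ => by rw [mul_sum]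
      _ ≤ ∑ U ∈ S.fF e, ν * ((c1 + 2) * (β + r) / S.ww X *
          ∏ T ∈ U.filter (fun T => e ∉ S.ed T), y T) :=
          sum_le_sum fun U hU => mul_le_mul_of_nonneg_left (key U hU).1 hν.le
      _ = (c1 + 2) * (β + r) / S.ww X * S.FF ν y e := by
          rw [hFF0, mul_sum]
          exact sum_congr rfl fun U _ => by ring
      _ ≤ (c1 + 2) * (β + r) / S.ww X * F := mul_le_mul_of_nonneg_left hFF (by positivity)
      _ ≤ (c0 + c1 + c2 + 2) * (β + r) / S.ww X * F := by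
          apply mul_le_mul_of_nonneg_right _ (by linarith)
          apply div_le_div_of_nonneg_right _ hW.le
          exact mul_le_mul_of_nonneg_right (by linarith) (by linarith)
  · calc ∑ Ts ∈ A, X Ts / S.ww X * |S.FF ν (S.yn ν p E0 M X Ts) e - S.FF ν y e|
        ≤ ∑ Ts ∈ A, ∑ U ∈ S.fF e, ν * (w Ts * |∏ T ∈ U.filter (fun T => e ∉ S.ed T), y' Ts T -
        ∏ T ∈ U.filter (fun T => e ∉ S.ed T), y T|) := by
          refine sum_le_sum fun Ts _ => ?_
          rw [show S.FF ν (S.yn ν p E0 M X Ts) e - S.FF ν y e = _ from hFF1 Ts]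
          calc X Ts / S.ww X * |∑ U ∈ S.fF e, ν * (∏ T ∈ U.filter (fun T => e ∉ S.ed T), y' Ts T -
                ∏ T ∈ U.filter (fun T => e ∉ S.ed T), y T)|
              ≤ X Ts / S.ww X * ∑ U ∈ S.fF e,
                |ν * (∏ T ∈ U.filter (fun T => e ∉ S.ed T), y' Ts T -
                ∏ T ∈ U.filter (fun T => e ∉ S.ed T), y T)| :=
                mul_le_mul_of_nonneg_left (abs_sum_le_sum_abs _ _) (hw0 Ts)
            _ = _ := by
                rw [mul_sum]
                refine sum_congr rfl fun U _ => ?_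
                rw [abs_mul, abs_of_pos hν]
                ring
      _ = ∑ U ∈ S.fF e, ν * ∑ Ts ∈ A, w Ts * |∏ T ∈ U.filter (fun T => e ∉ S.ed T), y' Ts T -
        ∏ T ∈ U.filter (fun T => e ∉ S.ed T), y T| := by
          rw [sum_comm]
          exact sum_congr rfl fun U _ => by rw [mul_sum]
      _ ≤ ∑ U ∈ S.fF e, ν * (c2 / S.ww X *
          ∏ T ∈ U.filter (fun T => e ∉ S.ed T), y T) :=
          sum_le_sum fun U hU => mul_le_mul_of_nonneg_left (key U hU).2 hν.le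
      _ = c2 / S.ww X * S.FF ν y e := by
          rw [hFF0, mul_sum]
          exact sum_congr rfl fun U _ => by ring
      _ ≤ c2 / S.ww X * F := mul_le_mul_of_nonneg_left hFF (by positivity)
      _ ≤ (c0 + c1 + c2 + 2) / S.ww X * F := by
          apply mul_le_mul_of_nonneg_right _ (by linarith)
          exact div_le_div_of_nonneg_right (by linarith) hW.le

end F2
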