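import Pool.Agent.F2.N.F1

/-!
# Project F2, block N, row N11: `FF`, increments
-/

set_option autoImplicit false
set_option linter.unusedSectionVars false

namespace F2

open Finset
open Pool.Agent.F2 (HH GG)

section F2row

variable {ι τ : Type} [Fintype ι] [Fintype τ] [DecidableEq ι] [DecidableEq τ] {S : Sy ι τ}

theorem f2_up {P : Finset τ} {y y' : τ → ℝ} (h0' : ∀ T ∈ P, 0 ≤ y' T)
    (h1 : ∀ T ∈ P, y' T ≤ 2 * y T) : ∏ T ∈ P, y' T ≤ 2 ^ P.card * ∏ T ∈ P, y T := by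
  calc ∏ T ∈ P, y' T ≤ ∏ T ∈ P, 2 * y T := prod_le_prod h0' h1
    _ = 2 ^ P.card * ∏ T ∈ P, y T := by rw [prod_mul_distrib, prod_const]

/-- products of comparable factors -/
theorem f2_diff {P : Finset τ} {y y' : τ → ℝ} {d : ℝ} (hd : 0 ≤ d) (hd1 : d ≤ 1)
    (h0 : ∀ T, 0 ≤ y T) (h0' : ∀ T, 0 ≤ y' T) (h1 : ∀ T ∈ P, |y' T - y T| ≤ d * y T) :
    |∏ T ∈ P, y' T - ∏ T ∈ P, y T| ≤ P.card * 2 ^ P.card * d * ∏ T ∈ P, y T := by
  induction P using Finset.induction_on with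
  | empty => simp
  | insert a P ha ih =>
    have ih' := ih fun T hT => h1 T (mem_insert_of_mem hT)
    have hup : ∏ T ∈ P, y' T ≤ 2 ^ P.card * ∏ T ∈ P, y T := by
      refine f2_up (fun T _ => h0' T) fun T hT => ?_
      have h2 := (abs_le.1 (h1 T (mem_insert_of_mem hT))).2
      have h3 := h0 T
      nlinarith
    have ha1 := h1 a (mem_insert_self _ _)
    rw [prod_insert ha, prod_insert ha, card_insert_of_notMem ha]
    have hA : 0 ≤ ∏ T ∈ P, y' T := prod_nonneg fun T _ => h0' T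
    have hB : 0 ≤ ∏ T ∈ P, y T := prod_nonneg fun T _ => h0 T
    set A := ∏ T ∈ P, y' T
    set B := ∏ T ∈ P, y T
    have e1 : y' a * A - y a * B = (y' a - y a) * A + y a * (A - B) := by ring
    rw [e1]
    refine (abs_add_le _ _).trans ?_
    rw [abs_mul, abs_mul, abs_of_nonneg hA, abs_of_nonneg (h0 a)]
    have e2 : |y' a - y a| * A ≤ (d * y a) * (2 ^ P.card * B) :=
      mul_le_mul ha1 hup hA (mul_nonneg hd (h0 a))
    have e3 : y a * |A - B| ≤ y a * (P.card * 2 ^ P.card * d * B) :=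
      mul_le_mul_of_nonneg_left ih' (h0 a)
    have e4 : (d * y a) * (2 ^ P.card * B) + y a * (P.card * 2 ^ P.card * d * B) =
        ((P.card : ℝ) + 1) * 2 ^ P.card * d * (y a * B) := by ring
    have e5 : 0 ≤ ((P.card : ℝ) + 1) * 2 ^ P.card * d * (y a * B) := by
      have := h0 a
      positivity
    have e6 : (((P.card + 1 : ℕ) : ℝ)) * 2 ^ (P.card + 1) * d * (y a * B) =
        2 * (((P.card : ℝ) + 1) * 2 ^ P.card * d * (y a * B)) := by
      push_cast
      ring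
    rw [e6]
    linarith

theorem f2_fB (T : τ) (e : ι) (y : τ → ℝ) :
    ∑ U ∈ S.conf.filter (fun U => T ∈ U ∧ ∃ T' ∈ U.erase T, e ∈ S.ed T'),
      ∏ T' ∈ U.erase T, y T' = ∑ P ∈ S.fB T e, ∏ T' ∈ P, y T' := by
  unfold Sy.fB
  rw [sum_image]
  intro U hU U' hU' h
  have h1 : T ∈ U := (mem_filter.1 hU).2.1
  have h2 : T ∈ U' := (mem_filter.1 hU').2.1
  have h3 : U.erase T = U'.erase T := h
  rw [← insert_erase h1, ← insert_erase h2, h3]

/-- sums over configurations of `fF e` through `T` -/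
theorem f2_sub (e e' : ι) (T : τ) (y : τ → ℝ) (hy : ∀ T, 0 ≤ y T) {p : Finset τ → Prop}
    [DecidablePred p] (h : ∀ U ∈ S.fF e, p U → T ∈ U ∧ ∃ T' ∈ U.erase T, e' ∈ S.ed T') :
    ∑ U ∈ S.fF e, (if p U then ∏ T' ∈ U.erase T, y T' else 0) ≤
      ∑ P ∈ S.fB T e', ∏ T' ∈ P, y T' := by
  rw [← sum_filter, ← f2_fB]
  refine sum_le_sum_of_subset_of_nonneg ?_ fun U _ _ => prod_nonneg fun T _ => hy T
  intro U hU
  obtain ⟨hU1, hU2⟩ := mem_filter.1 hU
  exact mem_filter.2 ⟨(mem_filter.1 hU1).1, h U hU1 hU2⟩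

end F2row

theorem f2_ok (hb : SpBas) : SpF2 := by
  classical
  intro J K C₁ hK hC₁
  obtain ⟨c0, hc0, h0⟩ := hb J K C₁ hK hC₁
  have hJ0 : (0 : ℝ) ≤ J := Nat.cast_nonneg J
  have h2J : (0 : ℝ) ≤ 2 ^ J := by positivity
  have hJ2 : (0 : ℝ) ≤ J * 2 ^ J := by positivity
  refine ⟨c0 + 1 + 2 ^ J + 12 + K + J * 2 ^ J, by linarith, ?_⟩
  intro ι τ _ _ _ _ S ν p β r E0 M X x hL hc e he F hF hFF Ts hTe hTs
  have B := h0 c0 le_rfl ι τ S ν p β r E0 M X x hL (by linarith)
  have hW := B.W_pos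
  have hr := hL.r_pos
  have hν := hL.ν_pos
  have hp := hL.p_pos
  have hp1 := hL.p_le
  have hg := hL.good
  set y : τ → ℝ := S.yh ν p E0 M X with hy
  set y' : τ → ℝ := S.yn ν p E0 M X Ts with hy'
  have hy0 : ∀ T, 0 ≤ y T := B.yh_nonneg
  have hy1 : ∀ T, y T ≤ 1 := B.yh_le_one
  have hy'0 : ∀ T, 0 ≤ y' T := B.yn_nonneg Ts hTs
  have hTsR : Ts ∈ S.R := (hL.inv.X_ne Ts hTs).1
  have hTsal : S.ed Ts ⊆ S.al E0 M := (hL.inv.X_ne Ts hTs).2.1
  have hTsM : Ts ∉ M := B.X_M Ts hTs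
  have hTsU : Ts ∈ S.R ∪ S.Vt := mem_union_left _ hTsR
  have hνp : ν ≤ ν / p := by
    rw [le_div_iff₀ hp]
    nlinarith
  have hδ0 : 0 ≤ c0 / S.ww X := by positivity
  have hδ1 : c0 / S.ww X ≤ 1 := by have := B.W_half; linarith
  -- a factor of the member through e
  have hfac : ∀ U ∈ S.fF e, ∀ T ∈ U, e ∉ S.ed T →
      ν * ∏ T' ∈ (U.filter (fun T => e ∉ S.ed T)).erase T, y T' ≤ ∏ T' ∈ U.erase T, y T' := by
    intro U hU T hT heT
    obtain ⟨hUc, o, hoU, hoV, hed, hfil⟩ := f1_mem hg hU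
    have hoT : o ≠ T := by
      rintro rfl
      exact heT (by rw [hed]; exact mem_singleton_self e)
    rw [hfil, erase_right_comm, ← mul_prod_erase (U.erase T) y (mem_erase.2 ⟨hoT, hoU⟩),
      hy, f1_yh hg hoV hed ν p E0 M X he]
    exact mul_le_mul_of_nonneg_right hνp (prod_nonneg fun T _ => hy0 T)
  have hcard : ∀ U ∈ S.fF e, (U.filter (fun T => e ∉ S.ed T)).card ≤ J := fun U hU =>
    (card_le_card (filter_subset _ _)).trans (hg.conf_card U (mem_filter.1 hU).1)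
  -- the pointwise estimate
  have key : ∀ U ∈ S.fF e, ν * |∏ T ∈ U.filter (fun T => e ∉ S.ed T), y' T -
      ∏ T ∈ U.filter (fun T => e ∉ S.ed T), y T| ≤
      (1 + 2 ^ J) * (if Ts ∈ U then ∏ T' ∈ U.erase Ts, y T' else 0) +
      (∑ o ∈ S.Vt.filter (fun T => e ∈ S.ed T), ∑ e' ∈ S.ed Ts,
        ν * (if o ∈ U ∧ ∃ T ∈ U.erase o, e' ∈ S.ed T then ∏ T' ∈ U.erase o, y T' else 0)) +
      (∑ T ∈ S.th M Ts, y T * (if T ∈ U ∧ e ∉ S.ed T then ∏ T' ∈ U.erase T, y T' else 0)) +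
      J * 2 ^ J * (c0 / S.ww X) * (ν * ∏ T ∈ U.filter (fun T => e ∉ S.ed T), y T) := by
    intro U hU
    obtain ⟨hUc, o, hoU, hoV, hed, hfil⟩ := f1_mem hg hU
    have hpr0 : ∀ P : Finset τ, 0 ≤ ∏ T ∈ P, y T := fun P => prod_nonneg fun T _ => hy0 T
    have n1 : 0 ≤ (1 + 2 ^ J) * (if Ts ∈ U then ∏ T' ∈ U.erase Ts, y T' else 0) := by
      refine mul_nonneg (by positivity) ?_
      split_ifs
      · exact hpr0 _
      · exact le_rfl
    have m2 : ∀ o' e', 0 ≤ ν * (if o' ∈ U ∧ ∃ T ∈ U.erase o', e' ∈ S.ed T then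
        ∏ T' ∈ U.erase o', y T' else 0) := by
      intro o' e'
      refine mul_nonneg hν.le ?_
      split_ifs
      · exact hpr0 _
      · exact le_rfl
    have n2 : 0 ≤ ∑ o ∈ S.Vt.filter (fun T => e ∈ S.ed T), ∑ e' ∈ S.ed Ts,
        ν * (if o ∈ U ∧ ∃ T ∈ U.erase o, e' ∈ S.ed T then ∏ T' ∈ U.erase o, y T' else 0) :=
      sum_nonneg fun o' _ => sum_nonneg fun e' _ => m2 o' e'
    have m3 : ∀ T, 0 ≤ y T * (if T ∈ U ∧ e ∉ S.ed T then ∏ T' ∈ U.erase T, y T' else 0) := by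
      intro T
      refine mul_nonneg (hy0 T) ?_
      split_ifs
      · exact hpr0 _
      · exact le_rfl
    have n3 : 0 ≤ ∑ T ∈ S.th M Ts,
        y T * (if T ∈ U ∧ e ∉ S.ed T then ∏ T' ∈ U.erase T, y T' else 0) :=
      sum_nonneg fun T _ => m3 T
    have n4 : 0 ≤ J * 2 ^ J * (c0 / S.ww X) *
        (ν * ∏ T ∈ U.filter (fun T => e ∉ S.ed T), y T) :=
      mul_nonneg (mul_nonneg hJ2 hδ0) (mul_nonneg hν.le (hpr0 _))
    set P := U.filter (fun T => e ∉ S.ed T) with hP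
    by_cases hA : Ts ∈ U
    · -- the chosen hyperedge is a member
      have hTsP : Ts ∈ P := mem_filter.2 ⟨hA, hTe⟩
      have e1 : ∏ T ∈ P, y' T = ∏ T ∈ P.erase Ts, y' T := by
        rw [← mul_prod_erase P y' hTsP, hy', B.yn_self Ts hTs, one_mul]
      have e2 : ∏ T ∈ P, y T = y Ts * ∏ T ∈ P.erase Ts, y T := by
        rw [← mul_prod_erase P y hTsP]
      have e3 : ∏ T ∈ P.erase Ts, y' T ≤ 2 ^ J * ∏ T ∈ P.erase Ts, y T := by
        refine (f2_up (y := y) (y' := y') (P := P.erase Ts) (fun T _ => hy'0 T) ?_).trans ?_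
        · intro T hT
          have h3 := B.yn_le Ts hTs T (ne_of_mem_erase hT)
          have h4 := hy0 T
          calc y' T ≤ (1 + c0 / S.ww X) * y T := h3
            _ ≤ 2 * y T := mul_le_mul_of_nonneg_right (by linarith) h4
        · refine mul_le_mul_of_nonneg_right ?_ (hpr0 _)
          refine pow_le_pow_right₀ (by norm_num) ?_
          exact (card_le_card (erase_subset _ _)).trans (hcard U hU)
      have e4 : |∏ T ∈ P, y' T - ∏ T ∈ P, y T| ≤ (1 + 2 ^ J) * ∏ T ∈ P.erase Ts, y T := by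
        rw [e1, e2]
        have h5 : 0 ≤ ∏ T ∈ P.erase Ts, y' T := prod_nonneg fun T _ => hy'0 T
        have h6 := hpr0 (P.erase Ts)
        have h7 : y Ts * ∏ T ∈ P.erase Ts, y T ≤ 1 * ∏ T ∈ P.erase Ts, y T :=
          mul_le_mul_of_nonneg_right (hy1 Ts) h6
        have h8 : 0 ≤ y Ts * ∏ T ∈ P.erase Ts, y T := mul_nonneg (hy0 Ts) h6
        rw [abs_le]
        constructor
        · nlinarith
        · nlinarith
      have e5 := hfac U hU Ts hA hTe
      have e6 : ν * |∏ T ∈ P, y' T - ∏ T ∈ P, y T| ≤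
          (1 + 2 ^ J) * (ν * ∏ T ∈ P.erase Ts, y T) := by
        calc ν * |∏ T ∈ P, y' T - ∏ T ∈ P, y T|
            ≤ ν * ((1 + 2 ^ J) * ∏ T ∈ P.erase Ts, y T) := mul_le_mul_of_nonneg_left e4 hν.le
          _ = _ := by ring
      have e7 : (1 + 2 ^ J) * (ν * ∏ T ∈ P.erase Ts, y T) ≤
          (1 + 2 ^ J) * (if Ts ∈ U then ∏ T' ∈ U.erase Ts, y T' else 0) := by
        rw [if_pos hA]
        exact mul_le_mul_of_nonneg_left e5 (by positivity)
      linarith
    · have hTsP : ∀ T ∈ P, T ≠ Ts := by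
        rintro T hT rfl
        exact hA (mem_filter.1 hT).1
      by_cases hB : ∃ T ∈ P, T ∉ M ∧ Ts ∈ S.kk M T
      · -- a member is killed
        obtain ⟨T, hTP, hTM, hTk⟩ := hB
        have hTU : T ∈ U := (mem_filter.1 hTP).1
        have heT : e ∉ S.ed T := (mem_filter.1 hTP).2
        have e1 : ∏ T ∈ P, y' T = 0 :=
          prod_eq_zero hTP (B.yn_kill Ts hTs T hTM (hTsP T hTP) hTk)
        rw [e1, zero_sub, abs_neg, abs_of_nonneg (hpr0 P)]
        have hmeth : Ts ∈ S.me T ∨ (T ∈ S.R ∧ Ts ∈ S.th M T) := by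
          unfold Sy.kk at hTk
          split_ifs at hTk with hTR
          · rcases mem_union.1 hTk with h3 | h3
            · exact Or.inl h3
            · exact Or.inr ⟨hTR, h3⟩
          · exact Or.inl hTk
        rcases hmeth with hme | ⟨hTR, hth⟩
        · -- it meets the chosen hyperedge
          obtain ⟨e', he1, he2⟩ := not_disjoint_iff.1 (mem_filter.1 hme).2
          have hoT : o ≠ T := by
            rintro rfl
            exact heT (by rw [hed]; exact mem_singleton_self e)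
          have e2 : ν * ∏ T ∈ P, y T =
              ν * (if o ∈ U ∧ ∃ T ∈ U.erase o, e' ∈ S.ed T then
                ∏ T' ∈ U.erase o, y T' else 0) := by
            rw [if_pos ⟨hoU, T, mem_erase.2 ⟨hoT.symm, hTU⟩, he2⟩, hfil]
          have e3 : ν * (if o ∈ U ∧ ∃ T ∈ U.erase o, e' ∈ S.ed T then
                ∏ T' ∈ U.erase o, y T' else 0) ≤
              ∑ o ∈ S.Vt.filter (fun T => e ∈ S.ed T), ∑ e' ∈ S.ed Ts,
                ν * (if o ∈ U ∧ ∃ T ∈ U.erase o, e' ∈ S.ed T then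
                  ∏ T' ∈ U.erase o, y T' else 0) := by
            have ho' : o ∈ S.Vt.filter (fun T => e ∈ S.ed T) :=
              mem_filter.2 ⟨hoV, by rw [hed]; exact mem_singleton_self e⟩
            refine le_trans ?_ (single_le_sum (f := fun o => ∑ e' ∈ S.ed Ts,
              ν * (if o ∈ U ∧ ∃ T ∈ U.erase o, e' ∈ S.ed T then
                  ∏ T' ∈ U.erase o, y T' else 0))
              (fun o' _ => sum_nonneg fun e' _ => m2 o' e') ho')
            exact single_le_sum (f := fun e' =>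
              ν * (if o ∈ U ∧ ∃ T ∈ U.erase o, e' ∈ S.ed T then
                  ∏ T' ∈ U.erase o, y T' else 0)) (fun e' _ => m2 o e') he1
          linarith
        · -- it is threatened
          have hTs' : T ∈ S.th M Ts := B.th_symm T hTR hTM Ts hth
          have e2 : ν * ∏ T ∈ P, y T ≤
              y T * (if T ∈ U ∧ e ∉ S.ed T then ∏ T' ∈ U.erase T, y T' else 0) := by
            rw [if_pos ⟨hTU, heT⟩, ← mul_prod_erase P y hTP]
            have h5 := mul_le_mul_of_nonneg_left (hfac U hU T hTU heT) (hy0 T)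
            calc ν * (y T * ∏ T' ∈ P.erase T, y T') = y T * (ν * ∏ T' ∈ P.erase T, y T') := by
                  ring
              _ ≤ _ := h5
          have e3 : y T * (if T ∈ U ∧ e ∉ S.ed T then ∏ T' ∈ U.erase T, y T' else 0) ≤
              ∑ T ∈ S.th M Ts, y T *
                (if T ∈ U ∧ e ∉ S.ed T then ∏ T' ∈ U.erase T, y T' else 0) :=
            single_le_sum (f := fun T => y T *
                (if T ∈ U ∧ e ∉ S.ed T then ∏ T' ∈ U.erase T, y T' else 0))
              (fun T _ => m3 T) hTs'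
          linarith
      · -- everything survives
        push Not at hB
        have e1 : ∀ T ∈ P, |y' T - y T| ≤ c0 / S.ww X * y T := by
          intro T hT
          have hne := hTsP T hT
          by_cases hTM : T ∈ M
          · have h3 : y' T = 1 := B.yn_M Ts hTs T hTM
            have h4 : y T = 1 := B.yh_M T hTM
            rw [h3, h4, sub_self, abs_zero]
            linarith
          · have h3 := B.yn_le Ts hTs T hne
            have h4 := B.yn_ge Ts hTs T hne (hB T hT hTM)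
            have h3' : y' T ≤ (1 + c0 / S.ww X) * y T := h3
            have h4' : (1 - c0 / S.ww X) * y T ≤ y' T := h4
            rw [abs_le]
            constructor
            · linarith
            · linarith
        have e2 := f2_diff (P := P) hδ0 hδ1 hy0 hy'0 e1
        have e3 : (P.card : ℝ) * 2 ^ P.card ≤ J * 2 ^ J := by
          have h5 := hcard U hU
          have h6 : (P.card : ℝ) ≤ J := by exact_mod_cast h5
          have h7 : (2 : ℝ) ^ P.card ≤ 2 ^ J := pow_le_pow_right₀ (by norm_num) h5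
          exact mul_le_mul h6 h7 (by positivity) hJ0
        have e4 : |∏ T ∈ P, y' T - ∏ T ∈ P, y T| ≤
            J * 2 ^ J * (c0 / S.ww X) * ∏ T ∈ P, y T := by
          refine e2.trans ?_
          refine mul_le_mul_of_nonneg_right ?_ (hpr0 P)
          exact mul_le_mul_of_nonneg_right e3 hδ0
        have e5 : ν * |∏ T ∈ P, y' T - ∏ T ∈ P, y T| ≤
            J * 2 ^ J * (c0 / S.ww X) * (ν * ∏ T ∈ P, y T) := by
          calc ν * |∏ T ∈ P, y' T - ∏ T ∈ P, y T|
              ≤ ν * (J * 2 ^ J * (c0 / S.ww X) * ∏ T ∈ P, y T) :=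
                mul_le_mul_of_nonneg_left e4 hν.le
            _ = _ := by ring
        linarith
  -- the four sums
  have s1 : ∑ U ∈ S.fF e, (1 + 2 ^ J) * (if Ts ∈ U then ∏ T' ∈ U.erase Ts, y T' else 0) ≤
      (1 + 2 ^ J) * r := by
    rw [← mul_sum]
    refine mul_le_mul_of_nonneg_left ?_ (by positivity)
    refine (f2_sub (S := S) e e Ts y hy0 (p := fun U => Ts ∈ U) ?_).trans
      (hL.cB Ts hTsU e he hTe)
    intro U hU hTsU'
    obtain ⟨hUc, o, hoU, hoV, hed, hfil⟩ := f1_mem hg hU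
    have heo : e ∈ S.ed o := by rw [hed]; exact mem_singleton_self e
    refine ⟨hTsU', o, mem_erase.2 ⟨?_, hoU⟩, heo⟩
    rintro rfl
    exact hTe heo
  have s2 : ∑ U ∈ S.fF e, ∑ o ∈ S.Vt.filter (fun T => e ∈ S.ed T), ∑ e' ∈ S.ed Ts,
      ν * (if o ∈ U ∧ ∃ T ∈ U.erase o, e' ∈ S.ed T then ∏ T' ∈ U.erase o, y T' else 0) ≤
      12 * r := by
    rw [sum_comm]
    have h3 : ∀ o ∈ S.Vt.filter (fun T => e ∈ S.ed T), ∑ U ∈ S.fF e, ∑ e' ∈ S.ed Ts,
        ν * (if o ∈ U ∧ ∃ T ∈ U.erase o, e' ∈ S.ed T then ∏ T' ∈ U.erase o, y T' else 0) ≤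
        3 * (ν * r) := by
      intro o ho
      obtain ⟨hoV, heo⟩ := mem_filter.1 ho
      have hed : S.ed o = {e} := by
        obtain ⟨a, ha⟩ := card_eq_one.1 (hg.card1 o hoV)
        rw [ha] at heo ⊢
        rw [mem_singleton.1 heo]
      rw [sum_comm]
      have h4 : ∀ e' ∈ S.ed Ts, ∑ U ∈ S.fF e,
          ν * (if o ∈ U ∧ ∃ T ∈ U.erase o, e' ∈ S.ed T then ∏ T' ∈ U.erase o, y T' else 0) ≤
          ν * r := by
        intro e' he'
        rw [← mul_sum]
        refine mul_le_mul_of_nonneg_left ?_ hν.le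
        have hne : e' ∉ S.ed o := by
          rw [hed, mem_singleton]
          rintro rfl
          exact hTe he'
        refine (f2_sub (S := S) e e' o y hy0
          (p := fun U => o ∈ U ∧ ∃ T ∈ U.erase o, e' ∈ S.ed T) ?_).trans
          (hL.cB o (mem_union_right _ hoV) e' (hTsal he') hne)
        exact fun U _ h => h
      refine (sum_le_sum h4).trans ?_
      rw [sum_const, hg.card3 Ts hTsR, nsmul_eq_mul]
      norm_num
    refine (sum_le_sum h3).trans ?_
    rw [sum_const, nsmul_eq_mul]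
    have h5 := hL.V_hi e
    have h6 : ((S.Vt.filter (fun T => e ∈ S.ed T)).card : ℝ) * (3 * (ν * r)) =
        3 * r * (((S.Vt.filter (fun T => e ∈ S.ed T)).card : ℝ) * ν) := by ring
    rw [h6]
    have h7 : 3 * r * (((S.Vt.filter (fun T => e ∈ S.ed T)).card : ℝ) * ν) ≤ 3 * r * 4 :=
      mul_le_mul_of_nonneg_left h5 (by positivity)
    linarith
  have s3 : ∑ U ∈ S.fF e, ∑ T ∈ S.th M Ts,
      y T * (if T ∈ U ∧ e ∉ S.ed T then ∏ T' ∈ U.erase T, y T' else 0) ≤ K * r := by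
    rw [sum_comm]
    have h3 : ∀ T ∈ S.th M Ts, ∑ U ∈ S.fF e,
        y T * (if T ∈ U ∧ e ∉ S.ed T then ∏ T' ∈ U.erase T, y T' else 0) ≤ y T * r := by
      intro T hT
      rw [← mul_sum]
      refine mul_le_mul_of_nonneg_left ?_ (hy0 T)
      by_cases heT : e ∈ S.ed T
      · have h4 : ∑ U ∈ S.fF e,
            (if T ∈ U ∧ e ∉ S.ed T then ∏ T' ∈ U.erase T, y T' else 0) = 0 := by
          refine sum_eq_zero fun U _ => ?_
          rw [if_neg fun h => h.2 heT]
        rw [h4]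
        exact hr.le
      · refine (f2_sub (S := S) e e T y hy0 (p := fun U => T ∈ U ∧ e ∉ S.ed T) ?_).trans
          (hL.cB T (mem_union_left _ (mem_filter.1 hT).1) e he heT)
        intro U hU hTU
        obtain ⟨hUc, o, hoU, hoV, hed, hfil⟩ := f1_mem hg hU
        have heo : e ∈ S.ed o := by rw [hed]; exact mem_singleton_self e
        refine ⟨hTU.1, o, mem_erase.2 ⟨?_, hoU⟩, heo⟩
        rintro rfl
        exact heT heo
    refine (sum_le_sum h3).trans ?_
    rw [← sum_mul]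
    exact mul_le_mul_of_nonneg_right (B.th_yh Ts hTsU hTsM) hr.le
  have s4 : ∑ U ∈ S.fF e, J * 2 ^ J * (c0 / S.ww X) *
      (ν * ∏ T ∈ U.filter (fun T => e ∉ S.ed T), y T) ≤ J * 2 ^ J * r * F := by
    rw [← mul_sum]
    have h3 : ∑ U ∈ S.fF e, ν * ∏ T ∈ U.filter (fun T => e ∉ S.ed T), y T = S.FF ν y e := rfl
    rw [h3]
    have h4 : 0 ≤ S.FF ν y e := sum_nonneg fun U _ =>
      mul_nonneg hν.le (prod_nonneg fun T _ => hy0 T)
    refine mul_le_mul ?_ hFF h4 (by positivity)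
    exact mul_le_mul_of_nonneg_left B.W_big hJ2
  have hdiff : S.FF ν y' e - S.FF ν y e = ∑ U ∈ S.fF e,
      ν * (∏ T ∈ U.filter (fun T => e ∉ S.ed T), y' T -
        ∏ T ∈ U.filter (fun T => e ∉ S.ed T), y T) := by
    unfold Sy.FF
    rw [← sum_sub_distrib]
    exact sum_congr rfl fun U _ => by ring
  rw [hdiff]
  refine (abs_sum_le_sum_abs _ _).trans ?_
  have h5 : ∀ U ∈ S.fF e, |ν * (∏ T ∈ U.filter (fun T => e ∉ S.ed T), y' T -
      ∏ T ∈ U.filter (fun T => e ∉ S.ed T), y T)| ≤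
      (1 + 2 ^ J) * (if Ts ∈ U then ∏ T' ∈ U.erase Ts, y T' else 0) +
      (∑ o ∈ S.Vt.filter (fun T => e ∈ S.ed T), ∑ e' ∈ S.ed Ts,
        ν * (if o ∈ U ∧ ∃ T ∈ U.erase o, e' ∈ S.ed T then ∏ T' ∈ U.erase o, y T' else 0)) +
      (∑ T ∈ S.th M Ts, y T * (if T ∈ U ∧ e ∉ S.ed T then ∏ T' ∈ U.erase T, y T' else 0)) +
      J * 2 ^ J * (c0 / S.ww X) * (ν * ∏ T ∈ U.filter (fun T => e ∉ S.ed T), y T) := by
    intro U hU
    rw [abs_mul, abs_of_pos hν]
    exact key U hU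
  refine (sum_le_sum h5).trans ?_
  rw [sum_add_distrib, sum_add_distrib, sum_add_distrib]
  have h6 : r ≤ r * F := by nlinarith
  have h7 : (1 + 2 ^ J) * r ≤ (1 + 2 ^ J) * (r * F) :=
    mul_le_mul_of_nonneg_left h6 (by positivity)
  have h8 : K * r ≤ K * (r * F) := mul_le_mul_of_nonneg_left h6 (by linarith)
  have h9 : (c0 + 1 + 2 ^ J + 12 + K + J * 2 ^ J) * r * F =
      c0 * (r * F) + (1 + 2 ^ J) * (r * F) + 12 * (r * F) + K * (r * F) +
        J * 2 ^ J * r * F := by ring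
  rw [h9]
  have h10 : 0 ≤ c0 * (r * F) := by positivity
  linarith

end F2
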