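import Pool.Agent.F2.N.Fin1

/-!
# Project F2, block N: the initial state
-/

set_option autoImplicit false
set_option linter.unusedSectionVars false

namespace F2

open Finset
open Pool.Agent.F2 (HH GG)

section

variable {ι τ σ : Type} [Fintype ι] [Fintype τ] [Fintype σ] [DecidableEq ι] [DecidableEq τ]
  {S : Sy ι τ} {J k : ℕ} {K δ n ν : ℝ} {E0 : Finset ι} {X0 x0 : τ → ℝ} {Q : σ → Finset ι}

theorem al_empty : S.al E0 (∅ : Finset τ) = E0 := by
  unfold Sy.al
  simp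

theorem Sy.Hyp.yh_nonneg (h : S.Hyp J k K δ n ν E0 X0 x0 Q) (T : τ) :
    0 ≤ S.yh ν 1 E0 ∅ X0 T := by
  have h1 := h.X_nonneg T
  have h2 := h.ν_pos
  unfold Sy.yh
  split_ifs <;> positivity

theorem Sy.Hyp.yh_le (h : S.Hyp J k K δ n ν E0 X0 x0 Q) (T : τ) :
    S.yh ν 1 E0 ∅ X0 T ≤ S.y0 X0 ν T := by
  have h2 := h.ν_pos
  unfold Sy.yh Sy.y0
  by_cases hR : T ∈ S.R
  · rw [if_pos hR, if_pos hR, if_neg (Finset.notMem_empty T)]
    apply le_of_eq
    norm_num
  · rw [if_neg hR, if_neg hR]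
    by_cases hV : T ∈ S.Vt
    · rw [if_pos hV]
      split_ifs
      · rw [div_one]
      · exact h2.le
    · rw [if_neg hV, if_neg fun h3 => hV h3.1]

theorem Sy.Hyp.inv0 (h : S.Hyp J k K δ n ν E0 X0 x0 Q) : S.Inv E0 1 ∅ X0 x0 where
  M_sub := Finset.empty_subset _
  M_ed := fun T hT => absurd hT (Finset.notMem_empty T)
  M_disj := fun T hT => absurd hT (Finset.notMem_empty T)
  M_conf := fun U hU hsub => by
    have h1 := h.good.conf_ne U hU
    rw [Finset.subset_empty.1 hsub] at h1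
    exact Finset.not_nonempty_empty h1
  al_card := by rw [al_empty, one_mul]
  X_nonneg := h.X_nonneg
  X_ne := fun T hT => by
    obtain ⟨h1, h2, h3⟩ := h.X_ne T hT
    refine ⟨h1, by rwa [al_empty], fun U hU hTU hsub => h3 ?_⟩
    have h4 : U = {T} := by
      rw [← Finset.insert_erase hTU, Finset.subset_empty.1 hsub]
      rfl
    rwa [← h4]
  x_nonneg := h.x_nonneg
  x_ne := fun T hT => by
    obtain ⟨h1, h3⟩ := h.x_ne T hT
    refine ⟨h1, fun U hU hTU hsub => h3 ?_⟩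
    have h4 : U = {T} := by
      rw [← Finset.insert_erase hTU, Finset.subset_empty.1 hsub]
      rfl
    rwa [← h4]

theorem Sy.Hyp.ff0 (h : S.Hyp J k K δ n ν E0 X0 x0 Q) {e : ι} (he : e ∈ E0) :
    S.FF ν (S.yh ν 1 E0 ∅ X0) e ≤ n ^ δ := by
  refine le_trans ?_ (h.hF e he)
  unfold Sy.FF
  refine Finset.sum_le_sum fun U hU => ?_
  obtain ⟨hUc, -, o, ho, heo⟩ := Finset.mem_filter.1 hU
  obtain ⟨hoU, hoV⟩ := Finset.mem_inter.1 ho
  have hoR : o ∉ S.R := fun h1 => Finset.disjoint_left.1 h.good.disj h1 hoV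
  have h1 : U.filter (fun T => e ∉ S.ed T) = U.erase o := by
    ext T
    rw [Finset.mem_filter, Finset.mem_erase]
    constructor
    · rintro ⟨h2, h3⟩
      exact ⟨fun h4 => h3 (h4 ▸ heo), h2⟩
    · rintro ⟨h2, h3⟩
      exact ⟨h3, fun h4 => Finset.disjoint_left.1
        (h.good.conf_disj U hUc T h3 o hoU h2) h4 heo⟩
  rw [h1, ← Finset.mul_prod_erase U _ hoU]
  have h2 : S.y0 X0 ν o = ν := by
    unfold Sy.y0
    rw [if_neg hoR, if_pos hoV]
  rw [h2]
  refine mul_le_mul_of_nonneg_left ?_ h.ν_pos.le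
  exact Finset.prod_le_prod (fun T _ => h.yh_nonneg T) fun T _ => h.yh_le T

theorem Sy.Hyp.yy0 (h : S.Hyp J k K δ n ν E0 X0 x0 Q) {T : τ} (hT : T ∈ S.R ∪ S.Vt) :
    S.YY ∅ (S.yh ν 1 E0 ∅ X0) T ≤ K := by
  refine le_trans ?_ (h.hY T hT)
  unfold Sy.YY
  have h0 : ∀ U : Finset τ, 0 ≤ ∏ T' ∈ U.erase T, 2 * X0 T' := fun U =>
    Finset.prod_nonneg fun T' _ => by
      have := h.X_nonneg T'
      positivity
  calc ∑ U ∈ S.conf.filter (fun U => T ∈ U ∧ U.erase T ⊆ S.R ∧ ¬ U.erase T ⊆ ∅),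
        ∏ T' ∈ U.erase T, S.yh ν 1 E0 ∅ X0 T'
      ≤ ∑ U ∈ S.conf.filter (fun U => T ∈ U ∧ U.erase T ⊆ S.R ∧ ¬ U.erase T ⊆ ∅),
        ∏ T' ∈ U.erase T, 2 * X0 T' := by
        refine Finset.sum_le_sum fun U hU => Finset.prod_le_prod (fun T _ => h.yh_nonneg T) ?_
        intro T' hT'
        obtain ⟨-, -, h1, -⟩ := Finset.mem_filter.1 hU
        unfold Sy.yh
        rw [if_pos (h1 hT'), if_neg (Finset.notMem_empty T')]
        apply le_of_eq
        norm_num
    _ ≤ _ := by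
        refine Finset.sum_le_sum_of_subset_of_nonneg ?_ fun U _ _ => h0 U
        intro U hU
        obtain ⟨h1, h2, h3, h4⟩ := Finset.mem_filter.1 hU
        refine Finset.mem_filter.2 ⟨h1, h2, fun h5 => h4 ?_, h3⟩
        rw [h5, Finset.erase_singleton]

theorem Sy.Hyp.gs0 (h : S.Hyp J k K δ n ν E0 X0 x0 Q) (hk : k ≠ 0) (hn : 1 ≤ n) :
    S.GS (n ^ (-(19 / 20) : ℝ)) k E0 (S.yh ν 1 E0 ∅ X0) ≤ 4 * n ^ 6 * n ^ (-(9 / 10) * k : ℝ) := by
  have hn0 : 0 < n := by linarith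
  set ε := n ^ (-(19 / 20) : ℝ) with hε
  have hε0 : 0 ≤ ε := by positivity
  set g := n ^ (-(9 / 10) * k : ℝ) with hg
  have hg0 : 0 ≤ g := by positivity
  have hmono : ∀ F : Finset (Finset τ), GG ε (S.yh ν 1 E0 ∅ X0) F k ≤ GG ε (S.y0 X0 ν) F k :=
    fun F => Pool.Agent.F2.GG_mono hε0 le_rfl h.yh_nonneg h.yh_le (Finset.Subset.refl F) k
  have h3 : ∀ i, GG ε (S.yh ν 1 E0 ∅ X0) (S.fam3 i) k ≤ g := by
    intro i
    rcases i with q | q | q
    · simp only [Sy.fam3]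
      split_ifs with hq
      · rw [GG_empty hk]
        exact hg0
      · exact (hmono _).trans (h.mA _ _ hq)
    · simp only [Sy.fam3]
      split_ifs with hq
      · rw [GG_empty hk]
        exact hg0
      · exact (hmono _).trans (h.mA' _ _ hq)
    · simp only [Sy.fam3]
      split_ifs with hq
      · exact (hmono _).trans (h.mE _ hq.1 _ hq.2.1 hq.2.2)
      · rw [GG_empty hk]
        exact hg0
  have hB : ∀ T, ∀ e ∈ E0, GG ε (S.yh ν 1 E0 ∅ X0) (S.famB T e) k ≤ g := by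
    intro T e he
    unfold Sy.famB
    split_ifs with hq
    · exact (hmono _).trans (h.mB _ hq.1 e he hq.2)
    · rw [GG_empty hk]
      exact hg0
  unfold Sy.GS
  have s1 : ∑ i : τ × τ ⊕ τ × τ ⊕ τ × τ, GG ε (S.yh ν 1 E0 ∅ X0) (S.fam3 i) k ≤
      3 * (Fintype.card τ : ℝ) ^ 2 * g := by
    refine (Finset.sum_le_sum fun i _ => h3 i).trans (le_of_eq ?_)
    rw [Finset.sum_const, Finset.card_univ, Fintype.card_sum, Fintype.card_sum, Fintype.card_prod,
      nsmul_eq_mul]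
    push_cast
    ring
  have s2 : ∑ T : τ, ∑ e ∈ E0, GG ε (S.yh ν 1 E0 ∅ X0) (S.famB T e) k ≤
      (Fintype.card τ : ℝ) * ((E0.card : ℝ) * g) := by
    refine (Finset.sum_le_sum fun T _ => Finset.sum_le_sum fun e he => hB T e he).trans
      (le_of_eq ?_)
    rw [Finset.sum_const, Finset.sum_const, Finset.card_univ, nsmul_eq_mul, nsmul_eq_mul]
  have c1 : (Fintype.card τ : ℝ) ^ 2 ≤ n ^ 6 := by
    have h4 : (0 : ℝ) ≤ Fintype.card τ := Nat.cast_nonneg _
    calc (Fintype.card τ : ℝ) ^ 2 ≤ (n ^ 3) ^ 2 := by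
          gcongr
          exact h.cτ
      _ = n ^ 6 := by ring
  have c2 : (Fintype.card τ : ℝ) * (E0.card : ℝ) ≤ n ^ 6 := by
    have h4 : (0 : ℝ) ≤ E0.card := Nat.cast_nonneg _
    calc (Fintype.card τ : ℝ) * (E0.card : ℝ) ≤ n ^ 3 * n ^ 2 := by
          gcongr
          · exact h.cτ
          · exact h.E_hi
      _ = n ^ 5 * 1 := by ring
      _ ≤ n ^ 5 * n := by gcongr
      _ = n ^ 6 := by ring
  have c3 : 3 * (Fintype.card τ : ℝ) ^ 2 * g ≤ 3 * n ^ 6 * g := by gcongr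
  have c4 : (Fintype.card τ : ℝ) * ((E0.card : ℝ) * g) ≤ n ^ 6 * g := by
    rw [← mul_assoc]
    gcongr
  linarith

/-- the initial state is good -/
theorem Sy.Hyp.gst0 (π : NPar) (h : S.Hyp J π.k π.K δ π.n π.ν E0 X0 x0 Q) (hn : 1 ≤ π.n)
    (hk : π.k ≠ 0) (hF : π.F₀ = π.n ^ δ) (hε : π.ε = π.n ^ (-(19 / 20) : ℝ)) (hA : 0 < π.A)
    (hl : 0 < π.l) (hκ1 : 0 < π.κ₁) (hκ : π.κ₁ ≤ π.κ₂)
    (q10 : 6 * π.n ^ 3 * Real.exp (-(π.l * π.κ₁)) ≤ 1 / 4)
    (q11 : 4 * π.n ^ 6 * π.n ^ (-(9 / 10) * π.k : ℝ) / π.A ≤ 1 / 4) :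
    S.Gst π (π.K / π.n) E0 Q 1 ∅ X0 x0 := by
  have hn0 : 0 < π.n := by linarith
  refine ⟨h.inv0, ?_, ?_, ?_⟩
  · intro T
    have := h.X_le T
    simpa using this
  · intro T
    have := h.x_le T
    simpa using this
  · have hE := h.E_hi
    have hτ := h.cτ
    have hσ := h.cσ
    set E := Real.exp (-(π.l * π.κ₁)) with hEdef
    have hE0 : 0 < E := Real.exp_pos _
    have hE2 : Real.exp (-(π.l * π.κ₂)) ≤ E := by
      apply Real.exp_le_exp.2
      nlinarith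
    have hcard : ((S.al E0 (∅ : Finset τ)).card : ℝ) ≤ π.n ^ 2 := by rwa [al_empty]
    have p1 : (∑ e ∈ S.al E0 (∅ : Finset τ), Real.exp (π.l * (S.we X0 e - π.κ₁ / 1 ^ 3))) *
        Real.exp (-π.l) ≤ π.n ^ 2 * E := by
      rw [Finset.sum_mul]
      have : ∀ e ∈ S.al E0 (∅ : Finset τ), Real.exp (π.l * (S.we X0 e - π.κ₁ / 1 ^ 3)) *
          Real.exp (-π.l) ≤ E := by
        intro e he
        rw [al_empty] at he
        have h1 : S.we X0 e = 1 := h.X_one e he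
        rw [h1, ← Real.exp_add]
        apply le_of_eq
        rw [hEdef]
        congr 1
        ring
      refine (Finset.sum_le_sum this).trans ?_
      rw [Finset.sum_const, nsmul_eq_mul]
      gcongr
    have p2 : (∑ e ∈ S.al E0 (∅ : Finset τ), Real.exp (π.l * (-S.we X0 e - π.κ₁ / 1 ^ 3))) *
        Real.exp π.l ≤ π.n ^ 2 * E := by
      rw [Finset.sum_mul]
      have : ∀ e ∈ S.al E0 (∅ : Finset τ), Real.exp (π.l * (-S.we X0 e - π.κ₁ / 1 ^ 3)) *
          Real.exp π.l ≤ E := by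
        intro e he
        rw [al_empty] at he
        have h1 : S.we X0 e = 1 := h.X_one e he
        rw [h1, ← Real.exp_add]
        apply le_of_eq
        rw [hEdef]
        congr 1
        ring
      refine (Finset.sum_le_sum this).trans ?_
      rw [Finset.sum_const, nsmul_eq_mul]
      gcongr
    have p3 : (∑ e ∈ S.al E0 (∅ : Finset τ), Real.exp (π.l * (-S.se x0 e - π.κ₂ / 1 ^ 3))) *
        Real.exp (π.l / 8) ≤ π.n ^ 2 * E := by
      rw [Finset.sum_mul]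
      have : ∀ e ∈ S.al E0 (∅ : Finset τ), Real.exp (π.l * (-S.se x0 e - π.κ₂ / 1 ^ 3)) *
          Real.exp (π.l / 8) ≤ E := by
        intro e he
        rw [al_empty] at he
        have h1 : 1 / 8 ≤ S.se x0 e := h.x_lo e he
        refine le_trans ?_ hE2
        rw [← Real.exp_add]
        apply Real.exp_le_exp.2
        nlinarith
      refine (Finset.sum_le_sum this).trans ?_
      rw [Finset.sum_const, nsmul_eq_mul]
      gcongr
    have hF0 : 0 < π.F₀ := by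
      rw [hF]
      positivity
    have p4 : (∑ e ∈ S.al E0 (∅ : Finset τ),
        Real.exp (π.l * (S.FF π.ν (S.yh π.ν 1 E0 ∅ X0) e / π.F₀ - π.κ₂ / 1 ^ 3))) *
        Real.exp (-π.l) ≤ π.n ^ 2 * E := by
      rw [Finset.sum_mul]
      have : ∀ e ∈ S.al E0 (∅ : Finset τ),
          Real.exp (π.l * (S.FF π.ν (S.yh π.ν 1 E0 ∅ X0) e / π.F₀ - π.κ₂ / 1 ^ 3)) *
          Real.exp (-π.l) ≤ E := by
        intro e he
        rw [al_empty] at he
        have h1 : S.FF π.ν (S.yh π.ν 1 E0 ∅ X0) e / π.F₀ ≤ 1 := by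
          rw [div_le_one hF0, hF]
          exact h.ff0 he
        refine le_trans ?_ hE2
        rw [← Real.exp_add]
        apply Real.exp_le_exp.2
        nlinarith
      refine (Finset.sum_le_sum this).trans ?_
      rw [Finset.sum_const, nsmul_eq_mul]
      gcongr
    have p5 : (∑ T ∈ (S.R ∪ S.Vt) \ ∅,
        Real.exp (π.l * (S.YY ∅ (S.yh π.ν 1 E0 ∅ X0) T - π.κ₂ / 1 ^ 3))) *
        Real.exp (-(π.l * π.K)) ≤ π.n ^ 3 * E := by
      rw [Finset.sum_mul]
      have : ∀ T ∈ (S.R ∪ S.Vt) \ ∅,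
          Real.exp (π.l * (S.YY ∅ (S.yh π.ν 1 E0 ∅ X0) T - π.κ₂ / 1 ^ 3)) *
          Real.exp (-(π.l * π.K)) ≤ E := by
        intro T hT
        have h1 := h.yy0 (Finset.mem_sdiff.1 hT).1
        refine le_trans ?_ hE2
        rw [← Real.exp_add]
        apply Real.exp_le_exp.2
        nlinarith
      refine (Finset.sum_le_sum this).trans ?_
      rw [Finset.sum_const, nsmul_eq_mul]
      have h2 : ((((S.R ∪ S.Vt) \ ∅).card : ℕ) : ℝ) ≤ Fintype.card τ := by
        exact_mod_cast Finset.card_le_univ _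
      have := h2.trans hτ
      gcongr
    have p6 : (∑ j : σ, Real.exp (π.l * (S.DD π.n 1 E0 ∅ (Q j) - π.κ₂ / 1 ^ 3))) *
        Real.exp (-π.l) ≤ π.n * E := by
      rw [Finset.sum_mul]
      have : ∀ j ∈ (univ : Finset σ),
          Real.exp (π.l * (S.DD π.n 1 E0 ∅ (Q j) - π.κ₂ / 1 ^ 3)) * Real.exp (-π.l) ≤ E := by
        intro j _
        have h1 : S.DD π.n 1 E0 ∅ (Q j) ≤ 1 := by
          unfold Sy.DD
          rw [one_mul, div_le_one hn0]
          refine le_trans ?_ (h.Q_card j)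
          exact_mod_cast Finset.card_le_card Finset.inter_subset_left
        refine le_trans ?_ hE2
        rw [← Real.exp_add]
        apply Real.exp_le_exp.2
        nlinarith
      refine (Finset.sum_le_sum this).trans ?_
      rw [Finset.sum_const, nsmul_eq_mul, Finset.card_univ]
      gcongr
    have p7 : S.GS π.ε π.k E0 (S.yh π.ν 1 E0 ∅ X0) * (1 ^ π.m / π.A) ≤ 1 / 4 := by
      refine le_trans ?_ q11
      rw [one_pow, mul_one_div, hε]
      gcongr
      exact h.gs0 hk hn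
    have q : 4 * (π.n ^ 2 * E) + π.n ^ 3 * E + π.n * E ≤ 6 * π.n ^ 3 * E := by
      have h1 : π.n ^ 2 ≤ π.n ^ 3 := pow_le_pow_right₀ hn (by norm_num)
      have h2 : π.n ≤ π.n ^ 3 := by
        calc π.n = π.n ^ 1 := (pow_one _).symm
          _ ≤ π.n ^ 3 := pow_le_pow_right₀ hn (by norm_num)
      nlinarith
    simp only [Sy.Ph]
    linarith

end

end F2
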