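import Pool.Agent.F2.N.Spec

/-!
# Project F2, block N, row N16: the conclusion, from the final state
-/

set_option autoImplicit false
set_option linter.unusedSectionVars false

namespace F2

open Finset
open Pool.Agent.F2 (HH GG)

section OutSec

variable {ι τ : Type} [Fintype ι] [Fintype τ] [DecidableEq ι] [DecidableEq τ] (S : Sy ι τ)

theorem out_yh_nonneg {ν p : ℝ} {E0 : Finset ι} {M : Finset τ} {X x : τ → ℝ}
    (hi : S.Inv E0 p M X x) (hν : 0 < ν) (hp : 0 < p) (T : τ) : 0 ≤ S.yh ν p E0 M X T := by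
  unfold Sy.yh
  have h1 := hi.X_nonneg T
  split_ifs
  · exact zero_le_one
  · positivity
  · positivity
  · exact le_rfl

/-- the weight of one configuration in the conclusion -/
theorem out_one {J : ℕ} {ν p : ℝ} {E0 : Finset ι} {M : Finset τ} {X : τ → ℝ}
    (hg : S.Good J) (hν : 0 < ν) (hp : 0 < p) (hp1 : p ≤ 1) {U : Finset τ} {e : ι}
    (hU : U ∈ S.fF e) (hR : U ∩ S.R ⊆ M) (hV : ∀ o ∈ U ∩ S.Vt, S.ed o ⊆ S.al E0 M) :
    ν ^ (U ∩ S.Vt).card ≤
      p * (ν * ∏ T ∈ U.filter (fun T => e ∉ S.ed T), S.yh ν p E0 M X T) := by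
  unfold Sy.fF at hU
  rw [mem_filter] at hU
  obtain ⟨hc, h2, o, ho, heo⟩ := hU
  obtain ⟨hoU, hoV⟩ := mem_inter.1 ho
  have h3 : U.filter (fun T => e ∉ S.ed T) = U.erase o := by
    ext T
    rw [mem_filter, mem_erase]
    constructor
    · rintro ⟨h4, h5⟩
      exact ⟨fun h => h5 (h ▸ heo), h4⟩
    · rintro ⟨h4, h5⟩
      exact ⟨h5, fun h => disjoint_left.1 (hg.conf_disj U hc T h5 o hoU h4) h heo⟩
  have h4 : ∏ T ∈ U.erase o, S.yh ν p E0 M X T = (ν / p) ^ ((U ∩ S.Vt).erase o).card := by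
    have h5 : ∏ T ∈ U.erase o, S.yh ν p E0 M X T =
        ∏ T ∈ U.erase o, (if T ∈ S.Vt then ν / p else 1) := by
      refine prod_congr rfl fun T hT => ?_
      have hTU := mem_of_mem_erase hT
      rcases mem_union.1 (hg.conf_sub U hc hTU) with h6 | h6
      · have h7 : T ∉ S.Vt := fun h => disjoint_left.1 hg.disj h6 h
        have h8 : T ∈ M := hR (mem_inter.2 ⟨hTU, h6⟩)
        unfold Sy.yh
        rw [if_pos h6, if_pos h8, if_neg h7]
      · have h7 : T ∉ S.R := fun h => disjoint_left.1 hg.disj h h6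
        unfold Sy.yh
        rw [if_neg h7, if_pos ⟨h6, hV T (mem_inter.2 ⟨hTU, h6⟩)⟩, if_pos h6]
    rw [h5, prod_ite, prod_const, prod_const_one, mul_one]
    congr 2
    ext T
    simp only [mem_filter, mem_erase, mem_inter]
    tauto
  rw [h3, h4, card_erase_of_mem ho]
  obtain ⟨j, hj⟩ := Nat.exists_eq_add_of_le h2
  rw [hj]
  have e1 : 2 + j - 1 = j + 1 := by omega
  rw [e1]
  have h6 : p * (ν * (ν / p) ^ (j + 1)) = ν ^ (2 + j) / p ^ j := by
    rw [div_pow]
    field_simp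
    ring
  rw [h6, le_div_iff₀ (pow_pos hp j)]
  have h7 : p ^ j ≤ 1 := pow_le_one₀ hp.le hp1
  have h8 : 0 < ν ^ (2 + j) := pow_pos hν _
  nlinarith

end OutSec

theorem out_ok : SpOut := by
  intro ι τ σ _ _ _ _ _ S J C ω n ν p F E0 Q M X x hg hi hν hp hp1 hn hQ hx hs hF hD h1 h2
  refine ⟨hi.M_sub, hi.M_ed, hi.M_disj, hi.M_conf, ?_, hi.x_nonneg, hx, hi.x_ne, ?_, ?_⟩
  · intro j
    have h3 : Q j \ M.biUnion S.ed = Q j ∩ S.al E0 M := by
      ext e
      unfold Sy.al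
      rw [mem_sdiff, mem_inter, mem_sdiff]
      constructor
      · rintro ⟨h4, h5⟩
        exact ⟨h4, hQ j h4, h5⟩
      · rintro ⟨h4, _, h5⟩
        exact ⟨h4, h5⟩
    rw [h3]
    have h4 := hD j
    unfold Sy.DD at h4
    rw [div_le_iff₀ (mul_pos hp hn)] at h4
    linarith
  · intro e he
    exact hs e he
  · intro e he
    have h3 : ∑ U ∈ (S.fF e).filter (fun U => U ∩ S.R ⊆ M ∧
        ∀ o ∈ U ∩ S.Vt, S.ed o ⊆ E0 \ M.biUnion S.ed), ν ^ (U ∩ S.Vt).card ≤
        ∑ U ∈ S.fF e,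
          p * (ν * ∏ T ∈ U.filter (fun T => e ∉ S.ed T), S.yh ν p E0 M X T) := by
      refine le_trans (sum_le_sum fun U hU => ?_)
        (sum_le_sum_of_subset_of_nonneg (filter_subset _ _) fun U _ _ => ?_)
      · obtain ⟨h4, h5, h6⟩ := mem_filter.1 hU
        exact out_one S hg hν hp hp1 h4 h5 h6
      · have h7 : 0 ≤ ∏ T ∈ U.filter (fun T => e ∉ S.ed T), S.yh ν p E0 M X T :=
          prod_nonneg fun T _ => out_yh_nonneg S hi hν hp T
        positivity
    rw [← mul_sum] at h3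
    have h4 := hF e he
    unfold Sy.FF at h4
    have h5 := mul_le_mul_of_nonneg_left h4 hp.le
    linarith

end F2
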