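import Pool.Agent.F2.N.Base

/-!
# Project F2, block N, row N2: overlaps of the kill sets (helper16)
-/

set_option autoImplicit false
set_option linter.unusedSectionVars false

namespace F2

open Finset

section Ov

/-- a sum over a covered set -/
theorem ov_cover {τ κ : Type} [DecidableEq τ] {A : Finset τ} (Q : Finset κ) (G : κ → Finset τ)
    {f : τ → ℝ} (hf : ∀ T, 0 ≤ f T) (h : ∀ T ∈ A, f T ≠ 0 → ∃ q ∈ Q, T ∈ G q) :
    ∑ T ∈ A, f T ≤ ∑ q ∈ Q, ∑ T ∈ G q, f T := by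
  have e : ∑ q ∈ Q, ∑ T ∈ A, (if T ∈ G q then f T else 0) ≤ ∑ q ∈ Q, ∑ T ∈ G q, f T := by
    refine sum_le_sum fun q _ => ?_
    rw [← sum_filter]
    refine sum_le_sum_of_subset_of_nonneg ?_ fun T _ _ => hf T
    intro T hT
    exact (mem_filter.1 hT).2
  refine le_trans ?_ e
  rw [sum_comm]
  refine sum_le_sum fun T hT => ?_
  have h0 : ∀ q ∈ Q, 0 ≤ (if T ∈ G q then f T else 0) := by
    intro q _
    split_ifs
    · exact hf T
    · exact le_rfl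
  by_cases hz : f T = 0
  · rw [hz]
    refine sum_nonneg fun q _ => ?_
    split_ifs <;> exact le_rfl
  · obtain ⟨q, hq, hTq⟩ := h T hT hz
    refine le_trans (le_of_eq ?_) (single_le_sum h0 hq)
    exact (if_pos hTq).symm

variable {ι τ : Type} [Fintype ι] [Fintype τ] [DecidableEq ι] [DecidableEq τ] {S : Sy ι τ}
  {J : ℕ} {K C₁ ν p β r : ℝ} {E0 : Finset ι} {M : Finset τ} {X x : τ → ℝ}

theorem ov_X_le (L : S.Loc J K C₁ ν p β r E0 M X x) (T : τ) : X T ≤ r := by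
  have h1 := L.X_le T
  have h2 := L.p_pos
  have h3 := L.inv.X_nonneg T
  have h4 : 0 ≤ 1 / p * X T := by positivity
  linarith

/-- share / share -/
theorem ov_me_me (L : S.Loc J K C₁ ν p β r E0 M X x) {T T' : τ} (hT : T ∈ S.R ∪ S.Vt)
    (hT' : T' ∈ S.R ∪ S.Vt) (hd : Disjoint (S.ed T) (S.ed T')) :
    ∑ Ts ∈ S.me T ∩ S.me T', X Ts ≤ 9 * r := by
  have hr := L.r_pos
  have h1 : ∑ Ts ∈ S.me T ∩ S.me T', X Ts ≤ ∑ q ∈ S.ed T ×ˢ S.ed T',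
      ∑ Ts ∈ S.R.filter (fun Ts => q.1 ∈ S.ed Ts ∧ q.2 ∈ S.ed Ts), X Ts := by
    refine ov_cover _ _ L.inv.X_nonneg fun Ts hTs _ => ?_
    obtain ⟨h1, h2⟩ := mem_inter.1 hTs
    obtain ⟨hR, h1⟩ := mem_filter.1 h1
    obtain ⟨-, h2⟩ := mem_filter.1 h2
    obtain ⟨e, he, he1⟩ := not_disjoint_iff.1 h1
    obtain ⟨e', he', he2⟩ := not_disjoint_iff.1 h2
    exact ⟨(e, e'), mem_product.2 ⟨he1, he2⟩, mem_filter.2 ⟨hR, he, he'⟩⟩
  have h2 : ∀ q ∈ S.ed T ×ˢ S.ed T',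
      ∑ Ts ∈ S.R.filter (fun Ts => q.1 ∈ S.ed Ts ∧ q.2 ∈ S.ed Ts), X Ts ≤ r := by
    intro q hq
    obtain ⟨hq1, hq2⟩ := mem_product.1 hq
    have hne : q.1 ≠ q.2 := fun h => disjoint_left.1 hd hq1 (h ▸ hq2)
    have hc : (S.R.filter (fun Ts => q.1 ∈ S.ed Ts ∧ q.2 ∈ S.ed Ts)).card ≤ 1 := by
      rw [card_le_one]
      intro a ha b hb
      obtain ⟨haR, ha1, ha2⟩ := mem_filter.1 ha
      obtain ⟨hbR, hb1, hb2⟩ := mem_filter.1 hb
      by_contra hab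
      have h3 := L.good.lin a haR b hbR hab
      have h4 : ({q.1, q.2} : Finset ι) ⊆ S.ed a ∩ S.ed b := by
        intro e he
        rcases mem_insert.1 he with rfl | he
        · exact mem_inter.2 ⟨ha1, hb1⟩
        · rw [mem_singleton.1 he]
          exact mem_inter.2 ⟨ha2, hb2⟩
      have h5 := card_le_card h4
      rw [card_pair hne] at h5
      omega
    calc ∑ Ts ∈ S.R.filter (fun Ts => q.1 ∈ S.ed Ts ∧ q.2 ∈ S.ed Ts), X Ts
        ≤ ∑ _Ts ∈ S.R.filter (fun Ts => q.1 ∈ S.ed Ts ∧ q.2 ∈ S.ed Ts), r :=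
          sum_le_sum fun Ts _ => ov_X_le L Ts
      _ = ((S.R.filter (fun Ts => q.1 ∈ S.ed Ts ∧ q.2 ∈ S.ed Ts)).card : ℝ) * r := by
          rw [sum_const, nsmul_eq_mul]
      _ ≤ 1 * r := by
          refine mul_le_mul_of_nonneg_right ?_ hr.le
          exact_mod_cast hc
      _ = r := one_mul r
  have h3 : ((S.ed T ×ˢ S.ed T').card : ℝ) ≤ 9 := by
    have a1 := L.good.card_le hT
    have a2 := L.good.card_le hT'
    rw [card_product]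
    have : (S.ed T).card * (S.ed T').card ≤ 3 * 3 := Nat.mul_le_mul a1 a2
    exact_mod_cast this
  calc ∑ Ts ∈ S.me T ∩ S.me T', X Ts ≤ _ := h1
    _ ≤ ∑ _q ∈ S.ed T ×ˢ S.ed T', r := sum_le_sum h2
    _ = ((S.ed T ×ˢ S.ed T').card : ℝ) * r := by rw [sum_const, nsmul_eq_mul]
    _ ≤ 9 * r := mul_le_mul_of_nonneg_right h3 hr.le

/-- share / threat -/
theorem ov_me_th (L : S.Loc J K C₁ ν p β r E0 M X x) {T T' : τ} (hT : T ∈ S.R ∪ S.Vt)
    (hT' : T' ∈ S.R ∪ S.Vt) (hd : Disjoint (S.ed T) (S.ed T')) :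
    ∑ Ts ∈ S.me T ∩ S.th M T', X Ts ≤ 3 * r := by
  have hr := L.r_pos
  have h1 : ∑ Ts ∈ S.me T ∩ S.th M T', X Ts ≤ ∑ e ∈ S.ed T,
      ∑ Ts ∈ (S.th M T').filter (fun Ts => e ∈ S.ed Ts), X Ts := by
    refine ov_cover _ _ L.inv.X_nonneg fun Ts hTs _ => ?_
    obtain ⟨h1, h2⟩ := mem_inter.1 hTs
    obtain ⟨-, h1⟩ := mem_filter.1 h1
    obtain ⟨e, he, he1⟩ := not_disjoint_iff.1 h1
    exact ⟨e, he1, mem_filter.2 ⟨h2, he⟩⟩
  have h2 : ∀ e ∈ S.ed T, ∑ Ts ∈ (S.th M T').filter (fun Ts => e ∈ S.ed Ts), X Ts ≤ r := by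
    intro e he
    by_cases hal : e ∈ S.al E0 M
    · have hne : e ∉ S.ed T' := disjoint_left.1 hd he
      refine le_trans ?_ (L.cB T' hT' e hal hne)
      refine sum_choice (M := M) (fun P => P) X (fun P => ∏ T'' ∈ P, S.yh ν p E0 M X T'')
        (fun P _ => prod_nonneg fun T'' _ => L.yh_nonneg T'') ?_
      intro Ts hTs
      obtain ⟨hth, heTs⟩ := mem_filter.1 hTs
      obtain ⟨hR, hTne, hTM, U, hU, hT'U, hTsU, hsub⟩ := mem_filter.1 hth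
      have hTsP : Ts ∈ U.erase T' := mem_erase.2 ⟨hTne, hTsU⟩
      refine ⟨U.erase T', ?_, hTsP, hTM, hsub, ?_⟩
      · refine mem_image.2 ⟨U, mem_filter.2 ⟨hU, hT'U, Ts, hTsP, heTs⟩, rfl⟩
      · change X Ts ≤ ∏ T'' ∈ U.erase T', S.yh ν p E0 M X T''
        rw [prod_one_out hTsP hsub fun T'' hT'' => L.yh_M hT'']
        exact L.X_le_yh hR
    · refine le_trans (le_of_eq ?_) hr.le
      refine sum_eq_zero fun Ts hTs => ?_
      by_contra hz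
      exact hal (L.X_al hz (mem_filter.1 hTs).2)
  have h3 : ((S.ed T).card : ℝ) ≤ 3 := by
    have := L.good.card_le hT
    exact_mod_cast this
  calc ∑ Ts ∈ S.me T ∩ S.th M T', X Ts ≤ _ := h1
    _ ≤ ∑ _e ∈ S.ed T, r := sum_le_sum h2
    _ = ((S.ed T).card : ℝ) * r := by rw [sum_const, nsmul_eq_mul]
    _ ≤ 3 * r := mul_le_mul_of_nonneg_right h3 hr.le

/-- threat / threat -/
theorem ov_th_th (L : S.Loc J K C₁ ν p β r E0 M X x) {T T' : τ} (hT : T ∈ S.R ∪ S.Vt)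
    (hT' : T' ∈ S.R ∪ S.Vt) (hne : T ≠ T') (hM : T ∉ M) (hM' : T' ∉ M) :
    ∑ Ts ∈ S.th M T ∩ S.th M T', X Ts ≤ r := by
  refine le_trans ?_ (L.cE T hT T' hT' hne)
  refine sum_choice (M := M) (fun P => P) X (fun P => ∏ T'' ∈ P, S.yh ν p E0 M X T'')
    (fun P _ => prod_nonneg fun T'' _ => L.yh_nonneg T'') ?_
  intro Ts hTs
  obtain ⟨h1, h2⟩ := mem_inter.1 hTs
  obtain ⟨hR, hn1, hTM, U, hU, hTU, hTsU, hsub⟩ := mem_filter.1 h1
  obtain ⟨-, hn2, -, U', hU', hTU', hTsU', hsub'⟩ := mem_filter.1 h2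
  have e1 : T' ∉ U := fun h => hM' (hsub (mem_erase.2 ⟨hn2.symm, mem_erase.2 ⟨hne.symm, h⟩⟩))
  have e2 : T ∉ U' := fun h => hM (hsub' (mem_erase.2 ⟨hn1.symm, mem_erase.2 ⟨hne, h⟩⟩))
  have hR1 : U.erase T ⊆ S.R := by
    intro a ha
    by_cases hTs' : a = Ts
    · rw [hTs']; exact hR
    · exact L.inv.M_sub (hsub (mem_erase.2 ⟨hTs', ha⟩))
  have hR2 : U'.erase T' ⊆ S.R := by
    intro a ha
    by_cases hTs' : a = Ts
    · rw [hTs']; exact hR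
    · exact L.inv.M_sub (hsub' (mem_erase.2 ⟨hTs', ha⟩))
  have hTsP : Ts ∈ U.erase T ∪ U'.erase T' := mem_union_left _ (mem_erase.2 ⟨hn1, hTsU⟩)
  have hPM : (U.erase T ∪ U'.erase T').erase Ts ⊆ M := by
    rw [erase_union_distrib]
    exact union_subset hsub hsub'
  refine ⟨U.erase T ∪ U'.erase T', mem_filter.2 ⟨?_, fun h => hTM (h hTsP)⟩, hTsP, hTM, hPM, ?_⟩
  · exact mem_image.2 ⟨(U, U'), mem_filter.2 ⟨mem_product.2 ⟨hU, hU'⟩, hTU, hTU', e1, e2, hR1, hR2,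
      Ts, mem_inter.2 ⟨hTsU, hTsU'⟩⟩, rfl⟩
  · change X Ts ≤ ∏ T'' ∈ U.erase T ∪ U'.erase T', S.yh ν p E0 M X T''
    rw [prod_one_out hTsP hPM fun T'' hT'' => L.yh_M hT'']
    exact L.X_le_yh hR

theorem ov_main (L : S.Loc J K C₁ ν p β r E0 M X x) {T T' : τ} (hT : T ∈ S.R ∪ S.Vt)
    (hT' : T' ∈ S.R ∪ S.Vt) (hne : T ≠ T') (hM : T ∉ M) (hM' : T' ∉ M)
    (hd : Disjoint (S.ed T) (S.ed T')) :
    ∑ Ts ∈ S.kk M T ∩ S.kk M T', X Ts ≤ 16 * r := by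
  have hkk : ∀ T, S.kk M T ⊆ S.me T ∪ S.th M T := by
    intro T
    unfold Sy.kk
    split_ifs
    · exact Subset.refl _
    · exact subset_union_left
  have hsub : S.kk M T ∩ S.kk M T' ⊆ (S.me T ∩ S.me T' ∪ S.me T ∩ S.th M T') ∪
      (S.me T' ∩ S.th M T ∪ S.th M T ∩ S.th M T') := by
    intro a ha
    obtain ⟨h1, h2⟩ := mem_inter.1 ha
    have h1' := hkk T h1
    have h2' := hkk T' h2
    simp only [mem_union, mem_inter] at h1' h2' ⊢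
    tauto
  have hX := L.inv.X_nonneg
  have hun : ∀ A B : Finset τ, ∑ Ts ∈ A ∪ B, X Ts ≤ ∑ Ts ∈ A, X Ts + ∑ Ts ∈ B, X Ts := by
    intro A B
    rw [← sum_union_inter]
    have := sum_nonneg (s := A ∩ B) fun T _ => hX T
    linarith
  have a1 := ov_me_me L hT hT' hd
  have a2 := ov_me_th L hT hT' hd
  have a3 := ov_me_th L hT' hT hd.symm
  have a4 := ov_th_th L hT hT' hne hM hM'
  calc ∑ Ts ∈ S.kk M T ∩ S.kk M T', X Ts ≤ _ :=
        sum_le_sum_of_subset_of_nonneg hsub fun T _ _ => hX T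
    _ ≤ (∑ Ts ∈ S.me T ∩ S.me T', X Ts + ∑ Ts ∈ S.me T ∩ S.th M T', X Ts) +
        (∑ Ts ∈ S.me T' ∩ S.th M T, X Ts + ∑ Ts ∈ S.th M T ∩ S.th M T', X Ts) := by
        refine (hun _ _).trans (add_le_add (hun _ _) (hun _ _))
    _ ≤ 16 * r := by linarith

end Ov

/-- **Row N2**: overlaps of the kill sets. -/
theorem ov_ok : SpOv := by
  intro J K C₁ _ _
  refine ⟨16, by norm_num, ?_⟩
  intro ι τ _ _ _ _ S ν p β r E0 M X x L _ T hT T' hT' hne hM hM' hd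
  exact ov_main L hT hT' hne hM hM' hd

end F2
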