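import Pool.Agent.F2.N.Spec

/-!
# Project F2, block N (abstract nibble), row N3: products of densities, growth
-/

set_option autoImplicit false
set_option linter.unusedSectionVars false

namespace F2

open Finset
open Pool.Agent.F2 (HH GG)

theorem pgh_pow (u : ℝ) (h0 : 0 ≤ u) (h1 : u ≤ 1) (L : ℕ) : (1 + u) ^ L ≤ 1 + (2 ^ L - 1) * u := by
  induction L with
  | zero => simp
  | succ L ih =>
    have h2 : (1:ℝ) ≤ 2 ^ L := one_le_pow₀ (by norm_num)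
    calc (1 + u) ^ (L + 1) = (1 + u) ^ L * (1 + u) := pow_succ _ _
      _ ≤ (1 + (2 ^ L - 1) * u) * (1 + u) := mul_le_mul_of_nonneg_right ih (by linarith)
      _ ≤ 1 + (2 ^ (L + 1) - 1) * u := by
        rw [pow_succ]
        nlinarith [mul_nonneg (mul_nonneg (sub_nonneg.2 h2) h0) (sub_nonneg.2 h1)]

theorem pgh_prod {τ : Type} (P : Finset τ) (f g : τ → ℝ) (a : ℝ) (ha : 1 ≤ a) (L : ℕ)
    (hP : P.card ≤ L) (hf : ∀ T ∈ P, 0 ≤ f T) (hg : ∀ T ∈ P, 0 ≤ g T)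
    (hfg : ∀ T ∈ P, f T ≤ a * g T) : ∏ T ∈ P, f T ≤ a ^ L * ∏ T ∈ P, g T := by
  calc ∏ T ∈ P, f T ≤ ∏ T ∈ P, a * g T := prod_le_prod hf hfg
    _ = a ^ P.card * ∏ T ∈ P, g T := by rw [prod_mul_distrib, prod_const]
    _ ≤ a ^ L * ∏ T ∈ P, g T :=
      mul_le_mul_of_nonneg_right (pow_le_pow_right₀ ha hP) (prod_nonneg hg)

theorem pg_ok (hb : SpBas) : SpPg := by
  intro J L K C₁ hK hC
  obtain ⟨c₀, hc₀, hB⟩ := hb J K C₁ hK hC
  have h2L : (1:ℝ) ≤ 2 ^ L := one_le_pow₀ (by norm_num)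
  have hL0 : (0:ℝ) ≤ L := Nat.cast_nonneg L
  have hc0 : (0:ℝ) ≤ c₀ := le_trans zero_le_one hc₀
  have hcc : c₀ ≤ 2 ^ L * c₀ * (1 + L) + L := by
    have h1 : c₀ ≤ 2 ^ L * c₀ := le_mul_of_one_le_left hc0 h2L
    have h2 : 2 ^ L * c₀ ≤ 2 ^ L * c₀ * (1 + L) :=
      le_mul_of_one_le_right (by positivity) (by linarith)
    linarith
  refine ⟨2 ^ L * c₀ * (1 + L) + L, hc₀.trans hcc, ?_⟩
  intro ι τ _ _ _ _ S ν p β r E0 M X x hLoc hc P hP
  have hBas := hB c₀ le_rfl ι τ S ν p β r E0 M X x hLoc (hcc.trans hc)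
  have hW := hBas.W_pos
  set W : ℝ := S.ww X with hWdef
  set u : ℝ := c₀ / W with hu
  have hu0 : 0 ≤ u := div_nonneg hc0 hW.le
  have hu1 : u ≤ 1 := hBas.W_half.trans (by norm_num)
  have hW1 : 1 / W ≤ 1 := by
    have : 1 / W ≤ c₀ / W := div_le_div_of_nonneg_right hc₀ hW.le
    exact this.trans hu1
  have hW0 : 0 ≤ 1 / W := by positivity
  set y : τ → ℝ := S.yh ν p E0 M X with hy
  set Y : ℝ := ∏ T ∈ P, y T with hY
  have hyn : ∀ T, 0 ≤ y T := hBas.yh_nonneg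
  have hY0 : 0 ≤ Y := prod_nonneg fun T _ => hyn T
  have ha1 : (1:ℝ) ≤ 1 + u := by linarith
  have haL : 0 ≤ (1 + u) ^ L := by positivity
  have hX : ∀ T, 0 ≤ X T := hLoc.inv.X_nonneg
  -- the estimate of one term
  have key : ∀ Ts ∈ S.R, X Ts / W * ∏ T ∈ P, S.yn ν p E0 M X Ts T ≤
      X Ts / W * ((1 + u) ^ L * Y) + (if Ts ∈ P then (1 + u) ^ L * Y * (1 / W) else 0) := by
    intro Ts hTs
    have hXW : 0 ≤ X Ts / W := div_nonneg (hX Ts) hW.le
    have h1 : 0 ≤ X Ts / W * ((1 + u) ^ L * Y) := mul_nonneg hXW (mul_nonneg haL hY0)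
    have h2 : 0 ≤ (if Ts ∈ P then (1 + u) ^ L * Y * (1 / W) else 0) := by
      split_ifs
      · exact mul_nonneg (mul_nonneg haL hY0) hW0
      · exact le_rfl
    by_cases h0 : X Ts = 0
    · rw [h0, zero_div, zero_mul, zero_mul, zero_add]
      exact h2
    · by_cases hT : Ts ∈ P
      · rw [if_pos hT]
        refine le_trans ?_ (le_add_of_nonneg_left h1)
        rw [← mul_prod_erase P _ hT, hBas.yn_self Ts h0, one_mul]
        have h3 : ∏ T ∈ P.erase Ts, S.yn ν p E0 M X Ts T ≤ (1 + u) ^ L * ∏ T ∈ P.erase Ts, y T :=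
          pgh_prod _ _ _ _ ha1 L ((card_erase_le).trans hP)
            (fun T _ => hBas.yn_nonneg Ts h0 T) (fun T _ => hyn T)
            (fun T hT' => hBas.yn_le Ts h0 T (ne_of_mem_erase hT'))
        have h4 : X Ts * ∏ T ∈ P.erase Ts, y T ≤ Y := by
          rw [hY, ← mul_prod_erase P _ hT]
          exact mul_le_mul_of_nonneg_right (hBas.X_le_yh Ts hTs) (prod_nonneg fun T _ => hyn T)
        calc X Ts / W * ∏ T ∈ P.erase Ts, S.yn ν p E0 M X Ts T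
            ≤ X Ts / W * ((1 + u) ^ L * ∏ T ∈ P.erase Ts, y T) :=
              mul_le_mul_of_nonneg_left h3 hXW
          _ = (1 + u) ^ L * (X Ts * ∏ T ∈ P.erase Ts, y T) * (1 / W) := by ring
          _ ≤ (1 + u) ^ L * Y * (1 / W) :=
              mul_le_mul_of_nonneg_right (mul_le_mul_of_nonneg_left h4 haL) hW0
      · rw [if_neg hT, add_zero]
        refine mul_le_mul_of_nonneg_left ?_ hXW
        exact pgh_prod _ _ _ _ ha1 L hP (fun T _ => hBas.yn_nonneg Ts h0 T) (fun T _ => hyn T)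
          (fun T hT' => hBas.yn_le Ts h0 T (fun h => hT (h ▸ hT')))
  have hsum : ∑ Ts ∈ S.R, X Ts / W * ∏ T ∈ P, S.yn ν p E0 M X Ts T ≤
      (1 + u) ^ L * Y * (1 + L * (1 / W)) := by
    calc ∑ Ts ∈ S.R, X Ts / W * ∏ T ∈ P, S.yn ν p E0 M X Ts T
        ≤ ∑ Ts ∈ S.R, (X Ts / W * ((1 + u) ^ L * Y) +
            (if Ts ∈ P then (1 + u) ^ L * Y * (1 / W) else 0)) := sum_le_sum key
      _ = (1 + u) ^ L * Y + ((S.R ∩ P).card : ℝ) * ((1 + u) ^ L * Y * (1 / W)) := by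
          rw [sum_add_distrib, ← sum_mul, hBas.sumX, one_mul, sum_ite_mem, sum_const, nsmul_eq_mul]
      _ ≤ (1 + u) ^ L * Y + (L : ℝ) * ((1 + u) ^ L * Y * (1 / W)) := by
          gcongr
          exact (card_le_card inter_subset_right).trans hP
      _ = (1 + u) ^ L * Y * (1 + L * (1 / W)) := by ring
  refine hsum.trans ?_
  have h5 : (1 + u) ^ L ≤ 1 + 2 ^ L * c₀ * (1 / W) := by
    have h := pgh_pow u hu0 hu1 L
    have h6 : u = c₀ * (1 / W) := by rw [hu]; ring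
    nlinarith
  have h7 : (1 + u) ^ L * (1 + L * (1 / W)) ≤ 1 + (2 ^ L * c₀ * (1 + L) + L) / W := by
    have h8 : (1 / W) * (1 / W) ≤ 1 / W := by nlinarith
    calc (1 + u) ^ L * (1 + L * (1 / W))
        ≤ (1 + 2 ^ L * c₀ * (1 / W)) * (1 + L * (1 / W)) :=
          mul_le_mul_of_nonneg_right h5 (by positivity)
      _ = 1 + (2 ^ L * c₀ + L) * (1 / W) + (2 ^ L * c₀ * L) * ((1 / W) * (1 / W)) := by ring
      _ ≤ 1 + (2 ^ L * c₀ + L) * (1 / W) + (2 ^ L * c₀ * L) * (1 / W) := by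
          have : 0 ≤ 2 ^ L * c₀ * (L:ℝ) := by positivity
          nlinarith
      _ = 1 + (2 ^ L * c₀ * (1 + L) + L) / W := by ring
  calc (1 + u) ^ L * Y * (1 + L * (1 / W)) = ((1 + u) ^ L * (1 + L * (1 / W))) * Y := by ring
    _ ≤ (1 + (2 ^ L * c₀ * (1 + L) + L) / W) * Y := mul_le_mul_of_nonneg_right h7 hY0

end F2
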