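import Pool.Agent.F2.N.Spec

/-!
# Project F2, block N (abstract nibble), row N4: products of densities, sharp form
-/

set_option autoImplicit false
set_option linter.unusedSectionVars false

namespace F2

open Finset
open Pool.Agent.F2 (HH GG)

theorem psh_pow (u : ℝ) (h0 : 0 ≤ u) (h1 : u ≤ 1) (L : ℕ) : (1 + u) ^ L ≤ 1 + (2 ^ L - 1) * u := by
  induction L with
  | zero => simp
  | succ L ih =>
    have h2 : (1:ℝ) ≤ 2 ^ L := one_le_pow₀ (by norm_num)
    calc (1 + u) ^ (L + 1) = (1 + u) ^ L * (1 + u) := pow_succ _ _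
      _ ≤ (1 + (2 ^ L - 1) * u) * (1 + u) := mul_le_mul_of_nonneg_right ih (by linarith)
      _ ≤ 1 + (2 ^ (L + 1) - 1) * u := by
        rw [pow_succ]
        nlinarith [mul_nonneg (mul_nonneg (sub_nonneg.2 h2) h0) (sub_nonneg.2 h1)]

theorem psh_prod {τ : Type} (P : Finset τ) (f g : τ → ℝ) (a : ℝ) (ha : 1 ≤ a) (L : ℕ)
    (hP : P.card ≤ L) (hf : ∀ T ∈ P, 0 ≤ f T) (hg : ∀ T ∈ P, 0 ≤ g T)
    (hfg : ∀ T ∈ P, f T ≤ a * g T) : ∏ T ∈ P, f T ≤ a ^ L * ∏ T ∈ P, g T := by
  calc ∏ T ∈ P, f T ≤ ∏ T ∈ P, a * g T := prod_le_prod hf hfg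
    _ = a ^ P.card * ∏ T ∈ P, g T := by rw [prod_mul_distrib, prod_const]
    _ ≤ a ^ L * ∏ T ∈ P, g T :=
      mul_le_mul_of_nonneg_right (pow_le_pow_right₀ ha hP) (prod_nonneg hg)

/-- Bonferroni for one point -/
theorem psh_bonf {τ : Type} [DecidableEq τ] (Q : Finset τ) (A : τ → Finset τ) (t : τ) :
    (if ∀ T ∈ Q, t ∉ A T then (1:ℝ) else 0) ≤
      1 - ∑ T ∈ Q, (if t ∈ A T then (1:ℝ) else 0) +
        ∑ z ∈ Q.offDiag, (if t ∈ A z.1 ∩ A z.2 then (1:ℝ) else 0) := by
  set N := (Q.filter (fun T => t ∈ A T)) with hN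
  have h1 : ∑ T ∈ Q, (if t ∈ A T then (1:ℝ) else 0) = N.card := by
    rw [← sum_filter, sum_const, nsmul_eq_mul, mul_one]
  have h2 : ∑ z ∈ Q.offDiag, (if t ∈ A z.1 ∩ A z.2 then (1:ℝ) else 0) = (N.offDiag.card : ℝ) := by
    rw [← sum_filter, sum_const, nsmul_eq_mul, mul_one]
    congr 2
    ext ⟨a, b⟩
    simp only [hN, mem_filter, mem_offDiag, mem_inter]
    tauto
  have h3 : (N.offDiag.card : ℝ) = (N.card : ℝ) * N.card - N.card := by
    rw [offDiag_card, Nat.cast_sub (Nat.le_mul_self _), Nat.cast_mul]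
  rw [h1, h2, h3]
  by_cases h : ∀ T ∈ Q, t ∉ A T
  · rw [if_pos h]
    have : N.card = 0 := by
      rw [card_eq_zero, hN, filter_eq_empty_iff]
      exact fun T hT => h T hT
    rw [this]
    norm_num
  · rw [if_neg h]
    nlinarith [sq_nonneg ((N.card : ℝ) - 1)]

theorem psh_sub {τ : Type} [DecidableEq τ] (Q : Finset τ) (q : τ → ℝ) (h0 : ∀ T ∈ Q, 0 ≤ q T)
    (h1 : ∀ T ∈ Q, q T ≤ 1) : 1 - ∑ T ∈ Q, q T ≤ ∏ T ∈ Q, (1 - q T) := by
  induction Q using Finset.induction_on with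
  | empty => simp
  | insert a s ha ih =>
    have i0 : ∀ T ∈ s, 0 ≤ q T := fun T hT => h0 T (mem_insert_of_mem hT)
    have i1 : ∀ T ∈ s, q T ≤ 1 := fun T hT => h1 T (mem_insert_of_mem hT)
    have ih' := ih i0 i1
    rw [sum_insert ha, prod_insert ha]
    have k0 := h0 a (mem_insert_self a s)
    have k1 := h1 a (mem_insert_self a s)
    have hs : 0 ≤ ∑ T ∈ s, q T := sum_nonneg i0
    have : (1 - q a) * (1 - ∑ T ∈ s, q T) ≤ (1 - q a) * ∏ T ∈ s, (1 - q T) :=
      mul_le_mul_of_nonneg_left ih' (by linarith)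
    nlinarith [mul_nonneg k0 hs]

theorem psh_add {τ : Type} [DecidableEq τ] (Q : Finset τ) (a z : τ → ℝ) (h0 : ∀ T ∈ Q, 0 ≤ a T)
    (h1 : ∀ T ∈ Q, 0 ≤ z T) :
    ∏ T ∈ Q, a T + ∑ T ∈ Q, z T * ∏ T' ∈ Q.erase T, a T' ≤ ∏ T ∈ Q, (a T + z T) := by
  induction Q using Finset.induction_on with
  | empty => simp
  | insert b s hb ih =>
    have i0 : ∀ T ∈ s, 0 ≤ a T := fun T hT => h0 T (mem_insert_of_mem hT)
    have i1 : ∀ T ∈ s, 0 ≤ z T := fun T hT => h1 T (mem_insert_of_mem hT)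
    have ih' := ih i0 i1
    have k0 := h0 b (mem_insert_self b s)
    have k1 := h1 b (mem_insert_self b s)
    rw [prod_insert hb, sum_insert hb, prod_insert hb, erase_insert hb]
    have e1 : ∑ T ∈ s, z T * ∏ T' ∈ (insert b s).erase T, a T' =
        a b * ∑ T ∈ s, z T * ∏ T' ∈ s.erase T, a T' := by
      rw [mul_sum]
      refine sum_congr rfl fun T hT => ?_
      have hne : b ≠ T := fun h => hb (h ▸ hT)
      rw [erase_insert_of_ne hne, prod_insert (fun h => hb (mem_of_mem_erase h))]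
      ring
    rw [e1]
    set A := ∏ T ∈ s, a T with hA
    set B := ∑ T ∈ s, z T * ∏ T' ∈ s.erase T, a T' with hB
    set C := ∏ T ∈ s, (a T + z T) with hC
    have hB0 : 0 ≤ B := sum_nonneg fun T hT => mul_nonneg (i1 T hT)
      (prod_nonneg fun T' hT' => i0 T' (mem_of_mem_erase hT'))
    nlinarith [mul_le_mul_of_nonneg_left ih' (add_nonneg k0 k1), mul_nonneg k1 hB0]

/-- the numerical core -/
theorem psh_core {τ : Type} [DecidableEq τ] (Q : Finset τ) (q g z y : τ → ℝ) (O κ u v : ℝ) (J : ℕ)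
    (hJ : Q.card ≤ J) (hO : 0 ≤ O) (hq0 : ∀ T ∈ Q, 0 ≤ q T) (hq1 : ∀ T ∈ Q, q T ≤ κ)
    (hκp : 0 ≤ κ) (hκ : κ ≤ 1 / 2) (hu0 : 0 ≤ u) (hu1 : u ≤ 1) (hv : 0 ≤ v)
    (hg : ∀ T ∈ Q, 0 ≤ g T) (hz : ∀ T ∈ Q, 0 ≤ z T) (hy : ∀ T ∈ Q, 0 ≤ y T)
    (hzy : ∀ T ∈ Q, z T ≤ v * y T)
    (hb : ∀ T ∈ Q, g T * (1 - q T) + z T ≤ (1 + u) * y T) :
    (1 - ∑ T ∈ Q, q T + O) * ∏ T ∈ Q, g T + ∑ T ∈ Q, z T * ∏ T' ∈ Q.erase T, g T' ≤
      (1 + 2 ^ J * u + 4 ^ J * O + 4 ^ J * (J * J) * (κ * v)) * ∏ T ∈ Q, y T := by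
  have hκ0 : ∀ T ∈ Q, 0 ≤ 1 - q T := fun T hT => by linarith [hq1 T hT]
  have hg4 : ∀ T ∈ Q, g T ≤ 4 * y T := by
    intro T hT
    have h1 := hb T hT
    have h2 := hz T hT
    have h3 := hg T hT
    have h4 := hq1 T hT
    have h5 := hy T hT
    nlinarith
  have hY0 : 0 ≤ ∏ T ∈ Q, y T := prod_nonneg hy
  -- first part
  have s1 : (1 - ∑ T ∈ Q, q T) * ∏ T ∈ Q, g T ≤ ∏ T ∈ Q, (g T * (1 - q T)) := by
    rw [prod_mul_distrib, mul_comm]
    exact mul_le_mul_of_nonneg_left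
      (psh_sub Q q hq0 fun T hT => by linarith [hq1 T hT]) (prod_nonneg hg)
  have s2 : O * ∏ T ∈ Q, g T ≤ 4 ^ J * O * ∏ T ∈ Q, y T := by
    have := psh_prod Q g y 4 (by norm_num) J hJ hg hy hg4
    calc O * ∏ T ∈ Q, g T ≤ O * (4 ^ J * ∏ T ∈ Q, y T) := mul_le_mul_of_nonneg_left this hO
      _ = 4 ^ J * O * ∏ T ∈ Q, y T := by ring
  -- the exchange terms
  have hJ0 : (0:ℝ) ≤ J := Nat.cast_nonneg J
  have hQJ : (Q.card : ℝ) ≤ J := Nat.cast_le.2 hJ
  have s3 : ∀ T ∈ Q, z T * ∏ T' ∈ Q.erase T, g T' ≤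
      z T * ∏ T' ∈ Q.erase T, (g T' * (1 - q T')) + 4 ^ J * J * (κ * v) * ∏ T ∈ Q, y T := by
    intro T hT
    have hsub : ∀ T' ∈ Q.erase T, T' ∈ Q := fun T' hT' => mem_of_mem_erase hT'
    have hc : ((Q.erase T).card : ℝ) ≤ J := le_trans (Nat.cast_le.2 (card_erase_le)) hQJ
    have hG0 : 0 ≤ ∏ T' ∈ Q.erase T, g T' := prod_nonneg fun T' hT' => hg T' (hsub T' hT')
    have e1 : 1 - J * κ ≤ ∏ T' ∈ Q.erase T, (1 - q T') := by
      refine le_trans ?_ (psh_sub _ q (fun T' hT' => hq0 T' (hsub T' hT'))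
        (fun T' hT' => by linarith [hq1 T' (hsub T' hT')]))
      have : ∑ T' ∈ Q.erase T, q T' ≤ J * κ := by
        calc ∑ T' ∈ Q.erase T, q T' ≤ ∑ T' ∈ Q.erase T, κ :=
              sum_le_sum fun T' hT' => hq1 T' (hsub T' hT')
          _ = (Q.erase T).card * κ := by rw [sum_const, nsmul_eq_mul]
          _ ≤ J * κ := mul_le_mul_of_nonneg_right hc hκp
      linarith
    have e2 : z T * ∏ T' ∈ Q.erase T, g T' ≤ v * (4 ^ J * ∏ T ∈ Q, y T) := by
      have h1 := psh_prod (Q.erase T) g y 4 (by norm_num) J (card_erase_le.trans hJ)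
        (fun T' hT' => hg T' (hsub T' hT')) (fun T' hT' => hy T' (hsub T' hT'))
        (fun T' hT' => hg4 T' (hsub T' hT'))
      calc z T * ∏ T' ∈ Q.erase T, g T'
          ≤ (v * y T) * (4 ^ J * ∏ T' ∈ Q.erase T, y T') :=
            mul_le_mul (hzy T hT) h1 hG0 (mul_nonneg hv (hy T hT))
        _ = v * (4 ^ J * (y T * ∏ T' ∈ Q.erase T, y T')) := by ring
        _ = v * (4 ^ J * ∏ T ∈ Q, y T) := by rw [mul_prod_erase Q y hT]
    have e3 : (z T * ∏ T' ∈ Q.erase T, g T') * (1 - J * κ) ≤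
        z T * ∏ T' ∈ Q.erase T, (g T' * (1 - q T')) := by
      rw [prod_mul_distrib, ← mul_assoc]
      exact mul_le_mul_of_nonneg_left e1 (mul_nonneg (hz T hT) hG0)
    have e4 : (z T * ∏ T' ∈ Q.erase T, g T') * (J * κ) ≤ v * (4 ^ J * ∏ T ∈ Q, y T) * (J * κ) :=
      mul_le_mul_of_nonneg_right e2 (mul_nonneg hJ0 hκp)
    nlinarith
  have s4 : ∑ T ∈ Q, z T * ∏ T' ∈ Q.erase T, g T' ≤
      ∑ T ∈ Q, z T * ∏ T' ∈ Q.erase T, (g T' * (1 - q T')) +
        4 ^ J * (J * J) * (κ * v) * ∏ T ∈ Q, y T := by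
    refine (sum_le_sum s3).trans ?_
    rw [sum_add_distrib, sum_const, nsmul_eq_mul]
    have h1 : 0 ≤ 4 ^ J * J * (κ * v) * ∏ T ∈ Q, y T := by positivity
    have h2 := mul_le_mul_of_nonneg_right hQJ h1
    nlinarith
  have s5 := psh_add Q (fun T => g T * (1 - q T)) z
    (fun T hT => mul_nonneg (hg T hT) (hκ0 T hT)) hz
  have s6 : ∏ T ∈ Q, (g T * (1 - q T) + z T) ≤ (1 + 2 ^ J * u) * ∏ T ∈ Q, y T := by
    have h1 := psh_prod Q (fun T => g T * (1 - q T) + z T) y (1 + u) (by linarith) J hJ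
      (fun T hT => add_nonneg (mul_nonneg (hg T hT) (hκ0 T hT)) (hz T hT)) hy hb
    refine h1.trans (mul_le_mul_of_nonneg_right ?_ hY0)
    have := psh_pow u hu0 hu1 J
    nlinarith
  have s7 : (1 - ∑ T ∈ Q, q T + O) * ∏ T ∈ Q, g T =
      (1 - ∑ T ∈ Q, q T) * ∏ T ∈ Q, g T + O * ∏ T ∈ Q, g T := by ring
  rw [s7]
  have s5' : ∏ T ∈ Q, (g T * (1 - q T)) +
      ∑ T ∈ Q, z T * ∏ T' ∈ Q.erase T, (g T' * (1 - q T')) ≤
      ∏ T ∈ Q, (g T * (1 - q T) + z T) := s5
  nlinarith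

theorem ps_ok (hb : SpBas) (hov : SpOv) : SpPs := by
  intro J K C₁ hK hC
  obtain ⟨c₀, hc₀, hB⟩ := hb J K C₁ hK hC
  obtain ⟨c₂, hc₂, hO⟩ := hov J K C₁ hK hC
  have hJ0 : (0:ℝ) ≤ J := Nat.cast_nonneg J
  have h4J : (0:ℝ) ≤ 4 ^ J * (J * J) := by positivity
  have h2J : (0:ℝ) ≤ 2 ^ J := by positivity
  set c : ℝ := c₀ + c₂ + 4 ^ J * (J * J) * c₂ + 4 ^ J * (J * J) * (4 + K) + 4 * 2 ^ J +
    100 * (4 + K) with hcdef
  have hp1 : 0 ≤ 4 ^ J * (J * J) * c₂ := mul_nonneg h4J (by linarith)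
  have hp2 : 0 ≤ 4 ^ J * (J * J) * (4 + K) := mul_nonneg h4J (by linarith)
  have hc1 : 1 ≤ c := by linarith
  refine ⟨c, hc1, ?_⟩
  intro ι τ _ _ _ _ S ν p β r E0 M X x hLoc hcW U hU P hP
  have hBas := hB c (by linarith) ι τ S ν p β r E0 M X x hLoc hcW
  have hOv := hO ι τ S ν p β r E0 M X x hLoc (by linarith)
  have hgood := hLoc.good
  have hW := hBas.W_pos
  have hr := hLoc.r_pos
  have hβ := hLoc.β_nonneg
  have hβ1 := hLoc.β_le
  have hp := hLoc.p_pos
  have hpn := hBas.pn_pos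
  have hpne := hBas.pn_eq
  have hahi := hBas.al_hi
  have hhalf := hBas.W_half
  set W : ℝ := S.ww X with hWdef
  set y : τ → ℝ := S.yh ν p E0 M X with hy
  set pn' : ℝ := pn E0 p with hpn'
  set a : ℝ := 3 / ((S.al E0 M).card : ℝ) with ha
  have hX : ∀ T, 0 ≤ X T := hLoc.inv.X_nonneg
  have hy0 : ∀ T, 0 ≤ y T := hBas.yh_nonneg
  -- numbers
  have hv0 : 0 < 1 / W := by positivity
  have hcv : c * (1 / W) ≤ 1 / 2 := by
    have : c * (1 / W) = c / W := by ring
    linarith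
  have hv1 : 1 / W ≤ r := by
    have h1 : c / W ≤ r := hBas.W_big
    have h2 : 1 / W ≤ c / W := div_le_div_of_nonneg_right hc1 hW.le
    exact h2.trans h1
  have hκs : (4 + K) * (1 / W) ≤ 1 / 200 := by
    have : 100 * (4 + K) * (1 / W) ≤ c * (1 / W) :=
      mul_le_mul_of_nonneg_right (by linarith) hv0.le
    linarith
  have hvs : 1 / W ≤ 1 / 1000 := by
    have : 5 * (1 / W) ≤ (4 + K) * (1 / W) := mul_le_mul_of_nonneg_right (by linarith) hv0.le
    linarith
  set v : ℝ := 1 / W with hvdef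
  have hahi' : a ≤ (1 + β) * v := by
    have : (1 + β) / W = (1 + β) * v := by rw [hvdef]; ring
    linarith
  have hav : a ≤ 1 / 2 := by nlinarith
  set u : ℝ := 4 * β * v with hudef
  have hu0 : 0 ≤ u := by positivity
  have hu1 : u ≤ 1 := by nlinarith
  -- the unchosen members
  set Q : Finset τ := P \ M with hQ
  have hQU : ∀ T ∈ Q, T ∈ U := fun T hT => hP (mem_sdiff.1 hT).1
  have hQM : ∀ T ∈ Q, T ∉ M := fun T hT => (mem_sdiff.1 hT).2
  have hQRV : ∀ T ∈ Q, T ∈ S.R ∪ S.Vt := fun T hT => hgood.conf_sub U hU (hQU T hT)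
  have hQJ : Q.card ≤ J :=
    (card_le_card (sdiff_subset.trans hP)).trans (hgood.conf_card U hU)
  have hprodM : ∀ f : τ → ℝ, (∀ T ∈ M, f T = 1) → ∏ T ∈ P, f T = ∏ T ∈ Q, f T := by
    intro f hf
    symm
    refine prod_subset sdiff_subset fun T hT hT' => hf T ?_
    by_contra h
    exact hT' (mem_sdiff.2 ⟨hT, h⟩)
  have hYQ : ∏ T ∈ P, y T = ∏ T ∈ Q, y T := hprodM y hBas.yh_M
  have hYnQ : ∀ Ts, X Ts ≠ 0 → ∏ T ∈ P, S.yn ν p E0 M X Ts T = ∏ T ∈ Q, S.yn ν p E0 M X Ts T :=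
    fun Ts h => hprodM _ (hBas.yn_M Ts h)
  rw [hYQ]
  have hYQ0 : 0 ≤ ∏ T ∈ Q, y T := prod_nonneg fun T _ => hy0 T
  by_cases hzero : ∃ T ∈ Q, y T = 0
  · obtain ⟨T₀, hT₀, hyT₀⟩ := hzero
    have hL : ∑ Ts ∈ S.R, X Ts / W * ∏ T ∈ P, S.yn ν p E0 M X Ts T = 0 := by
      refine sum_eq_zero fun Ts hTs => ?_
      by_cases h0 : X Ts = 0
      · rw [h0]; simp
      · have hne : T₀ ≠ Ts := by
          intro h
          have h1 := hBas.X_le_yh Ts hTs
          rw [← h] at h1 h0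
          exact h0 (le_antisymm (h1.trans hyT₀.le) (hX T₀))
        have h1 := hBas.yn_le Ts h0 T₀ hne
        have h2 := hBas.yn_nonneg Ts h0 T₀
        have h3 : S.yn ν p E0 M X Ts T₀ = 0 := by
          have : S.yh ν p E0 M X T₀ = 0 := hyT₀
          rw [this, mul_zero] at h1
          exact le_antisymm h1 h2
        rw [hYnQ Ts h0, prod_eq_zero hT₀ h3, mul_zero]
    rw [hL]
    have : 0 ≤ c * (β + r) / W := by positivity
    exact mul_nonneg (by linarith) hYQ0
  · have hypos : ∀ T ∈ Q, 0 < y T := fun T hT =>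
      lt_of_le_of_ne (hy0 T) fun h => hzero ⟨T, hT, h.symm⟩
    have hκsub : ∀ T, S.kk M T ⊆ S.R := by
      intro T t ht
      unfold Sy.kk at ht
      split_ifs at ht
      · rcases mem_union.1 ht with h | h
        · exact (mem_filter.1 h).1
        · exact (mem_filter.1 h).1
      · exact (mem_filter.1 ht).1
    set q : τ → ℝ := fun T => S.qq X (S.kk M T) with hq
    have hqd : ∀ T, q T = (∑ T' ∈ S.kk M T, X T') * v := by
      intro T
      rw [hq, hvdef]
      unfold Sy.qq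
      rw [← hWdef]
      ring
    have hq0 : ∀ T ∈ Q, 0 ≤ q T := by
      intro T _
      rw [hqd]
      exact mul_nonneg (sum_nonneg fun T' _ => hX T') hv0.le
    have hq1 : ∀ T ∈ Q, q T ≤ (4 + K) * v := by
      intro T hT
      rw [hqd]
      refine mul_le_mul_of_nonneg_right ?_ hv0.le
      have h1 := hBas.kk_le T (hQRV T hT) (hQM T hT)
      have h2 : p * K ≤ K := mul_le_of_le_one_left (by linarith) hLoc.p_le
      linarith
    set g : τ → ℝ := fun T => if T ∈ S.R then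
      (1 + 1 / pn') * X T * ((1 - 1 / W) / (1 - q T)) else y T * (p / pn') with hg
    set z : τ → ℝ := fun T => if T ∈ S.R then X T * v else 0 with hz
    have hg0 : ∀ T ∈ Q, 0 ≤ g T := by
      intro T hT
      rw [hg]
      dsimp only
      split_ifs
      · refine mul_nonneg (mul_nonneg (by positivity) (hX T)) (div_nonneg ?_ ?_)
        · linarith
        · linarith [hq1 T hT]
      · exact mul_nonneg (hy0 T) (by positivity)
    have hz0 : ∀ T ∈ Q, 0 ≤ z T := by
      intro T hT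
      rw [hz]
      dsimp only
      split_ifs
      · exact mul_nonneg (hX T) hv0.le
      · exact le_rfl
    have hzy : ∀ T ∈ Q, z T ≤ v * y T := by
      intro T hT
      rw [hz]
      dsimp only
      split_ifs with h
      · rw [mul_comm]
        exact mul_le_mul_of_nonneg_left (hBas.X_le_yh T h) hv0.le
      · exact mul_nonneg hv0.le (hy0 T)
    have hpn1 : 1 / pn' = (1 / p) * (1 / (1 - a)) := by
      rw [hpne]
      have : (1 - a) ≠ 0 := by
        intro h
        linarith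
      field_simp
    have hbd : ∀ T ∈ Q, g T * (1 - q T) + z T ≤ (1 + u) * y T := by
      intro T hT
      have hqne : 1 - q T ≠ 0 := by
        intro h
        linarith [hq1 T hT]
      rw [hg, hz]
      dsimp only
      by_cases hR : T ∈ S.R
      · rw [if_pos hR, if_pos hR]
        have hyR : y T = (1 + 1 / p) * X T := hBas.yh_R T hR (hQM T hT)
        rw [hyR]
        have e1 : (1 + 1 / pn') * X T * ((1 - 1 / W) / (1 - q T)) * (1 - q T) + X T * v =
            X T * (1 + (1 / pn') * (1 - v)) := by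
          rw [hvdef]
          field_simp
          ring
        rw [e1]
        have e2 : (1 / pn') * (1 - v) ≤ (1 + u) * (1 / p) := by
          rw [hpn1]
          have h1 : (1 - v) ≤ (1 + u) * (1 - a) := by
            have : u * (1 - a) ≥ 4 * β * v * (1 / 2) := by
              rw [hudef]
              exact mul_le_mul_of_nonneg_left (by linarith) (by positivity)
            nlinarith [mul_nonneg hβ hv0.le]
          have h2 : 0 < 1 - a := by linarith
          have h3 : (1 - v) / (1 - a) ≤ 1 + u := by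
            rw [div_le_iff₀ h2]
            exact h1
          calc 1 / p * (1 / (1 - a)) * (1 - v) = (1 / p) * ((1 - v) / (1 - a)) := by ring
            _ ≤ (1 / p) * (1 + u) := mul_le_mul_of_nonneg_left h3 (by positivity)
            _ = (1 + u) * (1 / p) := by ring
        have e3 : 1 + (1 / pn') * (1 - v) ≤ (1 + u) * (1 + 1 / p) := by nlinarith
        calc X T * (1 + (1 / pn') * (1 - v)) ≤ X T * ((1 + u) * (1 + 1 / p)) :=
              mul_le_mul_of_nonneg_left e3 (hX T)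
          _ = (1 + u) * ((1 + 1 / p) * X T) := by ring
      · rw [if_neg hR, if_neg hR, add_zero]
        have hV : T ∈ S.Vt := by
          rcases mem_union.1 (hQRV T hT) with h | h
          · exact absurd h hR
          · exact h
        have hal : S.ed T ⊆ S.al E0 M := by
          by_contra h
          have : y T = 0 := by
            rw [hy]
            unfold Sy.yh
            rw [if_neg hR, if_neg (fun h' => h h'.2)]
          linarith [hypos T hT]
        obtain ⟨e, he⟩ := card_eq_one.1 (hgood.card1 T hV)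
        have heal : e ∈ S.al E0 M := hal (by rw [he]; exact mem_singleton_self e)
        have hwe := (abs_le.1 (hLoc.we_le e heal)).1
        have hkk : S.kk M T = S.R.filter (fun T' => e ∈ S.ed T') := by
          unfold Sy.kk Sy.me
          rw [if_neg hR]
          refine filter_congr fun T' _ => ?_
          rw [he, disjoint_singleton_right, not_not]
        have hqT : (1 - β) * v ≤ q T := by
          rw [hqd, hkk]
          refine mul_le_mul_of_nonneg_right ?_ hv0.le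
          have : S.we X e = ∑ T' ∈ S.R.filter (fun T' => e ∈ S.ed T'), X T' := rfl
          linarith
        have e1 : p / pn' = 1 / (1 - a) := by
          have h1 : p / pn' = p * (1 / pn') := by ring
          rw [h1, hpn1]
          have : (1 - a) ≠ 0 := by
            intro h
            linarith
          field_simp
        rw [e1]
        have h2 : 0 < 1 - a := by linarith
        have h3 : (1 - q T) / (1 - a) ≤ 1 + u := by
          rw [div_le_iff₀ h2]
          have : u * (1 - a) ≥ 4 * β * v * (1 / 2) := by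
            rw [hudef]
            exact mul_le_mul_of_nonneg_left (by linarith) (by positivity)
          nlinarith [mul_nonneg hβ hv0.le]
        calc y T * (1 / (1 - a)) * (1 - q T) = ((1 - q T) / (1 - a)) * y T := by ring
          _ ≤ (1 + u) * y T := mul_le_mul_of_nonneg_right h3 (hy0 T)
    -- the values after the choice of `Ts`
    set G : ℝ := ∏ T ∈ Q, g T with hG
    have hG0 : 0 ≤ G := prod_nonneg hg0
    have hval : ∀ Ts, X Ts ≠ 0 → ∀ T ∈ Q, T ≠ Ts → Ts ∉ S.kk M T →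
        S.yn ν p E0 M X Ts T = g T := by
      intro Ts h0 T hT hne hk
      rw [hg]
      dsimp only
      by_cases hR : T ∈ S.R
      · rw [if_pos hR]
        exact hBas.yn_R Ts h0 T hR (hQM T hT) hne hk
      · rw [if_neg hR]
        have hV : T ∈ S.Vt := by
          rcases mem_union.1 (hQRV T hT) with h | h
          · exact absurd h hR
          · exact h
        exact hBas.yn_V Ts h0 T hV hk
    have hval' : ∀ Ts, X Ts ≠ 0 → ∀ T ∈ Q, T ≠ Ts → S.yn ν p E0 M X Ts T ≤ g T := by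
      intro Ts h0 T hT hne
      by_cases hk : Ts ∈ S.kk M T
      · rw [hBas.yn_kill Ts h0 T (hQM T hT) hne hk]
        exact hg0 T hT
      · exact (hval Ts h0 T hT hne hk).le
    have key : ∀ Ts ∈ S.R, X Ts / W * ∏ T ∈ P, S.yn ν p E0 M X Ts T ≤
        X Ts * v * (1 - ∑ T ∈ Q, (if Ts ∈ S.kk M T then (1:ℝ) else 0) +
          ∑ w ∈ Q.offDiag, (if Ts ∈ S.kk M w.1 ∩ S.kk M w.2 then (1:ℝ) else 0)) * G +
        (if Ts ∈ Q then X Ts * v * ∏ T ∈ Q.erase Ts, g T else 0) := by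
      intro Ts hTs
      have hXv : 0 ≤ X Ts * v := mul_nonneg (hX Ts) hv0.le
      have e0 : X Ts / W = X Ts * v := by rw [hvdef]; ring
      rw [e0]
      have hbf := psh_bonf Q (fun T => S.kk M T) Ts
      set B : ℝ := 1 - ∑ T ∈ Q, (if Ts ∈ S.kk M T then (1:ℝ) else 0) +
          ∑ w ∈ Q.offDiag, (if Ts ∈ S.kk M w.1 ∩ S.kk M w.2 then (1:ℝ) else 0) with hBdef
      have hB0 : 0 ≤ B := by
        refine le_trans ?_ hbf
        split_ifs <;> norm_num
      have h1 : 0 ≤ X Ts * v * B * G := mul_nonneg (mul_nonneg hXv hB0) hG0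
      by_cases h0 : X Ts = 0
      · rw [h0]
        simp
      · rw [hYnQ Ts h0]
        by_cases hT : Ts ∈ Q
        · rw [if_pos hT]
          refine le_trans ?_ (le_add_of_nonneg_left h1)
          rw [← mul_prod_erase Q _ hT, hBas.yn_self Ts h0, one_mul]
          refine mul_le_mul_of_nonneg_left ?_ hXv
          exact prod_le_prod (fun T _ => hBas.yn_nonneg Ts h0 T)
            (fun T hT' => hval' Ts h0 T (mem_of_mem_erase hT') (ne_of_mem_erase hT'))
        · rw [if_neg hT, add_zero]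
          by_cases hall : ∀ T ∈ Q, Ts ∉ S.kk M T
          · rw [if_pos hall] at hbf
            have e1 : ∏ T ∈ Q, S.yn ν p E0 M X Ts T = G :=
              prod_congr rfl fun T hT' => hval Ts h0 T hT' (fun h => hT (h ▸ hT')) (hall T hT')
            rw [e1]
            calc X Ts * v * G = X Ts * v * 1 * G := by ring
              _ ≤ X Ts * v * B * G := mul_le_mul_of_nonneg_right
                (mul_le_mul_of_nonneg_left hbf hXv) hG0
          · push Not at hall
            obtain ⟨T, hT', hk⟩ := hall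
            have e1 : S.yn ν p E0 M X Ts T = 0 :=
              hBas.yn_kill Ts h0 T (hQM T hT') (fun h => hT (h ▸ hT')) hk
            rw [prod_eq_zero hT' e1, mul_zero]
            exact h1
    -- summation
    have hsum1 : ∑ Ts ∈ S.R, X Ts * v = 1 := by
      rw [← hBas.sumX]
      refine sum_congr rfl fun Ts _ => ?_
      rw [hvdef]
      ring
    have hsumA : ∀ A : Finset τ, A ⊆ S.R →
        ∑ Ts ∈ S.R, X Ts * v * (if Ts ∈ A then (1:ℝ) else 0) = (∑ T ∈ A, X T) * v := by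
      intro A hA
      rw [sum_mul]
      have : ∀ Ts ∈ S.R, X Ts * v * (if Ts ∈ A then (1:ℝ) else 0) =
          if Ts ∈ A then X Ts * v else 0 := by
        intro Ts _
        split_ifs <;> ring
      rw [sum_congr rfl this, sum_ite_mem, inter_eq_right.2 hA]
    have hOsum : ∑ w ∈ Q.offDiag, (∑ T ∈ S.kk M w.1 ∩ S.kk M w.2, X T) * v ≤
        J * J * (c₂ * r * v) := by
      have h1 : ∀ w ∈ Q.offDiag, (∑ T ∈ S.kk M w.1 ∩ S.kk M w.2, X T) * v ≤ c₂ * r * v := by
        intro w hw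
        obtain ⟨h1, h2, h3⟩ := mem_offDiag.1 hw
        exact mul_le_mul_of_nonneg_right (hOv w.1 (hQRV _ h1) w.2 (hQRV _ h2) h3 (hQM _ h1)
          (hQM _ h2) (hgood.conf_disj U hU _ (hQU _ h1) _ (hQU _ h2) h3)) hv0.le
      refine (sum_le_sum h1).trans ?_
      rw [sum_const, nsmul_eq_mul]
      refine mul_le_mul_of_nonneg_right ?_ (by positivity)
      have h2 : Q.offDiag.card ≤ J * J := by
        rw [offDiag_card]
        exact (Nat.sub_le _ _).trans (Nat.mul_le_mul hQJ hQJ)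
      calc ((Q.offDiag.card : ℕ) : ℝ) ≤ ((J * J : ℕ) : ℝ) := Nat.cast_le.2 h2
        _ = J * J := by push_cast; ring
    have htot : ∑ Ts ∈ S.R, X Ts / W * ∏ T ∈ P, S.yn ν p E0 M X Ts T ≤
        (1 - ∑ T ∈ Q, q T + J * J * (c₂ * r * v)) * G + ∑ T ∈ Q, z T * ∏ T' ∈ Q.erase T, g T' := by
      refine (sum_le_sum key).trans ?_
      rw [sum_add_distrib, ← sum_mul]
      refine add_le_add (mul_le_mul_of_nonneg_right ?_ hG0) ?_
      · have e1 : ∀ Ts ∈ S.R, X Ts * v * (1 - ∑ T ∈ Q, (if Ts ∈ S.kk M T then (1:ℝ) else 0) +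
            ∑ w ∈ Q.offDiag, (if Ts ∈ S.kk M w.1 ∩ S.kk M w.2 then (1:ℝ) else 0)) =
            X Ts * v - ∑ T ∈ Q, X Ts * v * (if Ts ∈ S.kk M T then (1:ℝ) else 0) +
            ∑ w ∈ Q.offDiag, X Ts * v *
              (if Ts ∈ S.kk M w.1 ∩ S.kk M w.2 then (1:ℝ) else 0) := by
          intro Ts _
          rw [← mul_sum, ← mul_sum]
          ring
        rw [sum_congr rfl e1, sum_add_distrib, sum_sub_distrib, hsum1, sum_comm,
          sum_comm (s := S.R) (t := Q.offDiag)]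
        have e2 : ∑ T ∈ Q, ∑ Ts ∈ S.R, X Ts * v * (if Ts ∈ S.kk M T then (1:ℝ) else 0) =
            ∑ T ∈ Q, q T := sum_congr rfl fun T _ => by rw [hsumA _ (hκsub T), hqd]
        have e3 : ∑ w ∈ Q.offDiag, ∑ Ts ∈ S.R, X Ts * v *
            (if Ts ∈ S.kk M w.1 ∩ S.kk M w.2 then (1:ℝ) else 0) =
            ∑ w ∈ Q.offDiag, (∑ T ∈ S.kk M w.1 ∩ S.kk M w.2, X T) * v :=
          sum_congr rfl fun w _ => hsumA _ (inter_subset_left.trans (hκsub w.1))
        rw [e2, e3]
        linarith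
      · have e1 : ∑ T ∈ Q, z T * ∏ T' ∈ Q.erase T, g T' =
            ∑ T ∈ Q, (if T ∈ S.R then X T * v * ∏ T' ∈ Q.erase T, g T' else 0) := by
          refine sum_congr rfl fun T _ => ?_
          rw [hz]
          dsimp only
          split_ifs
          · rfl
          · rw [zero_mul]
        rw [e1, sum_ite_mem, sum_ite_mem, inter_comm]
    refine htot.trans ?_
    have hcore := psh_core Q q g z y (J * J * (c₂ * r * v)) ((4 + K) * v) u v J hQJ
      (by positivity) hq0 hq1 (by positivity) (by linarith) hu0 hu1 hv0.le hg0 hz0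
      (fun T _ => hy0 T) hzy hbd
    refine hcore.trans (mul_le_mul_of_nonneg_right ?_ hYQ0)
    have e1 : c * (β + r) / W = c * β * v + c * r * v := by rw [hvdef]; ring
    rw [e1]
    have e2 : 2 ^ J * u ≤ c * β * v := by
      have : 2 ^ J * u = (4 * 2 ^ J) * β * v := by rw [hudef]; ring
      rw [this]
      have : 4 * 2 ^ J ≤ c := by linarith
      gcongr
    have e3 : 4 ^ J * (J * J * (c₂ * r * v)) + 4 ^ J * (J * J) * ((4 + K) * v * v) ≤
        c * r * v := by
      have h1 : 4 ^ J * (J * J) * ((4 + K) * v * v) ≤ 4 ^ J * (J * J) * ((4 + K) * v * r) := by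
        have : 0 ≤ (4 + K) * v := by positivity
        exact mul_le_mul_of_nonneg_left (mul_le_mul_of_nonneg_left hv1 this) h4J
      have h2 : (4 ^ J * (J * J) * c₂ + 4 ^ J * (J * J) * (4 + K)) * (r * v) ≤ c * (r * v) :=
        mul_le_mul_of_nonneg_right (by linarith) (by positivity)
      nlinarith
    linarith

end F2
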