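import Pool.Agent.F2.N.Spec

/-!
# Project F2, block N, row N5: products of densities, mean absolute variation
-/

set_option autoImplicit false
set_option linter.unusedSectionVars false

namespace F2

open Finset

theorem pv_pow_le {u : ℝ} (h0 : 0 ≤ u) (h1 : u ≤ 1) (n : ℕ) :
    (1 + u) ^ n ≤ 1 + (2 ^ n - 1) * u := by
  induction n with
  | zero => simp
  | succ n ih =>
    have h2 : (1 : ℝ) ≤ 2 ^ n := one_le_pow₀ (by norm_num)
    calc (1 + u) ^ (n + 1) = (1 + u) ^ n * (1 + u) := pow_succ _ _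
      _ ≤ (1 + (2 ^ n - 1) * u) * (1 + u) := by gcongr
      _ ≤ 1 + (2 ^ (n + 1) - 1) * u := by
        have h3 : (2 ^ n - 1) * (u * u) ≤ (2 ^ n - 1) * u :=
          mul_le_mul_of_nonneg_left (by nlinarith) (by linarith)
        rw [pow_succ]
        nlinarith

theorem pv_abs {τ : Type} (P : Finset τ) (a b : τ → ℝ) (u : ℝ) (J : ℕ) (hJ : P.card ≤ J)
    (h0 : 0 ≤ u) (h1 : u ≤ 1) (ha : ∀ T ∈ P, 0 ≤ a T)
    (hlo : ∀ T ∈ P, (1 - u) * a T ≤ b T) (hhi : ∀ T ∈ P, b T ≤ (1 + u) * a T) :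
    |∏ T ∈ P, b T - ∏ T ∈ P, a T| ≤ 2 ^ J * u * ∏ T ∈ P, a T := by
  have hA : 0 ≤ ∏ T ∈ P, a T := Finset.prod_nonneg ha
  have hb : ∀ T ∈ P, 0 ≤ b T := fun T hT =>
    (mul_nonneg (by linarith) (ha T hT)).trans (hlo T hT)
  have h2 : (2 : ℝ) ^ P.card ≤ 2 ^ J := pow_le_pow_right₀ (by norm_num) hJ
  have hup : ∏ T ∈ P, b T ≤ (1 + u) ^ P.card * ∏ T ∈ P, a T := by
    rw [← Finset.prod_const, ← Finset.prod_mul_distrib]
    exact Finset.prod_le_prod hb hhi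
  have hdn : (1 - u) ^ P.card * ∏ T ∈ P, a T ≤ ∏ T ∈ P, b T := by
    rw [← Finset.prod_const, ← Finset.prod_mul_distrib]
    exact Finset.prod_le_prod (fun T hT => mul_nonneg (by linarith) (ha T hT)) hlo
  have h3 := pv_pow_le h0 h1 P.card
  have h4 : 1 + (P.card : ℝ) * (-u) ≤ (1 + -u) ^ P.card :=
    one_add_mul_le_pow (by linarith) _
  have h5 : (P.card : ℝ) ≤ 2 ^ P.card := by exact_mod_cast Nat.lt_two_pow_self.le
  rw [abs_le]
  constructor
  · have h6 : 1 - 2 ^ J * u ≤ (1 - u) ^ P.card := by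
      have h7 : (P.card : ℝ) * u ≤ 2 ^ J * u := mul_le_mul_of_nonneg_right (h5.trans h2) h0
      have h8 : (1 + -u) ^ P.card = (1 - u) ^ P.card := by ring
      linarith
    have h9 := mul_le_mul_of_nonneg_right h6 hA
    linarith
  · have h6 : (1 + u) ^ P.card ≤ 1 + 2 ^ J * u := by
      have h7 : (2 ^ P.card - 1) * u ≤ 2 ^ J * u :=
        mul_le_mul_of_nonneg_right (by linarith) h0
      linarith
    have h9 := mul_le_mul_of_nonneg_right h6 hA
    linarith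

section

variable {ι τ : Type} [Fintype ι] [Fintype τ] [DecidableEq ι] [DecidableEq τ] {S : Sy ι τ}
  {J : ℕ} {K C₁ ν p β r c : ℝ} {E0 : Finset ι} {M : Finset τ} {X x : τ → ℝ}

theorem pv_kk_sub (T : τ) : S.kk M T ⊆ S.R := by
  unfold Sy.kk Sy.me Sy.th
  split_ifs
  · exact Finset.union_subset (Finset.filter_subset _ _) (Finset.filter_subset _ _)
  · exact Finset.filter_subset _ _

/-- pointwise bound -/
theorem pv_point (hJ0 : 0 ≤ K) (L : S.Loc J K C₁ ν p β r E0 M X x)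
    (B : S.Bas K ν p β r c E0 M X) (hc : 0 ≤ c) (P : Finset τ) (hP : P.card ≤ J) (Ts : τ)
    (hTs : Ts ∈ S.R) :
    X Ts / S.ww X * |∏ T ∈ P, S.yn ν p E0 M X Ts T - ∏ T ∈ P, S.yh ν p E0 M X T| ≤
      (if Ts ∈ P then (2 ^ J + 1) / S.ww X * ∏ T ∈ P, S.yh ν p E0 M X T else 0) +
      (∑ T ∈ P.filter (fun T => T ∉ M ∧ T ∈ S.R ∪ S.Vt), if Ts ∈ S.kk M T then
        X Ts / S.ww X * ∏ T ∈ P, S.yh ν p E0 M X T else 0) +
      X Ts / S.ww X * (2 ^ J * (c / S.ww X) * ∏ T ∈ P, S.yh ν p E0 M X T) := by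
  have hW := B.W_pos
  have hX0 := L.inv.X_nonneg Ts
  have hA : 0 ≤ ∏ T ∈ P, S.yh ν p E0 M X T := Finset.prod_nonneg fun T _ => B.yh_nonneg T
  have hXW : 0 ≤ X Ts / S.ww X := div_nonneg hX0 hW.le
  have hu0 : 0 ≤ c / S.ww X := div_nonneg hc hW.le
  have hu1 : c / S.ww X ≤ 1 := B.W_half.trans (by norm_num)
  have e2 : 0 ≤ (∑ T ∈ P.filter (fun T => T ∉ M ∧ T ∈ S.R ∪ S.Vt), if Ts ∈ S.kk M T then
        X Ts / S.ww X * ∏ T ∈ P, S.yh ν p E0 M X T else 0) :=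
    Finset.sum_nonneg fun T _ => by split_ifs; exacts [mul_nonneg hXW hA, le_rfl]
  have e3 : 0 ≤ X Ts / S.ww X * (2 ^ J * (c / S.ww X) * ∏ T ∈ P, S.yh ν p E0 M X T) := by
    positivity
  have e1 : 0 ≤ (if Ts ∈ P then (2 ^ J + 1) / S.ww X * ∏ T ∈ P, S.yh ν p E0 M X T else 0) := by
    split_ifs
    · positivity
    · exact le_rfl
  by_cases hX : X Ts = 0
  · rw [hX, zero_div, zero_mul]
    rw [hX, zero_div] at e2 e3
    simp only [zero_mul] at e2 e3 ⊢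
    linarith
  have hyTs : 0 < S.yh ν p E0 M X Ts :=
    (lt_of_le_of_ne hX0 (Ne.symm hX)).trans_le (B.X_le_yh Ts hTs)
  by_cases hz : ∃ T ∈ P, S.yh ν p E0 M X T = 0
  · obtain ⟨T, hT, hT0⟩ := hz
    have hne : T ≠ Ts := fun h => by rw [h] at hT0; exact hyTs.ne' hT0
    have h1 : S.yn ν p E0 M X Ts T = 0 := by
      refine le_antisymm ?_ (B.yn_nonneg Ts hX T)
      have h2 := B.yn_le Ts hX T hne
      rwa [hT0, mul_zero] at h2
    have hL : X Ts / S.ww X *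
        |∏ T ∈ P, S.yn ν p E0 M X Ts T - ∏ T ∈ P, S.yh ν p E0 M X T| = 0 := by
      rw [Finset.prod_eq_zero hT h1, Finset.prod_eq_zero hT hT0, sub_zero, abs_zero, mul_zero]
    rw [hL]
    linarith
  push Not at hz
  by_cases hin : Ts ∈ P
  · -- the chosen hyperedge is in `P`
    rw [if_pos hin]
    have h1 : ∏ T ∈ P, S.yn ν p E0 M X Ts T ≤ 2 ^ J * ∏ T ∈ P.erase Ts, S.yh ν p E0 M X T := by
      rw [← Finset.mul_prod_erase P _ hin, B.yn_self Ts hX, one_mul]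
      have h2 : ∏ T ∈ P.erase Ts, S.yn ν p E0 M X Ts T ≤
          ∏ T ∈ P.erase Ts, ((1 + c / S.ww X) * S.yh ν p E0 M X T) :=
        Finset.prod_le_prod (fun T _ => B.yn_nonneg Ts hX T)
          (fun T hT => B.yn_le Ts hX T (Finset.ne_of_mem_erase hT))
      refine h2.trans ?_
      rw [Finset.prod_mul_distrib, Finset.prod_const]
      have h3 : (1 + c / S.ww X) ^ (P.erase Ts).card ≤ 2 ^ J :=
        calc (1 + c / S.ww X) ^ (P.erase Ts).card ≤ 2 ^ (P.erase Ts).card := by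
              gcongr
              linarith
          _ ≤ 2 ^ J := pow_le_pow_right₀ (by norm_num)
              ((Finset.card_erase_le).trans hP)
      exact mul_le_mul_of_nonneg_right h3 (Finset.prod_nonneg fun T _ => B.yh_nonneg T)
    have h2 : X Ts * ∏ T ∈ P.erase Ts, S.yh ν p E0 M X T ≤ ∏ T ∈ P, S.yh ν p E0 M X T := by
      rw [← Finset.mul_prod_erase P _ hin]
      exact mul_le_mul_of_nonneg_right (B.X_le_yh Ts hTs)
        (Finset.prod_nonneg fun T _ => B.yh_nonneg T)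
    have h3 : X Ts ≤ 1 := (B.X_le_yh Ts hTs).trans (B.yh_le_one Ts)
    have h4 : 0 ≤ ∏ T ∈ P, S.yn ν p E0 M X Ts T :=
      Finset.prod_nonneg fun T _ => B.yn_nonneg Ts hX T
    have h5 : |∏ T ∈ P, S.yn ν p E0 M X Ts T - ∏ T ∈ P, S.yh ν p E0 M X T| ≤
        2 ^ J * ∏ T ∈ P.erase Ts, S.yh ν p E0 M X T + ∏ T ∈ P, S.yh ν p E0 M X T := by
      rw [abs_le]
      have h6 : 0 ≤ 2 ^ J * ∏ T ∈ P.erase Ts, S.yh ν p E0 M X T := h4.trans h1
      constructor <;> linarith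
    have h6 : X Ts / S.ww X * |∏ T ∈ P, S.yn ν p E0 M X Ts T - ∏ T ∈ P, S.yh ν p E0 M X T| ≤
        (2 ^ J + 1) / S.ww X * ∏ T ∈ P, S.yh ν p E0 M X T := by
      calc _ ≤ X Ts / S.ww X * (2 ^ J * ∏ T ∈ P.erase Ts, S.yh ν p E0 M X T +
              ∏ T ∈ P, S.yh ν p E0 M X T) := mul_le_mul_of_nonneg_left h5 hXW
        _ = (2 ^ J * (X Ts * ∏ T ∈ P.erase Ts, S.yh ν p E0 M X T) +
              X Ts * ∏ T ∈ P, S.yh ν p E0 M X T) / S.ww X := by ring
        _ ≤ (2 ^ J * (∏ T ∈ P, S.yh ν p E0 M X T) +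
              1 * ∏ T ∈ P, S.yh ν p E0 M X T) / S.ww X := by
            gcongr
        _ = _ := by ring
    linarith
  · rw [if_neg hin, zero_add]
    by_cases hk : ∃ T ∈ P, T ∉ M ∧ Ts ∈ S.kk M T
    · -- some member is killed
      obtain ⟨T, hT, hTM, hTk⟩ := hk
      have hne : T ≠ Ts := fun h => hin (h ▸ hT)
      have hRV : T ∈ S.R ∪ S.Vt := by
        by_contra h
        apply hz T hT
        rw [Finset.mem_union, not_or] at h
        unfold Sy.yh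
        rw [if_neg h.1, if_neg fun h' => h.2 h'.1]
      rw [Finset.prod_eq_zero hT (B.yn_kill Ts hX T hTM hne hTk), zero_sub, abs_neg,
        abs_of_nonneg hA]
      have h1 : X Ts / S.ww X * ∏ T ∈ P, S.yh ν p E0 M X T ≤
          ∑ T ∈ P.filter (fun T => T ∉ M ∧ T ∈ S.R ∪ S.Vt), if Ts ∈ S.kk M T then
            X Ts / S.ww X * ∏ T ∈ P, S.yh ν p E0 M X T else 0 := by
        have h2 := Finset.single_le_sum (f := fun T => if Ts ∈ S.kk M T then
            X Ts / S.ww X * ∏ T ∈ P, S.yh ν p E0 M X T else 0)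
          (s := P.filter (fun T => T ∉ M ∧ T ∈ S.R ∪ S.Vt))
          (fun T _ => by
            show 0 ≤ if Ts ∈ S.kk M T then
              X Ts / S.ww X * ∏ T ∈ P, S.yh ν p E0 M X T else 0
            split_ifs
            exacts [mul_nonneg hXW hA, le_rfl])
          (Finset.mem_filter.mpr ⟨hT, hTM, hRV⟩)
        simp only [if_pos hTk] at h2
        exact h2
      linarith
    · -- no member is killed
      push Not at hk
      have h1 : |∏ T ∈ P, S.yn ν p E0 M X Ts T - ∏ T ∈ P, S.yh ν p E0 M X T| ≤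
          2 ^ J * (c / S.ww X) * ∏ T ∈ P, S.yh ν p E0 M X T := by
        refine pv_abs P _ _ _ J hP hu0 hu1 (fun T _ => B.yh_nonneg T) (fun T hT => ?_)
          (fun T hT => B.yn_le Ts hX T fun h => hin (h ▸ hT))
        by_cases hTM : T ∈ M
        · rw [B.yh_M T hTM, B.yn_M Ts hX T hTM]
          linarith
        · exact B.yn_ge Ts hX T (fun h => hin (h ▸ hT)) (hk T hT hTM)
      have h2 := mul_le_mul_of_nonneg_left h1 hXW
      linarith

end

theorem pv_ok : SpBas → SpPv := by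
  intro hb J K C₁ hK hC
  obtain ⟨c₀, hc₀, hB⟩ := hb J K C₁ hK hC
  have hJ0 : (0 : ℝ) ≤ J := Nat.cast_nonneg J
  have h2J : (0 : ℝ) < 2 ^ J := by positivity
  refine ⟨J * (2 ^ J + 1) + J * (4 + K) + 2 ^ J * c₀ + c₀, ?_, ?_⟩
  · have h1 : 0 ≤ (J : ℝ) * (2 ^ J + 1) := by positivity
    have h2 : 0 ≤ (J : ℝ) * (4 + K) := by positivity
    have h3 : 0 ≤ (2 : ℝ) ^ J * c₀ := by positivity
    linarith
  intro ι τ _ _ _ _ S ν p β r E0 M X x L hcW P hP
  have h1 : 0 ≤ (J : ℝ) * (2 ^ J + 1) := by positivity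
  have h2 : 0 ≤ (J : ℝ) * (4 + K) := by positivity
  have h3 : 0 ≤ (2 : ℝ) ^ J * c₀ := by positivity
  have B := hB c₀ le_rfl ι τ S ν p β r E0 M X x L (by linarith)
  have hW := B.W_pos
  have hA : 0 ≤ ∏ T ∈ P, S.yh ν p E0 M X T := Finset.prod_nonneg fun T _ => B.yh_nonneg T
  have hAW : 0 ≤ (∏ T ∈ P, S.yh ν p E0 M X T) / S.ww X := div_nonneg hA hW.le
  refine (Finset.sum_le_sum fun Ts hTs =>
    pv_point (by linarith) L B (by linarith) P hP Ts hTs).trans ?_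
  rw [Finset.sum_add_distrib, Finset.sum_add_distrib]
  -- first sum
  have s1 : ∑ Ts ∈ S.R, (if Ts ∈ P then (2 ^ J + 1) / S.ww X * ∏ T ∈ P, S.yh ν p E0 M X T
      else 0) ≤ J * (2 ^ J + 1) * ((∏ T ∈ P, S.yh ν p E0 M X T) / S.ww X) := by
    rw [← Finset.sum_filter, Finset.sum_const, nsmul_eq_mul]
    have h4 : ((S.R.filter (fun Ts => Ts ∈ P)).card : ℝ) ≤ J := by
      have h5 : S.R.filter (fun Ts => Ts ∈ P) ⊆ P := fun T hT => (Finset.mem_filter.mp hT).2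
      exact_mod_cast (Finset.card_le_card h5).trans hP
    calc ((S.R.filter (fun Ts => Ts ∈ P)).card : ℝ) * ((2 ^ J + 1) / S.ww X *
          ∏ T ∈ P, S.yh ν p E0 M X T)
        = (S.R.filter (fun Ts => Ts ∈ P)).card * ((2 ^ J + 1) *
          ((∏ T ∈ P, S.yh ν p E0 M X T) / S.ww X)) := by ring
      _ ≤ J * ((2 ^ J + 1) * ((∏ T ∈ P, S.yh ν p E0 M X T) / S.ww X)) := by gcongr
      _ = _ := by ring
  -- second sum
  have s2 : ∑ Ts ∈ S.R, (∑ T ∈ P.filter (fun T => T ∉ M ∧ T ∈ S.R ∪ S.Vt),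
      if Ts ∈ S.kk M T then X Ts / S.ww X * ∏ T ∈ P, S.yh ν p E0 M X T else 0) ≤
      J * (4 + K) * ((∏ T ∈ P, S.yh ν p E0 M X T) / S.ww X) := by
    rw [Finset.sum_comm]
    have h4 : ∀ T ∈ P.filter (fun T => T ∉ M ∧ T ∈ S.R ∪ S.Vt),
        ∑ Ts ∈ S.R, (if Ts ∈ S.kk M T then X Ts / S.ww X * ∏ T ∈ P, S.yh ν p E0 M X T else 0) ≤
          (4 + K) * ((∏ T ∈ P, S.yh ν p E0 M X T) / S.ww X) := by
      intro T hT
      rw [Finset.mem_filter] at hT
      rw [← Finset.sum_filter]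
      have h5 : S.R.filter (fun Ts => Ts ∈ S.kk M T) = S.kk M T := by
        ext Ts
        rw [Finset.mem_filter]
        exact ⟨fun h => h.2, fun h => ⟨pv_kk_sub T h, h⟩⟩
      rw [h5]
      have h6 : ∑ Ts ∈ S.kk M T, X Ts / S.ww X * ∏ T ∈ P, S.yh ν p E0 M X T =
          (∑ Ts ∈ S.kk M T, X Ts) * ((∏ T ∈ P, S.yh ν p E0 M X T) / S.ww X) := by
        rw [Finset.sum_mul]
        exact Finset.sum_congr rfl fun Ts _ => by ring
      rw [h6]
      have h7 := B.kk_le T hT.2.2 hT.2.1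
      have h8 : p * K ≤ K := by nlinarith [L.p_le, L.p_pos]
      exact mul_le_mul_of_nonneg_right (by linarith) hAW
    refine (Finset.sum_le_sum h4).trans ?_
    rw [Finset.sum_const, nsmul_eq_mul]
    have h5 : ((P.filter (fun T => T ∉ M ∧ T ∈ S.R ∪ S.Vt)).card : ℝ) ≤ J := by
      exact_mod_cast (Finset.card_filter_le _ _).trans hP
    rw [mul_assoc (J : ℝ)]
    exact mul_le_mul_of_nonneg_right h5 (mul_nonneg (by linarith) hAW)
  -- third sum
  have s3 : ∑ Ts ∈ S.R, X Ts / S.ww X * (2 ^ J * (c₀ / S.ww X) *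
      ∏ T ∈ P, S.yh ν p E0 M X T) =
      2 ^ J * c₀ * ((∏ T ∈ P, S.yh ν p E0 M X T) / S.ww X) := by
    rw [← Finset.sum_mul, B.sumX]
    ring
  rw [s3]
  have h9 : 0 ≤ c₀ * ((∏ T ∈ P, S.yh ν p E0 M X T) / S.ww X) := by positivity
  calc _ ≤ J * (2 ^ J + 1) * ((∏ T ∈ P, S.yh ν p E0 M X T) / S.ww X) +
        J * (4 + K) * ((∏ T ∈ P, S.yh ν p E0 M X T) / S.ww X) +
        2 ^ J * c₀ * ((∏ T ∈ P, S.yh ν p E0 M X T) / S.ww X) := by gcongr
    _ ≤ J * (2 ^ J + 1) * ((∏ T ∈ P, S.yh ν p E0 M X T) / S.ww X) +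
        J * (4 + K) * ((∏ T ∈ P, S.yh ν p E0 M X T) / S.ww X) +
        2 ^ J * c₀ * ((∏ T ∈ P, S.yh ν p E0 M X T) / S.ww X) +
        c₀ * ((∏ T ∈ P, S.yh ν p E0 M X T) / S.ww X) := by linarith
    _ = _ := by ring

end F2
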