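import Pool.Agent.F2.N.Spec

/-!
# Project F2, block N, row N7: the virtual weight through an uncovered element
-/

set_option autoImplicit false
set_option linter.unusedSectionVars false

namespace F2

open Finset
open Pool.Agent.F2 (HH GG)

section NS

variable {ι τ : Type} [Fintype ι] [Fintype τ] [DecidableEq ι] [DecidableEq τ] {S : Sy ι τ}
  {J : ℕ} {K C₁ ν p β r c : ℝ} {E0 : Finset ι} {M : Finset τ} {X x : τ → ℝ}

theorem ns_ed (hL : S.Loc J K C₁ ν p β r E0 M X x) {T : τ} {e : ι} (hT : T ∈ S.Vt)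
    (he : e ∈ S.ed T) : S.ed T = {e} := by
  obtain ⟨a, ha⟩ := Finset.card_eq_one.1 (hL.good.card1 T hT)
  rw [ha] at he ⊢
  rw [Finset.mem_singleton.1 he]

theorem ns_notR (hL : S.Loc J K C₁ ν p β r E0 M X x) {T : τ} (hT : T ∈ S.Vt) : T ∉ S.R :=
  fun h => Finset.disjoint_left.1 hL.good.disj h hT

theorem ns_notM (hL : S.Loc J K C₁ ν p β r E0 M X x) {T : τ} (hT : T ∈ S.Vt) : T ∉ M :=
  fun h => ns_notR hL hT (hL.inv.M_sub h)

theorem ns_th_e (hL : S.Loc J K C₁ ν p β r E0 M X x) {T Ts : τ} {e : ι} (he : e ∈ S.ed T)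
    (h : Ts ∈ S.th M T) : e ∉ S.ed Ts := by
  rw [Sy.th, Finset.mem_filter] at h
  obtain ⟨_, hne, _, U, hU, hTU, hTsU, _⟩ := h
  intro he'
  exact Finset.disjoint_left.1 (hL.good.conf_disj U hU T hTU Ts hTsU (Ne.symm hne)) he he'

theorem ns_th_R {T Ts : τ} (h : Ts ∈ S.th M T) : Ts ∈ S.R := by
  rw [Sy.th, Finset.mem_filter] at h
  exact h.1

theorem ns_C_nonneg (hL : S.Loc J K C₁ ν p β r E0 M X x) (T : τ) : 0 ≤ x T :=
  hL.inv.x_nonneg T

theorem ns_sum_x (hL : S.Loc J K C₁ ν p β r E0 M X x) (hC : 1 ≤ C₁) (e : ι) :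
    ∑ T ∈ S.Vt.filter (fun T => e ∈ S.ed T), x T ≤ 4 * C₁ := by
  calc ∑ T ∈ S.Vt.filter (fun T => e ∈ S.ed T), x T
      ≤ ∑ T ∈ S.Vt.filter (fun T => e ∈ S.ed T), C₁ * ν :=
        Finset.sum_le_sum (fun T _ => hL.x_le T)
    _ = C₁ * (((S.Vt.filter (fun T => e ∈ S.ed T)).card : ℝ) * ν) := by
        rw [Finset.sum_const, nsmul_eq_mul]; ring
    _ ≤ C₁ * 4 := mul_le_mul_of_nonneg_left (hL.V_hi e) (by linarith)
    _ = 4 * C₁ := by ring

theorem ns_q_nonneg (hL : S.Loc J K C₁ ν p β r E0 M X x) (hB : S.Bas K ν p β r c E0 M X)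
    (T : τ) : 0 ≤ S.qq X (S.th M T) :=
  div_nonneg (Finset.sum_nonneg (fun T _ => hL.inv.X_nonneg T)) hB.W_pos.le

theorem ns_q_le (hL : S.Loc J K C₁ ν p β r E0 M X x) (hB : S.Bas K ν p β r c E0 M X)
    (hK : 1 ≤ K) {T : τ} (hT : T ∈ S.Vt) : S.qq X (S.th M T) ≤ K / S.ww X := by
  have h1 := hB.th_le T (Finset.mem_union_right _ hT) (ns_notM hL hT)
  have h2 : p * K ≤ K := by
    have := mul_le_mul_of_nonneg_right hL.p_le (by linarith : (0 : ℝ) ≤ K)
    linarith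
  exact div_le_div_of_nonneg_right (h1.trans h2) hB.W_pos.le

/-- probability that the chosen hyperedge avoids `e` -/
theorem ns_avoid (hB : S.Bas K ν p β r c E0 M X) (e : ι) :
    ∑ Ts ∈ S.R.filter (fun Ts => e ∉ S.ed Ts), X Ts / S.ww X = 1 - S.we X e / S.ww X := by
  have h := Finset.sum_filter_add_sum_filter_not S.R (fun Ts => e ∈ S.ed Ts)
    (fun Ts => X Ts / S.ww X)
  rw [hB.sumX] at h
  have h2 : ∑ Ts ∈ S.R.filter (fun Ts => e ∈ S.ed Ts), X Ts / S.ww X = S.we X e / S.ww X := by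
    rw [Sy.we, Finset.sum_div]
  linarith

/-- probability of the kill set -/
theorem ns_kill (hL : S.Loc J K C₁ ν p β r E0 M X x) {T : τ} {e : ι} (he : e ∈ S.ed T) :
    ∑ Ts ∈ (S.R.filter (fun Ts => e ∉ S.ed Ts)).filter (fun Ts => Ts ∈ S.th M T),
      X Ts / S.ww X = S.qq X (S.th M T) := by
  rw [Sy.qq, Finset.sum_div]
  refine Finset.sum_congr ?_ (fun _ _ => rfl)
  ext Ts
  simp only [Finset.mem_filter]
  exact ⟨fun h => h.2, fun h => ⟨⟨ns_th_R h, ns_th_e hL he h⟩, h⟩⟩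

/-- exact first moment for one virtual hyperedge -/
theorem ns_fst_one (hL : S.Loc J K C₁ ν p β r E0 M X x) (hB : S.Bas K ν p β r c E0 M X)
    {T : τ} {e : ι} (he : e ∈ S.ed T) (hq : S.qq X (S.th M T) ≤ 1 / 2) :
    ∑ Ts ∈ S.R.filter (fun Ts => e ∉ S.ed Ts), X Ts / S.ww X * (x T - S.nx M X x Ts T) =
      x T * (S.we X e / S.ww X * (S.qq X (S.th M T) / (1 - S.qq X (S.th M T)))) := by
  set q := S.qq X (S.th M T) with hqdef
  have h1q : (1 - q) ≠ 0 := by intro h; linarith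
  have hspl := Finset.sum_filter_add_sum_filter_not (S.R.filter (fun Ts => e ∉ S.ed Ts))
    (fun Ts => Ts ∈ S.th M T) (fun Ts => X Ts / S.ww X)
  rw [ns_kill hL he, ns_avoid hB e, ← hqdef] at hspl
  have hspl2 := Finset.sum_filter_add_sum_filter_not (S.R.filter (fun Ts => e ∉ S.ed Ts))
    (fun Ts => Ts ∈ S.th M T) (fun Ts => X Ts / S.ww X * (x T - S.nx M X x Ts T))
  rw [← hspl2]
  have e1 : ∑ Ts ∈ (S.R.filter (fun Ts => e ∉ S.ed Ts)).filter (fun Ts => Ts ∈ S.th M T),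
      X Ts / S.ww X * (x T - S.nx M X x Ts T) = q * x T := by
    have : ∀ Ts ∈ (S.R.filter (fun Ts => e ∉ S.ed Ts)).filter (fun Ts => Ts ∈ S.th M T),
        X Ts / S.ww X * (x T - S.nx M X x Ts T) = X Ts / S.ww X * x T := by
      intro Ts hTs
      rw [Sy.nx, if_pos (Finset.mem_filter.1 hTs).2, sub_zero]
    rw [Finset.sum_congr rfl this, ← Finset.sum_mul, ns_kill hL he]
  have e2 : ∑ Ts ∈ (S.R.filter (fun Ts => e ∉ S.ed Ts)).filter (fun Ts => ¬ Ts ∈ S.th M T),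
      X Ts / S.ww X * (x T - S.nx M X x Ts T) =
        (1 - S.we X e / S.ww X - q) * (x T - x T / (1 - q)) := by
    have : ∀ Ts ∈ (S.R.filter (fun Ts => e ∉ S.ed Ts)).filter (fun Ts => ¬ Ts ∈ S.th M T),
        X Ts / S.ww X * (x T - S.nx M X x Ts T) = X Ts / S.ww X * (x T - x T / (1 - q)) := by
      intro Ts hTs
      rw [Sy.nx, if_neg (Finset.mem_filter.1 hTs).2]
    rw [Finset.sum_congr rfl this, ← Finset.sum_mul]
    congr 1
    linarith
  rw [e1, e2]
  field_simp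
  ring

/-- mean absolute value for one virtual hyperedge -/
theorem ns_mean_one (hL : S.Loc J K C₁ ν p β r E0 M X x) (hB : S.Bas K ν p β r c E0 M X)
    {T : τ} {e : ι} (he : e ∈ S.ed T) (hq : S.qq X (S.th M T) ≤ 1 / 2) :
    ∑ Ts ∈ S.R.filter (fun Ts => e ∉ S.ed Ts), X Ts / S.ww X * |x T - S.nx M X x Ts T| ≤
      3 * S.qq X (S.th M T) * x T := by
  set q := S.qq X (S.th M T) with hqdef
  have hq0 : 0 ≤ q := ns_q_nonneg hL hB T
  have h1q : 0 < 1 - q := by linarith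
  have hx := hL.inv.x_nonneg T
  have hw : ∀ Ts, 0 ≤ X Ts / S.ww X := fun Ts => div_nonneg (hL.inv.X_nonneg Ts) hB.W_pos.le
  have hspl2 := Finset.sum_filter_add_sum_filter_not (S.R.filter (fun Ts => e ∉ S.ed Ts))
    (fun Ts => Ts ∈ S.th M T) (fun Ts => X Ts / S.ww X * |x T - S.nx M X x Ts T|)
  rw [← hspl2]
  have e1 : ∑ Ts ∈ (S.R.filter (fun Ts => e ∉ S.ed Ts)).filter (fun Ts => Ts ∈ S.th M T),
      X Ts / S.ww X * |x T - S.nx M X x Ts T| = q * x T := by
    have : ∀ Ts ∈ (S.R.filter (fun Ts => e ∉ S.ed Ts)).filter (fun Ts => Ts ∈ S.th M T),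
        X Ts / S.ww X * |x T - S.nx M X x Ts T| = X Ts / S.ww X * x T := by
      intro Ts hTs
      rw [Sy.nx, if_pos (Finset.mem_filter.1 hTs).2, sub_zero, abs_of_nonneg hx]
    rw [Finset.sum_congr rfl this, ← Finset.sum_mul, ns_kill hL he]
  have hab : |x T - x T / (1 - q)| ≤ 2 * q * x T := by
    have h3 : x T / (1 - q) - x T = x T * q / (1 - q) := by
      field_simp
      ring
    rw [abs_sub_comm, h3, abs_of_nonneg (div_nonneg (mul_nonneg hx hq0) h1q.le),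
      div_le_iff₀ h1q]
    have : 0 ≤ x T * q := mul_nonneg hx hq0
    nlinarith
  have e2 : ∑ Ts ∈ (S.R.filter (fun Ts => e ∉ S.ed Ts)).filter (fun Ts => ¬ Ts ∈ S.th M T),
      X Ts / S.ww X * |x T - S.nx M X x Ts T| ≤ 2 * q * x T := by
    calc ∑ Ts ∈ (S.R.filter (fun Ts => e ∉ S.ed Ts)).filter (fun Ts => ¬ Ts ∈ S.th M T),
        X Ts / S.ww X * |x T - S.nx M X x Ts T|
        ≤ ∑ Ts ∈ (S.R.filter (fun Ts => e ∉ S.ed Ts)).filter (fun Ts => ¬ Ts ∈ S.th M T),
          X Ts / S.ww X * (2 * q * x T) := by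
          refine Finset.sum_le_sum (fun Ts hTs => ?_)
          rw [Sy.nx, if_neg (Finset.mem_filter.1 hTs).2]
          exact mul_le_mul_of_nonneg_left hab (hw Ts)
      _ = (∑ Ts ∈ (S.R.filter (fun Ts => e ∉ S.ed Ts)).filter (fun Ts => ¬ Ts ∈ S.th M T),
          X Ts / S.ww X) * (2 * q * x T) := by rw [Finset.sum_mul]
      _ ≤ (∑ Ts ∈ S.R, X Ts / S.ww X) * (2 * q * x T) := by
          refine mul_le_mul_of_nonneg_right ?_ (by positivity)
          refine Finset.sum_le_sum_of_subset_of_nonneg ?_ (fun Ts _ _ => hw Ts)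
          exact (Finset.filter_subset _ _).trans (Finset.filter_subset _ _)
      _ = 2 * q * x T := by rw [hB.sumX, one_mul]
  rw [e1]
  linarith

/-- the loss caused by `Ts` -/
theorem ns_loss (hL : S.Loc J K C₁ ν p β r E0 M X x) (hB : S.Bas K ν p β r c E0 M X)
    (hC : 1 ≤ C₁) {Ts : τ} {e : ι} (hTs : Ts ∈ S.R) (heTs : e ∉ S.ed Ts)
    (he : e ∈ S.al E0 M) :
    ∑ T ∈ (S.Vt.filter (fun T => e ∈ S.ed T)).filter (fun T => Ts ∈ S.th M T), x T ≤
      C₁ * r := by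
  classical
  have hC0 : (0 : ℝ) ≤ C₁ := by linarith
  -- witnesses
  have hwit : ∀ T ∈ (S.Vt.filter (fun T => e ∈ S.ed T)).filter (fun T => Ts ∈ S.th M T),
      ∃ P ∈ S.fB Ts e, T ∈ P ∧ P.erase T ⊆ M := by
    intro T hT
    obtain ⟨hT1, hT2⟩ := Finset.mem_filter.1 hT
    obtain ⟨hT3, hT4⟩ := Finset.mem_filter.1 hT1
    rw [Sy.th, Finset.mem_filter] at hT2
    obtain ⟨_, hne, _, U, hU, hTU, hTsU, hsub⟩ := hT2
    refine ⟨U.erase Ts, ?_, ?_, ?_⟩
    · rw [Sy.fB, Finset.mem_image]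
      refine ⟨U, ?_, rfl⟩
      rw [Finset.mem_filter]
      exact ⟨hU, hTsU, T, Finset.mem_erase.2 ⟨Ne.symm hne, hTU⟩, hT4⟩
    · exact Finset.mem_erase.2 ⟨Ne.symm hne, hTU⟩
    · rw [Finset.erase_right_comm]
      exact hsub
  choose! f hf using hwit
  have hyh : ∀ T ∈ (S.Vt.filter (fun T => e ∈ S.ed T)).filter (fun T => Ts ∈ S.th M T),
      x T ≤ C₁ * ∏ T' ∈ f T, S.yh ν p E0 M X T' := by
    intro T hT
    obtain ⟨hT1, hT2⟩ := Finset.mem_filter.1 hT
    obtain ⟨hT3, hT4⟩ := Finset.mem_filter.1 hT1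
    obtain ⟨_, hTf, hsub⟩ := hf T hT
    have hprod : ∏ T' ∈ f T, S.yh ν p E0 M X T' = ν / p := by
      rw [← Finset.mul_prod_erase (f T) _ hTf]
      have h1 : ∏ T' ∈ (f T).erase T, S.yh ν p E0 M X T' = 1 :=
        Finset.prod_eq_one (fun T' hT' => hB.yh_M T' (hsub hT'))
      have h2 : S.yh ν p E0 M X T = ν / p := by
        rw [Sy.yh, if_neg (ns_notR hL hT3), if_pos]
        refine ⟨hT3, ?_⟩
        rw [ns_ed hL hT3 hT4]
        exact Finset.singleton_subset_iff.2 he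
      rw [h1, h2, mul_one]
    rw [hprod]
    have h3 : ν ≤ ν / p := by
      rw [le_div_iff₀ hL.p_pos]
      have := mul_le_mul_of_nonneg_left hL.p_le hL.ν_pos.le
      linarith
    exact (hL.x_le T).trans (mul_le_mul_of_nonneg_left h3 hC0)
  have hinj : Set.InjOn f
      (((S.Vt.filter (fun T => e ∈ S.ed T)).filter (fun T => Ts ∈ S.th M T) : Finset τ) :
        Set τ) := by
    intro T hT T' hT' heq
    have hT0 := Finset.mem_coe.1 hT
    have hT0' := Finset.mem_coe.1 hT'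
    obtain ⟨_, hTf, _⟩ := hf T hT0
    obtain ⟨_, _, hsub'⟩ := hf T' hT0'
    rw [heq] at hTf
    by_contra hne
    have hTM : T ∈ M := hsub' (Finset.mem_erase.2 ⟨hne, hTf⟩)
    have hTV : T ∈ S.Vt := (Finset.mem_filter.1 (Finset.mem_filter.1 hT0).1).1
    exact ns_notM hL hTV hTM
  calc ∑ T ∈ (S.Vt.filter (fun T => e ∈ S.ed T)).filter (fun T => Ts ∈ S.th M T), x T
      ≤ ∑ T ∈ (S.Vt.filter (fun T => e ∈ S.ed T)).filter (fun T => Ts ∈ S.th M T),
        C₁ * ∏ T' ∈ f T, S.yh ν p E0 M X T' := Finset.sum_le_sum hyh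
    _ = C₁ * ∑ T ∈ (S.Vt.filter (fun T => e ∈ S.ed T)).filter (fun T => Ts ∈ S.th M T),
        ∏ T' ∈ f T, S.yh ν p E0 M X T' := by rw [Finset.mul_sum]
    _ = C₁ * ∑ P ∈ ((S.Vt.filter (fun T => e ∈ S.ed T)).filter
          (fun T => Ts ∈ S.th M T)).image f, ∏ T' ∈ P, S.yh ν p E0 M X T' := by
        rw [Finset.sum_image hinj]
    _ ≤ C₁ * ∑ P ∈ S.fB Ts e, ∏ T' ∈ P, S.yh ν p E0 M X T' := by
        refine mul_le_mul_of_nonneg_left ?_ hC0
        refine Finset.sum_le_sum_of_subset_of_nonneg ?_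
          (fun P _ _ => Finset.prod_nonneg (fun T' _ => hB.yh_nonneg T'))
        intro P hP
        obtain ⟨T, hT, rfl⟩ := Finset.mem_image.1 hP
        exact (hf T hT).1
    _ ≤ C₁ * r := mul_le_mul_of_nonneg_left
        (hL.cB Ts (Finset.mem_union_left _ hTs) e he heTs) hC0

/-- absolute value of the change for one virtual hyperedge -/
theorem ns_abs_one (hL : S.Loc J K C₁ ν p β r E0 M X x) (hB : S.Bas K ν p β r c E0 M X)
    {T : τ} (Ts : τ) (hq : S.qq X (S.th M T) ≤ 1 / 2) :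
    |x T - S.nx M X x Ts T| ≤ (if Ts ∈ S.th M T then x T else 0) +
      2 * S.qq X (S.th M T) * x T := by
  set q := S.qq X (S.th M T) with hqdef
  have hq0 : 0 ≤ q := ns_q_nonneg hL hB T
  have h1q : 0 < 1 - q := by linarith
  have hx := hL.inv.x_nonneg T
  by_cases h : Ts ∈ S.th M T
  · rw [Sy.nx, if_pos h, if_pos h, sub_zero, abs_of_nonneg hx]
    have : 0 ≤ 2 * q * x T := by positivity
    linarith
  · rw [Sy.nx, if_neg h, if_neg h, zero_add]
    have h3 : x T / (1 - q) - x T = x T * q / (1 - q) := by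
      field_simp
      ring
    rw [abs_sub_comm, ← hqdef, h3, abs_of_nonneg (div_nonneg (mul_nonneg hx hq0) h1q.le),
      div_le_iff₀ h1q]
    have : 0 ≤ x T * q := mul_nonneg hx hq0
    nlinarith

end NS

theorem s_ok (hb : SpBas) : SpS := by
  intro J K C₁ hK hC
  obtain ⟨c₀, hc₀, hb0⟩ := hb J K C₁ hK hC
  refine ⟨max c₀ (20 * C₁ * K), le_max_of_le_left hc₀, ?_⟩
  intro ι τ _ _ _ _ S ν p β r E0 M X x hL hc e he
  set c := max c₀ (20 * C₁ * K) with hcdef
  have hB : S.Bas K ν p β r c E0 M X :=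
    hb0 c (le_max_left _ _) ι τ S ν p β r E0 M X x hL hc
  have hc20 : 20 * C₁ * K ≤ c := le_max_right _ _
  have hW := hB.W_pos
  have hr := hL.r_pos
  have hKC : 1 * K ≤ C₁ * K := mul_le_mul_of_nonneg_right hC (by linarith)
  have hKC' : C₁ * 1 ≤ C₁ * K := mul_le_mul_of_nonneg_left hK (by linarith)
  have hKc : K ≤ c := by nlinarith
  have hc1 : 1 ≤ c := le_trans hK hKc
  have hKW : K / S.ww X ≤ 1 / 2 :=
    (div_le_div_of_nonneg_right hKc hW.le).trans hB.W_half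
  have hKr : K / S.ww X ≤ r :=
    (div_le_div_of_nonneg_right hKc hW.le).trans hB.W_big
  have hKW0 : 0 ≤ K / S.ww X := div_nonneg (by linarith) hW.le
  have hq : ∀ T ∈ S.Vt.filter (fun T => e ∈ S.ed T), S.qq X (S.th M T) ≤ K / S.ww X :=
    fun T hT => ns_q_le hL hB hK (Finset.mem_filter.1 hT).1
  have hw : ∀ Ts, 0 ≤ X Ts / S.ww X := fun Ts => div_nonneg (hL.inv.X_nonneg Ts) hW.le
  have hdiff : ∀ Ts, S.se x e - S.se (S.nx M X x Ts) e =
      ∑ T ∈ S.Vt.filter (fun T => e ∈ S.ed T), (x T - S.nx M X x Ts T) := by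
    intro Ts
    rw [Sy.se, Sy.se, Finset.sum_sub_distrib]
  have hsx := ns_sum_x hL hC e
  refine ⟨?_, ?_, ?_⟩
  · -- first moment
    show ∑ Ts ∈ S.R.filter (fun Ts => e ∉ S.ed Ts), X Ts / S.ww X *
      (S.se x e - S.se (S.nx M X x Ts) e) ≤ c * r / S.ww X
    have h1 : ∑ Ts ∈ S.R.filter (fun Ts => e ∉ S.ed Ts), X Ts / S.ww X *
        (S.se x e - S.se (S.nx M X x Ts) e) =
        ∑ T ∈ S.Vt.filter (fun T => e ∈ S.ed T),
          x T * (S.we X e / S.ww X * (S.qq X (S.th M T) / (1 - S.qq X (S.th M T)))) := by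
      calc ∑ Ts ∈ S.R.filter (fun Ts => e ∉ S.ed Ts), X Ts / S.ww X *
          (S.se x e - S.se (S.nx M X x Ts) e)
          = ∑ Ts ∈ S.R.filter (fun Ts => e ∉ S.ed Ts),
            ∑ T ∈ S.Vt.filter (fun T => e ∈ S.ed T),
              X Ts / S.ww X * (x T - S.nx M X x Ts T) := by
            refine Finset.sum_congr rfl (fun Ts _ => ?_)
            rw [hdiff, Finset.mul_sum]
        _ = ∑ T ∈ S.Vt.filter (fun T => e ∈ S.ed T),
            ∑ Ts ∈ S.R.filter (fun Ts => e ∉ S.ed Ts),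
              X Ts / S.ww X * (x T - S.nx M X x Ts T) := Finset.sum_comm
        _ = _ := by
            refine Finset.sum_congr rfl (fun T hT => ?_)
            exact ns_fst_one hL hB (Finset.mem_filter.1 hT).2 ((hq T hT).trans hKW)
    rw [h1]
    have hwe0 : 0 ≤ S.we X e := Finset.sum_nonneg (fun T _ => hL.inv.X_nonneg T)
    have hwe := hB.we_le e
    have h2 : ∀ T ∈ S.Vt.filter (fun T => e ∈ S.ed T),
        x T * (S.we X e / S.ww X * (S.qq X (S.th M T) / (1 - S.qq X (S.th M T)))) ≤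
        x T * (11 / 10 / S.ww X * (2 * (K / S.ww X))) := by
      intro T hT
      refine mul_le_mul_of_nonneg_left ?_ (hL.inv.x_nonneg T)
      have hq0 := ns_q_nonneg hL hB T
      have hq1 := hq T hT
      have h1q : 0 < 1 - S.qq X (S.th M T) := by linarith
      refine mul_le_mul (div_le_div_of_nonneg_right hwe hW.le) ?_
        (div_nonneg hq0 h1q.le) (by positivity)
      rw [div_le_iff₀ h1q]
      nlinarith
    refine (Finset.sum_le_sum h2).trans ?_
    rw [← Finset.sum_mul]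
    have h3 : 0 ≤ 11 / 10 / S.ww X * (2 * (K / S.ww X)) := by positivity
    refine (mul_le_mul_of_nonneg_right hsx h3).trans ?_
    have h4 : 4 * C₁ * (11 / 10 / S.ww X * (2 * (K / S.ww X))) =
        (88 / 10 * (C₁ * K) / S.ww X) / S.ww X := by
      field_simp
      ring
    rw [h4]
    refine div_le_div_of_nonneg_right ?_ hW.le
    have h5 : 88 / 10 * (C₁ * K) ≤ c := by nlinarith
    have h6 : 88 / 10 * (C₁ * K) / S.ww X ≤ r :=
      (div_le_div_of_nonneg_right h5 hW.le).trans hB.W_big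
    nlinarith
  · -- mean
    show ∑ Ts ∈ S.R.filter (fun Ts => e ∉ S.ed Ts), X Ts / S.ww X *
      |S.se x e - S.se (S.nx M X x Ts) e| ≤ c / S.ww X
    calc ∑ Ts ∈ S.R.filter (fun Ts => e ∉ S.ed Ts), X Ts / S.ww X *
        |S.se x e - S.se (S.nx M X x Ts) e|
        ≤ ∑ Ts ∈ S.R.filter (fun Ts => e ∉ S.ed Ts),
            ∑ T ∈ S.Vt.filter (fun T => e ∈ S.ed T),
              X Ts / S.ww X * |x T - S.nx M X x Ts T| := by
          refine Finset.sum_le_sum (fun Ts _ => ?_)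
          rw [hdiff, ← Finset.mul_sum]
          exact mul_le_mul_of_nonneg_left (Finset.abs_sum_le_sum_abs _ _) (hw Ts)
      _ = ∑ T ∈ S.Vt.filter (fun T => e ∈ S.ed T),
            ∑ Ts ∈ S.R.filter (fun Ts => e ∉ S.ed Ts),
              X Ts / S.ww X * |x T - S.nx M X x Ts T| := Finset.sum_comm
      _ ≤ ∑ T ∈ S.Vt.filter (fun T => e ∈ S.ed T), 3 * (K / S.ww X) * x T := by
          refine Finset.sum_le_sum (fun T hT => ?_)
          refine (ns_mean_one hL hB (Finset.mem_filter.1 hT).2 ((hq T hT).trans hKW)).trans ?_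
          refine mul_le_mul_of_nonneg_right ?_ (hL.inv.x_nonneg T)
          have := hq T hT
          linarith
      _ = 3 * (K / S.ww X) * ∑ T ∈ S.Vt.filter (fun T => e ∈ S.ed T), x T := by
          rw [Finset.mul_sum]
      _ ≤ 3 * (K / S.ww X) * (4 * C₁) := mul_le_mul_of_nonneg_left hsx (by positivity)
      _ = (12 * (C₁ * K)) / S.ww X := by ring
      _ ≤ c / S.ww X := by
          refine div_le_div_of_nonneg_right ?_ hW.le
          nlinarith
  · -- increments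
    intro Ts hTs hwTs
    obtain ⟨hTsR, heTs⟩ := Finset.mem_filter.1 hTs
    show |S.se x e - S.se (S.nx M X x Ts) e| ≤ c * r
    have hloss := ns_loss hL hB hC hTsR heTs he
    calc |S.se x e - S.se (S.nx M X x Ts) e|
        ≤ ∑ T ∈ S.Vt.filter (fun T => e ∈ S.ed T), |x T - S.nx M X x Ts T| := by
          rw [hdiff]; exact Finset.abs_sum_le_sum_abs _ _
      _ ≤ ∑ T ∈ S.Vt.filter (fun T => e ∈ S.ed T),
          ((if Ts ∈ S.th M T then x T else 0) + 2 * (K / S.ww X) * x T) := by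
          refine Finset.sum_le_sum (fun T hT => ?_)
          refine (ns_abs_one hL hB Ts ((hq T hT).trans hKW)).trans ?_
          have h1 := mul_le_mul_of_nonneg_right (hq T hT) (hL.inv.x_nonneg T)
          nlinarith
      _ = ∑ T ∈ (S.Vt.filter (fun T => e ∈ S.ed T)).filter (fun T => Ts ∈ S.th M T), x T +
          2 * (K / S.ww X) * ∑ T ∈ S.Vt.filter (fun T => e ∈ S.ed T), x T := by
          rw [Finset.sum_add_distrib, ← Finset.sum_filter, Finset.mul_sum]
      _ ≤ C₁ * r + 2 * r * (4 * C₁) := by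
          refine add_le_add hloss ?_
          refine mul_le_mul ?_ hsx (Finset.sum_nonneg (fun T _ => hL.inv.x_nonneg T))
            (by positivity)
          linarith
      _ = 9 * C₁ * r := by ring
      _ ≤ c * r := by
          refine mul_le_mul_of_nonneg_right ?_ hr.le
          nlinarith

end F2
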