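import Pool.Agent.F2.N.Spec

/-!
# Project F2, block N: the real weight through an uncovered element (row N6)
-/

set_option autoImplicit false
set_option linter.unusedSectionVars false

namespace F2

open Finset

section W6

variable {ι τ : Type} [Fintype ι] [Fintype τ] [DecidableEq ι] [DecidableEq τ] {S : Sy ι τ}

private theorem w6_kk_sub (M : Finset τ) (T : τ) : S.kk M T ⊆ S.R := by
  unfold Sy.kk
  split_ifs
  · exact union_subset (filter_subset _ _) (filter_subset _ _)
  · exact filter_subset _ _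

private theorem w6_meet {M : Finset τ} {T Ts : τ} {e : ι} (hTs : Ts ∈ S.R) (he : e ∈ S.ed T)
    (he' : e ∈ S.ed Ts) : Ts ∈ S.kk M T := by
  have h : Ts ∈ S.me T := mem_filter.2 ⟨hTs, not_disjoint_iff.2 ⟨e, he', he⟩⟩
  unfold Sy.kk
  split_ifs
  · exact mem_union_left _ h
  · exact h

/-- the survival factor is close to one -/
private theorem w6_rho {W q Q : ℝ} (hW : 0 < W) (hQ : 1 ≤ Q) (hq0 : 0 ≤ q) (hq : q ≤ Q / W)
    (hq2 : q ≤ 1 / 2) : |(1 - 1 / W) / (1 - q) - 1| ≤ 2 * Q / W := by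
  have h1 : 0 < 1 - q := by linarith
  have e1 : (1 - 1 / W) / (1 - q) - 1 = (q - 1 / W) / (1 - q) := by
    rw [div_sub_one h1.ne']
    congr 1
    ring
  have h2 : |q - 1 / W| ≤ Q / W := by
    have h3 : 0 < 1 / W := by positivity
    have h4 : 1 / W ≤ Q / W := div_le_div_of_nonneg_right hQ hW.le
    rw [abs_le]
    constructor <;> linarith
  rw [e1, abs_div, abs_of_pos h1, div_le_iff₀ h1]
  refine h2.trans ?_
  have h5 : 0 ≤ Q / W := by positivity
  have e2 : 2 * Q / W = 2 * (Q / W) := by ring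
  rw [e2]
  nlinarith

private theorem w6_nX_zero {M : Finset τ} {X : τ → ℝ} {T Ts : τ} (h : X T = 0) :
    S.nX M X Ts T = 0 := by
  unfold Sy.nX
  rw [h, zero_mul, ite_self]

/-- the mean of the new weight -/
private theorem w6_mean {M : Finset τ} {X : τ → ℝ} {T : τ} (hW : S.ww X ≠ 0)
    (h1 : ∑ T ∈ S.R, X T / S.ww X = 1) (hq : S.qq X (S.kk M T) < 1) :
    ∑ Ts ∈ S.R, X Ts / S.ww X * S.nX M X Ts T = X T * (1 - 1 / S.ww X) := by
  have e1 : ∀ Ts ∈ S.R, X Ts / S.ww X * S.nX M X Ts T =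
      (X Ts / S.ww X - if Ts ∈ S.kk M T then X Ts / S.ww X else 0) *
        (X T * ((1 - 1 / S.ww X) / (1 - S.qq X (S.kk M T)))) := by
    intro Ts _
    unfold Sy.nX
    split_ifs
    · ring
    · ring
  rw [sum_congr rfl e1, ← sum_mul, sum_sub_distrib, h1, ← sum_filter]
  have e2 : S.R.filter (fun Ts => Ts ∈ S.kk M T) = S.kk M T := by
    ext Ts
    rw [mem_filter]
    exact ⟨fun h => h.2, fun h => ⟨w6_kk_sub M T h, h⟩⟩
  have e3 : ∑ Ts ∈ S.kk M T, X Ts / S.ww X = S.qq X (S.kk M T) := by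
    unfold Sy.qq
    rw [sum_div]
  rw [e2, e3]
  have h2 : 1 - S.qq X (S.kk M T) ≠ 0 := by linarith
  field_simp

/-- the mean absolute change of one weight -/
private theorem w6_abs {M : Finset τ} {X : τ → ℝ} {T : τ} {δ κ : ℝ} (hX : ∀ T, 0 ≤ X T)
    (hW : 0 < S.ww X) (h1 : ∑ T ∈ S.R, X T / S.ww X = 1) (hq : S.qq X (S.kk M T) ≤ κ)
    (hρ : |(1 - 1 / S.ww X) / (1 - S.qq X (S.kk M T)) - 1| ≤ δ) :
    ∑ Ts ∈ S.R, X Ts / S.ww X * |S.nX M X Ts T - X T| ≤ (κ + δ) * X T := by
  have hδ : 0 ≤ δ := (abs_nonneg _).trans hρ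
  have e1 : ∀ Ts ∈ S.R, X Ts / S.ww X * |S.nX M X Ts T - X T| ≤
      (if Ts ∈ S.kk M T then X Ts / S.ww X else 0) * X T + X Ts / S.ww X * (δ * X T) := by
    intro Ts _
    have h0 : 0 ≤ X Ts / S.ww X := div_nonneg (hX _) hW.le
    unfold Sy.nX
    split_ifs
    · rw [zero_sub, abs_neg, abs_of_nonneg (hX T)]
      have : 0 ≤ X Ts / S.ww X * (δ * X T) := mul_nonneg h0 (mul_nonneg hδ (hX T))
      linarith
    · rw [zero_mul, zero_add]
      apply mul_le_mul_of_nonneg_left _ h0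
      have e2 : X T * ((1 - 1 / S.ww X) / (1 - S.qq X (S.kk M T))) - X T =
          ((1 - 1 / S.ww X) / (1 - S.qq X (S.kk M T)) - 1) * X T := by ring
      rw [e2, abs_mul, abs_of_nonneg (hX T)]
      exact mul_le_mul_of_nonneg_right hρ (hX T)
  refine (sum_le_sum e1).trans ?_
  rw [sum_add_distrib, ← sum_mul, ← sum_mul, h1, ← sum_filter]
  have e2 : S.R.filter (fun Ts => Ts ∈ S.kk M T) = S.kk M T := by
    ext Ts
    rw [mem_filter]
    exact ⟨fun h => h.2, fun h => ⟨w6_kk_sub M T h, h⟩⟩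
  have e3 : ∑ Ts ∈ S.kk M T, X Ts / S.ww X = S.qq X (S.kk M T) := by
    unfold Sy.qq
    rw [sum_div]
  rw [e2, e3, one_mul, add_mul]
  have := mul_le_mul_of_nonneg_right hq (hX T)
  linarith

/-- the weight of the hyperedges through `e` which are killed because they meet `Ts` -/
private theorem w6_me {J : ℕ} (hg : S.Good J) {X : τ → ℝ} {r : ℝ} (hX : ∀ T, 0 ≤ X T)
    (hr : ∀ T, X T ≤ r) {e : ι} {Ts : τ} (hTs : Ts ∈ S.R) (he : e ∉ S.ed Ts) :
    ∑ T ∈ (S.R.filter (fun T => e ∈ S.ed T)).filter (fun T => Ts ∈ S.me T), X T ≤ 3 * r := by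
  have h1 : (S.R.filter (fun T => e ∈ S.ed T)).filter (fun T => Ts ∈ S.me T) ⊆
      (S.ed Ts).biUnion fun e' => S.R.filter (fun T => e ∈ S.ed T ∧ e' ∈ S.ed T) := by
    intro T hT
    rw [mem_filter, mem_filter] at hT
    obtain ⟨⟨hT1, hT2⟩, hT3⟩ := hT
    have hT4 := (mem_filter.1 hT3).2
    obtain ⟨e', h3, h4⟩ := not_disjoint_iff.1 hT4
    exact mem_biUnion.2 ⟨e', h3, mem_filter.2 ⟨hT1, hT2, h4⟩⟩
  have h2 : ∀ e' ∈ S.ed Ts, (S.R.filter (fun T => e ∈ S.ed T ∧ e' ∈ S.ed T)).card ≤ 1 := by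
    intro e' he'
    rw [card_le_one]
    intro T hT T' hT'
    rw [mem_filter] at hT hT'
    by_contra hne
    have h3 := hg.lin T hT.1 T' hT'.1 hne
    have h4 : ({e, e'} : Finset ι) ⊆ S.ed T ∩ S.ed T' := by
      intro x hx
      rw [mem_insert, mem_singleton] at hx
      rcases hx with rfl | rfl
      · exact mem_inter.2 ⟨hT.2.1, hT'.2.1⟩
      · exact mem_inter.2 ⟨hT.2.2, hT'.2.2⟩
    have h5 : e ≠ e' := fun h => he (h ▸ he')
    have h6 := card_le_card h4
    rw [card_pair h5] at h6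
    omega
  have h3 : ((S.R.filter (fun T => e ∈ S.ed T)).filter (fun T => Ts ∈ S.me T)).card ≤ 3 := by
    refine (card_le_card h1).trans (card_biUnion_le.trans ?_)
    refine (sum_le_sum h2).trans ?_
    rw [sum_const, smul_eq_mul, mul_one, hg.card3 Ts hTs]
  have hr0 : 0 ≤ r := (hX Ts).trans (hr Ts)
  calc ∑ T ∈ (S.R.filter (fun T => e ∈ S.ed T)).filter (fun T => Ts ∈ S.me T), X T
      ≤ ∑ _T ∈ (S.R.filter (fun T => e ∈ S.ed T)).filter (fun T => Ts ∈ S.me T), r :=
        sum_le_sum fun T _ => hr T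
    _ = (((S.R.filter (fun T => e ∈ S.ed T)).filter (fun T => Ts ∈ S.me T)).card : ℝ) * r := by
        rw [sum_const, nsmul_eq_mul]
    _ ≤ 3 * r := by
        apply mul_le_mul_of_nonneg_right _ hr0
        exact_mod_cast h3

/-- the weight of the hyperedges through `e` which are threatened by `Ts` -/
private theorem w6_th {M : Finset τ} {X y : τ → ℝ} {r : ℝ} {e : ι} {Ts : τ}
    (hy : ∀ T, 0 ≤ y T) (hyM : ∀ T ∈ M, y T = 1) (hXy : ∀ T ∈ S.R, X T ≤ y T)
    (hXM : ∀ T, X T ≠ 0 → T ∉ M) (hB : ∑ P ∈ S.fB Ts e, ∏ T'' ∈ P, y T'' ≤ r) :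
    ∑ T ∈ (S.R.filter (fun T => e ∈ S.ed T)).filter (fun T => Ts ∈ S.th M T ∧ X T ≠ 0), X T ≤
      r := by
  classical
  set A := (S.R.filter (fun T => e ∈ S.ed T)).filter (fun T => Ts ∈ S.th M T ∧ X T ≠ 0) with hA
  have h1 : ∀ T ∈ A, ∃ U ∈ S.conf, T ∈ U ∧ Ts ∈ U ∧ Ts ≠ T ∧ (U.erase T).erase Ts ⊆ M := by
    intro T hT
    rw [hA, mem_filter] at hT
    have h2 := (mem_filter.1 hT.2.1).2
    obtain ⟨h3, -, U, hU, h4, h5, h6⟩ := h2
    exact ⟨U, hU, h4, h5, h3, h6⟩
  choose! g hg1 hg2 hg3 hg4 hg5 using h1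
  refine le_trans ?_ hB
  have hAR : ∀ T ∈ A, T ∈ S.R ∧ e ∈ S.ed T ∧ T ∉ M := by
    intro T hT
    rw [hA, mem_filter, mem_filter] at hT
    exact ⟨hT.1.1, hT.1.2, hXM T hT.2.2⟩
  have hprod : ∀ T ∈ A, ∏ T'' ∈ (g T).erase Ts, y T'' = y T := by
    intro T hT
    have h2 : T ∈ (g T).erase Ts := mem_erase.2 ⟨(hg4 T hT).symm, hg2 T hT⟩
    rw [← mul_prod_erase _ _ h2]
    have h3 : ∏ T'' ∈ ((g T).erase Ts).erase T, y T'' = 1 := by
      apply prod_eq_one
      intro T'' hT''
      apply hyM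
      apply hg5 T hT
      rw [erase_right_comm]
      exact hT''
    rw [h3, mul_one]
  calc ∑ T ∈ A, X T ≤ ∑ T ∈ A, ∏ T'' ∈ (g T).erase Ts, y T'' := by
        refine sum_le_sum fun T hT => ?_
        rw [hprod T hT]
        exact hXy T (hAR T hT).1
    _ = ∑ P ∈ A.image (fun T => (g T).erase Ts), ∏ T'' ∈ P, y T'' := by
        rw [sum_image]
        intro T hT T' hT' hTT
        rw [mem_coe] at hT hT'
        simp only at hTT
        by_contra hne
        have h2 : T ∈ (g T').erase Ts := by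
          rw [← hTT]
          exact mem_erase.2 ⟨(hg4 T hT).symm, hg2 T hT⟩
        have h3 : T ∈ ((g T').erase T').erase Ts := by
          rw [erase_right_comm]
          exact mem_erase.2 ⟨hne, h2⟩
        exact (hAR T hT).2.2 (hg5 T' hT' h3)
    _ ≤ ∑ P ∈ S.fB Ts e, ∏ T'' ∈ P, y T'' := by
        apply sum_le_sum_of_subset_of_nonneg
        · intro P hP
          obtain ⟨T, hT, rfl⟩ := mem_image.1 hP
          unfold Sy.fB
          rw [mem_image]
          refine ⟨g T, mem_filter.2 ⟨hg1 T hT, hg3 T hT, T, ?_, (hAR T hT).2.1⟩, rfl⟩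
          exact mem_erase.2 ⟨(hg4 T hT).symm, hg2 T hT⟩
        · intro P _ _
          exact prod_nonneg fun T _ => hy T

end W6

/-- Row N6: the real weight through an uncovered element. -/
theorem w_ok : SpBas → SpW := by
  intro hb J K C₁ hK hC
  obtain ⟨c₀, hc₀, hbas⟩ := hb J K C₁ hK hC
  set Q : ℝ := 33 / 10 + K with hQ
  have hQ1 : 1 ≤ Q := by linarith
  refine ⟨max c₀ (4 * Q + 4), hc₀.trans (le_max_left _ _), ?_⟩
  intro ι τ _ _ _ _ S ν p β r E0 M X x hL hcW e he s hs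
  set c : ℝ := max c₀ (4 * Q + 4) with hc
  have hc1 : 4 * Q + 4 ≤ c := le_max_right _ _
  have hB := hbas c (le_max_left _ _) ι τ S ν p β r E0 M X x hL hcW
  have hW := hB.W_pos
  set W := S.ww X with hWdef
  have hX := hL.inv.X_nonneg
  have hwe0 : S.we X e ≤ 11 / 10 := hB.we_le e
  have hwe1 : 0 ≤ S.we X e := sum_nonneg fun T _ => hX T
  have hwe := hL.we_le e he
  have hXr : ∀ T, X T ≤ r := by
    intro T
    have h1 := hL.X_le T
    have h2 : 0 ≤ 1 / p * X T := mul_nonneg (by have := hL.p_pos; positivity) (hX T)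
    linarith
  -- the kill probabilities
  have hq0 : ∀ T, 0 ≤ S.qq X (S.kk M T) := fun T =>
    div_nonneg (sum_nonneg fun T' _ => hX T') hW.le
  have hq : ∀ T ∈ S.R, X T ≠ 0 → S.qq X (S.kk M T) ≤ Q / W := by
    intro T hT hT0
    have h1 := hB.kk_le T (mem_union_left _ hT) (hB.X_M T hT0)
    have h2 : p * K ≤ K := mul_le_of_le_one_left (by linarith) hL.p_le
    exact div_le_div_of_nonneg_right (h1.trans (by linarith)) hW.le
  have hcW2 : c / W ≤ 1 / 2 := hB.W_half
  have hQW : 4 * (Q / W) ≤ c / W := by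
    have e1 : 4 * (Q / W) = 4 * Q / W := by ring
    rw [e1]
    exact div_le_div_of_nonneg_right (by linarith) hW.le
  have hq2 : ∀ T ∈ S.R, X T ≠ 0 → S.qq X (S.kk M T) ≤ 1 / 2 := by
    intro T hT hT0
    have := hq T hT hT0
    have h3 := hq0 T
    linarith
  have hρ : ∀ T ∈ S.R, X T ≠ 0 →
      |(1 - 1 / W) / (1 - S.qq X (S.kk M T)) - 1| ≤ 2 * Q / W := fun T hT hT0 =>
    w6_rho hW hQ1 (hq0 T) (hq T hT hT0) (hq2 T hT hT0)
  have hs1 : |s| = 1 := by
    rcases hs with rfl | rfl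
    · exact abs_one
    · rw [abs_neg, abs_one]
  -- the change of the weight
  have hΔ : ∀ Ts, |s * (S.we (S.nX M X Ts) e - S.we X e)| ≤
      ∑ T ∈ S.R.filter (fun T => e ∈ S.ed T), |S.nX M X Ts T - X T| := by
    intro Ts
    rw [abs_mul, hs1, one_mul]
    unfold Sy.we
    rw [← sum_sub_distrib]
    exact abs_sum_le_sum_abs _ _
  have hw0 : ∀ Ts, 0 ≤ X Ts / W := fun Ts => div_nonneg (hX Ts) hW.le
  refine ⟨?_, ?_, ?_⟩
  · -- first moment
    have e1 : ∑ Ts ∈ S.R.filter (fun Ts => e ∉ S.ed Ts), X Ts / W = 1 - S.we X e / W := by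
      have h1 := sum_filter_add_sum_filter_not S.R (fun Ts => e ∈ S.ed Ts) (fun Ts => X Ts / W)
      rw [hB.sumX] at h1
      have h2 : ∑ Ts ∈ S.R.filter (fun Ts => e ∈ S.ed Ts), X Ts / W = S.we X e / W := by
        unfold Sy.we
        rw [sum_div]
      rw [h2] at h1
      linarith
    have e2 : ∑ Ts ∈ S.R.filter (fun Ts => e ∉ S.ed Ts), X Ts / W * S.we (S.nX M X Ts) e =
        S.we X e * (1 - 1 / W) := by
      unfold Sy.we
      simp only [mul_sum]
      rw [sum_comm, sum_mul]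
      refine sum_congr rfl fun T hT => ?_
      rw [mem_filter] at hT
      by_cases hT0 : X T = 0
      · rw [hT0, zero_mul]
        exact sum_eq_zero fun Ts _ => by rw [w6_nX_zero hT0, mul_zero]
      · rw [← w6_mean hW.ne' hB.sumX (lt_of_le_of_lt (hq2 T hT.1 hT0) (by norm_num))]
        apply sum_subset (filter_subset _ _)
        intro Ts hTs hTs2
        have h3 : e ∈ S.ed Ts := by
          by_contra h4
          exact hTs2 (mem_filter.2 ⟨hTs, h4⟩)
        have h5 : S.nX M X Ts T = 0 := by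
          unfold Sy.nX
          rw [if_pos (w6_meet hTs hT.2 h3)]
        rw [h5, mul_zero]
    have e3 : ∑ Ts ∈ S.R.filter (fun Ts => e ∉ S.ed Ts), X Ts / W *
        (s * (S.we (S.nX M X Ts) e - S.we X e)) = s * (S.we X e * (S.we X e - 1) / W) := by
      have e4 : ∀ Ts ∈ S.R.filter (fun Ts => e ∉ S.ed Ts), X Ts / W *
          (s * (S.we (S.nX M X Ts) e - S.we X e)) =
            s * (X Ts / W * S.we (S.nX M X Ts) e) - s * (X Ts / W * S.we X e) := by
        intro Ts _
        ring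
      rw [sum_congr rfl e4, sum_sub_distrib, ← mul_sum, ← mul_sum, ← sum_mul, e1, e2]
      field_simp
      ring
    rw [e3]
    have h6 : |s * (S.we X e * (S.we X e - 1) / W)| ≤ 2 * β / W := by
      rw [abs_mul, hs1, one_mul, abs_div, abs_of_pos hW, abs_mul, abs_of_nonneg hwe1]
      apply div_le_div_of_nonneg_right _ hW.le
      have hβ := hL.β_nonneg
      exact mul_le_mul (by linarith) hwe (abs_nonneg _) (by norm_num)
    exact (le_abs_self _).trans h6
  · -- mean absolute value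
    have h1 : ∀ Ts ∈ S.R.filter (fun Ts => e ∉ S.ed Ts), X Ts / W *
        |s * (S.we (S.nX M X Ts) e - S.we X e)| ≤
          ∑ T ∈ S.R.filter (fun T => e ∈ S.ed T), X Ts / W * |S.nX M X Ts T - X T| := by
      intro Ts _
      rw [← mul_sum]
      exact mul_le_mul_of_nonneg_left (hΔ Ts) (hw0 Ts)
    refine (sum_le_sum h1).trans ?_
    rw [sum_comm]
    have h2 : ∀ T ∈ S.R.filter (fun T => e ∈ S.ed T),
        ∑ Ts ∈ S.R.filter (fun Ts => e ∉ S.ed Ts), X Ts / W * |S.nX M X Ts T - X T| ≤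
          (Q / W + 2 * Q / W) * X T := by
      intro T hT
      rw [mem_filter] at hT
      by_cases hT0 : X T = 0
      · rw [hT0, mul_zero]
        refine le_of_eq (sum_eq_zero fun Ts _ => ?_)
        rw [w6_nX_zero hT0, sub_zero, abs_zero, mul_zero]
      · refine le_trans ?_ (w6_abs hX hW hB.sumX (hq T hT.1 hT0) (hρ T hT.1 hT0))
        exact sum_le_sum_of_subset_of_nonneg (filter_subset _ _) fun Ts _ _ =>
          mul_nonneg (hw0 Ts) (abs_nonneg _)
    refine (sum_le_sum h2).trans ?_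
    rw [← mul_sum]
    have e1 : (Q / W + 2 * Q / W) = 3 * Q / W := by ring
    rw [e1, div_mul_eq_mul_div]
    apply div_le_div_of_nonneg_right _ hW.le
    have h3 : ∑ T ∈ S.R.filter (fun T => e ∈ S.ed T), X T ≤ 11 / 10 := hwe0
    nlinarith
  · -- increments
    intro Ts hTs hTs0
    rw [mem_filter] at hTs
    refine (hΔ Ts).trans ?_
    have hB2 := hL.cB Ts (mem_union_left _ hTs.1) e he hTs.2
    have h1 := w6_me hL.good hX hXr hTs.1 hTs.2
    have h2 := w6_th (S := S) (M := M) (X := X) (y := S.yh ν p E0 M X) hB.yh_nonneg hB.yh_M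
      hB.X_le_yh hB.X_M hB2
    have h3 : ∀ T ∈ S.R.filter (fun T => e ∈ S.ed T), |S.nX M X Ts T - X T| ≤
        (if Ts ∈ S.me T then X T else 0) + (if Ts ∈ S.th M T ∧ X T ≠ 0 then X T else 0) +
          2 * Q / W * X T := by
      intro T hT
      rw [mem_filter] at hT
      have h4 : 0 ≤ 2 * Q / W * X T := mul_nonneg (by positivity) (hX T)
      by_cases hT0 : X T = 0
      · rw [w6_nX_zero hT0, hT0, sub_zero, abs_zero, mul_zero, add_zero, ite_self, ite_self,
          add_zero]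
      · have h5 : 0 ≤ (if Ts ∈ S.me T then X T else 0) := by
          split_ifs
          · exact hX T
          · exact le_rfl
        have h6 : 0 ≤ (if Ts ∈ S.th M T ∧ X T ≠ 0 then X T else 0) := by
          split_ifs
          · exact hX T
          · exact le_rfl
        by_cases hk : Ts ∈ S.kk M T
        · have e1 : S.nX M X Ts T = 0 := by
            unfold Sy.nX
            rw [if_pos hk]
          rw [e1, zero_sub, abs_neg, abs_of_nonneg (hX T)]
          unfold Sy.kk at hk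
          rw [if_pos hT.1, mem_union] at hk
          rcases hk with hk | hk
          · rw [if_pos hk]
            linarith
          · rw [if_pos (show Ts ∈ S.th M T ∧ X T ≠ 0 from ⟨hk, hT0⟩)]
            linarith
        · have e1 : S.nX M X Ts T - X T =
              ((1 - 1 / W) / (1 - S.qq X (S.kk M T)) - 1) * X T := by
            unfold Sy.nX
            rw [if_neg hk]
            ring
          rw [e1, abs_mul, abs_of_nonneg (hX T)]
          have h7 := mul_le_mul_of_nonneg_right (hρ T hT.1 hT0) (hX T)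
          linarith
    refine (sum_le_sum h3).trans ?_
    rw [sum_add_distrib, sum_add_distrib, ← mul_sum, ← sum_filter, ← sum_filter]
    have h8 : ∑ T ∈ S.R.filter (fun T => e ∈ S.ed T), X T ≤ 11 / 10 := hwe0
    have h8' : 0 ≤ ∑ T ∈ S.R.filter (fun T => e ∈ S.ed T), X T := hwe1
    have h9 : 1 / W ≤ r := by
      have h10 : 1 / W ≤ c / W := div_le_div_of_nonneg_right (by linarith) hW.le
      exact h10.trans hB.W_big
    have h11 : 2 * Q / W * ∑ T ∈ S.R.filter (fun T => e ∈ S.ed T), X T ≤ 3 * Q * r := by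
      have e1 : 2 * Q / W = 2 * Q * (1 / W) := by ring
      rw [e1]
      calc 2 * Q * (1 / W) * ∑ T ∈ S.R.filter (fun T => e ∈ S.ed T), X T
          ≤ 2 * Q * r * (11 / 10) := by
            refine mul_le_mul (mul_le_mul_of_nonneg_left h9 (by positivity)) h8 h8' ?_
            have := hL.r_pos
            positivity
        _ ≤ 3 * Q * r := by
            have := hL.r_pos
            nlinarith [mul_pos (by linarith : (0:ℝ) < Q) this]
    have hr := hL.r_pos
    nlinarith [mul_pos (by linarith : (0:ℝ) < Q) hr]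

end F2
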