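import Pool.Agent.F2.N.Spec

/-!
# Project F2, block N, row N13: growth of the weights in one step
-/

set_option autoImplicit false
set_option linter.unusedSectionVars false

namespace F2

open Finset
open Pool.Agent.F2 (HH GG)

/-- the arithmetic for the real weights -/
theorem xgr_real {a b W q : ℝ} (hW : 0 < W) (ha : 0 ≤ a) (hb : b = a + 3 / 10) (hq : q ≤ b / W)
    (h1 : b / W ≤ 1 / 2) (h2 : a * b / W ≤ 7 / 10) :
    (1 - 1 / W) / (1 - q) ≤ 1 + a / W := by
  have hq1 : 0 < 1 - q := by linarith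
  rw [div_le_iff₀ hq1]
  have haW : 0 ≤ a / W := by positivity
  have h3 : (1 + a / W) * (1 - b / W) ≤ (1 + a / W) * (1 - q) :=
    mul_le_mul_of_nonneg_left (by linarith) (by linarith)
  refine le_trans ?_ h3
  have e : (1 + a / W) * (1 - b / W) = 1 - 1 / W + (7 / 10 - a * b / W) / W := by
    subst hb
    field_simp
    ring
  rw [e]
  have : 0 ≤ (7 / 10 - a * b / W) / W := div_nonneg (by linarith) hW.le
  linarith

/-- the arithmetic for the virtual weights -/
theorem xgr_virt {a W q : ℝ} (hW : 0 < W) (ha : 0 ≤ a) (hq : q ≤ a / W)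
    (h1 : a / W ≤ 1 / 2) : 1 / (1 - q) ≤ 1 + 2 * a / W := by
  have hq1 : 0 < 1 - q := by linarith
  rw [div_le_iff₀ hq1]
  have haW : 0 ≤ a / W := by positivity
  have e : 2 * a / W = 2 * (a / W) := by ring
  rw [e]
  have h3 : (1 + 2 * (a / W)) * (1 - a / W) ≤ (1 + 2 * (a / W)) * (1 - q) :=
    mul_le_mul_of_nonneg_left (by linarith) (by linarith)
  refine le_trans ?_ h3
  nlinarith

/-- N13 -/
theorem x_ok : SpBas → SpX := by
  intro hbas J K C₁ hK hC₁
  obtain ⟨c₀, hc₀, hb⟩ := hbas J K C₁ hK hC₁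
  refine ⟨max c₀ (2 * (4 + K) ^ 2), hc₀.trans (le_max_left _ _), ?_⟩
  intro ι τ _ _ _ _ S ν p β r E0 M X x hL hc Ts hTs T
  have hB := hb _ (le_max_left c₀ (2 * (4 + K) ^ 2)) ι τ S ν p β r E0 M X x hL hc
  set c : ℝ := max c₀ (2 * (4 + K) ^ 2) with hcdef
  have hcK : 2 * (4 + K) ^ 2 ≤ c := le_max_right _ _
  have hW := hB.W_pos
  have hhalf := hB.W_half
  have hp0 := hL.p_pos
  have hp1 := hL.p_le
  have hpK0 : 0 ≤ p * K := by positivity
  have hpK : p * K ≤ K := by nlinarith
  have hbW : (33 / 10 + p * K) / S.ww X ≤ 1 / 2 := by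
    refine le_trans (div_le_div_of_nonneg_right ?_ hW.le) hhalf
    nlinarith
  have habW : (3 + p * K) * (33 / 10 + p * K) / S.ww X ≤ 7 / 10 := by
    have h1 : (3 + p * K) * (33 / 10 + p * K) ≤ (4 + K) ^ 2 := by nlinarith
    have h2 : (3 + p * K) * (33 / 10 + p * K) ≤ c / 2 := by linarith
    calc (3 + p * K) * (33 / 10 + p * K) / S.ww X ≤ (c / 2) / S.ww X :=
          div_le_div_of_nonneg_right h2 hW.le
      _ = (c / S.ww X) / 2 := by ring
      _ ≤ _ := by linarith
  have haW : p * K / S.ww X ≤ 1 / 2 := by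
    refine le_trans (div_le_div_of_nonneg_right ?_ hW.le) hbW
    linarith
  constructor
  · unfold Sy.nX
    have hX0 := hL.inv.X_nonneg T
    split_ifs with h
    · positivity
    · rcases eq_or_ne (X T) 0 with h0 | h0
      · rw [h0, zero_mul, zero_mul]
      · have hTR := (hL.inv.X_ne T h0).1
        have hTM := hB.X_M T h0
        refine mul_le_mul_of_nonneg_left ?_ hX0
        have hq : S.qq X (S.kk M T) ≤ (33 / 10 + p * K) / S.ww X := by
          unfold Sy.qq
          exact div_le_div_of_nonneg_right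
            (hB.kk_le T (Finset.mem_union_left _ hTR) hTM) hW.le
        exact xgr_real hW (by positivity) (by ring) hq hbW habW
  · unfold Sy.nx
    have hx0 := hL.inv.x_nonneg T
    split_ifs with h
    · positivity
    · rcases eq_or_ne (x T) 0 with h0 | h0
      · rw [h0, zero_mul, zero_div]
      · have hTV := (hL.inv.x_ne T h0).1
        have hTM : T ∉ M := fun hM =>
          Finset.disjoint_left.1 hL.good.disj (hL.inv.M_sub hM) hTV
        rw [div_eq_mul_one_div]
        refine mul_le_mul_of_nonneg_left ?_ hx0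
        have hq : S.qq X (S.th M T) ≤ p * K / S.ww X := by
          unfold Sy.qq
          exact div_le_div_of_nonneg_right
            (hB.th_le T (Finset.mem_union_right _ hTV) hTM) hW.le
        exact xgr_virt hW hpK0 hq haW

end F2
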