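import Pool.Agent.F2.N.Spec

/-!
# Project F2, block N, row N8: `YY`, mean values
-/

set_option autoImplicit false
set_option linter.unusedSectionVars false

namespace F2

open Finset
open Pool.Agent.F2 (HH GG)

section Y1

variable {ι τ : Type} [Fintype ι] [Fintype τ] [DecidableEq ι] [DecidableEq τ] (S : Sy ι τ)

/-- the configurations of `YY` -/
def y1U (M : Finset τ) (T : τ) : Finset (Finset τ) :=
  S.conf.filter (fun U => T ∈ U ∧ U.erase T ⊆ S.R ∧ ¬ U.erase T ⊆ M)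

theorem y1_new (M : Finset τ) (y : τ → ℝ) (T Ts : τ) :
    S.YY (insert Ts M) y T = ∑ U ∈ y1U S M T,
      if ¬ U.erase T ⊆ insert Ts M then ∏ T' ∈ U.erase T, y T' else 0 := by
  unfold Sy.YY y1U
  rw [← Finset.sum_filter, Finset.filter_filter]
  refine Finset.sum_congr ?_ fun _ _ => rfl
  ext U
  simp only [Finset.mem_filter]
  constructor
  · rintro ⟨h1, h2, h3, h4⟩
    exact ⟨h1, ⟨h2, h3, fun h5 => h4 (h5.trans (Finset.subset_insert _ _))⟩, h4⟩
  · rintro ⟨h1, ⟨h2, h3, _⟩, h5⟩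
    exact ⟨h1, h2, h3, h5⟩

theorem y1_old (M : Finset τ) (y : τ → ℝ) (T : τ) :
    S.YY M y T = ∑ U ∈ y1U S M T, ∏ T' ∈ U.erase T, y T' := rfl

/-- the terms of one configuration -/
theorem y1_term {w Y : τ → ℝ} {y : τ → τ → ℝ} {M P : Finset τ} {W C : ℝ} {J : ℕ} (hW : 0 < W)
    (hw : ∀ Ts, 0 ≤ w Ts) (hw1 : ∀ Ts, w Ts ≤ 1 / W) (hY : ∀ T, 0 ≤ Y T) (hP : P.card ≤ J)
    (hPM : ¬ P ⊆ M) (A : Finset τ) (T : τ)
    (h : ∑ Ts ∈ A, w Ts * |∏ T' ∈ P, y Ts T' - ∏ T' ∈ P, Y T'| ≤ C / W * ∏ T' ∈ P, Y T') :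
    ∑ Ts ∈ A.filter (fun Ts => Ts ≠ T), w Ts *
      |(if ¬ P ⊆ insert Ts M then ∏ T' ∈ P, y Ts T' else 0) - ∏ T' ∈ P, Y T'| ≤
      (C + J) / W * ∏ T' ∈ P, Y T' := by
  classical
  have hYP : 0 ≤ ∏ T' ∈ P, Y T' := Finset.prod_nonneg fun T _ => hY T
  have h1 : ∀ Ts ∈ A, w Ts *
      |(if ¬ P ⊆ insert Ts M then ∏ T' ∈ P, y Ts T' else 0) - ∏ T' ∈ P, Y T'| ≤
      w Ts * |∏ T' ∈ P, y Ts T' - ∏ T' ∈ P, Y T'| +
        (if Ts ∈ P then 1 / W * ∏ T' ∈ P, Y T' else 0) := by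
    intro Ts _
    by_cases h2 : P ⊆ insert Ts M
    · have h3 : Ts ∈ P := by
        by_contra h4
        exact hPM fun a ha => by
          rcases Finset.mem_insert.1 (h2 ha) with h5 | h5
          · exact absurd (h5 ▸ ha) h4
          · exact h5
      rw [if_neg (not_not.2 h2), if_pos h3, zero_sub, abs_neg, abs_of_nonneg hYP]
      have h4 : 0 ≤ w Ts * |∏ T' ∈ P, y Ts T' - ∏ T' ∈ P, Y T'| :=
        mul_nonneg (hw Ts) (abs_nonneg _)
      have h5 := mul_le_mul_of_nonneg_right (hw1 Ts) hYP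
      linarith
    · rw [if_pos h2]
      have h4 : (0 : ℝ) ≤ if Ts ∈ P then 1 / W * ∏ T' ∈ P, Y T' else 0 := by
        split_ifs
        · exact mul_nonneg (by positivity) hYP
        · exact le_rfl
      linarith
  have h6 : ∑ Ts ∈ A.filter (fun Ts => Ts ≠ T), w Ts *
      |(if ¬ P ⊆ insert Ts M then ∏ T' ∈ P, y Ts T' else 0) - ∏ T' ∈ P, Y T'| ≤
      ∑ Ts ∈ A, w Ts *
      |(if ¬ P ⊆ insert Ts M then ∏ T' ∈ P, y Ts T' else 0) - ∏ T' ∈ P, Y T'| :=
    Finset.sum_le_sum_of_subset_of_nonneg (Finset.filter_subset _ _) fun Ts _ _ =>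
      mul_nonneg (hw Ts) (abs_nonneg _)
  have h7 := Finset.sum_le_sum h1
  rw [Finset.sum_add_distrib] at h7
  have h8 : ∑ Ts ∈ A, (if Ts ∈ P then 1 / W * ∏ T' ∈ P, Y T' else 0) ≤
      J * (1 / W * ∏ T' ∈ P, Y T') := by
    rw [← Finset.sum_filter, Finset.sum_const, nsmul_eq_mul]
    refine mul_le_mul_of_nonneg_right ?_ (mul_nonneg (by positivity) hYP)
    have h9 : (A.filter (fun Ts => Ts ∈ P)).card ≤ J :=
      (Finset.card_le_card fun a ha => (Finset.mem_filter.1 ha).2).trans hP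
    exact_mod_cast h9
  have h10 : (C + J) / W * ∏ T' ∈ P, Y T' =
      C / W * ∏ T' ∈ P, Y T' + J * (1 / W * ∏ T' ∈ P, Y T') := by ring
  rw [h10]
  linarith

end Y1

/-- **Row N8.** -/
theorem y1_ok (hb : SpBas) (hs : SpPs) (hv : SpPv) : SpY1 := by
  intro J K C₁ hK hC
  obtain ⟨c0, hc0, hb⟩ := hb J K C₁ hK hC
  obtain ⟨c1, hc1, hs⟩ := hs J K C₁ hK hC
  obtain ⟨c2, hc2, hv⟩ := hv J K C₁ hK hC
  have hJ : (0 : ℝ) ≤ (J : ℝ) := Nat.cast_nonneg J
  have hs0 : 0 ≤ c0 + c1 + c2 + J + 1 := by linarith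
  have hsum : c0 + c1 + c2 + J + 1 ≤ (c0 + c1 + c2 + J + 1) * K := le_mul_of_one_le_right hs0 hK
  refine ⟨(c0 + c1 + c2 + J + 1) * K, by linarith, ?_⟩
  intro ι τ _ _ _ _ S ν p β r E0 M X x hL hc T hT hTM
  have B := hb c0 le_rfl ι τ S ν p β r E0 M X x hL (by linarith)
  have hs' := hs ι τ S ν p β r E0 M X x hL (by linarith)
  have hv' := hv ι τ S ν p β r E0 M X x hL (by linarith)
  have hW : 0 < S.ww X := B.W_pos
  have hX0 : ∀ Ts, 0 ≤ X Ts := hL.inv.X_nonneg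
  have hXr : ∀ Ts, X Ts ≤ r := by
    intro Ts
    have h1 := hL.X_le Ts
    have h2 : 0 ≤ 1 / p * X Ts := mul_nonneg (by have := hL.p_pos; positivity) (hX0 Ts)
    linarith
  have hr1 : r ≤ 1 := by have := hL.r_le; linarith
  have hw0 : ∀ Ts, 0 ≤ X Ts / S.ww X := fun Ts => div_nonneg (hX0 Ts) hW.le
  have hw1 : ∀ Ts, X Ts / S.ww X ≤ 1 / S.ww X := fun Ts =>
    div_le_div_of_nonneg_right ((hXr Ts).trans hr1) hW.le
  have hY0 : ∀ T', 0 ≤ S.yh ν p E0 M X T' := B.yh_nonneg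
  have hYY : S.YY M (S.yh ν p E0 M X) T ≤ K := hL.hY T hT hTM
  have hprod0 : ∀ P : Finset τ, 0 ≤ ∏ T' ∈ P, S.yh ν p E0 M X T' := fun P =>
    Finset.prod_nonneg fun T' _ => hY0 T'
  have hYY0 : 0 ≤ S.YY M (S.yh ν p E0 M X) T := Finset.sum_nonneg fun U _ => hprod0 _
  have hβr : 0 ≤ β + r := add_nonneg hL.β_nonneg hL.r_pos.le
  constructor
  · -- first moments
    have h1 : ∑ Ts ∈ S.R.filter (fun Ts => Ts ≠ T), X Ts / S.ww X *
        S.YY (insert Ts M) (S.yn ν p E0 M X Ts) T ≤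
        (1 + c1 * (β + r) / S.ww X) * S.YY M (S.yh ν p E0 M X) T := by
      have h2 : ∀ Ts, X Ts / S.ww X * S.YY (insert Ts M) (S.yn ν p E0 M X Ts) T ≤
          X Ts / S.ww X * ∑ U ∈ y1U S M T, ∏ T' ∈ U.erase T, S.yn ν p E0 M X Ts T' := by
        intro Ts
        by_cases h3 : X Ts = 0
        · rw [h3, zero_div, zero_mul, zero_mul]
        · refine mul_le_mul_of_nonneg_left ?_ (hw0 Ts)
          rw [y1_new]
          refine Finset.sum_le_sum fun U _ => ?_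
          by_cases h4 : U.erase T ⊆ insert Ts M
          · rw [if_neg (not_not.2 h4)]
            exact Finset.prod_nonneg fun T' _ => B.yn_nonneg Ts h3 T'
          · rw [if_pos h4]
      have h4 : ∀ Ts, 0 ≤ X Ts / S.ww X *
          ∑ U ∈ y1U S M T, ∏ T' ∈ U.erase T, S.yn ν p E0 M X Ts T' := by
        intro Ts
        by_cases h3 : X Ts = 0
        · rw [h3, zero_div, zero_mul]
        · exact mul_nonneg (hw0 Ts) (Finset.sum_nonneg fun U _ =>
            Finset.prod_nonneg fun T' _ => B.yn_nonneg Ts h3 T')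
      calc _ ≤ ∑ Ts ∈ S.R.filter (fun Ts => Ts ≠ T), X Ts / S.ww X *
            ∑ U ∈ y1U S M T, ∏ T' ∈ U.erase T, S.yn ν p E0 M X Ts T' :=
            Finset.sum_le_sum fun Ts _ => h2 Ts
        _ ≤ ∑ Ts ∈ S.R, X Ts / S.ww X *
            ∑ U ∈ y1U S M T, ∏ T' ∈ U.erase T, S.yn ν p E0 M X Ts T' :=
            Finset.sum_le_sum_of_subset_of_nonneg (Finset.filter_subset _ _) fun Ts _ _ => h4 Ts
        _ = ∑ U ∈ y1U S M T, ∑ Ts ∈ S.R, X Ts / S.ww X *
            ∏ T' ∈ U.erase T, S.yn ν p E0 M X Ts T' := by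
            rw [Finset.sum_comm]
            exact Finset.sum_congr rfl fun Ts _ => Finset.mul_sum _ _ _
        _ ≤ ∑ U ∈ y1U S M T, (1 + c1 * (β + r) / S.ww X) *
            ∏ T' ∈ U.erase T, S.yh ν p E0 M X T' :=
            Finset.sum_le_sum fun U hU => hs' U (Finset.mem_filter.1 hU).1 (U.erase T)
              (Finset.erase_subset _ _)
        _ = _ := by rw [← Finset.mul_sum, y1_old]
    have h5 : (1 - r / S.ww X) * S.YY M (S.yh ν p E0 M X) T ≤
        ∑ Ts ∈ S.R.filter (fun Ts => Ts ≠ T), X Ts / S.ww X * S.YY M (S.yh ν p E0 M X) T := by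
      rw [← Finset.sum_mul]
      refine mul_le_mul_of_nonneg_right ?_ hYY0
      have h6 : ∑ Ts ∈ S.R, X Ts / S.ww X ≤
          ∑ Ts ∈ S.R.filter (fun Ts => Ts ≠ T), X Ts / S.ww X + X T / S.ww X := by
        rw [← Finset.sum_filter_add_sum_filter_not S.R (fun Ts => Ts ≠ T)]
        refine add_le_add le_rfl ?_
        have h7 : S.R.filter (fun Ts => ¬ Ts ≠ T) ⊆ {T} := by
          intro a ha
          rw [Finset.mem_filter, not_not] at ha
          exact Finset.mem_singleton.2 ha.2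
        refine (Finset.sum_le_sum_of_subset_of_nonneg h7 fun a _ _ => hw0 a).trans ?_
        rw [Finset.sum_singleton]
      rw [B.sumX] at h6
      have h8 : X T / S.ww X ≤ r / S.ww X := div_le_div_of_nonneg_right (hXr T) hW.le
      linarith
    have h9 : ∑ Ts ∈ S.R.filter (fun Ts => Ts ≠ T), X Ts / S.ww X *
        (S.YY (insert Ts M) (S.yn ν p E0 M X Ts) T - S.YY M (S.yh ν p E0 M X) T) =
        ∑ Ts ∈ S.R.filter (fun Ts => Ts ≠ T), X Ts / S.ww X *
          S.YY (insert Ts M) (S.yn ν p E0 M X Ts) T -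
        ∑ Ts ∈ S.R.filter (fun Ts => Ts ≠ T), X Ts / S.ww X * S.YY M (S.yh ν p E0 M X) T := by
      rw [← Finset.sum_sub_distrib]
      exact Finset.sum_congr rfl fun Ts _ => mul_sub _ _ _
    rw [h9]
    have h10 : (1 + c1 * (β + r) / S.ww X) * S.YY M (S.yh ν p E0 M X) T -
        (1 - r / S.ww X) * S.YY M (S.yh ν p E0 M X) T =
        (c1 * (β + r) + r) / S.ww X * S.YY M (S.yh ν p E0 M X) T := by
      field_simp
      ring
    have h11 : c1 * (β + r) + r ≤ (c0 + c1 + c2 + J + 1) * (β + r) := by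
      have h12 : r ≤ 1 * (β + r) := by have := hL.β_nonneg; linarith
      have h13 : (c1 + 1) * (β + r) ≤ (c0 + c1 + c2 + J + 1) * (β + r) :=
        mul_le_mul_of_nonneg_right (by linarith) hβr
      nlinarith
    have h14 : 0 ≤ c1 * (β + r) + r := by
      have : 0 ≤ c1 * (β + r) := mul_nonneg (by linarith) hβr
      have := hL.r_pos
      linarith
    have h15 : (c1 * (β + r) + r) / S.ww X * S.YY M (S.yh ν p E0 M X) T ≤
        ((c0 + c1 + c2 + J + 1) * (β + r)) / S.ww X * K :=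
      mul_le_mul (div_le_div_of_nonneg_right h11 hW.le) hYY hYY0
        (div_nonneg (h14.trans h11) hW.le)
    have h16 : ((c0 + c1 + c2 + J + 1) * (β + r)) / S.ww X * K =
        (c0 + c1 + c2 + J + 1) * K * (β + r) / S.ww X := by ring
    linarith
  · -- mean absolute values
    have h1 : ∀ Ts, X Ts / S.ww X *
        |S.YY (insert Ts M) (S.yn ν p E0 M X Ts) T - S.YY M (S.yh ν p E0 M X) T| ≤
        ∑ U ∈ y1U S M T, X Ts / S.ww X *
          |(if ¬ U.erase T ⊆ insert Ts M then ∏ T' ∈ U.erase T, S.yn ν p E0 M X Ts T' else 0) -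
            ∏ T' ∈ U.erase T, S.yh ν p E0 M X T'| := by
      intro Ts
      rw [← Finset.mul_sum, y1_new, y1_old, ← Finset.sum_sub_distrib]
      exact mul_le_mul_of_nonneg_left (Finset.abs_sum_le_sum_abs _ _) (hw0 Ts)
    calc _ ≤ ∑ Ts ∈ S.R.filter (fun Ts => Ts ≠ T), ∑ U ∈ y1U S M T, X Ts / S.ww X *
          |(if ¬ U.erase T ⊆ insert Ts M then ∏ T' ∈ U.erase T, S.yn ν p E0 M X Ts T' else 0) -
            ∏ T' ∈ U.erase T, S.yh ν p E0 M X T'| := Finset.sum_le_sum fun Ts _ => h1 Ts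
      _ = ∑ U ∈ y1U S M T, ∑ Ts ∈ S.R.filter (fun Ts => Ts ≠ T), X Ts / S.ww X *
          |(if ¬ U.erase T ⊆ insert Ts M then ∏ T' ∈ U.erase T, S.yn ν p E0 M X Ts T' else 0) -
            ∏ T' ∈ U.erase T, S.yh ν p E0 M X T'| := Finset.sum_comm
      _ ≤ ∑ U ∈ y1U S M T, (c2 + J) / S.ww X * ∏ T' ∈ U.erase T, S.yh ν p E0 M X T' := by
          refine Finset.sum_le_sum fun U hU => ?_
          obtain ⟨hU1, hU2, hU3, hU4⟩ := Finset.mem_filter.1 hU
          have hcard : (U.erase T).card ≤ J :=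
            (Finset.card_le_card (Finset.erase_subset _ _)).trans (hL.good.conf_card U hU1)
          exact y1_term (y := fun Ts T' => S.yn ν p E0 M X Ts T') hW hw0 hw1 hY0 hcard hU4 S.R T
            (hv' (U.erase T) hcard)
      _ = (c2 + J) / S.ww X * S.YY M (S.yh ν p E0 M X) T := by rw [← Finset.mul_sum, y1_old]
      _ ≤ (c0 + c1 + c2 + J + 1) / S.ww X * K :=
          mul_le_mul (div_le_div_of_nonneg_right (by linarith) hW.le) hYY hYY0
            (div_nonneg hs0 hW.le)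
      _ = _ := by ring

end F2
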