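import Pool.Agent.F2.N.Pv
import Pool.Agent.F2.N.Base

/-!
# Project F2, block N, row N9: `YY`, increments
-/

set_option autoImplicit false
set_option linter.unusedSectionVars false

namespace F2

open Finset

section Y2

variable {ι τ : Type} [Fintype ι] [Fintype τ] [DecidableEq ι] [DecidableEq τ] {S : Sy ι τ}
  {J : ℕ} {K C₁ ν p β r c : ℝ} {E0 : Finset ι} {M : Finset τ} {X x : τ → ℝ}

/-- the configurations of `YY` -/
def y2U (S : Sy ι τ) (M : Finset τ) (T : τ) : Finset (Finset τ) :=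
  S.conf.filter (fun U => T ∈ U ∧ U.erase T ⊆ S.R ∧ ¬ U.erase T ⊆ M)

theorem y2_new (M : Finset τ) (y : τ → ℝ) (T Ts : τ) :
    S.YY (insert Ts M) y T = ∑ U ∈ y2U S M T,
      if ¬ U.erase T ⊆ insert Ts M then ∏ T' ∈ U.erase T, y T' else 0 := by
  unfold Sy.YY y2U
  rw [← Finset.sum_filter, Finset.filter_filter]
  refine Finset.sum_congr ?_ fun _ _ => rfl
  ext U
  simp only [Finset.mem_filter]
  constructor
  · rintro ⟨h1, h2, h3, h4⟩
    exact ⟨h1, ⟨h2, h3, fun h5 => h4 (h5.trans (Finset.subset_insert _ _))⟩, h4⟩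
  · rintro ⟨h1, ⟨h2, h3, _⟩, h5⟩
    exact ⟨h1, h2, h3, h5⟩

theorem y2_inj (y : τ → ℝ) (hy : ∀ T, 0 ≤ y T) (F G : Finset (Finset τ))
    (g : Finset τ → Finset τ) (hg : ∀ U ∈ F, g U ∈ G)
    (hi : ∀ U ∈ F, ∀ U' ∈ F, g U = g U' → U = U') :
    ∑ U ∈ F, ∏ T ∈ g U, y T ≤ ∑ P ∈ G, ∏ T ∈ P, y T := by
  have h1 : ∑ U ∈ F, ∏ T ∈ g U, y T = ∑ P ∈ F.image g, ∏ T ∈ P, y T := by
    rw [Finset.sum_image]
    intro U hU U' hU' h
    exact hi U hU U' hU' h
  rw [h1]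
  refine Finset.sum_le_sum_of_subset_of_nonneg ?_ fun P _ _ => Finset.prod_nonneg fun T _ => hy T
  intro P hP
  obtain ⟨U, hU, rfl⟩ := Finset.mem_image.1 hP
  exact hg U hU

theorem y2_er {T : τ} {U U' : Finset τ} (h : T ∈ U) (h' : T ∈ U')
    (he : U.erase T = U'.erase T) : U = U' := by
  rw [← Finset.insert_erase h, he, Finset.insert_erase h']

theorem y2_a (L : S.Loc J K C₁ ν p β r E0 M X x) (B : S.Bas K ν p β r c E0 M X) {T Ts : τ}
    (hne : Ts ≠ T) (hM : Ts ∉ M) :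
    ∑ U ∈ (y2U S M T).filter (fun U => Ts ∈ U.erase T),
      ∏ T' ∈ U.erase T, S.yh ν p E0 M X T' ≤ r := by
  refine (y2_inj _ B.yh_nonneg _ (S.fA T Ts) (fun U => U.erase T) ?_ ?_).trans
    (L.cA T Ts hne.symm hM)
  · intro U hU
    obtain ⟨h1, h2⟩ := Finset.mem_filter.1 hU
    obtain ⟨h3, h4, _, _⟩ := Finset.mem_filter.1 h1
    exact Finset.mem_image.2 ⟨U, Finset.mem_filter.2 ⟨h3, h4, Finset.mem_of_mem_erase h2⟩, rfl⟩
  · intro U hU U' hU' h
    exact y2_er (Finset.mem_filter.1 (Finset.mem_filter.1 hU).1).2.1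
      (Finset.mem_filter.1 (Finset.mem_filter.1 hU').1).2.1 h

theorem y2_a' (L : S.Loc J K C₁ ν p β r E0 M X x) (B : S.Bas K ν p β r c E0 M X) {T Ts : τ}
    (hne : Ts ≠ T) :
    ∑ U ∈ (y2U S M T).filter (fun U => Ts ∈ U.erase T ∧ ¬ (U.erase T).erase Ts ⊆ M),
      ∏ T' ∈ (U.erase T).erase Ts, S.yh ν p E0 M X T' ≤ r := by
  refine (y2_inj _ B.yh_nonneg _ ((S.fA' T Ts).filter (fun P => ¬ P ⊆ M))
    (fun U => (U.erase T).erase Ts) ?_ ?_).trans (L.cA' T Ts hne.symm)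
  · intro U hU
    obtain ⟨h1, h2, h5⟩ := Finset.mem_filter.1 hU
    obtain ⟨h3, h4, _, _⟩ := Finset.mem_filter.1 h1
    refine Finset.mem_filter.2 ⟨Finset.mem_image.2 ⟨U, Finset.mem_filter.2
      ⟨h3, h4, Finset.mem_of_mem_erase h2, ?_⟩, rfl⟩, h5⟩
    rw [Finset.nonempty_iff_ne_empty]
    intro h6
    exact h5 (h6 ▸ Finset.empty_subset _)
  · intro U hU U' hU' h
    have h1 := Finset.mem_filter.1 hU
    have h2 := Finset.mem_filter.1 hU'
    exact y2_er (Finset.mem_filter.1 h1.1).2.1 (Finset.mem_filter.1 h2.1).2.1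
      (y2_er h1.2.1 h2.2.1 h)

theorem y2_b (L : S.Loc J K C₁ ν p β r E0 M X x) (B : S.Bas K ν p β r c E0 M X) {T : τ} {e : ι}
    (hT : T ∈ S.R ∪ S.Vt) (he : e ∈ S.al E0 M) (heT : e ∉ S.ed T) :
    ∑ U ∈ (y2U S M T).filter (fun U => ∃ T' ∈ U.erase T, e ∈ S.ed T'),
      ∏ T' ∈ U.erase T, S.yh ν p E0 M X T' ≤ r := by
  refine (y2_inj _ B.yh_nonneg _ (S.fB T e) (fun U => U.erase T) ?_ ?_).trans
    (L.cB T hT e he heT)
  · intro U hU
    obtain ⟨h1, h2⟩ := Finset.mem_filter.1 hU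
    obtain ⟨h3, h4, _, _⟩ := Finset.mem_filter.1 h1
    exact Finset.mem_image.2 ⟨U, Finset.mem_filter.2 ⟨h3, h4, h2⟩, rfl⟩
  · intro U hU U' hU' h
    exact y2_er (Finset.mem_filter.1 (Finset.mem_filter.1 hU).1).2.1
      (Finset.mem_filter.1 (Finset.mem_filter.1 hU').1).2.1 h

theorem y2_c (L : S.Loc J K C₁ ν p β r E0 M X x) (B : S.Bas K ν p β r c E0 M X) (T T' : τ) :
    ∑ U ∈ (y2U S M T).filter (fun U => T' ∈ U.erase T ∧ ¬ (U.erase T).erase T' ⊆ M),
      ∏ T'' ∈ U.erase T, S.yh ν p E0 M X T'' ≤ S.yh ν p E0 M X T' * r := by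
  by_cases h : T' = T
  · subst h
    rw [Finset.filter_eq_empty_iff.2, Finset.sum_empty]
    · exact mul_nonneg (B.yh_nonneg _) L.r_pos.le
    · rintro U _ ⟨h1, _⟩
      exact (Finset.ne_of_mem_erase h1) rfl
  · have h1 : ∀ U ∈ (y2U S M T).filter (fun U => T' ∈ U.erase T ∧ ¬ (U.erase T).erase T' ⊆ M),
        ∏ T'' ∈ U.erase T, S.yh ν p E0 M X T'' =
          S.yh ν p E0 M X T' * ∏ T'' ∈ (U.erase T).erase T', S.yh ν p E0 M X T'' := by
      intro U hU
      exact (Finset.mul_prod_erase _ _ (Finset.mem_filter.1 hU).2.1).symm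
    rw [Finset.sum_congr rfl h1, ← Finset.mul_sum]
    exact mul_le_mul_of_nonneg_left (y2_a' L B h) (B.yh_nonneg _)

/-- the dangerous configurations -/
def y2D (S : Sy ι τ) (M : Finset τ) (T Ts : τ) : Finset (Finset τ) :=
  (y2U S M T).filter (fun U => Ts ∉ U.erase T ∧
    ∃ T' ∈ U.erase T, T' ∈ S.th M Ts ∧ T' ∉ M ∧ (U.erase T).erase T' ⊆ M)

theorem y2_d (L : S.Loc J K C₁ ν p β r E0 M X x) (B : S.Bas K ν p β r c E0 M X) {T Ts : τ}
    (hT : T ∈ S.R ∪ S.Vt) (hTM : T ∉ M) (hTs : Ts ∈ S.R) (hne : Ts ≠ T) :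
    ∑ U ∈ y2D S M T Ts, ∏ T' ∈ U.erase T, S.yh ν p E0 M X T' ≤ 2 ^ (2 * J) * r := by
  set y : τ → ℝ := S.yh ν p E0 M X with hy
  set E : Finset (Finset τ) := (S.fE T Ts).filter (fun P => ¬ P ⊆ M) with hE
  have hy0 : ∀ T, 0 ≤ y T := B.yh_nonneg
  have hb0 : ∀ Z : Finset τ, 0 ≤ ∏ T' ∈ Z, y T' := fun Z => Finset.prod_nonneg fun T _ => hy0 T
  -- for every configuration there is a pair
  have h1 : ∀ U ∈ y2D S M T Ts, ∃ Z ∈ E, U.erase T ⊆ Z ∧
      ∏ T' ∈ U.erase T, y T' = ∏ T' ∈ Z, y T' := by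
    intro U hU
    obtain ⟨hU1, hTsU, T', hT', hth, hT'M, hsub⟩ := Finset.mem_filter.1 hU
    obtain ⟨hU2, hTU, hUR, _⟩ := Finset.mem_filter.1 hU1
    obtain ⟨_, hT'Ts, _, U2, hU2c, hTsU2, hT'U2, hU2M⟩ := Finset.mem_filter.1 hth
    refine ⟨U.erase T ∪ U2.erase Ts, ?_, Finset.subset_union_left, ?_⟩
    · refine Finset.mem_filter.2 ⟨Finset.mem_image.2 ⟨(U, U2), Finset.mem_filter.2
        ⟨Finset.mem_product.2 ⟨hU2, hU2c⟩, hTU, hTsU2, ?_, ?_, hUR, ?_, ?_⟩, rfl⟩, ?_⟩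
      · intro h
        exact hTsU (Finset.mem_erase.2 ⟨hne, h⟩)
      · intro h
        refine hTM (hU2M (Finset.mem_erase.2 ⟨?_, Finset.mem_erase.2 ⟨hne.symm, h⟩⟩))
        exact (Finset.ne_of_mem_erase hT').symm
      · intro a ha
        by_cases h : a = T'
        · rw [h]
          exact hUR hT'
        · exact L.inv.M_sub (hU2M (Finset.mem_erase.2 ⟨h, ha⟩))
      · exact ⟨T', Finset.mem_inter.2 ⟨Finset.mem_of_mem_erase hT', hT'U2⟩⟩
      · intro h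
        exact hT'M (h (Finset.mem_union_left _ hT'))
    · rw [prod_one_out hT' hsub B.yh_M, prod_one_out (Finset.mem_union_left _ hT') ?_ B.yh_M]
      intro a ha
      obtain ⟨h2, h3⟩ := Finset.mem_erase.1 ha
      rcases Finset.mem_union.1 h3 with h4 | h4
      · exact hsub (Finset.mem_erase.2 ⟨h2, h4⟩)
      · exact hU2M (Finset.mem_erase.2 ⟨h2, h4⟩)
  have hcard : ∀ Z ∈ E, Z.card ≤ 2 * J := by
    intro Z hZ
    obtain ⟨q, hq, rfl⟩ := Finset.mem_image.1 (Finset.mem_filter.1 hZ).1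
    obtain ⟨h2, _⟩ := Finset.mem_filter.1 hq
    obtain ⟨h3, h4⟩ := Finset.mem_product.1 h2
    have h5 := L.good.conf_card _ h3
    have h6 := L.good.conf_card _ h4
    have h7 := Finset.card_union_le (q.1.erase T) (q.2.erase Ts)
    have h8 : (q.1.erase T).card ≤ q.1.card := Finset.card_erase_le
    have h9 : (q.2.erase Ts).card ≤ q.2.card := Finset.card_erase_le
    omega
  calc ∑ U ∈ y2D S M T Ts, ∏ T' ∈ U.erase T, y T'
      ≤ ∑ U ∈ y2D S M T Ts, ∑ Z ∈ E, (if U.erase T ⊆ Z then ∏ T' ∈ Z, y T' else 0) := by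
        refine Finset.sum_le_sum fun U hU => ?_
        obtain ⟨Z, hZ, hUZ, he⟩ := h1 U hU
        have h2 := Finset.single_le_sum (s := E)
          (f := fun Z => if U.erase T ⊆ Z then ∏ T' ∈ Z, y T' else 0)
          (fun Z _ => by
            split_ifs
            · exact hb0 Z
            · exact le_rfl) hZ
        rw [if_pos hUZ] at h2
        rw [he]
        exact h2
    _ = ∑ Z ∈ E, ∑ U ∈ y2D S M T Ts, (if U.erase T ⊆ Z then ∏ T' ∈ Z, y T' else 0) :=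
        Finset.sum_comm
    _ ≤ ∑ Z ∈ E, 2 ^ (2 * J) * ∏ T' ∈ Z, y T' := by
        refine Finset.sum_le_sum fun Z hZ => ?_
        rw [← Finset.sum_filter, Finset.sum_const, nsmul_eq_mul]
        refine mul_le_mul_of_nonneg_right ?_ (hb0 Z)
        have h3 : ((y2D S M T Ts).filter (fun U => U.erase T ⊆ Z)).card ≤ Z.powerset.card := by
          refine Finset.card_le_card_of_injOn (fun U => U.erase T) ?_ ?_
          · intro U hU
            exact Finset.mem_coe.2 (Finset.mem_powerset.2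
              (Finset.mem_filter.1 (Finset.mem_coe.1 hU)).2)
          · intro U hU U' hU' h
            have h4 := (Finset.mem_filter.1 (Finset.mem_filter.1 (Finset.mem_filter.1
              (Finset.mem_coe.1 hU)).1).1).2.1
            have h5 := (Finset.mem_filter.1 (Finset.mem_filter.1 (Finset.mem_filter.1
              (Finset.mem_coe.1 hU')).1).1).2.1
            exact y2_er h4 h5 h
        rw [Finset.card_powerset] at h3
        have h4 : (2 : ℕ) ^ Z.card ≤ 2 ^ (2 * J) := Nat.pow_le_pow_right (by norm_num) (hcard Z hZ)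
        exact_mod_cast h3.trans h4
    _ = 2 ^ (2 * J) * ∑ Z ∈ E, ∏ T' ∈ Z, y T' := by rw [Finset.mul_sum]
    _ ≤ 2 ^ (2 * J) * r :=
        mul_le_mul_of_nonneg_left
          (L.cE T hT Ts (Finset.mem_union_left _ hTs) hne.symm) (by positivity)

/-- the term of one configuration -/
theorem y2_term (L : S.Loc J K C₁ ν p β r E0 M X x) (B : S.Bas K ν p β r c E0 M X) (hc : 0 ≤ c)
    {T Ts : τ} (hTs : X Ts ≠ 0) {U : Finset τ} (hU : U ∈ y2U S M T) :
    |(if ¬ U.erase T ⊆ insert Ts M then ∏ T' ∈ U.erase T, S.yn ν p E0 M X Ts T' else 0) -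
      ∏ T' ∈ U.erase T, S.yh ν p E0 M X T'| ≤
    (if Ts ∈ U.erase T then ∏ T' ∈ U.erase T, S.yh ν p E0 M X T' else 0) +
    (if Ts ∈ U.erase T ∧ ¬ (U.erase T).erase Ts ⊆ M then
      2 ^ J * ∏ T' ∈ (U.erase T).erase Ts, S.yh ν p E0 M X T' else 0) +
    (∑ e ∈ (S.ed Ts).filter (fun e => e ∉ S.ed T),
      if ∃ T' ∈ U.erase T, e ∈ S.ed T' then ∏ T' ∈ U.erase T, S.yh ν p E0 M X T' else 0) +
    (∑ T' ∈ S.th M Ts, if T' ∈ U.erase T ∧ ¬ (U.erase T).erase T' ⊆ M then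
      ∏ T' ∈ U.erase T, S.yh ν p E0 M X T' else 0) +
    (if Ts ∉ U.erase T ∧ ∃ T' ∈ U.erase T, T' ∈ S.th M Ts ∧ T' ∉ M ∧ (U.erase T).erase T' ⊆ M
      then ∏ T' ∈ U.erase T, S.yh ν p E0 M X T' else 0) +
    2 ^ J * (c / S.ww X) * ∏ T' ∈ U.erase T, S.yh ν p E0 M X T' := by
  classical
  obtain ⟨hUc, hTU, hUR, hUM⟩ := Finset.mem_filter.1 hU
  have hTsM : Ts ∉ M := B.X_M Ts hTs
  have hy0 : ∀ T, 0 ≤ S.yh ν p E0 M X T := B.yh_nonneg
  have hb0 : ∀ Z : Finset τ, 0 ≤ ∏ T' ∈ Z, S.yh ν p E0 M X T' := fun Z =>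
    Finset.prod_nonneg fun T _ => hy0 T
  have hu0 : 0 ≤ c / S.ww X := div_nonneg hc B.W_pos.le
  have hu1 : c / S.ww X ≤ 1 := B.W_half.trans (by norm_num)
  have hcard : (U.erase T).card ≤ J :=
    (Finset.card_le_card (Finset.erase_subset _ _)).trans (L.good.conf_card U hUc)
  have hb := hb0 (U.erase T)
  set b : ℝ := ∏ T' ∈ U.erase T, S.yh ν p E0 M X T' with hbdef
  have t1 : (0 : ℝ) ≤ (if Ts ∈ U.erase T then b else 0) := by split_ifs <;> [exact hb; exact le_rfl]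
  have t2 : (0 : ℝ) ≤ (if Ts ∈ U.erase T ∧ ¬ (U.erase T).erase Ts ⊆ M then
      2 ^ J * ∏ T' ∈ (U.erase T).erase Ts, S.yh ν p E0 M X T' else 0) := by
    split_ifs
    · exact mul_nonneg (by positivity) (hb0 _)
    · exact le_rfl
  have t3 : ∀ e ∈ (S.ed Ts).filter (fun e => e ∉ S.ed T),
      (0 : ℝ) ≤ (if ∃ T' ∈ U.erase T, e ∈ S.ed T' then b else 0) := fun e _ => by
    split_ifs <;> [exact hb; exact le_rfl]
  have t4 : ∀ T' ∈ S.th M Ts,
      (0 : ℝ) ≤ (if T' ∈ U.erase T ∧ ¬ (U.erase T).erase T' ⊆ M then b else 0) := fun T' _ => by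
    split_ifs <;> [exact hb; exact le_rfl]
  have t5 : (0 : ℝ) ≤ (if Ts ∉ U.erase T ∧ ∃ T' ∈ U.erase T, T' ∈ S.th M Ts ∧ T' ∉ M ∧
      (U.erase T).erase T' ⊆ M then b else 0) := by split_ifs <;> [exact hb; exact le_rfl]
  have t6 : 0 ≤ 2 ^ J * (c / S.ww X) * b := by positivity
  have t3' := Finset.sum_nonneg t3
  have t4' := Finset.sum_nonneg t4
  by_cases h1 : Ts ∈ U.erase T
  · by_cases h2 : U.erase T ⊆ insert Ts M
    · rw [if_neg (not_not.2 h2), zero_sub, abs_neg, abs_of_nonneg hb, if_pos h1]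
      linarith
    · have h3 : ¬ (U.erase T).erase Ts ⊆ M := by
        intro h4
        exact h2 fun a ha => by
          by_cases h5 : a = Ts
          · rw [h5]
            exact Finset.mem_insert_self _ _
          · exact Finset.mem_insert_of_mem (h4 (Finset.mem_erase.2 ⟨h5, ha⟩))
      have h4 : ∏ T' ∈ U.erase T, S.yn ν p E0 M X Ts T' ≤
          2 ^ J * ∏ T' ∈ (U.erase T).erase Ts, S.yh ν p E0 M X T' := by
        rw [← Finset.mul_prod_erase _ _ h1, B.yn_self Ts hTs, one_mul]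
        calc ∏ T' ∈ (U.erase T).erase Ts, S.yn ν p E0 M X Ts T'
            ≤ ∏ T' ∈ (U.erase T).erase Ts, (2 * S.yh ν p E0 M X T') := by
              refine Finset.prod_le_prod (fun T' _ => B.yn_nonneg Ts hTs T') fun T' hT' => ?_
              refine (B.yn_le Ts hTs T' (Finset.ne_of_mem_erase hT')).trans ?_
              exact mul_le_mul_of_nonneg_right (by linarith) (hy0 T')
          _ = 2 ^ ((U.erase T).erase Ts).card *
                ∏ T' ∈ (U.erase T).erase Ts, S.yh ν p E0 M X T' := by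
              rw [Finset.prod_mul_distrib, Finset.prod_const]
          _ ≤ _ := by
              refine mul_le_mul_of_nonneg_right ?_ (hb0 _)
              exact pow_le_pow_right₀ (by norm_num) (Finset.card_erase_le.trans hcard)
      have h5 : 0 ≤ ∏ T' ∈ U.erase T, S.yn ν p E0 M X Ts T' :=
        Finset.prod_nonneg fun T' _ => B.yn_nonneg Ts hTs T'
      rw [if_pos h2, if_pos h1, if_pos ⟨h1, h3⟩, abs_le]
      constructor <;> linarith [mul_nonneg (show (0:ℝ) ≤ 2 ^ J by positivity)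
        (hb0 ((U.erase T).erase Ts))]
  · have h2 : ¬ U.erase T ⊆ insert Ts M := by
      intro h3
      exact hUM fun a ha => by
        rcases Finset.mem_insert.1 (h3 ha) with h4 | h4
        · exact absurd (h4 ▸ ha) h1
        · exact h4
    rw [if_pos h2]
    by_cases hk : ∃ T' ∈ U.erase T, T' ∉ M ∧ Ts ∈ S.kk M T'
    · obtain ⟨T', hT', hT'M, hkk⟩ := hk
      have hne' : T' ≠ Ts := fun h => h1 (h ▸ hT')
      have h3 : ∏ T' ∈ U.erase T, S.yn ν p E0 M X Ts T' = 0 :=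
        Finset.prod_eq_zero hT' (B.yn_kill Ts hTs T' hT'M hne' hkk)
      rw [h3, zero_sub, abs_neg, abs_of_nonneg hb]
      have hT'R : T' ∈ S.R := hUR hT'
      rw [kk_R hT'R, Finset.mem_union] at hkk
      rcases hkk with hme | hth
      · rw [mem_me (L.X_R hTs), Finset.not_disjoint_iff] at hme
        obtain ⟨e, he1, he2⟩ := hme
        have he3 : e ∉ S.ed T := by
          intro he4
          exact Finset.disjoint_left.1 (L.good.conf_disj U hUc T' (Finset.mem_of_mem_erase hT') T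
            hTU (Finset.ne_of_mem_erase hT')) he2 he4
        have h4 := Finset.single_le_sum t3 (Finset.mem_filter.2 ⟨he1, he3⟩)
        rw [if_pos ⟨T', hT', he2⟩] at h4
        linarith
      · have hth' : T' ∈ S.th M Ts := B.th_symm T' hT'R hT'M Ts hth
        by_cases h4 : (U.erase T).erase T' ⊆ M
        · rw [if_pos (show Ts ∉ U.erase T ∧ ∃ T' ∈ U.erase T, T' ∈ S.th M Ts ∧ T' ∉ M ∧
            (U.erase T).erase T' ⊆ M from ⟨h1, T', hT', hth', hT'M, h4⟩)]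
          linarith
        · have h5 := Finset.single_le_sum t4 hth'
          rw [if_pos ⟨hT', h4⟩] at h5
          linarith
    · push Not at hk
      have h3 : |∏ T' ∈ U.erase T, S.yn ν p E0 M X Ts T' - b| ≤ 2 ^ J * (c / S.ww X) * b := by
        refine pv_abs (U.erase T) (S.yh ν p E0 M X) (S.yn ν p E0 M X Ts) (c / S.ww X) J hcard
          hu0 hu1 (fun T _ => hy0 T) ?_ ?_
        · intro T' hT'
          have hne' : T' ≠ Ts := fun h => h1 (h ▸ hT')
          by_cases h4 : T' ∈ M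
          · rw [B.yn_M Ts hTs T' h4, B.yh_M T' h4]
            linarith
          · exact B.yn_ge Ts hTs T' hne' (hk T' hT' h4)
        · intro T' hT'
          exact B.yn_le Ts hTs T' fun h => h1 (h ▸ hT')
      linarith

end Y2

/-- **Row N9.** -/
theorem y2_ok (hb : SpBas) : SpY2 := by
  intro J K C₁ hK hC
  obtain ⟨c0, hc0, hb⟩ := hb J K C₁ hK hC
  have h2J : (1 : ℝ) ≤ 2 ^ J := one_le_pow₀ (by norm_num)
  have h2J2 : (1 : ℝ) ≤ 2 ^ (2 * J) := one_le_pow₀ (by norm_num)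
  have h2JK : (0 : ℝ) ≤ 2 ^ J * K := mul_nonneg (by positivity) (by linarith)
  refine ⟨c0 + (1 + 2 ^ J + 3 + K + 2 ^ (2 * J) + 2 ^ J * K), by linarith, ?_⟩
  intro ι τ _ _ _ _ S ν p β r E0 M X x hL hc T hT hTM Ts hne hTs
  have B := hb c0 le_rfl ι τ S ν p β r E0 M X x hL (by linarith)
  have hTsR : Ts ∈ S.R := hL.X_R hTs
  have hTsM : Ts ∉ M := B.X_M Ts hTs
  have hr := hL.r_pos
  have hy0 : ∀ T, 0 ≤ S.yh ν p E0 M X T := B.yh_nonneg
  have hYY : S.YY M (S.yh ν p E0 M X) T ≤ K := hL.hY T hT hTM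
  have hYY0 : 0 ≤ S.YY M (S.yh ν p E0 M X) T := Finset.sum_nonneg fun U _ =>
    Finset.prod_nonneg fun T' _ => hy0 T'
  have hold : S.YY M (S.yh ν p E0 M X) T =
      ∑ U ∈ y2U S M T, ∏ T' ∈ U.erase T, S.yh ν p E0 M X T' := rfl
  rw [y2_new, hold, ← Finset.sum_sub_distrib]
  refine (Finset.abs_sum_le_sum_abs _ _).trans ?_
  refine (Finset.sum_le_sum fun U hU => y2_term hL B (by linarith) hTs hU).trans ?_
  rw [Finset.sum_add_distrib, Finset.sum_add_distrib, Finset.sum_add_distrib,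
    Finset.sum_add_distrib, Finset.sum_add_distrib]
  have s1 : ∑ U ∈ y2U S M T, (if Ts ∈ U.erase T then
      ∏ T' ∈ U.erase T, S.yh ν p E0 M X T' else 0) ≤ r := by
    rw [← Finset.sum_filter]
    exact y2_a hL B hne hTsM
  have s2 : ∑ U ∈ y2U S M T, (if Ts ∈ U.erase T ∧ ¬ (U.erase T).erase Ts ⊆ M then
      2 ^ J * ∏ T' ∈ (U.erase T).erase Ts, S.yh ν p E0 M X T' else 0) ≤ 2 ^ J * r := by
    rw [← Finset.sum_filter, ← Finset.mul_sum]
    exact mul_le_mul_of_nonneg_left (y2_a' hL B hne) (by positivity)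
  have s3 : ∑ U ∈ y2U S M T, (∑ e ∈ (S.ed Ts).filter (fun e => e ∉ S.ed T),
      if ∃ T' ∈ U.erase T, e ∈ S.ed T' then ∏ T' ∈ U.erase T, S.yh ν p E0 M X T' else 0) ≤
      3 * r := by
    rw [Finset.sum_comm]
    have h1 : ∀ e ∈ (S.ed Ts).filter (fun e => e ∉ S.ed T), ∑ U ∈ y2U S M T,
        (if ∃ T' ∈ U.erase T, e ∈ S.ed T' then ∏ T' ∈ U.erase T, S.yh ν p E0 M X T' else 0) ≤
        r := by
      intro e he
      obtain ⟨h2, h3⟩ := Finset.mem_filter.1 he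
      rw [← Finset.sum_filter]
      exact y2_b hL B hT (hL.X_al hTs h2) h3
    refine (Finset.sum_le_sum h1).trans ?_
    rw [Finset.sum_const, nsmul_eq_mul]
    refine mul_le_mul_of_nonneg_right ?_ hr.le
    have h4 : ((S.ed Ts).filter (fun e => e ∉ S.ed T)).card ≤ 3 :=
      (Finset.card_filter_le _ _).trans (hL.good.card3 Ts hTsR).le
    exact_mod_cast h4
  have s4 : ∑ U ∈ y2U S M T, (∑ T' ∈ S.th M Ts, if T' ∈ U.erase T ∧ ¬ (U.erase T).erase T' ⊆ M
      then ∏ T' ∈ U.erase T, S.yh ν p E0 M X T' else 0) ≤ K * r := by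
    rw [Finset.sum_comm]
    have h1 : ∀ T' ∈ S.th M Ts, ∑ U ∈ y2U S M T, (if T' ∈ U.erase T ∧
        ¬ (U.erase T).erase T' ⊆ M then ∏ T' ∈ U.erase T, S.yh ν p E0 M X T' else 0) ≤
        S.yh ν p E0 M X T' * r := by
      intro T' _
      rw [← Finset.sum_filter]
      exact y2_c hL B T T'
    refine (Finset.sum_le_sum h1).trans ?_
    rw [← Finset.sum_mul]
    exact mul_le_mul_of_nonneg_right (B.th_yh Ts (Finset.mem_union_left _ hTsR) hTsM) hr.le
  have s5 : ∑ U ∈ y2U S M T, (if Ts ∉ U.erase T ∧ ∃ T' ∈ U.erase T, T' ∈ S.th M Ts ∧ T' ∉ M ∧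
      (U.erase T).erase T' ⊆ M then ∏ T' ∈ U.erase T, S.yh ν p E0 M X T' else 0) ≤
      2 ^ (2 * J) * r := by
    rw [← Finset.sum_filter]
    exact y2_d hL B hT hTM hTsR hne
  have s6 : ∑ U ∈ y2U S M T, 2 ^ J * (c0 / S.ww X) * ∏ T' ∈ U.erase T, S.yh ν p E0 M X T' ≤
      2 ^ J * K * r := by
    rw [← Finset.mul_sum, ← hold]
    calc 2 ^ J * (c0 / S.ww X) * S.YY M (S.yh ν p E0 M X) T ≤ 2 ^ J * r * K := by
          refine mul_le_mul ?_ hYY hYY0 (by positivity)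
          exact mul_le_mul_of_nonneg_left B.W_big (by positivity)
      _ = 2 ^ J * K * r := by ring
  have h0 : 0 ≤ c0 * r := mul_nonneg (by linarith) hr.le
  have h9 : (c0 + (1 + 2 ^ J + 3 + K + 2 ^ (2 * J) + 2 ^ J * K)) * r =
      c0 * r + (r + 2 ^ J * r + 3 * r + K * r + 2 ^ (2 * J) * r + 2 ^ J * K * r) := by ring
  rw [h9]
  linarith

end F2
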