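import Pool.Agent.F2.N.Num
import Pool.Agent.F2.N.Fin2
import Pool.Agent.F2.N.Base
import Pool.Agent.F2.N.Comb
import Pool.Agent.F2.N.Exp
import Pool.Agent.F2.N.Ov
import Pool.Agent.F2.N.Pg
import Pool.Agent.F2.N.Ps
import Pool.Agent.F2.N.Pv
import Pool.Agent.F2.N.W
import Pool.Agent.F2.N.S
import Pool.Agent.F2.N.Y1
import Pool.Agent.F2.N.Y2
import Pool.Agent.F2.N.F1
import Pool.Agent.F2.N.F2
import Pool.Agent.F2.N.D
import Pool.Agent.F2.N.X
import Pool.Agent.F2.N.I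
import Pool.Agent.F2.N.Cr
import Pool.Agent.F2.N.Out

/-!
# Project F2, block N: the abstract nibble
-/

set_option autoImplicit false
set_option linter.unusedSectionVars false

namespace F2

open Finset Filter

/-- all facts about one step -/
theorem spStp : SpStp :=
  stp_ok base_ok (pg_ok base_ok) (w_ok base_ok) (s_ok base_ok)
    (y1_ok base_ok (ps_ok base_ok ov_ok) (pv_ok base_ok)) (y2_ok base_ok)
    (f1_ok base_ok (ps_ok base_ok ov_ok) (pv_ok base_ok)) (f2_ok base_ok) (d_ok base_ok)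
    (x_ok base_ok) (i_ok base_ok)

/-- the abstract nibble, from its parts -/
theorem an_of (hE : SpExp) (hcr : SpCr) (hout : SpOut) (hstp : SpStp) : ANStatement := by
  intro J K hK
  have hC1 : 1 ≤ Real.exp (4 * (K + 1)) := Real.one_le_exp (by linarith)
  obtain ⟨c, hc, Hst⟩ := hstp J (1000 * (2 * J)) (K + 1) (Real.exp (4 * (K + 1))) (by linarith) hC1
  set m := ⌈2 * c⌉₊ with hmdef
  have hm : 2 * c ≤ m := Nat.le_ceil _
  have hm1 : (1 : ℝ) ≤ m := by linarith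
  have hm0 : (0 : ℝ) < m := by linarith
  set ω : ℝ := 1 / (1000 * m) with hωdef
  have hω : 0 < ω := by positivity
  have hω1 : ω ≤ 1 / 1000 := by
    rw [hωdef]
    apply one_div_le_one_div_of_le (by norm_num)
    linarith
  have hωm : ω * m ≤ 1 := by
    rw [hωdef]
    field_simp
    norm_num
  obtain ⟨x₀, hx₀⟩ := nrest hω hω1
  have t1 : Tendsto (fun x : ℝ => x ^ (3 * ω / 8)) atTop atTop :=
    tendsto_rpow_atTop (by positivity)
  obtain ⟨x₁, hx₁⟩ := Filter.eventually_atTop.1 (t1.eventually_ge_atTop (DC K c))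
  refine ⟨ω, 1000, Real.exp (4 * (K + 1)), hω, by linarith, Real.exp_pos _, le_rfl,
    ⌈max (max x₀ x₁) 1⌉₊, ?_⟩
  intro ι τ σ _ _ _ _ _ S n ν E0 X0 x0 Q hn h
  have hn' : max (max x₀ x₁) 1 ≤ (n : ℝ) := (Nat.le_ceil _).trans (Nat.cast_le.2 hn)
  have hnx0 : x₀ ≤ (n : ℝ) := (le_max_left _ _).trans ((le_max_left _ _).trans hn')
  have hnx1 : x₁ ≤ (n : ℝ) := (le_max_right _ _).trans ((le_max_left _ _).trans hn')
  have hn1 : 1 ≤ (n : ℝ) := (le_max_right _ _).trans hn'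
  have hn0 : 0 < (n : ℝ) := by linarith
  have R := hx₀ n hnx0 E0.card h.E_lo
  have B := npar_big hK hc hω hω1 hωm hm hn1 (hx₁ n hnx1) h.ν_pos h.ν_le h.E_lo
  have G0 : S.Gst (npar K ω n ν m) (K / n) E0 Q 1 ∅ X0 x0 :=
    Sy.Hyp.gst0 (npar K ω n ν m) h hn1 B.ok.k_ne rfl rfl B.ok.A_pos B.ok.l_pos B.ok.κ₁_pos R.q13
      R.q10 R.q11
  have hN := B.N_pos
  have hγ := B.γ_pos
  have hγ1 := B.γ_le
  set γ : ℝ := (n : ℝ) ^ (-ω) with hγdef
  set i := ⌊(1 - γ) * E0.card / 3⌋₊ with hidef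
  have hi1 : (i : ℝ) ≤ (1 - γ) * E0.card / 3 := Nat.floor_le (by
    apply div_nonneg _ (by norm_num)
    exact mul_nonneg (by linarith) hN.le)
  have hi2 : (1 - γ) * E0.card / 3 < i + 1 := Nat.lt_floor_add_one _
  have hγp : γ ≤ 1 - i * (3 / (E0.card : ℝ)) := by
    have : (i : ℝ) * (3 / (E0.card : ℝ)) ≤ (1 - γ) * E0.card / 3 * (3 / (E0.card : ℝ)) := by
      gcongr
    have e : (1 - γ) * E0.card / 3 * (3 / (E0.card : ℝ)) = 1 - γ := by
      field_simp
    linarith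
  have hp2 : 1 - i * (3 / (E0.card : ℝ)) ≤ 2 * γ := by
    have h1 : (1 - γ) * E0.card / 3 * (3 / (E0.card : ℝ)) ≤ (i + 1) * (3 / (E0.card : ℝ)) := by
      gcongr
    have e : (1 - γ) * E0.card / 3 * (3 / (E0.card : ℝ)) = 1 - γ := by
      field_simp
    have := R.q12
    linarith
  have hp1 : 1 - i * (3 / (E0.card : ℝ)) ≤ 1 := by
    have : 0 ≤ (i : ℝ) * (3 / (E0.card : ℝ)) := by positivity
    linarith
  obtain ⟨M, X, x, G⟩ := Sy.Gst.all hE hcr h.good h.V_hi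
    (fun p β M X x L hcW => Hst ι τ S ν p β _ E0 M X x L hcW) B ⟨∅, X0, x0, G0⟩ i hγp
  set p := 1 - i * (3 / (E0.card : ℝ)) with hpdef
  have hp : 0 < p := hγ.trans_le hγp
  have b := G.bnd B hγp
  have hk2 := B.ok.κ₂_pos
  have s2 : (npar K ω n ν m).κ₂ / p ^ 3 ≤ 1 / 16 := (div_pow_anti hk2.le hγ hγp 3).trans B.q2
  have hF₀ : 0 < (n : ℝ) ^ (ω / 8) := by positivity
  have hν := h.ν_pos
  refine ⟨M, x, hout ι τ σ S J _ ω n ν p (2 * (n : ℝ) ^ (ω / 8)) E0 Q M X x h.good G.inv hν hp hp1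
    hn0 h.Q_sub ?_ ?_ ?_ ?_ ?_ ?_⟩
  · intro T
    refine (G.hx T).trans ?_
    simp only [npar]
    rw [mul_comm]
    refine mul_le_mul_of_nonneg_right (Real.exp_le_exp.2 ?_) hν.le
    nlinarith
  · intro e he
    have := b.se e he
    linarith
  · intro e he
    refine (b.ff e he).trans ?_
    have e1 : (npar K ω n ν m).F₀ = (n : ℝ) ^ (ω / 8) := rfl
    rw [e1]
    nlinarith
  · intro j
    have := b.dd j
    have e1 : (npar K ω n ν m).n = (n : ℝ) := rfl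
    rw [e1] at this
    linarith
  · refine le_trans ?_ R.q8
    have e1 : (n : ℝ) ^ (1 - ω) = γ * n := by
      rw [hγdef, ← Real.rpow_add_one hn0.ne']
      congr 1
      ring
    rw [e1]
    have : p * (n : ℝ) ≤ 2 * γ * n := by gcongr
    linarith
  · refine le_trans ?_ R.q9
    have : p * (2 * (n : ℝ) ^ (ω / 8)) ≤ 2 * γ * (2 * (n : ℝ) ^ (ω / 8)) := by gcongr
    linarith

/-- the abstract nibble -/
theorem an_ok : ANStatement := an_of exp_ok cr_ok out_ok spStp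

end F2
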