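import Pool.Agent.F2.Spec

/-!
# Project F2, block N (abstract nibble): the process

One step chooses a real hyperedge `Ts` with probability `X Ts / W`, `W = ∑ X`.
-/

set_option autoImplicit false
set_option linter.unusedSectionVars false

namespace F2

open Finset
open Pool.Agent.F2 (HH GG)

section NDef

variable {ι τ : Type} [Fintype ι] [Fintype τ] [DecidableEq ι] [DecidableEq τ] (S : Sy ι τ)

/-- the uncovered elements -/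
def Sy.al (E0 : Finset ι) (M : Finset τ) : Finset ι := E0 \ M.biUnion S.ed

/-- the unchosen real hyperedges which complete a configuration with `T` and members of `M` -/
def Sy.th (M : Finset τ) (T : τ) : Finset τ :=
  S.R.filter (fun T' => T' ≠ T ∧ T' ∉ M ∧
    ∃ U ∈ S.conf, T ∈ U ∧ T' ∈ U ∧ (U.erase T).erase T' ⊆ M)

/-- the real hyperedges which meet `T` -/
def Sy.me (T : τ) : Finset τ := S.R.filter (fun T' => ¬ Disjoint (S.ed T') (S.ed T))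

/-- the kill set of the density of `T` -/
def Sy.kk (M : Finset τ) (T : τ) : Finset τ := if T ∈ S.R then S.me T ∪ S.th M T else S.me T

/-- total weight -/
noncomputable def Sy.ww (X : τ → ℝ) : ℝ := ∑ T ∈ S.R, X T

/-- real weight through an element -/
noncomputable def Sy.we (X : τ → ℝ) (e : ι) : ℝ := ∑ T ∈ S.R.filter (fun T => e ∈ S.ed T), X T

/-- virtual weight through an element -/
noncomputable def Sy.se (x : τ → ℝ) (e : ι) : ℝ := ∑ T ∈ S.Vt.filter (fun T => e ∈ S.ed T), x T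

/-- the probability that the chosen hyperedge is in `A` -/
noncomputable def Sy.qq (X : τ → ℝ) (A : Finset τ) : ℝ := (∑ T ∈ A, X T) / S.ww X

/-- the new real weights -/
noncomputable def Sy.nX (M : Finset τ) (X : τ → ℝ) (Ts T : τ) : ℝ :=
  if Ts ∈ S.kk M T then 0 else X T * ((1 - 1 / S.ww X) / (1 - S.qq X (S.kk M T)))

/-- the new virtual weights -/
noncomputable def Sy.nx (M : Finset τ) (X x : τ → ℝ) (Ts T : τ) : ℝ :=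
  if Ts ∈ S.th M T then 0 else x T / (1 - S.qq X (S.th M T))

/-- the densities -/
noncomputable def Sy.yh (ν p : ℝ) (E0 : Finset ι) (M : Finset τ) (X : τ → ℝ) (T : τ) : ℝ :=
  if T ∈ S.R then (if T ∈ M then 1 else (1 + 1 / p) * X T)
  else if T ∈ S.Vt ∧ S.ed T ⊆ S.al E0 M then ν / p else 0

/-- the next value of `p` -/
noncomputable def pn (E0 : Finset ι) (p : ℝ) : ℝ := p - 3 / (E0.card : ℝ)

/-- the new densities -/
noncomputable def Sy.yn (ν p : ℝ) (E0 : Finset ι) (M : Finset τ) (X : τ → ℝ) (Ts : τ) : τ → ℝ :=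
  S.yh ν (pn E0 p) E0 (insert Ts M) (S.nX M X Ts)

/-- the expected number of real configurations through `T`, for densities `y` -/
noncomputable def Sy.YY (M : Finset τ) (y : τ → ℝ) (T : τ) : ℝ :=
  ∑ U ∈ S.conf.filter (fun U => T ∈ U ∧ U.erase T ⊆ S.R ∧ ¬ U.erase T ⊆ M),
    ∏ T' ∈ U.erase T, y T'

/-- the expected number of configurations with at least two virtual members, one through `e` -/
noncomputable def Sy.FF (ν : ℝ) (y : τ → ℝ) (e : ι) : ℝ :=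
  ∑ U ∈ S.fF e, ν * ∏ T ∈ U.filter (fun T => e ∉ S.ed T), y T

/-- normalised size of the uncovered part of a test set -/
noncomputable def Sy.DD (n p : ℝ) (E0 : Finset ι) (M : Finset τ) (Q : Finset ι) : ℝ :=
  ((Q ∩ S.al E0 M).card : ℝ) / (p * n)

/-- the structural invariants -/
structure Sy.Inv (E0 : Finset ι) (p : ℝ) (M : Finset τ) (X x : τ → ℝ) : Prop where
  M_sub : M ⊆ S.R
  M_ed : ∀ T ∈ M, S.ed T ⊆ E0
  M_disj : ∀ T ∈ M, ∀ T' ∈ M, T ≠ T' → Disjoint (S.ed T) (S.ed T')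
  M_conf : ∀ U ∈ S.conf, ¬ U ⊆ M
  al_card : ((S.al E0 M).card : ℝ) = p * (E0.card : ℝ)
  X_nonneg : ∀ T, 0 ≤ X T
  X_ne : ∀ T, X T ≠ 0 → T ∈ S.R ∧ S.ed T ⊆ S.al E0 M ∧
    ∀ U ∈ S.conf, T ∈ U → ¬ U.erase T ⊆ M
  x_nonneg : ∀ T, 0 ≤ x T
  x_ne : ∀ T, x T ≠ 0 → T ∈ S.Vt ∧ ∀ U ∈ S.conf, T ∈ U → ¬ U.erase T ⊆ M

/-- the local hypotheses of one step. `K` bounds the `YY`, `C₁ ν` the virtual weights,
`β` the deviation of the `we`, `r` everything which is small -/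
structure Sy.Loc (J : ℕ) (K C₁ ν p β r : ℝ) (E0 : Finset ι) (M : Finset τ) (X x : τ → ℝ) :
    Prop where
  good : S.Good J
  inv : S.Inv E0 p M X x
  ν_pos : 0 < ν
  V_hi : ∀ e, ((S.Vt.filter (fun T => e ∈ S.ed T)).card : ℝ) * ν ≤ 4
  p_pos : 0 < p
  p_le : p ≤ 1
  β_nonneg : 0 ≤ β
  β_le : β ≤ 1 / 10
  we_le : ∀ e ∈ S.al E0 M, |S.we X e - 1| ≤ β
  r_pos : 0 < r
  r_le : r ≤ 1 / 10
  X_le : ∀ T, (1 + 1 / p) * X T ≤ r
  ν_le : ν / p ≤ r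
  x_le : ∀ T, x T ≤ C₁ * ν
  hY : ∀ T ∈ S.R ∪ S.Vt, T ∉ M → S.YY M (S.yh ν p E0 M X) T ≤ K
  cA : ∀ T T', T ≠ T' → T' ∉ M → ∑ P ∈ S.fA T T', ∏ T'' ∈ P, S.yh ν p E0 M X T'' ≤ r
  cA' : ∀ T T', T ≠ T' →
    ∑ P ∈ (S.fA' T T').filter (fun P => ¬ P ⊆ M), ∏ T'' ∈ P, S.yh ν p E0 M X T'' ≤ r
  cB : ∀ T ∈ S.R ∪ S.Vt, ∀ e ∈ S.al E0 M, e ∉ S.ed T →
    ∑ P ∈ S.fB T e, ∏ T'' ∈ P, S.yh ν p E0 M X T'' ≤ r
  cE : ∀ T ∈ S.R ∪ S.Vt, ∀ T' ∈ S.R ∪ S.Vt, T ≠ T' →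
    ∑ P ∈ (S.fE T T').filter (fun P => ¬ P ⊆ M), ∏ T'' ∈ P, S.yh ν p E0 M X T'' ≤ r

end NDef

/-- first moment at most `μ`, mean absolute value at most `m`, absolute values at most `d` -/
structure Drift {Ω : Type} (A : Finset Ω) (w Δ : Ω → ℝ) (μ m d : ℝ) : Prop where
  fst : ∑ ω ∈ A, w ω * Δ ω ≤ μ
  mean : ∑ ω ∈ A, w ω * |Δ ω| ≤ m
  bd : ∀ ω ∈ A, w ω ≠ 0 → |Δ ω| ≤ d

section NBase

variable {ι τ : Type} [Fintype ι] [Fintype τ] [DecidableEq ι] [DecidableEq τ] (S : Sy ι τ)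

/-- consequences of `Loc` (row N0) which may be used by all rows -/
structure Sy.Bas (K ν p β r c : ℝ) (E0 : Finset ι) (M : Finset τ) (X : τ → ℝ) : Prop where
  W_pos : 0 < S.ww X
  W_big : c / S.ww X ≤ r
  W_half : c / S.ww X ≤ 1 / 2
  al_hi : 3 / ((S.al E0 M).card : ℝ) ≤ (1 + β) / S.ww X
  al_lo : (1 - β) / S.ww X ≤ 3 / ((S.al E0 M).card : ℝ)
  pn_eq : pn E0 p = p * (1 - 3 / ((S.al E0 M).card : ℝ))
  pn_pos : 0 < pn E0 p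
  pn_le : pn E0 p ≤ p
  /-- the probabilities have sum one -/
  sumX : ∑ T ∈ S.R, X T / S.ww X = 1
  /-- a hyperedge of positive weight is not chosen -/
  X_M : ∀ T, X T ≠ 0 → T ∉ M
  th_le : ∀ T ∈ S.R ∪ S.Vt, T ∉ M → ∑ T' ∈ S.th M T, X T' ≤ p * K
  th_yh : ∀ T ∈ S.R ∪ S.Vt, T ∉ M → ∑ T' ∈ S.th M T, S.yh ν p E0 M X T' ≤ K
  kk_le : ∀ T ∈ S.R ∪ S.Vt, T ∉ M → ∑ T' ∈ S.kk M T, X T' ≤ 33 / 10 + p * K
  /-- the weight through a covered element is zero -/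
  we_zero : ∀ e, e ∉ S.al E0 M → S.we X e = 0
  we_le : ∀ e, S.we X e ≤ 11 / 10
  th_symm : ∀ T ∈ S.R, T ∉ M → ∀ T' ∈ S.th M T, T ∈ S.th M T'
  yh_nonneg : ∀ T, 0 ≤ S.yh ν p E0 M X T
  yh_le_one : ∀ T, S.yh ν p E0 M X T ≤ 1
  yh_M : ∀ T ∈ M, S.yh ν p E0 M X T = 1
  yh_le : ∀ T, T ∉ M → S.yh ν p E0 M X T ≤ r
  yh_R : ∀ T ∈ S.R, T ∉ M → S.yh ν p E0 M X T = (1 + 1 / p) * X T
  X_le_yh : ∀ T ∈ S.R, X T ≤ S.yh ν p E0 M X T
  yn_nonneg : ∀ Ts, X Ts ≠ 0 → ∀ T, 0 ≤ S.yn ν p E0 M X Ts T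
  yn_M : ∀ Ts, X Ts ≠ 0 → ∀ T ∈ M, S.yn ν p E0 M X Ts T = 1
  yn_self : ∀ Ts, X Ts ≠ 0 → S.yn ν p E0 M X Ts Ts = 1
  yn_kill : ∀ Ts, X Ts ≠ 0 → ∀ T, T ∉ M → T ≠ Ts → Ts ∈ S.kk M T → S.yn ν p E0 M X Ts T = 0
  yn_le : ∀ Ts, X Ts ≠ 0 → ∀ T, T ≠ Ts →
    S.yn ν p E0 M X Ts T ≤ (1 + c / S.ww X) * S.yh ν p E0 M X T
  yn_ge : ∀ Ts, X Ts ≠ 0 → ∀ T, T ≠ Ts → Ts ∉ S.kk M T →
    (1 - c / S.ww X) * S.yh ν p E0 M X T ≤ S.yn ν p E0 M X Ts T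
  /-- exact survival value of a real hyperedge -/
  yn_R : ∀ Ts, X Ts ≠ 0 → ∀ T ∈ S.R, T ∉ M → T ≠ Ts → Ts ∉ S.kk M T →
    S.yn ν p E0 M X Ts T =
      (1 + 1 / pn E0 p) * X T * ((1 - 1 / S.ww X) / (1 - S.qq X (S.kk M T)))
  /-- survival value of a virtual hyperedge -/
  yn_V : ∀ Ts, X Ts ≠ 0 → ∀ T ∈ S.Vt, Ts ∉ S.kk M T →
    S.yn ν p E0 M X Ts T = S.yh ν p E0 M X T * (p / pn E0 p)

end NBase

end F2
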