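import Pool.Agent.F2.N.Pot2

/-!
# Project F2, block N: good states and the induction step
-/

set_option autoImplicit false
set_option linter.unusedSectionVars false

namespace F2

open Finset
open Pool.Agent.F2 (HH GG)

/-- all numerical conditions of the process -/
structure NPar.Big (π : NPar) (c r KX γ N : ℝ) : Prop where
  ok : π.Ok c r
  K_ge : 1 ≤ π.K
  ν_pos : 0 < π.ν
  KX_nonneg : 0 ≤ KX
  γ_pos : 0 < γ
  γ_le : γ ≤ 1
  N_pos : 0 < N
  r_le : r ≤ 1 / 10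
  ε_le : π.ε ≤ r
  q1 : π.κ₁ / γ ^ 3 ≤ 1 / 10
  q2 : π.κ₂ / γ ^ 3 ≤ 1 / 16
  q3 : (1 + 1 / γ) * (KX * (1 / γ ^ 4 * Real.exp (2 * (π.K + 1)))) ≤ π.ε
  q4 : π.ν / γ ≤ π.ε
  q5 : π.A / γ ^ π.m ≤ r ^ π.k
  q6 : c ≤ r * (3 / 10 * (γ * N))
  q7 : 1 / (γ * π.n) ≤ r

theorem neg_of_mul_pos {a b : ℝ} (ha : 0 < a) (h : a * b < 0) : b < 0 := by
  by_contra hb
  push Not at hb
  have := mul_nonneg ha.le hb
  linarith

theorem exp_lt_of_sum {I : Type} {A : Finset I} {a : I → ℝ} {b Φ : ℝ}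
    (h : (∑ i ∈ A, Real.exp (a i)) * Real.exp b ≤ Φ) (hΦ : Φ < 1) {i : I} (hi : i ∈ A) :
    a i + b < 0 := by
  have h1 : Real.exp (a i) ≤ ∑ i ∈ A, Real.exp (a i) :=
    Finset.single_le_sum (f := fun i => Real.exp (a i)) (fun i _ => (Real.exp_pos _).le) hi
  have h2 : Real.exp (a i + b) < 1 := by
    rw [Real.exp_add]
    have := Real.exp_pos b
    nlinarith
  rwa [Real.exp_lt_one_iff] at h2

section

variable {ι τ σ : Type} [Fintype ι] [Fintype τ] [Fintype σ] [DecidableEq ι] [DecidableEq τ]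
  (S : Sy ι τ)

/-- good states -/
structure Sy.Gst (π : NPar) (KX : ℝ) (E0 : Finset ι) (Q : σ → Finset ι) (p : ℝ) (M : Finset τ)
    (X x : τ → ℝ) : Prop where
  inv : S.Inv E0 p M X x
  hX : ∀ T, X T ≤ KX * (1 / p ^ 4 * Real.exp (2 * (π.K + 1) * (1 - p)))
  hx : ∀ T, x T ≤ π.ν * Real.exp (4 * (π.K + 1) * (1 - p))
  ph : S.Ph π E0 Q p M X x < 1

variable {S} {π : NPar} {c r KX γ : ℝ} {E0 : Finset ι} {Q : σ → Finset ι} {p : ℝ}
  {M : Finset τ} {X x : τ → ℝ}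

/-- the bounds contained in the potential -/
structure Sy.Bnd (S : Sy ι τ) (π : NPar) (E0 : Finset ι) (Q : σ → Finset ι) (p : ℝ)
    (M : Finset τ) (X x : τ → ℝ) : Prop where
  we : ∀ e ∈ S.al E0 M, |S.we X e - 1| ≤ π.κ₁ / p ^ 3
  se : ∀ e ∈ S.al E0 M, 1 / 8 - π.κ₂ / p ^ 3 ≤ S.se x e
  ff : ∀ e ∈ S.al E0 M, S.FF π.ν (S.yh π.ν p E0 M X) e ≤ π.F₀ * (1 + π.κ₂ / p ^ 3)
  yy : ∀ T ∈ S.R ∪ S.Vt, T ∉ M → S.YY M (S.yh π.ν p E0 M X) T ≤ π.K + π.κ₂ / p ^ 3
  dd : ∀ j, S.DD π.n p E0 M (Q j) ≤ 1 + π.κ₂ / p ^ 3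
  gs : S.GS π.ε π.k E0 (S.yh π.ν p E0 M X) ≤ π.A / p ^ π.m

theorem yh_nonneg' (hν : 0 < π.ν) (hp : 0 < p) (hX : ∀ T, 0 ≤ X T) (T : τ) :
    0 ≤ S.yh π.ν p E0 M X T := by
  have h3 := hX T
  unfold Sy.yh
  split_ifs <;> positivity

theorem Sy.Gst.bnd (G : S.Gst π KX E0 Q p M X x) (B : π.Big c r KX γ E0.card) (hγp : γ ≤ p) :
    S.Bnd π E0 Q p M X x := by
  have hl := B.ok.l_pos
  have hF₀ := B.ok.F₀_ge
  have hA := B.ok.A_pos
  have hp : 0 < p := B.γ_pos.trans_le hγp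
  have hph := G.ph
  have e0 : ∀ (A : Finset ι) (a : ι → ℝ) (b : ℝ), 0 ≤ (∑ i ∈ A, Real.exp (a i)) * Real.exp b :=
    fun A a b => mul_nonneg (Finset.sum_nonneg fun i _ => (Real.exp_pos _).le) (Real.exp_pos _).le
  have e0' : ∀ (A : Finset τ) (a : τ → ℝ) (b : ℝ), 0 ≤ (∑ i ∈ A, Real.exp (a i)) * Real.exp b :=
    fun A a b => mul_nonneg (Finset.sum_nonneg fun i _ => (Real.exp_pos _).le) (Real.exp_pos _).le
  have e0'' : ∀ (A : Finset σ) (a : σ → ℝ) (b : ℝ), 0 ≤ (∑ i ∈ A, Real.exp (a i)) * Real.exp b :=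
    fun A a b => mul_nonneg (Finset.sum_nonneg fun i _ => (Real.exp_pos _).le) (Real.exp_pos _).le
  have n1 := e0 (S.al E0 M) (fun e => π.l * (S.we X e - π.κ₁ / p ^ 3)) (-π.l)
  have n2 := e0 (S.al E0 M) (fun e => π.l * (-S.we X e - π.κ₁ / p ^ 3)) π.l
  have n3 := e0 (S.al E0 M) (fun e => π.l * (-S.se x e - π.κ₂ / p ^ 3)) (π.l / 8)
  have n4 := e0 (S.al E0 M)
    (fun e => π.l * (S.FF π.ν (S.yh π.ν p E0 M X) e / π.F₀ - π.κ₂ / p ^ 3)) (-π.l)
  have n5 := e0' ((S.R ∪ S.Vt) \ M)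
    (fun T => π.l * (S.YY M (S.yh π.ν p E0 M X) T - π.κ₂ / p ^ 3)) (-(π.l * π.K))
  have n6 := e0'' (univ : Finset σ)
    (fun j => π.l * (S.DD π.n p E0 M (Q j) - π.κ₂ / p ^ 3)) (-π.l)
  have n7 : 0 ≤ S.GS π.ε π.k E0 (S.yh π.ν p E0 M X) * (p ^ π.m / π.A) :=
    mul_nonneg (Sy.GS_nonneg B.ok.ε_nonneg (yh_nonneg' B.ν_pos hp G.inv.X_nonneg)) (by positivity)
  simp only [Sy.Ph] at hph
  refine ⟨?_, ?_, ?_, ?_, ?_, ?_⟩
  · intro e he
    have h1 := exp_lt_of_sum (i := e) (a := fun e => π.l * (S.we X e - π.κ₁ / p ^ 3))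
      (b := -π.l) le_rfl (by linarith) he
    have h2 := exp_lt_of_sum (i := e) (a := fun e => π.l * (-S.we X e - π.κ₁ / p ^ 3))
      (b := π.l) le_rfl (by linarith) he
    have h3 : π.l * (S.we X e - π.κ₁ / p ^ 3 - 1) < 0 := by linarith
    have h4 : π.l * (1 - S.we X e - π.κ₁ / p ^ 3) < 0 := by linarith
    have h5 := neg_of_mul_pos hl h3
    have h6 := neg_of_mul_pos hl h4
    rw [abs_le]
    constructor <;> linarith
  · intro e he
    have h1 := exp_lt_of_sum (i := e) (a := fun e => π.l * (-S.se x e - π.κ₂ / p ^ 3))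
      (b := π.l / 8) le_rfl (by linarith) he
    have h3 : π.l * (1 / 8 - S.se x e - π.κ₂ / p ^ 3) < 0 := by linarith
    have h5 := neg_of_mul_pos hl h3
    linarith
  · intro e he
    have h1 := exp_lt_of_sum (i := e)
      (a := fun e => π.l * (S.FF π.ν (S.yh π.ν p E0 M X) e / π.F₀ - π.κ₂ / p ^ 3))
      (b := -π.l) le_rfl (by linarith) he
    have h3 : π.l * (S.FF π.ν (S.yh π.ν p E0 M X) e / π.F₀ - π.κ₂ / p ^ 3 - 1) < 0 := by linarith
    have h5 := neg_of_mul_pos hl h3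
    have h6 : S.FF π.ν (S.yh π.ν p E0 M X) e / π.F₀ ≤ 1 + π.κ₂ / p ^ 3 := by linarith
    rw [div_le_iff₀ (by linarith)] at h6
    linarith
  · intro T hT hM
    have h1 := exp_lt_of_sum (i := T)
      (a := fun T => π.l * (S.YY M (S.yh π.ν p E0 M X) T - π.κ₂ / p ^ 3))
      (b := -(π.l * π.K)) le_rfl (by linarith) (Finset.mem_sdiff.2 ⟨hT, hM⟩)
    have h3 : π.l * (S.YY M (S.yh π.ν p E0 M X) T - π.κ₂ / p ^ 3 - π.K) < 0 := by linarith
    have h5 := neg_of_mul_pos hl h3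
    linarith
  · intro j
    have h1 := exp_lt_of_sum (i := j)
      (a := fun j => π.l * (S.DD π.n p E0 M (Q j) - π.κ₂ / p ^ 3))
      (b := -π.l) le_rfl (by linarith) (Finset.mem_univ j)
    have h3 : π.l * (S.DD π.n p E0 M (Q j) - π.κ₂ / p ^ 3 - 1) < 0 := by linarith
    have h5 := neg_of_mul_pos hl h3
    linarith
  · have h1 : S.GS π.ε π.k E0 (S.yh π.ν p E0 M X) * (p ^ π.m / π.A) < 1 := by linarith
    have h2 : 0 < p ^ π.m := by positivity
    rw [le_div_iff₀ h2]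
    have h3 : S.GS π.ε π.k E0 (S.yh π.ν p E0 M X) * (p ^ π.m / π.A) =
        S.GS π.ε π.k E0 (S.yh π.ν p E0 M X) * p ^ π.m / π.A := by ring
    rw [h3, div_lt_one hA] at h1
    exact h1.le

/-- `a / p ^ m ≤ a / γ ^ m` -/
theorem div_pow_anti {a : ℝ} (ha : 0 ≤ a) (hγ : 0 < γ) (h : γ ≤ p) (m : ℕ) :
    a / p ^ m ≤ a / γ ^ m :=
  div_le_div_of_nonneg_left ha (by positivity) (pow_le_pow_left₀ hγ.le h m)

theorem Sy.Gst.loc (hcr : SpCr) {J : ℕ} (hG : S.Good J)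
    (hV : ∀ e, ((S.Vt.filter (fun T => e ∈ S.ed T)).card : ℝ) * π.ν ≤ 4)
    (G : S.Gst π KX E0 Q p M X x) (B : π.Big c r KX γ E0.card) (hγp : γ ≤ p) (hp1 : p ≤ 1) :
    S.Loc J (π.K + 1) (Real.exp (4 * (π.K + 1))) π.ν p (π.κ₁ / p ^ 3) r E0 M X x := by
  have hγ := B.γ_pos
  have hp : 0 < p := hγ.trans_le hγp
  have hK := B.K_ge
  have b := G.bnd B hγp
  have hk1 := B.ok.κ₁_pos
  have hk2 := B.ok.κ₂_pos
  have hKX := B.KX_nonneg
  have hν := B.ν_pos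
  have s1 : π.κ₁ / p ^ 3 ≤ 1 / 10 := (div_pow_anti hk1.le hγ hγp 3).trans B.q1
  have s2 : π.κ₂ / p ^ 3 ≤ 1 / 16 := (div_pow_anti hk2.le hγ hγp 3).trans B.q2
  have hXε : ∀ T, (1 + 1 / p) * X T ≤ π.ε := by
    intro T
    refine le_trans ?_ B.q3
    have h1 : 1 / p ≤ 1 / γ := one_div_le_one_div_of_le hγ hγp
    have h2 : 1 / p ^ 4 ≤ 1 / γ ^ 4 := div_pow_anti zero_le_one hγ hγp 4
    have h3 : Real.exp (2 * (π.K + 1) * (1 - p)) ≤ Real.exp (2 * (π.K + 1)) := by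
      apply Real.exp_le_exp.2
      nlinarith
    have h4 := G.hX T
    have h5 := G.inv.X_nonneg T
    calc (1 + 1 / p) * X T
        ≤ (1 + 1 / γ) * (KX * (1 / p ^ 4 * Real.exp (2 * (π.K + 1) * (1 - p)))) := by gcongr
      _ ≤ (1 + 1 / γ) * (KX * (1 / γ ^ 4 * Real.exp (2 * (π.K + 1)))) := by gcongr
  have hνε : π.ν / p ≤ π.ε := by
    refine le_trans ?_ B.q4
    gcongr
  have hy0 : ∀ T, 0 ≤ S.yh π.ν p E0 M X T := yh_nonneg' hν hp G.inv.X_nonneg
  have hyε : ∀ T, T ∉ M → S.yh π.ν p E0 M X T ≤ π.ε := by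
    intro T hT
    unfold Sy.yh
    split_ifs
    · exact hXε T
    · exact hνε
    · exact B.ok.ε_nonneg
  have hy1 : ∀ T, S.yh π.ν p E0 M X T ≤ 1 := by
    intro T
    by_cases hT : T ∈ M
    · unfold Sy.yh
      rw [if_pos (G.inv.M_sub hT), if_pos hT]
    · have := hyε T hT
      have := B.ε_le
      have := B.r_le
      linarith
  have hgs : S.GS π.ε π.k E0 (S.yh π.ν p E0 M X) ≤ r ^ π.k :=
    b.gs.trans ((div_pow_anti B.ok.A_pos.le hγ hγp π.m).trans B.q5)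
  have h3 : ∀ i, GG π.ε (S.yh π.ν p E0 M X) (S.fam3 i) π.k ≤ r ^ π.k := fun i =>
    (Sy.GG3_le B.ok.ε_nonneg hy0 i).trans hgs
  obtain ⟨cA, cA', cB, cE⟩ := hcr ι τ S J π.k π.ε r E0 M (S.yh π.ν p E0 M X) hG B.ok.k_ne
    B.ok.ε_nonneg B.ok.r_pos.le hy0 hy1 hyε G.inv.M_sub
    (fun T T' hne => by
      have := h3 (Sum.inl (T, T'))
      simp only [Sy.fam3] at this
      rwa [if_neg hne] at this)
    (fun T T' hne => by
      have := h3 (Sum.inr (Sum.inl (T, T')))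
      simp only [Sy.fam3] at this
      rwa [if_neg hne] at this)
    (fun T hT e he hne => by
      have := (Sy.GGB_le B.ok.ε_nonneg hy0 T he).trans hgs
      unfold Sy.famB at this
      rwa [if_pos ⟨hT, hne⟩] at this)
    (fun T hT T' hT' hne => by
      have := h3 (Sum.inr (Sum.inr (T, T')))
      simp only [Sy.fam3] at this
      rwa [if_pos ⟨hT, hT', hne⟩] at this)
  exact
    { good := hG
      inv := G.inv
      ν_pos := hν
      V_hi := hV
      p_pos := hp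
      p_le := hp1
      β_nonneg := by positivity
      β_le := s1
      we_le := b.we
      r_pos := B.ok.r_pos
      r_le := B.r_le
      X_le := fun T => (hXε T).trans B.ε_le
      ν_le := hνε.trans B.ε_le
      x_le := fun T => by
        refine (G.hx T).trans ?_
        rw [mul_comm]
        refine mul_le_mul_of_nonneg_right (Real.exp_le_exp.2 ?_) hν.le
        nlinarith
      hY := fun T hT hM => (b.yy T hT hM).trans (by linarith)
      cA := cA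
      cA' := cA'
      cB := cB
      cE := cE }

/-- selection of an outcome -/
theorem exists_le_of_mean {Ω : Type} {A : Finset Ω} {w f : Ω → ℝ} {Φ : ℝ}
    (hw : ∀ ω ∈ A, 0 ≤ w ω) (h1 : ∑ ω ∈ A, w ω = 1) (h : ∑ ω ∈ A, w ω * f ω ≤ Φ) :
    ∃ ω ∈ A, w ω ≠ 0 ∧ f ω ≤ Φ := by
  by_contra hcon
  push Not at hcon
  have h2 : ∀ ω ∈ A, w ω * Φ ≤ w ω * f ω := by
    intro ω hω
    by_cases h0 : w ω = 0
    · rw [h0, zero_mul, zero_mul]
    · exact mul_le_mul_of_nonneg_left (hcon ω hω h0).le (hw ω hω)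
  have h3 : ∃ ω ∈ A, w ω ≠ 0 := by
    by_contra h4
    push Not at h4
    rw [Finset.sum_eq_zero h4] at h1
    exact zero_ne_one h1
  obtain ⟨ω, hω, hne⟩ := h3
  have h4 : ∑ ω ∈ A, w ω * Φ < ∑ ω ∈ A, w ω * f ω :=
    Finset.sum_lt_sum h2 ⟨ω, hω, mul_lt_mul_of_pos_left (hcon ω hω hne)
      (lt_of_le_of_ne (hw ω hω) (Ne.symm hne))⟩
  rw [← Finset.sum_mul, h1, one_mul] at h4
  linarith

/-- the induction step -/
theorem Sy.Gst.step (hE : SpExp) (hcr : SpCr) {J : ℕ} (hG : S.Good J)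
    (hV : ∀ e, ((S.Vt.filter (fun T => e ∈ S.ed T)).card : ℝ) * π.ν ≤ 4)
    (hstp : ∀ (p β : ℝ) (M : Finset τ) (X x : τ → ℝ),
      S.Loc J (π.K + 1) (Real.exp (4 * (π.K + 1))) π.ν p β r E0 M X x → c ≤ r * S.ww X →
      S.Stp (π.k * (2 * J)) (π.K + 1) π.ν p β r c E0 M X x)
    (G : S.Gst π KX E0 Q p M X x) (B : π.Big c r KX γ E0.card) (hγp : γ ≤ p) (hp1 : p ≤ 1) :
    ∃ (M' : Finset τ) (X' x' : τ → ℝ), S.Gst π KX E0 Q (pn E0 p) M' X' x' := by
  have hγ := B.γ_pos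
  have hp : 0 < p := hγ.trans_le hγp
  have hK := B.K_ge
  have b := G.bnd B hγp
  have L := G.loc hcr hG hV B hγp hp1
  have hk2 := B.ok.κ₂_pos
  have hr := B.ok.r_pos
  have hKX := B.KX_nonneg
  have hν := B.ν_pos
  have hF₀ := B.ok.F₀_ge
  have s1 : π.κ₁ / p ^ 3 ≤ 1 / 10 := L.β_le
  have s2 : π.κ₂ / p ^ 3 ≤ 1 / 16 := (div_pow_anti hk2.le hγ hγp 3).trans B.q2
  have hW1 : 3 / 10 * (p * (E0.card : ℝ)) ≤ S.ww X := by
    have h1 := L.sum_we
    have h2 : ∑ _e ∈ S.al E0 M, (9 / 10 : ℝ) ≤ ∑ e ∈ S.al E0 M, S.we X e :=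
      Finset.sum_le_sum fun e he => by
        have := (abs_le.1 (b.we e he)).1
        linarith
    rw [Finset.sum_const, nsmul_eq_mul, L.inv.al_card] at h2
    linarith
  have hcW : c ≤ r * S.ww X := by
    refine B.q6.trans ?_
    have hN := B.N_pos
    have h1 : γ * (E0.card : ℝ) ≤ p * (E0.card : ℝ) := by gcongr
    have h2 : 3 / 10 * (γ * (E0.card : ℝ)) ≤ S.ww X := by linarith
    gcongr
  have St := hstp p (π.κ₁ / p ^ 3) M X x L hcW
  have hB := St.bas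
  have hW := hB.W_pos
  have hmean := Ph_step hE hG G.inv.X_nonneg St B.ok hp hp1 rfl s1
    (by
      refine le_trans ?_ B.q7
      have hn := B.ok.n_pos
      apply one_div_le_one_div_of_le (by positivity)
      gcongr) Q
    (fun e he => (b.ff e he).trans (by nlinarith)) (fun j => (b.dd j).trans (by linarith))
  obtain ⟨Ts, hTs, hw, hle⟩ := exists_le_of_mean
    (fun T _ => div_nonneg (G.inv.X_nonneg T) hW.le) hB.sumX hmean
  have hXT : X Ts ≠ 0 := fun h => hw (by rw [h, zero_div])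
  refine ⟨insert Ts M, S.nX M X Ts, S.nx M X x Ts, St.inv Ts hXT, ?_, ?_, hle.trans_lt G.ph⟩
  all_goals
    set u := 3 / ((S.al E0 M).card : ℝ) with hu
    have hu1 : 0 < 1 - u := by
      have := hB.pn_pos
      rw [hB.pn_eq] at this
      exact (mul_pos_iff_of_pos_left hp).1 this
    have hu0 : 0 ≤ u := by positivity
    have h5 : 1 / S.ww X ≤ 10 / 9 * u := by
      have h6 := hB.al_lo
      have h7 : 9 / 10 / S.ww X ≤ u := by
        refine le_trans ?_ h6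
        gcongr
        linarith
      have h8 : 1 / S.ww X = 10 / 9 * (9 / 10 / S.ww X) := by ring
      rw [h8]
      gcongr
    intro T
  · refine ((St.gX Ts hXT T).1).trans ?_
    have hX0 := G.inv.X_nonneg T
    have h6 : 1 + (3 + p * (π.K + 1)) / S.ww X ≤ (1 + 4 * u) * (1 + 2 * (π.K + 1) * (p * u)) := by
      have h7 : (3 + p * (π.K + 1)) / S.ww X = (3 + p * (π.K + 1)) * (1 / S.ww X) := by ring
      have h8 : 0 ≤ p * (π.K + 1) := by positivity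
      have h9 : (3 + p * (π.K + 1)) * (1 / S.ww X) ≤ (3 + p * (π.K + 1)) * (10 / 9 * u) := by
        gcongr
      rw [h7]
      nlinarith [mul_nonneg hu0 (mul_nonneg h8 hu0), mul_nonneg h8 hu0]
    have h7 : (1 + 4 * u) ≤ 1 / (1 - u) ^ 4 := by
      rw [le_div_iff₀ (by positivity)]
      have h8 : 1 + 4 * u ≤ (1 + u) ^ 4 := by
        have := one_add_mul_le_pow (a := u) (by linarith) 4
        push_cast at this
        linarith
      calc (1 + 4 * u) * (1 - u) ^ 4 ≤ (1 + u) ^ 4 * (1 - u) ^ 4 := by gcongr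
        _ = (1 - u ^ 2) ^ 4 := by
          rw [← mul_pow]
          congr 1
          ring
        _ ≤ 1 := by
          apply pow_le_one₀
          · nlinarith
          · nlinarith
    have h8 : 1 + 2 * (π.K + 1) * (p * u) ≤ Real.exp (2 * (π.K + 1) * (p * u)) := by
      have := Real.add_one_le_exp (2 * (π.K + 1) * (p * u))
      linarith
    have h9 : 0 ≤ 1 / p ^ 4 * Real.exp (2 * (π.K + 1) * (1 - p)) := by positivity
    have h10 : 0 ≤ 1 + 2 * (π.K + 1) * (p * u) := by positivity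
    calc X T * (1 + (3 + p * (π.K + 1)) / S.ww X)
        ≤ KX * (1 / p ^ 4 * Real.exp (2 * (π.K + 1) * (1 - p))) *
          ((1 + 4 * u) * (1 + 2 * (π.K + 1) * (p * u))) := by
          gcongr
          · exact G.hX T
      _ ≤ KX * (1 / p ^ 4 * Real.exp (2 * (π.K + 1) * (1 - p))) *
          (1 / (1 - u) ^ 4 * Real.exp (2 * (π.K + 1) * (p * u))) := by
          gcongr
      _ = KX * (1 / pn E0 p ^ 4 * Real.exp (2 * (π.K + 1) * (1 - pn E0 p))) := by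
          rw [hB.pn_eq, ← hu]
          have e1 : 2 * (π.K + 1) * (1 - p * (1 - u)) =
              2 * (π.K + 1) * (1 - p) + 2 * (π.K + 1) * (p * u) := by ring
          rw [e1, Real.exp_add, mul_pow]
          field_simp
  · refine ((St.gX Ts hXT T).2).trans ?_
    have hx0 := G.inv.x_nonneg T
    have h6 : 1 + 2 * (p * (π.K + 1)) / S.ww X ≤ 1 + 4 * (π.K + 1) * (p * u) := by
      have h7 : 2 * (p * (π.K + 1)) / S.ww X = 2 * (p * (π.K + 1)) * (1 / S.ww X) := by ring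
      have h8 : 0 ≤ p * (π.K + 1) := by positivity
      have h9 : 2 * (p * (π.K + 1)) * (1 / S.ww X) ≤ 2 * (p * (π.K + 1)) * (10 / 9 * u) := by
        gcongr
      rw [h7]
      nlinarith [mul_nonneg h8 hu0]
    have h8 : 1 + 4 * (π.K + 1) * (p * u) ≤ Real.exp (4 * (π.K + 1) * (p * u)) := by
      have := Real.add_one_le_exp (4 * (π.K + 1) * (p * u))
      linarith
    calc x T * (1 + 2 * (p * (π.K + 1)) / S.ww X)
        ≤ π.ν * Real.exp (4 * (π.K + 1) * (1 - p)) * Real.exp (4 * (π.K + 1) * (p * u)) := by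
          have h9 : 0 ≤ 1 + 2 * (p * (π.K + 1)) / S.ww X := by positivity
          exact mul_le_mul (G.hx T) (h6.trans h8) h9 (by positivity)
      _ = π.ν * Real.exp (4 * (π.K + 1) * (1 - pn E0 p)) := by
          rw [hB.pn_eq, ← hu, mul_assoc, ← Real.exp_add]
          congr 2
          ring

/-- the induction -/
theorem Sy.Gst.all (hE : SpExp) (hcr : SpCr) {J : ℕ} (hG : S.Good J)
    (hV : ∀ e, ((S.Vt.filter (fun T => e ∈ S.ed T)).card : ℝ) * π.ν ≤ 4)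
    (hstp : ∀ (p β : ℝ) (M : Finset τ) (X x : τ → ℝ),
      S.Loc J (π.K + 1) (Real.exp (4 * (π.K + 1))) π.ν p β r E0 M X x → c ≤ r * S.ww X →
      S.Stp (π.k * (2 * J)) (π.K + 1) π.ν p β r c E0 M X x)
    (B : π.Big c r KX γ E0.card) (G0 : ∃ (M : Finset τ) (X x : τ → ℝ), S.Gst π KX E0 Q 1 M X x)
    (i : ℕ) (hi : γ ≤ 1 - i * (3 / (E0.card : ℝ))) :
    ∃ (M : Finset τ) (X x : τ → ℝ), S.Gst π KX E0 Q (1 - i * (3 / (E0.card : ℝ))) M X x := by
  induction i with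
  | zero => simpa using G0
  | succ i ih =>
    have hN := B.N_pos
    have h3 : 0 ≤ 3 / (E0.card : ℝ) := by positivity
    have e1 : (1 - ((i + 1 : ℕ) : ℝ) * (3 / (E0.card : ℝ))) =
        1 - i * (3 / (E0.card : ℝ)) - 3 / (E0.card : ℝ) := by
      push_cast
      ring
    rw [e1] at hi ⊢
    obtain ⟨M, X, x, G⟩ := ih (by linarith)
    have h4 : 0 ≤ (i : ℝ) * (3 / (E0.card : ℝ)) := by positivity
    exact G.step hE hcr hG hV hstp B (by linarith) (by linarith)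

end

end F2
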