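import Pool.Agent.F2.N.Spec

/-!
# Project F2, block N, row N14: the structural invariants are preserved (helper26)
-/

set_option autoImplicit false
set_option linter.unusedSectionVars false

namespace F2

open Finset

section IRow

variable {ι τ : Type} [Fintype ι] [Fintype τ] [DecidableEq ι] [DecidableEq τ] {S : Sy ι τ}
  {M : Finset τ}

/-- a configuration which is completed by `Ts` -/
theorem inv_th {Ts T : τ} (hR : Ts ∈ S.R) (hM : Ts ∉ M) (hth : Ts ∉ S.th M T)
    {U : Finset τ} (hU : U ∈ S.conf) (hT : T ∈ U) (h0 : ¬ U.erase T ⊆ M) :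
    ¬ U.erase T ⊆ insert Ts M := by
  intro h1
  by_cases h2 : Ts ∈ U.erase T
  · obtain ⟨h3, h4⟩ := Finset.mem_erase.1 h2
    refine hth (Finset.mem_filter.2 ⟨hR, h3, hM, U, hU, hT, h4, ?_⟩)
    intro T' hT'
    obtain ⟨h5, h6⟩ := Finset.mem_erase.1 hT'
    exact (Finset.mem_insert.1 (h1 h6)).resolve_left h5
  · refine h0 fun T' hT' => (Finset.mem_insert.1 (h1 hT')).resolve_left ?_
    rintro rfl
    exact h2 hT'

end IRow

/-- N14 -/
theorem i_ok : SpBas → SpI := by
  intro hbas J K C₁ hK hC₁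
  obtain ⟨c₀, hc₀, hb⟩ := hbas J K C₁ hK hC₁
  refine ⟨max c₀ (2 * (4 + K) ^ 2), hc₀.trans (le_max_left _ _), ?_⟩
  intro ι τ _ _ _ _ S ν p β r E0 M X x hL hc Ts hTs
  have hB := hb _ (le_max_left c₀ (2 * (4 + K) ^ 2)) ι τ S ν p β r E0 M X x hL hc
  set c : ℝ := max c₀ (2 * (4 + K) ^ 2) with hcdef
  have hcK : 2 * (4 + K) ^ 2 ≤ c := le_max_right _ _
  have hW := hB.W_pos
  have hhalf := hB.W_half
  have hp0 := hL.p_pos
  have hp1 := hL.p_le
  have hpK0 : 0 ≤ p * K := by positivity
  have hpK : p * K ≤ K := by nlinarith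
  have hbW : (33 / 10 + p * K) / S.ww X ≤ 1 / 2 := by
    refine le_trans (div_le_div_of_nonneg_right ?_ hW.le) hhalf
    nlinarith
  have h1W : 1 / S.ww X ≤ 1 / 2 := by
    refine le_trans (div_le_div_of_nonneg_right ?_ hW.le) hbW
    linarith
  have inv := hL.inv
  obtain ⟨hTsR, hTsal, hTsconf⟩ := inv.X_ne Ts hTs
  have hTsM : Ts ∉ M := hB.X_M Ts hTs
  have hTsE : S.ed Ts ⊆ E0 := hTsal.trans Finset.sdiff_subset
  have hdisj : ∀ T ∈ M, Disjoint (S.ed Ts) (S.ed T) := by
    intro T hT
    rw [Finset.disjoint_left]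
    intro e he he'
    exact (Finset.mem_sdiff.1 (hTsal he)).2 (Finset.mem_biUnion.2 ⟨T, hT, he'⟩)
  have hal : S.al E0 (insert Ts M) = S.al E0 M \ S.ed Ts := by
    ext e
    simp only [Sy.al, Finset.biUnion_insert, Finset.mem_sdiff, Finset.mem_union]
    tauto
  have hmonoq : ∀ A B : Finset τ, A ⊆ B → ∑ T ∈ A, X T ≤ ∑ T ∈ B, X T := fun A B hAB =>
    Finset.sum_le_sum_of_subset_of_nonneg hAB fun T _ _ => inv.X_nonneg T
  refine ⟨?_, ?_, ?_, ?_, ?_, ?_, ?_, ?_, ?_⟩
  · -- M_sub
    intro T hT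
    rcases Finset.mem_insert.1 hT with rfl | hT
    · exact hTsR
    · exact inv.M_sub hT
  · -- M_ed
    intro T hT
    rcases Finset.mem_insert.1 hT with rfl | hT
    · exact hTsE
    · exact inv.M_ed T hT
  · -- M_disj
    intro T hT T' hT' hne
    rcases Finset.mem_insert.1 hT with h1 | h1
    · rcases Finset.mem_insert.1 hT' with h2 | h2
      · exact absurd (h1.trans h2.symm) hne
      · rw [h1]
        exact hdisj T' h2
    · rcases Finset.mem_insert.1 hT' with h2 | h2
      · rw [h2]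
        exact (hdisj T h1).symm
      · exact inv.M_disj T h1 T' h2 hne
  · -- M_conf
    intro U hU hUM
    by_cases h : Ts ∈ U
    · refine hTsconf U hU h fun T hT => ?_
      obtain ⟨h1, h2⟩ := Finset.mem_erase.1 hT
      exact (Finset.mem_insert.1 (hUM h2)).resolve_left h1
    · refine inv.M_conf U hU fun T hT => (Finset.mem_insert.1 (hUM hT)).resolve_left ?_
      rintro rfl
      exact h hT
  · -- al_card
    rw [hal, Finset.card_sdiff_of_subset hTsal, hL.good.card3 Ts hTsR]
    have h3 : 3 ≤ (S.al E0 M).card := by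
      rw [← hL.good.card3 Ts hTsR]
      exact Finset.card_le_card hTsal
    have h3' : 3 ≤ E0.card := by
      rw [← hL.good.card3 Ts hTsR]
      exact Finset.card_le_card hTsE
    have h4 : (E0.card : ℝ) ≠ 0 := by
      have : 0 < E0.card := by omega
      exact_mod_cast this.ne'
    rw [Nat.cast_sub h3, inv.al_card, pn, sub_mul, div_mul_cancel₀ _ h4]
    norm_num
  · -- X_nonneg
    intro T
    unfold Sy.nX
    split_ifs with h
    · exact le_rfl
    · rcases eq_or_ne (X T) 0 with h0 | h0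
      · rw [h0, zero_mul]
      · have hTR : T ∈ S.R := (inv.X_ne T h0).1
        have hTM : T ∉ M := hB.X_M T h0
        have h1 := hB.kk_le T (Finset.mem_union_left _ hTR) hTM
        have h2 : S.qq X (S.kk M T) ≤ 1 / 2 :=
          (div_le_div_of_nonneg_right h1 hW.le).trans hbW
        refine mul_nonneg (inv.X_nonneg T) (div_nonneg ?_ ?_) <;> linarith
  · -- X_ne
    intro T hT
    unfold Sy.nX at hT
    split_ifs at hT with h
    · exact absurd rfl hT
    · have h0 : X T ≠ 0 := left_ne_zero_of_mul hT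
      obtain ⟨h1, h2, h3⟩ := inv.X_ne T h0
      unfold Sy.kk at h
      rw [if_pos h1, Finset.mem_union, not_or] at h
      refine ⟨h1, ?_, fun U hU hTU => inv_th hTsR hTsM h.2 hU hTU (h3 U hU hTU)⟩
      rw [hal]
      intro e he
      refine Finset.mem_sdiff.2 ⟨h2 he, fun he' => h.1 ?_⟩
      exact Finset.mem_filter.2 ⟨hTsR, Finset.not_disjoint_iff.2 ⟨e, he', he⟩⟩
  · -- x_nonneg
    intro T
    unfold Sy.nx
    split_ifs with h
    · exact le_rfl
    · rcases eq_or_ne (x T) 0 with h0 | h0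
      · rw [h0, zero_div]
      · have hTV : T ∈ S.Vt := (inv.x_ne T h0).1
        have hTM : T ∉ M := fun hT => Finset.disjoint_left.1 hL.good.disj (inv.M_sub hT) hTV
        have h1 := hB.th_le T (Finset.mem_union_right _ hTV) hTM
        have h2 : S.qq X (S.th M T) ≤ 1 / 2 := by
          refine (div_le_div_of_nonneg_right (h1.trans ?_) hW.le).trans hbW
          linarith
        refine div_nonneg (inv.x_nonneg T) ?_
        linarith
  · -- x_ne
    intro T hT
    unfold Sy.nx at hT
    split_ifs at hT with h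
    · exact absurd rfl hT
    · have h0 : x T ≠ 0 := by
        intro h0
        rw [h0, zero_div] at hT
        exact hT rfl
      obtain ⟨h1, h3⟩ := inv.x_ne T h0
      exact ⟨h1, fun U hU hTU => inv_th hTsR hTsM h hU hTU (h3 U hU hTU)⟩

end F2
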