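import Pool.Agent.F2.N.Fin1

/-!
# Project F2, block N: the numbers
-/

set_option autoImplicit false
set_option linter.unusedSectionVars false

namespace F2

open Finset Filter

/-- the parameters -/
noncomputable def npar (K ω x ν : ℝ) (m : ℕ) : NPar where
  l := x ^ (1 / 4 : ℝ)
  κ₁ := x ^ (-(1 / 8) : ℝ)
  κ₂ := x ^ (-(1 / 16) : ℝ)
  F₀ := x ^ (ω / 8)
  K := K
  A := x ^ (-892 : ℝ)
  ε := x ^ (-(19 / 20) : ℝ)
  n := x
  ν := ν
  k := 1000
  m := m

/-- all constants are absorbed -/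
noncomputable def DC (K c : ℝ) : ℝ := 20 * c ^ 2 + 20 + 2 * K * Real.exp (2 * (K + 1))

theorem npar_big {K c ω x ν N : ℝ} {m : ℕ} (hK : 1 ≤ K) (hc : 1 ≤ c) (hω : 0 < ω)
    (hω1 : ω ≤ 1 / 1000) (hωm : ω * m ≤ 1) (hm : 2 * c ≤ m) (hx : 1 ≤ x)
    (hD : DC K c ≤ x ^ (3 * ω / 8)) (hν : 0 < ν) (hν1 : ν ≤ x ^ (-1 + ω / 8)) (hN : x ^ 2 / 4 ≤ N) :
    (npar K ω x ν m).Big c (x ^ (-(4 / 5) : ℝ)) (K / x) (x ^ (-ω)) N := by
  have hx0 : 0 < x := by linarith
  have hexp := Real.exp_pos (2 * (K + 1))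
  have key : ∀ C a b : ℝ, C ≤ DC K c → 3 * ω / 8 ≤ b - a → C * x ^ a ≤ x ^ b := by
    intro C a b h1 h2
    have h3 : 0 < x ^ a := by positivity
    calc C * x ^ a ≤ x ^ (3 * ω / 8) * x ^ a := by
          gcongr
          exact h1.trans hD
      _ = x ^ (3 * ω / 8 + a) := (Real.rpow_add hx0 _ _).symm
      _ ≤ x ^ b := Real.rpow_le_rpow_of_exponent_le hx (by linarith)
  have mul : ∀ a b : ℝ, x ^ a * x ^ b = x ^ (a + b) := fun a b => (Real.rpow_add hx0 a b).symm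
  have mono : ∀ a b : ℝ, a ≤ b → x ^ a ≤ x ^ b := fun a b h =>
    Real.rpow_le_rpow_of_exponent_le hx h
  have hKe : 0 ≤ 2 * K * Real.exp (2 * (K + 1)) := by positivity
  have d1 : 2 * c ≤ DC K c := by
    unfold DC
    nlinarith
  have d2 : 2 * c ^ 2 ≤ DC K c := by
    unfold DC
    nlinarith
  have d3 : 4 * c + 4 * c ^ 2 ≤ DC K c := by
    unfold DC
    nlinarith
  have d4 : 16 ≤ DC K c := by
    unfold DC
    nlinarith
  have d5 : 2 * K * Real.exp (2 * (K + 1)) ≤ DC K c := by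
    unfold DC
    nlinarith
  have d6 : 14 * c ≤ DC K c := by
    unfold DC
    nlinarith
  have e11 : x ^ (1 / 4 : ℝ) * x ^ (-(4 / 5) : ℝ) = x ^ (-(11 / 20) : ℝ) := by
    rw [mul]
    norm_num
  have hγ : 0 < x ^ (-ω) := by positivity
  have hinv : 1 / x ^ (-ω) = x ^ ω := by
    rw [Real.rpow_neg hx0.le, one_div, inv_inv]
  refine
    { ok :=
        { c_ge := hc
          r_pos := by positivity
          l_pos := by
            simp only [npar]
            positivity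
          κ₁_pos := by
            simp only [npar]
            positivity
          κ₂_pos := by
            simp only [npar]
            positivity
          F₀_ge := by
            simp only [npar]
            exact Real.one_le_rpow hx (by positivity)
          A_pos := by
            simp only [npar]
            positivity
          ε_nonneg := by
            simp only [npar]
            positivity
          n_pos := hx0
          k_ne := by
            simp only [npar]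
            norm_num
          ld := ?_
          w := ?_
          o := ?_
          m_ge := hm }
      K_ge := hK
      ν_pos := hν
      KX_nonneg := by positivity
      γ_pos := hγ
      γ_le := Real.rpow_le_one_of_one_le_of_nonpos hx (by linarith)
      N_pos := by
        have : 0 < x ^ 2 / 4 := by positivity
        linarith
      r_le := ?_
      ε_le := mono _ _ (by norm_num)
      q1 := ?_
      q2 := ?_
      q3 := ?_
      q4 := ?_
      q5 := ?_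
      q6 := ?_
      q7 := ?_ }
  · simp only [npar]
    have h1 := key (2 * c) (-(11 / 20)) 0 d1 (by linarith)
    rw [Real.rpow_zero] at h1
    calc x ^ (1 / 4 : ℝ) * (2 * c * x ^ (-(4 / 5) : ℝ)) =
          2 * c * (x ^ (1 / 4 : ℝ) * x ^ (-(4 / 5) : ℝ)) := by ring
      _ ≤ 1 := by rwa [e11]
  · simp only [npar]
    have h1 := key (2 * c ^ 2) (-(11 / 20)) (-(1 / 8)) d2 (by linarith)
    have h2 : 0 < x ^ (-(11 / 20) : ℝ) := by positivity
    calc x ^ (1 / 4 : ℝ) * (c * x ^ (-(4 / 5) : ℝ)) * c =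
          c ^ 2 * (x ^ (1 / 4 : ℝ) * x ^ (-(4 / 5) : ℝ)) := by ring
      _ ≤ 7 / 10 * x ^ (-(1 / 8) : ℝ) := by
          rw [e11]
          nlinarith
  · simp only [npar]
    have h1 := key (4 * c + 4 * c ^ 2) (-(1 / 8)) (-(1 / 16)) d3 (by linarith)
    have h2 : x ^ (-(4 / 5) : ℝ) ≤ x ^ (-(1 / 8) : ℝ) := mono _ _ (by norm_num)
    have h3 : x ^ (-(11 / 20) : ℝ) ≤ x ^ (-(1 / 8) : ℝ) := mono _ _ (by norm_num)
    have h4 : 0 < x ^ (-(1 / 16) : ℝ) := by positivity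
    have e2 : x ^ (1 / 4 : ℝ) * (2 * c * x ^ (-(4 / 5) : ℝ)) * (2 * c) =
        4 * c ^ 2 * x ^ (-(11 / 20) : ℝ) := by
      rw [← e11]
      ring
    rw [e2]
    have h5 : 4 * c ^ 2 * x ^ (-(11 / 20) : ℝ) ≤ 4 * c ^ 2 * x ^ (-(1 / 8) : ℝ) := by gcongr
    have h6 : 2 * c * (x ^ (-(1 / 8) : ℝ) + x ^ (-(4 / 5) : ℝ)) ≤
        2 * c * (x ^ (-(1 / 8) : ℝ) + x ^ (-(1 / 8) : ℝ)) := by gcongr
    nlinarith
  · have h1 := key 16 (-(4 / 5)) 0 d4 (by linarith)
    rw [Real.rpow_zero] at h1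
    linarith
  · simp only [npar]
    have h1 := key 16 (-(1 / 8) + 3 * ω) 0 d4 (by linarith)
    rw [Real.rpow_zero] at h1
    have e1 : x ^ (-(1 / 8) : ℝ) / (x ^ (-ω)) ^ 3 = x ^ (-(1 / 8) + 3 * ω) := by
      rw [← Real.rpow_natCast, ← Real.rpow_mul hx0.le, ← Real.rpow_sub hx0]
      congr 1
      push_cast
      ring
    rw [e1]
    linarith
  · simp only [npar]
    have h1 := key 16 (-(1 / 16) + 3 * ω) 0 d4 (by linarith)
    rw [Real.rpow_zero] at h1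
    have e1 : x ^ (-(1 / 16) : ℝ) / (x ^ (-ω)) ^ 3 = x ^ (-(1 / 16) + 3 * ω) := by
      rw [← Real.rpow_natCast, ← Real.rpow_mul hx0.le, ← Real.rpow_sub hx0]
      congr 1
      push_cast
      ring
    rw [e1]
    linarith
  · simp only [npar]
    have h1 := key (2 * K * Real.exp (2 * (K + 1))) (5 * ω - 1) (-(19 / 20)) d5 (by linarith)
    refine le_trans ?_ h1
    rw [hinv]
    have e1 : 1 / (x ^ (-ω)) ^ 4 = x ^ (4 * ω) := by
      rw [← Real.rpow_natCast, ← Real.rpow_mul hx0.le, one_div, ← Real.rpow_neg hx0.le]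
      congr 1
      push_cast
      ring
    rw [e1]
    have e2 : K / x = K * x ^ (-1 : ℝ) := by
      rw [Real.rpow_neg_one, div_eq_mul_inv]
    rw [e2]
    have h2 : 1 ≤ x ^ ω := Real.one_le_rpow hx hω.le
    have e3 : x ^ ω * x ^ (-1 : ℝ) * x ^ (4 * ω) = x ^ (5 * ω - 1) := by
      rw [mul, mul]
      congr 1
      ring
    calc (1 + x ^ ω) * (K * x ^ (-1 : ℝ) * (x ^ (4 * ω) * Real.exp (2 * (K + 1))))
        ≤ (x ^ ω + x ^ ω) * (K * x ^ (-1 : ℝ) * (x ^ (4 * ω) * Real.exp (2 * (K + 1)))) := by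
          gcongr
      _ = 2 * K * Real.exp (2 * (K + 1)) * (x ^ ω * x ^ (-1 : ℝ) * x ^ (4 * ω)) := by ring
      _ = _ := by rw [e3]
  · simp only [npar]
    rw [div_eq_mul_one_div, hinv]
    calc ν * x ^ ω ≤ x ^ (-1 + ω / 8) * x ^ ω := by gcongr
      _ = x ^ (-1 + ω / 8 + ω) := mul _ _
      _ ≤ x ^ (-(19 / 20) : ℝ) := mono _ _ (by linarith)
  · simp only [npar]
    have e1 : x ^ (-892 : ℝ) / (x ^ (-ω)) ^ m = x ^ (-892 + ω * m) := by
      rw [← Real.rpow_natCast, ← Real.rpow_mul hx0.le, ← Real.rpow_sub hx0]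
      congr 1
      ring
    have e2 : (x ^ (-(4 / 5) : ℝ)) ^ 1000 = x ^ (-800 : ℝ) := by
      rw [← Real.rpow_natCast, ← Real.rpow_mul hx0.le]
      norm_num
    rw [e1, e2]
    exact mono _ _ (by linarith)
  · have h1 := key (14 * c) (-(4 / 5) + (-ω)) (1 / 5) d6 (by linarith)
    have h3 : x ^ (-(4 / 5) : ℝ) * (3 / 10 * (x ^ (-ω) * (x ^ 2 / 4))) ≤
        x ^ (-(4 / 5) : ℝ) * (3 / 10 * (x ^ (-ω) * N)) := by gcongr
    refine le_trans ?_ h3
    have e1 : x ^ (-(4 / 5) : ℝ) * (3 / 10 * (x ^ (-ω) * (x ^ 2 / 4))) =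
        3 / 40 * x ^ (-(4 / 5) + (-ω) + 2) := by
      rw [← Real.rpow_natCast x 2, ← mul, ← mul]
      push_cast
      ring
    rw [e1]
    have h4 := key (14 * c) 0 (-(4 / 5) + (-ω) + 2) d6 (by linarith)
    rw [Real.rpow_zero] at h4
    linarith
  · simp only [npar]
    have e1 : 1 / (x ^ (-ω) * x) = x ^ (ω - 1) := by
      rw [← Real.rpow_add_one hx0.ne', one_div, ← Real.rpow_neg hx0.le]
      congr 1
      ring
    rw [e1]
    exact mono _ _ (by linarith)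

/-- the remaining numerical facts -/
structure NRest (ω x N : ℝ) : Prop where
  q8 : 4 * x ^ (1 - ω) ≤ x ^ (1 - ω / 2)
  q9 : 4 * (x ^ (-ω) * x ^ (ω / 8)) ≤ x ^ (-(ω / 2))
  q10 : 6 * x ^ 3 * Real.exp (-(x ^ (1 / 4 : ℝ) * x ^ (-(1 / 8) : ℝ))) ≤ 1 / 4
  q11 : 4 * x ^ 6 * x ^ (-(9 / 10) * (1000 : ℕ) : ℝ) / x ^ (-892 : ℝ) ≤ 1 / 4
  q12 : 3 / N ≤ x ^ (-ω)
  q13 : x ^ (-(1 / 8) : ℝ) ≤ x ^ (-(1 / 16) : ℝ)

theorem nrest {ω : ℝ} (hω : 0 < ω) (hω1 : ω ≤ 1 / 1000) : ∃ x₀ : ℝ, ∀ x, x₀ ≤ x →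
    ∀ N, x ^ 2 / 4 ≤ N → NRest ω x N := by
  have t1 : Tendsto (fun x : ℝ => x ^ (3 * ω / 8)) atTop atTop :=
    tendsto_rpow_atTop (by positivity)
  have t2 : Tendsto (fun y : ℝ => y ^ 24 * Real.exp (-y)) atTop (nhds 0) :=
    Real.tendsto_pow_mul_exp_neg_atTop_nhds_zero 24
  have t3 : Tendsto (fun x : ℝ => x ^ (1 / 8 : ℝ)) atTop atTop :=
    tendsto_rpow_atTop (by norm_num)
  have t4 := t2.comp t3
  have ev : ∀ᶠ x : ℝ in atTop, 4 ≤ x ^ (3 * ω / 8) ∧
      (x ^ (1 / 8 : ℝ)) ^ 24 * Real.exp (-(x ^ (1 / 8 : ℝ))) < 1 / 24 ∧ 16 ≤ x := by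
    filter_upwards [t1.eventually_ge_atTop 4, t4.eventually_lt_const (by norm_num : (0:ℝ) < 1 / 24),
      eventually_ge_atTop 16] with x h1 h2 h3
    exact ⟨h1, h2, h3⟩
  obtain ⟨x₀, hx₀⟩ := Filter.eventually_atTop.1 ev
  refine ⟨x₀, fun x hx N hN => ?_⟩
  obtain ⟨h1, h2, h3⟩ := hx₀ x hx
  have hx0 : 0 < x := by linarith
  have hx1 : 1 ≤ x := by linarith
  have mul : ∀ a b : ℝ, x ^ a * x ^ b = x ^ (a + b) := fun a b => (Real.rpow_add hx0 a b).symm
  have mono : ∀ a b : ℝ, a ≤ b → x ^ a ≤ x ^ b := fun a b h =>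
    Real.rpow_le_rpow_of_exponent_le hx1 h
  refine ⟨?_, ?_, ?_, ?_, ?_, mono _ _ (by norm_num)⟩
  · have h4 : 0 < x ^ (1 - ω) := by positivity
    calc 4 * x ^ (1 - ω) ≤ x ^ (3 * ω / 8) * x ^ (1 - ω) := by gcongr
      _ = x ^ (3 * ω / 8 + (1 - ω)) := mul _ _
      _ ≤ x ^ (1 - ω / 2) := mono _ _ (by linarith)
  · calc 4 * (x ^ (-ω) * x ^ (ω / 8)) ≤ x ^ (3 * ω / 8) * (x ^ (-ω) * x ^ (ω / 8)) := by gcongr
      _ = x ^ (-(ω / 2)) := by
        rw [mul, mul]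
        congr 1
        ring
  · have e1 : x ^ (1 / 4 : ℝ) * x ^ (-(1 / 8) : ℝ) = x ^ (1 / 8 : ℝ) := by
      rw [mul]
      norm_num
    have e2 : (x ^ (1 / 8 : ℝ)) ^ 24 = x ^ 3 := by
      rw [← Real.rpow_natCast, ← Real.rpow_mul hx0.le]
      norm_num
    rw [e2] at h2
    rw [e1]
    linarith
  · have e1 : x ^ (-(9 / 10) * (1000 : ℕ) : ℝ) / x ^ (-892 : ℝ) = x ^ (-8 : ℝ) := by
      rw [← Real.rpow_sub hx0]
      norm_num
    have e2 : x ^ 6 = x ^ (6 : ℝ) := by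
      rw [← Real.rpow_natCast]
      norm_num
    rw [mul_div_assoc, e1, e2, mul_assoc, mul]
    have e3 : x ^ ((6 : ℝ) + -8) = 1 / x ^ 2 := by
      rw [show ((6 : ℝ) + -8) = -((2 : ℕ) : ℝ) by norm_num, Real.rpow_neg hx0.le,
        Real.rpow_natCast, one_div]
    rw [e3, mul_one_div, div_le_div_iff₀ (by positivity) (by norm_num)]
    nlinarith
  · have h4 : 3 / N ≤ 3 / (x ^ 2 / 4) := by
      apply div_le_div_of_nonneg_left (by norm_num) (by positivity) hN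
    have h5 : 3 / (x ^ 2 / 4) ≤ x ^ (-1 : ℝ) := by
      rw [Real.rpow_neg_one, ← one_div, div_le_div_iff₀ (by positivity) hx0]
      nlinarith
    exact h4.trans (h5.trans (mono _ _ (by linarith)))

end F2
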