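import Pool.Agent.F2.N.Comb
import Pool.Agent.F2.N.Base

/-!
# Project F2, block N: the potential, one step
-/

set_option autoImplicit false
set_option linter.unusedSectionVars false

namespace F2

open Finset
open Pool.Agent.F2 (HH GG)

/-! ## General facts -/

theorem pot_step {Ω I : Type} [DecidableEq I] (R : Finset Ω) (w : Ω → ℝ) (A : Finset I)
    (A' : Ω → Finset I) (hA : ∀ ω ∈ R, A' ω ⊆ A) (Z : I → ℝ) (Z' : Ω → I → ℝ) (l B b : ℝ)
    (h : ∀ i ∈ A, ∑ ω ∈ R.filter (fun ω => i ∈ A' ω),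
      w ω * Real.exp (l * (Z' ω i - Z i - b)) ≤ 1) :
    ∑ ω ∈ R, w ω * ∑ i ∈ A' ω, Real.exp (l * (Z' ω i - (B + b))) ≤
      ∑ i ∈ A, Real.exp (l * (Z i - B)) := by
  have e1 : ∀ ω ∈ R, w ω * ∑ i ∈ A' ω, Real.exp (l * (Z' ω i - (B + b))) =
      ∑ i ∈ A, if i ∈ A' ω then
        w ω * Real.exp (l * (Z' ω i - Z i - b)) * Real.exp (l * (Z i - B)) else 0 := by
    intro ω hω
    rw [← Finset.sum_filter, Finset.filter_mem_eq_inter, Finset.inter_eq_right.2 (hA ω hω),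
      Finset.mul_sum]
    refine Finset.sum_congr rfl fun i _ => ?_
    rw [mul_assoc, ← Real.exp_add]
    congr 2
    ring
  rw [Finset.sum_congr rfl e1, Finset.sum_comm]
  refine Finset.sum_le_sum fun i hi => ?_
  rw [← Finset.sum_filter, ← Finset.sum_mul]
  have h1 := h i hi
  have h2 := (Real.exp_pos (l * (Z i - B))).le
  nlinarith

/-- the growth of the barrier -/
theorem bar_step {p p' u κ : ℝ} (hp : 0 < p) (hu0 : 0 ≤ u) (hu1 : u < 1) (hp' : p' = p * (1 - u))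
    (hκ : 0 ≤ κ) : 3 * u * (κ / p ^ 3) ≤ κ / p' ^ 3 - κ / p ^ 3 := by
  have h1 : 0 < 1 - u := by linarith
  rw [hp', mul_pow]
  have e1 : κ / (p ^ 3 * (1 - u) ^ 3) = κ / p ^ 3 * (1 / (1 - u) ^ 3) := by
    field_simp
  rw [e1]
  have h2 : 1 + 3 * u ≤ 1 / (1 - u) ^ 3 := by
    rw [le_div_iff₀ (by positivity)]
    nlinarith [mul_nonneg hu0 hu0, mul_nonneg (mul_nonneg hu0 hu0) hu0,
      mul_nonneg (mul_nonneg hu0 hu0) h1.le, sq_nonneg (u ^ 2), mul_nonneg hu0 h1.le]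
  have h3 : 0 ≤ κ / p ^ 3 := by positivity
  nlinarith

/-- the growth of the normalisation of the moments -/
theorem pow_step {u a : ℝ} {m : ℕ} (hu0 : 0 ≤ u) (hu1 : u ≤ 1) (ha : a ≤ m * u) (ha0 : 0 ≤ a) :
    (1 + a) * (1 - u) ^ m ≤ 1 := by
  have h1 : 1 + a ≤ (1 + u) ^ m := by
    have := one_add_mul_le_pow (a := u) (by linarith) m
    linarith
  have h2 : 0 ≤ (1 - u) ^ m := pow_nonneg (by linarith) m
  calc (1 + a) * (1 - u) ^ m ≤ (1 + u) ^ m * (1 - u) ^ m := by gcongr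
    _ = (1 - u ^ 2) ^ m := by
        rw [← mul_pow]
        congr 1
        ring
    _ ≤ 1 := by
        apply pow_le_one₀
        · nlinarith
        · nlinarith

theorem GG_empty {α : Type*} [DecidableEq α] {ε : ℝ} {y : α → ℝ} {k : ℕ} (hk : k ≠ 0) :
    GG ε y ∅ k = 0 := by
  obtain ⟨m, rfl⟩ := Nat.exists_eq_succ_of_ne_zero hk
  unfold Pool.Agent.F2.GG
  rw [Nat.succ_eq_add_one, Pool.Agent.F2.HH_succ, Finset.sum_empty]

/-! ## The families -/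

section

variable {ι τ : Type} [Fintype ι] [Fintype τ] [DecidableEq ι] [DecidableEq τ] (S : Sy ι τ)

/-- the families `A`, `A'`, `E` -/
def Sy.fam3 : τ × τ ⊕ τ × τ ⊕ τ × τ → Finset (Finset τ)
  | Sum.inl q => if q.1 = q.2 then ∅ else S.fA q.1 q.2
  | Sum.inr (Sum.inl q) => if q.1 = q.2 then ∅ else S.fA' q.1 q.2
  | Sum.inr (Sum.inr q) =>
    if q.1 ∈ S.R ∪ S.Vt ∧ q.2 ∈ S.R ∪ S.Vt ∧ q.1 ≠ q.2 then S.fE q.1 q.2 else ∅

/-- the families `B` -/
def Sy.famB (T : τ) (e : ι) : Finset (Finset τ) :=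
  if T ∈ S.R ∪ S.Vt ∧ e ∉ S.ed T then S.fB T e else ∅

/-- the sum of all moments -/
noncomputable def Sy.GS (ε : ℝ) (k : ℕ) (E0 : Finset ι) (y : τ → ℝ) : ℝ :=
  ∑ i : τ × τ ⊕ τ × τ ⊕ τ × τ, GG ε y (S.fam3 i) k +
    ∑ T : τ, ∑ e ∈ E0, GG ε y (S.famB T e) k

variable {S}

theorem Sy.GS_nonneg {ε : ℝ} {k : ℕ} {E0 : Finset ι} {y : τ → ℝ} (hε : 0 ≤ ε)
    (hy : ∀ T, 0 ≤ y T) : 0 ≤ S.GS ε k E0 y :=
  add_nonneg (Finset.sum_nonneg fun i _ => Pool.Agent.F2.GG_nonneg hε hy k)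
    (Finset.sum_nonneg fun T _ => Finset.sum_nonneg fun e _ => Pool.Agent.F2.GG_nonneg hε hy k)

theorem Sy.GG3_le {ε : ℝ} {k : ℕ} {E0 : Finset ι} {y : τ → ℝ} (hε : 0 ≤ ε)
    (hy : ∀ T, 0 ≤ y T) (i : τ × τ ⊕ τ × τ ⊕ τ × τ) :
    GG ε y (S.fam3 i) k ≤ S.GS ε k E0 y := by
  have h1 : GG ε y (S.fam3 i) k ≤ ∑ i : τ × τ ⊕ τ × τ ⊕ τ × τ, GG ε y (S.fam3 i) k :=
    Finset.single_le_sum (f := fun i => GG ε y (S.fam3 i) k)
      (fun i _ => Pool.Agent.F2.GG_nonneg hε hy k) (Finset.mem_univ i)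
  have h2 : 0 ≤ ∑ T : τ, ∑ e ∈ E0, GG ε y (S.famB T e) k :=
    Finset.sum_nonneg fun T _ => Finset.sum_nonneg fun e _ => Pool.Agent.F2.GG_nonneg hε hy k
  unfold Sy.GS
  linarith

theorem Sy.GGB_le {ε : ℝ} {k : ℕ} {E0 : Finset ι} {y : τ → ℝ} (hε : 0 ≤ ε)
    (hy : ∀ T, 0 ≤ y T) (T : τ) {e : ι} (he : e ∈ E0) :
    GG ε y (S.famB T e) k ≤ S.GS ε k E0 y := by
  have h0 : ∀ T, 0 ≤ ∑ e ∈ E0, GG ε y (S.famB T e) k := fun T =>
    Finset.sum_nonneg fun e _ => Pool.Agent.F2.GG_nonneg hε hy k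
  have h1 : GG ε y (S.famB T e) k ≤ ∑ e ∈ E0, GG ε y (S.famB T e) k :=
    Finset.single_le_sum (f := fun e => GG ε y (S.famB T e) k)
      (fun e _ => Pool.Agent.F2.GG_nonneg hε hy k) he
  have h3 : ∑ e ∈ E0, GG ε y (S.famB T e) k ≤ ∑ T : τ, ∑ e ∈ E0, GG ε y (S.famB T e) k :=
    Finset.single_le_sum (f := fun T => ∑ e ∈ E0, GG ε y (S.famB T e) k)
      (fun T _ => h0 T) (Finset.mem_univ T)
  have h2 : 0 ≤ ∑ i : τ × τ ⊕ τ × τ ⊕ τ × τ, GG ε y (S.fam3 i) k :=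
    Finset.sum_nonneg fun i _ => Pool.Agent.F2.GG_nonneg hε hy k
  unfold Sy.GS
  linarith

theorem Sy.Good.card_fam3 {J : ℕ} (h : S.Good J) (i : τ × τ ⊕ τ × τ ⊕ τ × τ) :
    ∀ P ∈ S.fam3 i, P.card ≤ 2 * J := by
  intro P hP
  rcases i with q | q | q
  · simp only [Sy.fam3] at hP
    split_ifs at hP with hq
    · exact absurd hP (Finset.notMem_empty P)
    · obtain ⟨U, hU, rfl⟩ := Finset.mem_image.1 hP
      have h1 := h.conf_card U (Finset.mem_filter.1 hU).1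
      have h2 := Finset.card_erase_le (s := U) (a := q.1)
      omega
  · simp only [Sy.fam3] at hP
    split_ifs at hP with hq
    · exact absurd hP (Finset.notMem_empty P)
    · obtain ⟨U, hU, rfl⟩ := Finset.mem_image.1 hP
      have h1 := h.conf_card U (Finset.mem_filter.1 hU).1
      have h2 := Finset.card_erase_le (s := U) (a := q.1)
      have h3 := Finset.card_erase_le (s := U.erase q.1) (a := q.2)
      omega
  · simp only [Sy.fam3] at hP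
    split_ifs at hP with hq
    · obtain ⟨U, hU, rfl⟩ := Finset.mem_image.1 hP
      obtain ⟨hU1, hU2⟩ := Finset.mem_product.1 (Finset.mem_filter.1 hU).1
      have h1 := h.conf_card U.1 hU1
      have h2 := h.conf_card U.2 hU2
      have h3 := Finset.card_erase_le (s := U.1) (a := q.1)
      have h4 := Finset.card_erase_le (s := U.2) (a := q.2)
      have h5 := Finset.card_union_le (U.1.erase q.1) (U.2.erase q.2)
      omega
    · exact absurd hP (Finset.notMem_empty P)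

theorem Sy.Good.card_famB {J : ℕ} (h : S.Good J) (T : τ) (e : ι) :
    ∀ P ∈ S.famB T e, P.card ≤ 2 * J := by
  intro P hP
  unfold Sy.famB at hP
  split_ifs at hP with hq
  · obtain ⟨U, hU, rfl⟩ := Finset.mem_image.1 hP
    have h1 := h.conf_card U (Finset.mem_filter.1 hU).1
    have h2 := Finset.card_erase_le (s := U) (a := T)
    omega
  · exact absurd hP (Finset.notMem_empty P)

theorem Sy.GS_growth {J k : ℕ} (h : S.Good J) {Ω : Type} {A : Finset Ω} {w : Ω → ℝ} {ε C : ℝ}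
    {E0 : Finset ι} {y : τ → ℝ} {y' : Ω → τ → ℝ} (hε : 0 ≤ ε)
    (hg : ∀ P : Finset τ, P.card ≤ k * (2 * J) →
      ∑ ω ∈ A, w ω * ∏ T ∈ P, y' ω T ≤ C * ∏ T ∈ P, y T) :
    ∑ ω ∈ A, w ω * S.GS ε k E0 (y' ω) ≤ C * S.GS ε k E0 y := by
  have e1 : ∑ ω ∈ A, w ω * S.GS ε k E0 (y' ω) =
      (∑ i : τ × τ ⊕ τ × τ ⊕ τ × τ, ∑ ω ∈ A, w ω * GG ε (y' ω) (S.fam3 i) k) +
      ∑ T : τ, ∑ e ∈ E0, ∑ ω ∈ A, w ω * GG ε (y' ω) (S.famB T e) k := by
    unfold Sy.GS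
    simp only [mul_add, Finset.mul_sum, Finset.sum_add_distrib]
    congr 1
    · rw [Finset.sum_comm]
    · rw [Finset.sum_comm]
      refine Finset.sum_congr rfl fun T _ => ?_
      rw [Finset.sum_comm]
  rw [e1]
  unfold Sy.GS
  rw [mul_add, Finset.mul_sum, Finset.mul_sum]
  refine add_le_add (Finset.sum_le_sum fun i _ => ?_) (Finset.sum_le_sum fun T _ => ?_)
  · exact Pool.Agent.F2.growth hε (h.card_fam3 i) hg
  · rw [Finset.mul_sum]
    exact Finset.sum_le_sum fun e _ => Pool.Agent.F2.growth hε (h.card_famB T e) hg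

end

end F2
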