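import Pool.Agent.F2.N.Pot

/-!
# Project F2, block N: the potential decreases in the mean
-/

set_option autoImplicit false
set_option linter.unusedSectionVars false

namespace F2

open Finset
open Pool.Agent.F2 (HH GG)

/-- the parameters of the potential -/
structure NPar where
  l : ℝ
  κ₁ : ℝ
  κ₂ : ℝ
  F₀ : ℝ
  K : ℝ
  A : ℝ
  ε : ℝ
  n : ℝ
  ν : ℝ
  k : ℕ
  m : ℕ

/-- the numerical conditions for one step -/
structure NPar.Ok (π : NPar) (c r : ℝ) : Prop where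
  c_ge : 1 ≤ c
  r_pos : 0 < r
  l_pos : 0 < π.l
  κ₁_pos : 0 < π.κ₁
  κ₂_pos : 0 < π.κ₂
  F₀_ge : 1 ≤ π.F₀
  A_pos : 0 < π.A
  ε_nonneg : 0 ≤ π.ε
  n_pos : 0 < π.n
  k_ne : π.k ≠ 0
  ld : π.l * (2 * c * r) ≤ 1
  w : π.l * (c * r) * c ≤ 7 / 10 * π.κ₁
  o : 2 * c * (π.κ₁ + r) + π.l * (2 * c * r) * (2 * c) ≤ 27 / 10 * π.κ₂
  m_ge : 2 * c ≤ π.m

section

variable {ι τ σ : Type} [Fintype ι] [Fintype τ] [Fintype σ] [DecidableEq ι] [DecidableEq τ]
  (S : Sy ι τ)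

/-- the potential -/
noncomputable def Sy.Ph (π : NPar) (E0 : Finset ι) (Q : σ → Finset ι) (p : ℝ) (M : Finset τ)
    (X x : τ → ℝ) : ℝ :=
  (∑ e ∈ S.al E0 M, Real.exp (π.l * (S.we X e - π.κ₁ / p ^ 3))) * Real.exp (-π.l) +
  (∑ e ∈ S.al E0 M, Real.exp (π.l * (-S.we X e - π.κ₁ / p ^ 3))) * Real.exp π.l +
  (∑ e ∈ S.al E0 M, Real.exp (π.l * (-S.se x e - π.κ₂ / p ^ 3))) * Real.exp (π.l / 8) +
  (∑ e ∈ S.al E0 M, Real.exp (π.l * (S.FF π.ν (S.yh π.ν p E0 M X) e / π.F₀ - π.κ₂ / p ^ 3))) *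
    Real.exp (-π.l) +
  (∑ T ∈ (S.R ∪ S.Vt) \ M,
    Real.exp (π.l * (S.YY M (S.yh π.ν p E0 M X) T - π.κ₂ / p ^ 3))) * Real.exp (-(π.l * π.K)) +
  (∑ j : σ, Real.exp (π.l * (S.DD π.n p E0 M (Q j) - π.κ₂ / p ^ 3))) * Real.exp (-π.l) +
  S.GS π.ε π.k E0 (S.yh π.ν p E0 M X) * (p ^ π.m / π.A)

variable {S} {π : NPar} {L : ℕ} {K β r c p : ℝ} {E0 : Finset ι} {M : Finset τ} {X x : τ → ℝ}

/-- the bound of the barrier increments -/
theorem bar_ge (hB : S.Bas K π.ν p β r c E0 M X) (hp : 0 < p) (hβ : β ≤ 1 / 10) {κ : ℝ}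
    (hκ : 0 ≤ κ) :
    27 / 10 * (κ / p ^ 3) / S.ww X ≤ κ / pn E0 p ^ 3 - κ / p ^ 3 := by
  have hW := hB.W_pos
  set u := 3 / ((S.al E0 M).card : ℝ) with hu
  have h1 := hB.pn_eq
  have h2 := hB.al_lo
  have h3 : 0 < 1 - u := by
    have := hB.pn_pos
    rw [h1] at this
    exact (mul_pos_iff_of_pos_left hp).1 this
  have hu0 : 0 ≤ u := by positivity
  refine le_trans ?_ (bar_step hp hu0 (by linarith) h1 hκ)
  have h4 : 9 / 10 / S.ww X ≤ u := by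
    refine le_trans ?_ h2
    gcongr
    linarith
  have h5 : 0 ≤ κ / p ^ 3 := by positivity
  calc 27 / 10 * (κ / p ^ 3) / S.ww X = 3 * (9 / 10 / S.ww X) * (κ / p ^ 3) := by ring
    _ ≤ 3 * u * (κ / p ^ 3) := by gcongr

/-- the exponential moment of one quantity -/
theorem one_exp (hE : SpExp) {A : Finset τ} {w Δ : τ → ℝ} {μ m d b : ℝ} (hw : ∀ ω ∈ A, 0 ≤ w ω)
    (hw1 : ∑ ω ∈ A, w ω ≤ 1) (hD : Drift A w Δ μ m d) {l : ℝ} (hl : 0 < l) (hld : l * d ≤ 1)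
    (hd : 0 ≤ d) (hb : μ + l * d * m ≤ b) : ∑ ω ∈ A, w ω * Real.exp (l * (Δ ω - b)) ≤ 1 :=
  hE τ A w Δ μ m d l b hw hw1 hD hl hld hd hb

theorem Bas_sum_le (hB : S.Bas K π.ν p β r c E0 M X) (hX : ∀ T, 0 ≤ X T) (q : τ → Prop)
    [DecidablePred q] : ∑ Ts ∈ S.R.filter q, X Ts / S.ww X ≤ 1 := by
  rw [← hB.sumX]
  exact Finset.sum_le_sum_of_subset_of_nonneg (Finset.filter_subset _ _)
    fun T _ _ => div_nonneg (hX T) hB.W_pos.le

theorem filter_al {e : ι} (he : e ∈ S.al E0 M) :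
    (S.R.filter fun Ts => e ∈ S.al E0 (insert Ts M)) = S.R.filter fun Ts => e ∉ S.ed Ts := by
  apply Finset.filter_congr
  intro Ts _
  rw [al_insert, Finset.mem_sdiff]
  exact ⟨fun h => h.2, fun h => ⟨he, h⟩⟩

/-- the mean of the potential after one step -/
theorem Ph_step (hE : SpExp) {J : ℕ} (hG : S.Good J) (hX : ∀ T, 0 ≤ X T)
    (Stp : S.Stp (π.k * (2 * J)) K π.ν p β r c E0 M X x) (hπ : π.Ok c r) (hp : 0 < p) (hp1 : p ≤ 1)
    (hβ : β = π.κ₁ / p ^ 3) (hβ1 : β ≤ 1 / 10) (hn : 1 / (p * π.n) ≤ r) (Q : σ → Finset ι)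
    (hF : ∀ e ∈ S.al E0 M, S.FF π.ν (S.yh π.ν p E0 M X) e ≤ 2 * π.F₀)
    (hD : ∀ j, S.DD π.n p E0 M (Q j) ≤ 2) :
    ∑ Ts ∈ S.R, X Ts / S.ww X *
      S.Ph π E0 Q (pn E0 p) (insert Ts M) (S.nX M X Ts) (S.nx M X x Ts) ≤
      S.Ph π E0 Q p M X x := by
  have hB := Stp.bas
  have hW := hB.W_pos
  have hc := hπ.c_ge
  have hr := hπ.r_pos
  have hl := hπ.l_pos
  have hk1 := hπ.κ₁_pos
  have hk2 := hπ.κ₂_pos
  have hp3 : 1 ≤ 1 / p ^ 3 := by
    rw [le_div_iff₀ (by positivity), one_mul]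
    exact pow_le_one₀ hp.le hp1
  have hβ0 : 0 ≤ β := by
    rw [hβ]
    positivity
  have hwt : ∀ A : Finset τ, ∀ ω ∈ A, 0 ≤ X ω / S.ww X := fun A ω _ => div_nonneg (hX ω) hW.le
  have hld1 : π.l * (c * r) ≤ 1 := by
    have := hπ.ld
    nlinarith [mul_pos hl (mul_pos (by linarith : 0 < c) hr)]
  have hcr : 0 ≤ c * r := by positivity
  -- the two barrier inequalities
  have b1 : 2 * β / S.ww X + π.l * (c * r) * (c / S.ww X) ≤
      π.κ₁ / pn E0 p ^ 3 - π.κ₁ / p ^ 3 := by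
    refine le_trans ?_ (bar_ge hB hp hβ1 hk1.le)
    rw [← hβ, mul_div_assoc', ← add_div]
    gcongr
    have h1 := hπ.w
    have h2 : π.κ₁ ≤ β := by
      rw [hβ, div_eq_mul_one_div]
      nlinarith
    linarith
  have b2 : c * (β + r) / S.ww X * 2 + π.l * (c * r * 2) * (c / S.ww X * 2) ≤
      π.κ₂ / pn E0 p ^ 3 - π.κ₂ / p ^ 3 := by
    refine le_trans ?_ (bar_ge hB hp hβ1 hk2.le)
    have h1 := hπ.o
    have e1 : c * (β + r) / S.ww X * 2 + π.l * (c * r * 2) * (c / S.ww X * 2) =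
        (2 * c * (β + r) + π.l * (2 * c * r) * (2 * c)) / S.ww X := by
      field_simp
    rw [e1]
    gcongr
    have h3 : 2 * c * (β + r) + π.l * (2 * c * r) * (2 * c) ≤
        (2 * c * (π.κ₁ + r) + π.l * (2 * c * r) * (2 * c)) * (1 / p ^ 3) := by
      have h4 : 0 ≤ π.l * (2 * c * r) * (2 * c) := by positivity
      have h5 : 0 ≤ 2 * c * r := by positivity
      have h6 : 2 * c * (π.κ₁ / p ^ 3) = 2 * c * π.κ₁ * (1 / p ^ 3) := by ring
      rw [hβ]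
      nlinarith
    calc _ ≤ _ := h3
      _ ≤ (27 / 10 * π.κ₂) * (1 / p ^ 3) := by gcongr
      _ = 27 / 10 * (π.κ₂ / p ^ 3) := by ring
  have b2' : c * (β + r) / S.ww X + π.l * (c * r) * (c / S.ww X) ≤
      π.κ₂ / pn E0 p ^ 3 - π.κ₂ / p ^ 3 := by
    refine le_trans ?_ b2
    have h1 : 0 ≤ c * (β + r) / S.ww X := by positivity
    have h2 : 0 ≤ π.l * (c * r) * (c / S.ww X) := by positivity
    have h3 : π.l * (c * r * 2) * (c / S.ww X * 2) = 4 * (π.l * (c * r) * (c / S.ww X)) := by ring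
    rw [h3]
    linarith
  have hal : ∀ Ts ∈ S.R, S.al E0 (insert Ts M) ⊆ S.al E0 M := fun Ts _ => by
    rw [al_insert]
    exact Finset.sdiff_subset
  -- the seven parts
  have t1 : ∑ Ts ∈ S.R, X Ts / S.ww X * ∑ e ∈ S.al E0 (insert Ts M),
      Real.exp (π.l * (S.we (S.nX M X Ts) e - π.κ₁ / pn E0 p ^ 3)) ≤
      ∑ e ∈ S.al E0 M, Real.exp (π.l * (S.we X e - π.κ₁ / p ^ 3)) := by
    have h := pot_step S.R (fun Ts => X Ts / S.ww X) (S.al E0 M)
      (fun Ts => S.al E0 (insert Ts M)) hal (fun e => S.we X e)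
      (fun Ts e => S.we (S.nX M X Ts) e) π.l (π.κ₁ / p ^ 3)
      (π.κ₁ / pn E0 p ^ 3 - π.κ₁ / p ^ 3) ?_
    · simpa only [add_sub_cancel] using h
    · intro e he
      rw [filter_al he]
      have hd := Stp.w e he 1 (Or.inl rfl)
      simp only [one_mul] at hd
      exact one_exp hE (hwt _) (Bas_sum_le hB hX _) hd hl hld1 hcr b1
  have t2 : ∑ Ts ∈ S.R, X Ts / S.ww X * ∑ e ∈ S.al E0 (insert Ts M),
      Real.exp (π.l * (-S.we (S.nX M X Ts) e - π.κ₁ / pn E0 p ^ 3)) ≤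
      ∑ e ∈ S.al E0 M, Real.exp (π.l * (-S.we X e - π.κ₁ / p ^ 3)) := by
    have h := pot_step S.R (fun Ts => X Ts / S.ww X) (S.al E0 M)
      (fun Ts => S.al E0 (insert Ts M)) hal (fun e => -S.we X e)
      (fun Ts e => -S.we (S.nX M X Ts) e) π.l (π.κ₁ / p ^ 3)
      (π.κ₁ / pn E0 p ^ 3 - π.κ₁ / p ^ 3) ?_
    · simpa only [add_sub_cancel] using h
    · intro e he
      rw [filter_al he]
      have hd := Stp.w e he (-1) (Or.inr rfl)
      have e1 : ∀ Ts, -1 * (S.we (S.nX M X Ts) e - S.we X e) =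
          -S.we (S.nX M X Ts) e - -S.we X e := fun Ts => by ring
      simp only [e1] at hd
      exact one_exp hE (hwt _) (Bas_sum_le hB hX _) hd hl hld1 hcr b1
  have t3 : ∑ Ts ∈ S.R, X Ts / S.ww X * ∑ e ∈ S.al E0 (insert Ts M),
      Real.exp (π.l * (-S.se (S.nx M X x Ts) e - π.κ₂ / pn E0 p ^ 3)) ≤
      ∑ e ∈ S.al E0 M, Real.exp (π.l * (-S.se x e - π.κ₂ / p ^ 3)) := by
    have h := pot_step S.R (fun Ts => X Ts / S.ww X) (S.al E0 M)
      (fun Ts => S.al E0 (insert Ts M)) hal (fun e => -S.se x e)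
      (fun Ts e => -S.se (S.nx M X x Ts) e) π.l (π.κ₂ / p ^ 3)
      (π.κ₂ / pn E0 p ^ 3 - π.κ₂ / p ^ 3) ?_
    · simpa only [add_sub_cancel] using h
    · intro e he
      rw [filter_al he]
      have hd := Stp.s e he
      have e1 : ∀ Ts, S.se x e - S.se (S.nx M X x Ts) e =
          -S.se (S.nx M X x Ts) e - -S.se x e := fun Ts => by ring
      simp only [e1] at hd
      exact one_exp hE (hwt _) (Bas_sum_le hB hX _) hd hl hld1 hcr b2'
  have hF0 : 0 < π.F₀ := by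
    have := hπ.F₀_ge
    linarith
  have t4 : ∑ Ts ∈ S.R, X Ts / S.ww X * ∑ e ∈ S.al E0 (insert Ts M),
      Real.exp (π.l * (S.FF π.ν (S.yn π.ν p E0 M X Ts) e / π.F₀ - π.κ₂ / pn E0 p ^ 3)) ≤
      ∑ e ∈ S.al E0 M,
        Real.exp (π.l * (S.FF π.ν (S.yh π.ν p E0 M X) e / π.F₀ - π.κ₂ / p ^ 3)) := by
    have h := pot_step S.R (fun Ts => X Ts / S.ww X) (S.al E0 M)
      (fun Ts => S.al E0 (insert Ts M)) hal (fun e => S.FF π.ν (S.yh π.ν p E0 M X) e / π.F₀)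
      (fun Ts e => S.FF π.ν (S.yn π.ν p E0 M X Ts) e / π.F₀) π.l (π.κ₂ / p ^ 3)
      (π.κ₂ / pn E0 p ^ 3 - π.κ₂ / p ^ 3) ?_
    · simpa only [add_sub_cancel] using h
    · intro e he
      rw [filter_al he]
      have hd := Stp.f e he (2 * π.F₀) (by linarith [hπ.F₀_ge]) (hF e he)
      have hd' : Drift (S.R.filter (fun Ts => e ∉ S.ed Ts)) (fun Ts => X Ts / S.ww X)
          (fun Ts => S.FF π.ν (S.yn π.ν p E0 M X Ts) e / π.F₀ -
            S.FF π.ν (S.yh π.ν p E0 M X) e / π.F₀)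
          (c * (β + r) / S.ww X * 2) (c / S.ww X * 2) (c * r * 2) := by
        refine ⟨?_, ?_, ?_⟩
        · have h1 := hd.fst
          have e1 : ∑ Ts ∈ S.R.filter (fun Ts => e ∉ S.ed Ts), X Ts / S.ww X *
              (S.FF π.ν (S.yn π.ν p E0 M X Ts) e / π.F₀ -
                S.FF π.ν (S.yh π.ν p E0 M X) e / π.F₀) =
              (∑ Ts ∈ S.R.filter (fun Ts => e ∉ S.ed Ts), X Ts / S.ww X *
              (S.FF π.ν (S.yn π.ν p E0 M X Ts) e - S.FF π.ν (S.yh π.ν p E0 M X) e)) / π.F₀ := by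
            rw [Finset.sum_div]
            exact Finset.sum_congr rfl fun Ts _ => by ring
          rw [e1, div_le_iff₀ hF0]
          linarith
        · have h1 := hd.mean
          have e1 : ∑ Ts ∈ S.R.filter (fun Ts => e ∉ S.ed Ts), X Ts / S.ww X *
              |S.FF π.ν (S.yn π.ν p E0 M X Ts) e / π.F₀ -
                S.FF π.ν (S.yh π.ν p E0 M X) e / π.F₀| =
              (∑ Ts ∈ S.R.filter (fun Ts => e ∉ S.ed Ts), X Ts / S.ww X *
              |S.FF π.ν (S.yn π.ν p E0 M X Ts) e - S.FF π.ν (S.yh π.ν p E0 M X) e|) / π.F₀ := by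
            rw [Finset.sum_div]
            refine Finset.sum_congr rfl fun Ts _ => ?_
            rw [← sub_div, abs_div, abs_of_pos hF0]
            ring
          rw [e1, div_le_iff₀ hF0]
          linarith
        · intro Ts hTs hw
          have h1 := hd.bd Ts hTs hw
          rw [← sub_div, abs_div, abs_of_pos hF0, div_le_iff₀ hF0]
          linarith
      have hld2 : π.l * (c * r * 2) ≤ 1 := by
        have := hπ.ld
        linarith
      exact one_exp hE (hwt _) (Bas_sum_le hB hX _) hd' hl hld2 (by positivity) b2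
  have t5 : ∑ Ts ∈ S.R, X Ts / S.ww X * ∑ T ∈ (S.R ∪ S.Vt) \ insert Ts M,
      Real.exp (π.l * (S.YY (insert Ts M) (S.yn π.ν p E0 M X Ts) T - π.κ₂ / pn E0 p ^ 3)) ≤
      ∑ T ∈ (S.R ∪ S.Vt) \ M,
        Real.exp (π.l * (S.YY M (S.yh π.ν p E0 M X) T - π.κ₂ / p ^ 3)) := by
    have h := pot_step S.R (fun Ts => X Ts / S.ww X) ((S.R ∪ S.Vt) \ M)
      (fun Ts => (S.R ∪ S.Vt) \ insert Ts M)
      (fun Ts _ => Finset.sdiff_subset_sdiff le_rfl (Finset.subset_insert _ _))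
      (fun T => S.YY M (S.yh π.ν p E0 M X) T)
      (fun Ts T => S.YY (insert Ts M) (S.yn π.ν p E0 M X Ts) T) π.l (π.κ₂ / p ^ 3)
      (π.κ₂ / pn E0 p ^ 3 - π.κ₂ / p ^ 3) ?_
    · simpa only [add_sub_cancel] using h
    · intro T hT
      obtain ⟨hT1, hT2⟩ := Finset.mem_sdiff.1 hT
      have e1 : (S.R.filter fun Ts => T ∈ (S.R ∪ S.Vt) \ insert Ts M) =
          S.R.filter fun Ts => Ts ≠ T := by
        apply Finset.filter_congr
        intro Ts _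
        rw [Finset.mem_sdiff, Finset.mem_insert]
        exact ⟨fun h h2 => h.2 (Or.inl h2.symm), fun h => ⟨hT1, fun h2 => h2.elim
          (fun h3 => h h3.symm) hT2⟩⟩
      rw [e1]
      exact one_exp hE (hwt _) (Bas_sum_le hB hX _) (Stp.y T hT1 hT2) hl hld1 hcr b2'
  have t6 : ∑ Ts ∈ S.R, X Ts / S.ww X * ∑ j : σ,
      Real.exp (π.l * (S.DD π.n (pn E0 p) E0 (insert Ts M) (Q j) - π.κ₂ / pn E0 p ^ 3)) ≤
      ∑ j : σ, Real.exp (π.l * (S.DD π.n p E0 M (Q j) - π.κ₂ / p ^ 3)) := by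
    classical
    have h := pot_step S.R (fun Ts => X Ts / S.ww X) (univ : Finset σ)
      (fun Ts => univ) (fun Ts _ => le_rfl)
      (fun j => S.DD π.n p E0 M (Q j))
      (fun Ts j => S.DD π.n (pn E0 p) E0 (insert Ts M) (Q j)) π.l (π.κ₂ / p ^ 3)
      (π.κ₂ / pn E0 p ^ 3 - π.κ₂ / p ^ 3) ?_
    · simpa only [add_sub_cancel] using h
    · intro j _
      have e1 : (S.R.filter fun Ts => j ∈ (univ : Finset σ)) = S.R := by simp
      rw [e1]
      have hd := Stp.d π.n (Q j) hπ.n_pos hn (hD j)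
      exact one_exp hE (hwt _) (by rw [hB.sumX]) hd hl hld1 hcr b2'
  have t7 : ∑ Ts ∈ S.R, X Ts / S.ww X *
      (S.GS π.ε π.k E0 (S.yn π.ν p E0 M X Ts) * (pn E0 p ^ π.m / π.A)) ≤
      S.GS π.ε π.k E0 (S.yh π.ν p E0 M X) * (p ^ π.m / π.A) := by
    have h1 := S.GS_growth hG (A := S.R) (w := fun Ts => X Ts / S.ww X)
      (y := S.yh π.ν p E0 M X) (y' := fun Ts => S.yn π.ν p E0 M X Ts) (E0 := E0) hπ.ε_nonneg
      Stp.pg
    have h2 := S.GS_nonneg (k := π.k) (E0 := E0) hπ.ε_nonneg hB.yh_nonneg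
    have hA := hπ.A_pos
    have hpn := hB.pn_pos
    have h3 : (1 + c / S.ww X) * pn E0 p ^ π.m ≤ p ^ π.m := by
      rw [hB.pn_eq, mul_pow]
      set u := 3 / ((S.al E0 M).card : ℝ) with hu
      have h4 : 0 < 1 - u := by
        have := hB.pn_pos
        rw [hB.pn_eq] at this
        exact (mul_pos_iff_of_pos_left hp).1 this
      have hu0 : 0 ≤ u := by positivity
      have h5 : 9 / 10 / S.ww X ≤ u := by
        refine le_trans ?_ hB.al_lo
        gcongr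
        linarith
      have h6 := pow_step (m := π.m) hu0 (by linarith) (a := c / S.ww X) (by
        calc c / S.ww X ≤ 2 * c * (9 / 10 / S.ww X) := by
              rw [mul_div_assoc']
              gcongr
              linarith
          _ ≤ π.m * u := by
              have := hπ.m_ge
              gcongr) (by positivity)
      have h7 : 0 < p ^ π.m := by positivity
      calc (1 + c / S.ww X) * (p ^ π.m * (1 - u) ^ π.m) =
            p ^ π.m * ((1 + c / S.ww X) * (1 - u) ^ π.m) := by ring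
        _ ≤ p ^ π.m * 1 := by gcongr
        _ = p ^ π.m := mul_one _
    calc ∑ Ts ∈ S.R, X Ts / S.ww X *
          (S.GS π.ε π.k E0 (S.yn π.ν p E0 M X Ts) * (pn E0 p ^ π.m / π.A)) =
          (∑ Ts ∈ S.R, X Ts / S.ww X * S.GS π.ε π.k E0 (S.yn π.ν p E0 M X Ts)) *
            (pn E0 p ^ π.m / π.A) := by
          rw [Finset.sum_mul]
          exact Finset.sum_congr rfl fun Ts _ => by ring
      _ ≤ ((1 + c / S.ww X) * S.GS π.ε π.k E0 (S.yh π.ν p E0 M X)) * (pn E0 p ^ π.m / π.A) := by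
          gcongr
      _ = S.GS π.ε π.k E0 (S.yh π.ν p E0 M X) * (((1 + c / S.ww X) * pn E0 p ^ π.m) / π.A) := by
          ring
      _ ≤ S.GS π.ε π.k E0 (S.yh π.ν p E0 M X) * (p ^ π.m / π.A) := by gcongr
  have expand : ∑ Ts ∈ S.R, X Ts / S.ww X *
      S.Ph π E0 Q (pn E0 p) (insert Ts M) (S.nX M X Ts) (S.nx M X x Ts) =
      (∑ Ts ∈ S.R, X Ts / S.ww X * ∑ e ∈ S.al E0 (insert Ts M),
        Real.exp (π.l * (S.we (S.nX M X Ts) e - π.κ₁ / pn E0 p ^ 3))) * Real.exp (-π.l) +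
      (∑ Ts ∈ S.R, X Ts / S.ww X * ∑ e ∈ S.al E0 (insert Ts M),
        Real.exp (π.l * (-S.we (S.nX M X Ts) e - π.κ₁ / pn E0 p ^ 3))) * Real.exp π.l +
      (∑ Ts ∈ S.R, X Ts / S.ww X * ∑ e ∈ S.al E0 (insert Ts M),
        Real.exp (π.l * (-S.se (S.nx M X x Ts) e - π.κ₂ / pn E0 p ^ 3))) *
          Real.exp (π.l / 8) +
      (∑ Ts ∈ S.R, X Ts / S.ww X * ∑ e ∈ S.al E0 (insert Ts M),
        Real.exp (π.l * (S.FF π.ν (S.yn π.ν p E0 M X Ts) e / π.F₀ - π.κ₂ / pn E0 p ^ 3))) *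
          Real.exp (-π.l) +
      (∑ Ts ∈ S.R, X Ts / S.ww X * ∑ T ∈ (S.R ∪ S.Vt) \ insert Ts M,
        Real.exp (π.l * (S.YY (insert Ts M) (S.yn π.ν p E0 M X Ts) T -
          π.κ₂ / pn E0 p ^ 3))) * Real.exp (-(π.l * π.K)) +
      (∑ Ts ∈ S.R, X Ts / S.ww X * ∑ j : σ,
        Real.exp (π.l * (S.DD π.n (pn E0 p) E0 (insert Ts M) (Q j) - π.κ₂ / pn E0 p ^ 3))) *
          Real.exp (-π.l) +
      ∑ Ts ∈ S.R, X Ts / S.ww X *
        (S.GS π.ε π.k E0 (S.yn π.ν p E0 M X Ts) * (pn E0 p ^ π.m / π.A)) := by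
    simp only [Finset.sum_mul, ← Finset.sum_add_distrib]
    refine Finset.sum_congr rfl fun Ts _ => ?_
    unfold Sy.Ph Sy.yn
    ring
  rw [expand]
  unfold Sy.Ph
  gcongr

end

end F2
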