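import Pool.Agent.F2.N.Def

/-!
# Project F2, block N (abstract nibble): the statements of the rows

In all rows `w Ts = X Ts / S.ww X` is the probability of `Ts ∈ S.R`, `S.yh ν p E0 M X` are the
densities and `S.yn ν p E0 M X Ts` the densities after `Ts` has been chosen.
-/

set_option autoImplicit false
set_option linter.unusedSectionVars false

namespace F2

open Finset
open Pool.Agent.F2 (HH GG)

/-- N0: the basic facts -/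
def SpBas : Prop :=
  ∀ (J : ℕ) (K C₁ : ℝ), 1 ≤ K → 1 ≤ C₁ → ∃ c₀ : ℝ, 1 ≤ c₀ ∧ ∀ c : ℝ, c₀ ≤ c →
    ∀ (ι τ : Type) [Fintype ι] [Fintype τ] [DecidableEq ι] [DecidableEq τ] (S : Sy ι τ)
      (ν p β r : ℝ) (E0 : Finset ι) (M : Finset τ) (X x : τ → ℝ),
      S.Loc J K C₁ ν p β r E0 M X x → c ≤ r * S.ww X → S.Bas K ν p β r c E0 M X

/-- N1: one step of an exponential moment -/
def SpExp : Prop :=
  ∀ (Ω : Type) (A : Finset Ω) (w Δ : Ω → ℝ) (μ m d l b : ℝ), (∀ ω ∈ A, 0 ≤ w ω) →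
    ∑ ω ∈ A, w ω ≤ 1 → Drift A w Δ μ m d → 0 < l → l * d ≤ 1 → 0 ≤ d → μ + l * d * m ≤ b →
    ∑ ω ∈ A, w ω * Real.exp (l * (Δ ω - b)) ≤ 1

/-- N2: overlaps of the kill sets -/
def SpOv : Prop :=
  ∀ (J : ℕ) (K C₁ : ℝ), 1 ≤ K → 1 ≤ C₁ → ∃ c : ℝ, 1 ≤ c ∧
    ∀ (ι τ : Type) [Fintype ι] [Fintype τ] [DecidableEq ι] [DecidableEq τ] (S : Sy ι τ)
      (ν p β r : ℝ) (E0 : Finset ι) (M : Finset τ) (X x : τ → ℝ),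
      S.Loc J K C₁ ν p β r E0 M X x → c ≤ r * S.ww X →
      ∀ T ∈ S.R ∪ S.Vt, ∀ T' ∈ S.R ∪ S.Vt, T ≠ T' → T ∉ M → T' ∉ M →
        Disjoint (S.ed T) (S.ed T') →
        ∑ Ts ∈ S.kk M T ∩ S.kk M T', X Ts ≤ c * r

/-- N3: products of densities, growth -/
def SpPg : Prop :=
  ∀ (J L : ℕ) (K C₁ : ℝ), 1 ≤ K → 1 ≤ C₁ → ∃ c : ℝ, 1 ≤ c ∧
    ∀ (ι τ : Type) [Fintype ι] [Fintype τ] [DecidableEq ι] [DecidableEq τ] (S : Sy ι τ)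
      (ν p β r : ℝ) (E0 : Finset ι) (M : Finset τ) (X x : τ → ℝ),
      S.Loc J K C₁ ν p β r E0 M X x → c ≤ r * S.ww X →
      ∀ P : Finset τ, P.card ≤ L →
        ∑ Ts ∈ S.R, X Ts / S.ww X * ∏ T ∈ P, S.yn ν p E0 M X Ts T ≤
          (1 + c / S.ww X) * ∏ T ∈ P, S.yh ν p E0 M X T

/-- N4: products of densities, sharp form for parts of configurations -/
def SpPs : Prop :=
  ∀ (J : ℕ) (K C₁ : ℝ), 1 ≤ K → 1 ≤ C₁ → ∃ c : ℝ, 1 ≤ c ∧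
    ∀ (ι τ : Type) [Fintype ι] [Fintype τ] [DecidableEq ι] [DecidableEq τ] (S : Sy ι τ)
      (ν p β r : ℝ) (E0 : Finset ι) (M : Finset τ) (X x : τ → ℝ),
      S.Loc J K C₁ ν p β r E0 M X x → c ≤ r * S.ww X →
      ∀ U ∈ S.conf, ∀ P ⊆ U,
        ∑ Ts ∈ S.R, X Ts / S.ww X * ∏ T ∈ P, S.yn ν p E0 M X Ts T ≤
          (1 + c * (β + r) / S.ww X) * ∏ T ∈ P, S.yh ν p E0 M X T

/-- N5: products of densities, mean absolute variation -/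
def SpPv : Prop :=
  ∀ (J : ℕ) (K C₁ : ℝ), 1 ≤ K → 1 ≤ C₁ → ∃ c : ℝ, 1 ≤ c ∧
    ∀ (ι τ : Type) [Fintype ι] [Fintype τ] [DecidableEq ι] [DecidableEq τ] (S : Sy ι τ)
      (ν p β r : ℝ) (E0 : Finset ι) (M : Finset τ) (X x : τ → ℝ),
      S.Loc J K C₁ ν p β r E0 M X x → c ≤ r * S.ww X →
      ∀ P : Finset τ, P.card ≤ J →
        ∑ Ts ∈ S.R, X Ts / S.ww X *
          |∏ T ∈ P, S.yn ν p E0 M X Ts T - ∏ T ∈ P, S.yh ν p E0 M X T| ≤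
          c / S.ww X * ∏ T ∈ P, S.yh ν p E0 M X T

/-- N6: the real weight through an uncovered element -/
def SpW : Prop :=
  ∀ (J : ℕ) (K C₁ : ℝ), 1 ≤ K → 1 ≤ C₁ → ∃ c : ℝ, 1 ≤ c ∧
    ∀ (ι τ : Type) [Fintype ι] [Fintype τ] [DecidableEq ι] [DecidableEq τ] (S : Sy ι τ)
      (ν p β r : ℝ) (E0 : Finset ι) (M : Finset τ) (X x : τ → ℝ),
      S.Loc J K C₁ ν p β r E0 M X x → c ≤ r * S.ww X →
      ∀ e ∈ S.al E0 M, ∀ s : ℝ, (s = 1 ∨ s = -1) →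
        Drift (S.R.filter (fun Ts => e ∉ S.ed Ts)) (fun Ts => X Ts / S.ww X)
          (fun Ts => s * (S.we (S.nX M X Ts) e - S.we X e))
          (2 * β / S.ww X) (c / S.ww X) (c * r)

/-- N7: the virtual weight through an uncovered element (lower bound) -/
def SpS : Prop :=
  ∀ (J : ℕ) (K C₁ : ℝ), 1 ≤ K → 1 ≤ C₁ → ∃ c : ℝ, 1 ≤ c ∧
    ∀ (ι τ : Type) [Fintype ι] [Fintype τ] [DecidableEq ι] [DecidableEq τ] (S : Sy ι τ)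
      (ν p β r : ℝ) (E0 : Finset ι) (M : Finset τ) (X x : τ → ℝ),
      S.Loc J K C₁ ν p β r E0 M X x → c ≤ r * S.ww X →
      ∀ e ∈ S.al E0 M,
        Drift (S.R.filter (fun Ts => e ∉ S.ed Ts)) (fun Ts => X Ts / S.ww X)
          (fun Ts => S.se x e - S.se (S.nx M X x Ts) e)
          (c * r / S.ww X) (c / S.ww X) (c * r)

/-- N8: `YY`, mean values -/
def SpY1 : Prop :=
  ∀ (J : ℕ) (K C₁ : ℝ), 1 ≤ K → 1 ≤ C₁ → ∃ c : ℝ, 1 ≤ c ∧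
    ∀ (ι τ : Type) [Fintype ι] [Fintype τ] [DecidableEq ι] [DecidableEq τ] (S : Sy ι τ)
      (ν p β r : ℝ) (E0 : Finset ι) (M : Finset τ) (X x : τ → ℝ),
      S.Loc J K C₁ ν p β r E0 M X x → c ≤ r * S.ww X →
      ∀ T ∈ S.R ∪ S.Vt, T ∉ M →
        ∑ Ts ∈ S.R.filter (fun Ts => Ts ≠ T), X Ts / S.ww X *
          (S.YY (insert Ts M) (S.yn ν p E0 M X Ts) T - S.YY M (S.yh ν p E0 M X) T) ≤
          c * (β + r) / S.ww X ∧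
        ∑ Ts ∈ S.R.filter (fun Ts => Ts ≠ T), X Ts / S.ww X *
          |S.YY (insert Ts M) (S.yn ν p E0 M X Ts) T - S.YY M (S.yh ν p E0 M X) T| ≤
          c / S.ww X

/-- N9: `YY`, increments -/
def SpY2 : Prop :=
  ∀ (J : ℕ) (K C₁ : ℝ), 1 ≤ K → 1 ≤ C₁ → ∃ c : ℝ, 1 ≤ c ∧
    ∀ (ι τ : Type) [Fintype ι] [Fintype τ] [DecidableEq ι] [DecidableEq τ] (S : Sy ι τ)
      (ν p β r : ℝ) (E0 : Finset ι) (M : Finset τ) (X x : τ → ℝ),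
      S.Loc J K C₁ ν p β r E0 M X x → c ≤ r * S.ww X →
      ∀ T ∈ S.R ∪ S.Vt, T ∉ M → ∀ Ts, Ts ≠ T → X Ts ≠ 0 →
        |S.YY (insert Ts M) (S.yn ν p E0 M X Ts) T - S.YY M (S.yh ν p E0 M X) T| ≤ c * r

/-- N10: `FF`, mean values -/
def SpF1 : Prop :=
  ∀ (J : ℕ) (K C₁ : ℝ), 1 ≤ K → 1 ≤ C₁ → ∃ c : ℝ, 1 ≤ c ∧
    ∀ (ι τ : Type) [Fintype ι] [Fintype τ] [DecidableEq ι] [DecidableEq τ] (S : Sy ι τ)
      (ν p β r : ℝ) (E0 : Finset ι) (M : Finset τ) (X x : τ → ℝ),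
      S.Loc J K C₁ ν p β r E0 M X x → c ≤ r * S.ww X →
      ∀ e ∈ S.al E0 M, ∀ F : ℝ, 1 ≤ F → S.FF ν (S.yh ν p E0 M X) e ≤ F →
        ∑ Ts ∈ S.R.filter (fun Ts => e ∉ S.ed Ts), X Ts / S.ww X *
          (S.FF ν (S.yn ν p E0 M X Ts) e - S.FF ν (S.yh ν p E0 M X) e) ≤
          c * (β + r) / S.ww X * F ∧
        ∑ Ts ∈ S.R.filter (fun Ts => e ∉ S.ed Ts), X Ts / S.ww X *
          |S.FF ν (S.yn ν p E0 M X Ts) e - S.FF ν (S.yh ν p E0 M X) e| ≤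
          c / S.ww X * F

/-- N11: `FF`, increments -/
def SpF2 : Prop :=
  ∀ (J : ℕ) (K C₁ : ℝ), 1 ≤ K → 1 ≤ C₁ → ∃ c : ℝ, 1 ≤ c ∧
    ∀ (ι τ : Type) [Fintype ι] [Fintype τ] [DecidableEq ι] [DecidableEq τ] (S : Sy ι τ)
      (ν p β r : ℝ) (E0 : Finset ι) (M : Finset τ) (X x : τ → ℝ),
      S.Loc J K C₁ ν p β r E0 M X x → c ≤ r * S.ww X →
      ∀ e ∈ S.al E0 M, ∀ F : ℝ, 1 ≤ F → S.FF ν (S.yh ν p E0 M X) e ≤ F →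
        ∀ Ts, e ∉ S.ed Ts → X Ts ≠ 0 →
          |S.FF ν (S.yn ν p E0 M X Ts) e - S.FF ν (S.yh ν p E0 M X) e| ≤ c * r * F

/-- N12: the test sets -/
def SpD : Prop :=
  ∀ (J : ℕ) (K C₁ : ℝ), 1 ≤ K → 1 ≤ C₁ → ∃ c : ℝ, 1 ≤ c ∧
    ∀ (ι τ : Type) [Fintype ι] [Fintype τ] [DecidableEq ι] [DecidableEq τ] (S : Sy ι τ)
      (ν p β r : ℝ) (E0 : Finset ι) (M : Finset τ) (X x : τ → ℝ),
      S.Loc J K C₁ ν p β r E0 M X x → c ≤ r * S.ww X →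
      ∀ (n : ℝ) (Q : Finset ι), 0 < n → 1 / (p * n) ≤ r → S.DD n p E0 M Q ≤ 2 →
        Drift S.R (fun Ts => X Ts / S.ww X)
          (fun Ts => S.DD n (pn E0 p) E0 (insert Ts M) Q - S.DD n p E0 M Q)
          (c * (β + r) / S.ww X) (c / S.ww X) (c * r)

/-- N13: growth of the weights in one step -/
def SpX : Prop :=
  ∀ (J : ℕ) (K C₁ : ℝ), 1 ≤ K → 1 ≤ C₁ → ∃ c : ℝ, 1 ≤ c ∧
    ∀ (ι τ : Type) [Fintype ι] [Fintype τ] [DecidableEq ι] [DecidableEq τ] (S : Sy ι τ)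
      (ν p β r : ℝ) (E0 : Finset ι) (M : Finset τ) (X x : τ → ℝ),
      S.Loc J K C₁ ν p β r E0 M X x → c ≤ r * S.ww X →
      ∀ Ts, X Ts ≠ 0 → ∀ T,
        S.nX M X Ts T ≤ X T * (1 + (3 + p * K) / S.ww X) ∧
        S.nx M X x Ts T ≤ x T * (1 + 2 * (p * K) / S.ww X)

/-- N14: the structural invariants are preserved -/
def SpI : Prop :=
  ∀ (J : ℕ) (K C₁ : ℝ), 1 ≤ K → 1 ≤ C₁ → ∃ c : ℝ, 1 ≤ c ∧
    ∀ (ι τ : Type) [Fintype ι] [Fintype τ] [DecidableEq ι] [DecidableEq τ] (S : Sy ι τ)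
      (ν p β r : ℝ) (E0 : Finset ι) (M : Finset τ) (X x : τ → ℝ),
      S.Loc J K C₁ ν p β r E0 M X x → c ≤ r * S.ww X →
      ∀ Ts, X Ts ≠ 0 → S.Inv E0 (pn E0 p) (insert Ts M) (S.nX M X Ts) (S.nx M X x Ts)

/-- N15: the crude bounds from the moments -/
def SpCr : Prop :=
  ∀ (ι τ : Type) [Fintype ι] [Fintype τ] [DecidableEq ι] [DecidableEq τ] (S : Sy ι τ)
    (J k : ℕ) (ε r : ℝ) (E0 : Finset ι) (M : Finset τ) (y : τ → ℝ), S.Good J → k ≠ 0 →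
    0 ≤ ε → 0 ≤ r → (∀ T, 0 ≤ y T) → (∀ T, y T ≤ 1) → (∀ T, T ∉ M → y T ≤ ε) → M ⊆ S.R →
    (∀ T T', T ≠ T' → GG ε y (S.fA T T') k ≤ r ^ k) →
    (∀ T T', T ≠ T' → GG ε y (S.fA' T T') k ≤ r ^ k) →
    (∀ T ∈ S.R ∪ S.Vt, ∀ e ∈ E0, e ∉ S.ed T → GG ε y (S.fB T e) k ≤ r ^ k) →
    (∀ T ∈ S.R ∪ S.Vt, ∀ T' ∈ S.R ∪ S.Vt, T ≠ T' → GG ε y (S.fE T T') k ≤ r ^ k) →
    (∀ T T', T ≠ T' → T' ∉ M → ∑ P ∈ S.fA T T', ∏ T'' ∈ P, y T'' ≤ r) ∧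
    (∀ T T', T ≠ T' → ∑ P ∈ (S.fA' T T').filter (fun P => ¬ P ⊆ M), ∏ T'' ∈ P, y T'' ≤ r) ∧
    (∀ T ∈ S.R ∪ S.Vt, ∀ e ∈ S.al E0 M, e ∉ S.ed T →
      ∑ P ∈ S.fB T e, ∏ T'' ∈ P, y T'' ≤ r) ∧
    (∀ T ∈ S.R ∪ S.Vt, ∀ T' ∈ S.R ∪ S.Vt, T ≠ T' →
      ∑ P ∈ (S.fE T T').filter (fun P => ¬ P ⊆ M), ∏ T'' ∈ P, y T'' ≤ r)

/-- N16: the conclusion, from the final state -/
def SpOut : Prop :=
  ∀ (ι τ σ : Type) [Fintype ι] [Fintype τ] [Fintype σ] [DecidableEq ι] [DecidableEq τ]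
    (S : Sy ι τ) (J : ℕ) (C ω n ν p F : ℝ) (E0 : Finset ι) (Q : σ → Finset ι) (M : Finset τ)
    (X x : τ → ℝ), S.Good J → S.Inv E0 p M X x → 0 < ν → 0 < p → p ≤ 1 → 0 < n →
    (∀ j, Q j ⊆ E0) → (∀ T, x T ≤ C * ν) → (∀ e ∈ S.al E0 M, 1 / 16 ≤ S.se x e) →
    (∀ e ∈ S.al E0 M, S.FF ν (S.yh ν p E0 M X) e ≤ F) → (∀ j, S.DD n p E0 M (Q j) ≤ 2) →
    2 * (p * n) ≤ n ^ (1 - ω / 2) → p * F ≤ n ^ (-(ω / 2)) →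
    S.Out C ω n ν E0 Q M x

end F2
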